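import Pool.Agent.LibKS.Defs

set_option autoImplicit false

namespace LibKS

variable {p : ℕ} (F : GoodClass p)

theorem GoodClass.of_equiv {G H : Type} [Group G] [Group H] (e : G ≃* H) (h : F.mem H) :
    F.mem G := F.of_injective e.toMonoidHom e.injective h

/-- Extension by means of a surjective homomorphism. -/
theorem GoodClass.of_ker {G H : Type} [Group G] [Group H] (f : G →* H)
    (h : F.mem f.ker) (h' : F.mem H) : F.mem G :=
  F.of_ext f.ker h (F.of_injective (QuotientGroup.kerLift f) (QuotientGroup.kerLift_injective f) h')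

theorem GoodClass.of_le {G : Type} [Group G] {A B : Subgroup G} (h : A ≤ B) (hB : F.mem B) :
    F.mem A :=
  F.of_injective (Subgroup.inclusion h) (Subgroup.inclusion_injective h) hB

theorem GoodClass.of_subsingleton {G : Type} [Group G] [Subsingleton G] : F.mem G :=
  F.of_pgroup (fun _ => ⟨0, Subsingleton.elim _ _⟩)

theorem GoodClass.map {G H : Type} [Group G] [Group H] (f : G →* H) {A : Subgroup G}
    (hA : F.mem A) : F.mem (A.map f) :=
  F.of_surjective (f.subgroupMap A) (f.subgroupMap_surjective A) hA

theorem GoodClass.prod {G H : Type} [Group G] [Group H] (hG : F.mem G) (hH : F.mem H) :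
    F.mem (G × H) := by
  refine F.of_ker (MonoidHom.snd G H) ?_ hH
  refine F.of_injective ((MonoidHom.fst G H).comp (MonoidHom.snd G H).ker.subtype) ?_ hG
  rintro ⟨⟨a, b⟩, hb⟩ ⟨⟨c, d⟩, hd⟩ h
  have hb' : b = 1 := hb
  have hd' : d = 1 := hd
  have h' : a = c := h
  subst hb' hd' h'
  rfl

theorem GoodClass.pi {ι : Type} [Finite ι] {G : ι → Type} [∀ i, Group (G i)]
    (hG : ∀ i, F.mem (G i)) : F.mem (∀ i, G i) := by
  revert G
  refine Finite.induction_empty_option
    (P := fun ι : Type => ∀ {G : ι → Type} [∀ i, Group (G i)],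
      (∀ i, F.mem (G i)) → F.mem (∀ i, G i)) ?_ ?_ ?_ ι
  · intro α β e ih G _ hG
    have h1 := ih (G := fun a => G (e a)) (fun a => hG (e a))
    refine F.of_injective (H := ∀ a, G (e a))
      { toFun := fun x a => x (e a), map_one' := rfl, map_mul' := fun _ _ => rfl } ?_ h1
    intro x y hxy
    funext b
    obtain ⟨a, rfl⟩ := e.surjective b
    exact congrFun hxy a
  · intro G _ hG
    exact F.of_subsingleton
  · intro α _ ih G _ hG
    have h1 := F.prod (hG none) (ih (G := fun a => G (some a)) (fun a => hG (some a)))
    refine F.of_injective (H := G none × (∀ a, G (some a)))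
      { toFun := fun x => (x none, fun a => x (some a)), map_one' := rfl,
        map_mul' := fun _ _ => rfl } ?_ h1
    intro x y hxy
    funext b
    have h2 : x none = y none := congrArg Prod.fst hxy
    have h3 : (fun a => x (some a)) = fun a => y (some a) := congrArg Prod.snd hxy
    cases b with
    | none => exact h2
    | some a => exact congrFun h3 a

theorem GoodClass.sup {G : Type} [Group G] {A B : Subgroup G} [A.Normal]
    (hA : F.mem A) (hB : F.mem B) : F.mem (A ⊔ B : Subgroup G) := by
  let f : (A ⊔ B : Subgroup G) →* G ⧸ A := (QuotientGroup.mk' A).comp (A ⊔ B).subtype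
  have h1 : f.range = B.map (QuotientGroup.mk' A) := by
    have h2 : f.range = (A ⊔ B).map (QuotientGroup.mk' A) := by
      rw [MonoidHom.range_eq_map, ← Subgroup.map_map, ← MonoidHom.range_eq_map,
        Subgroup.range_subtype]
    rw [h2, Subgroup.map_sup, (Subgroup.map_eq_bot_iff A).2 (le_of_eq (QuotientGroup.ker_mk' A).symm),
      bot_sup_eq]
  have h3 : F.mem f.range := by
    rw [h1]
    exact F.map _ hB
  refine F.of_ker f.rangeRestrict ?_ h3
  refine F.of_injective (H := A)
    { toFun := fun x => ⟨(x.1 : G), ?_⟩, map_one' := rfl, map_mul' := fun _ _ => rfl } ?_ hA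
  · have h4 : f.rangeRestrict x.1 = 1 := x.2
    have h5 : f x.1 = 1 := congrArg Subtype.val h4
    exact (QuotientGroup.eq_one_iff _).1 h5
  · intro x y hxy
    have h := Subtype.ext_iff.1 hxy
    exact Subtype.ext (Subtype.ext h)

/-- An abelian simple group is in every class. -/
theorem GoodClass.of_simple_comm [Fact p.Prime] {G : Type} [Group G] (hs : IsSimpleGroup G)
    (hc : ∀ a b : G, Commute a b) : F.mem G := by
  have hp : p.Prime := Fact.out
  let _ : CommGroup G := { ‹Group G› with mul_comm := fun a b => (hc a b).eq }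
  have hq : (Nat.card G).Prime := CommGroup.is_simple_iff_prime_card.1 hs
  have : Finite G := Nat.finite_of_card_ne_zero hq.ne_zero
  by_cases hpq : p = Nat.card G
  · apply F.of_pgroup
    apply IsPGroup.of_card (n := 1)
    rw [pow_one, hpq]
  · exact F.of_coprime ((Nat.coprime_primes hp hq).2 hpq)

/-- The radical: the subgroup generated by all normal subgroups in the class. -/
def rad (G : Type) [Group G] : Subgroup G := sSup {N : Subgroup G | N.Normal ∧ F.mem N}

theorem le_rad {G : Type} [Group G] {N : Subgroup G} (hN : N.Normal) (h : F.mem N) :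
    N ≤ rad F G := le_sSup ⟨hN, h⟩

instance rad_normal (G : Type) [Group G] : (rad F G).Normal :=
  Subgroup.sSup_normal _ (fun _ h => h.1)

theorem rad_mem (G : Type) [Group G] [Finite G] : F.mem (rad F G) := by
  have hfin : {N : Subgroup G | N.Normal ∧ F.mem N}.Finite := Set.toFinite _
  have hne : {N : Subgroup G | N.Normal ∧ F.mem N}.Nonempty :=
    ⟨⊥, Subgroup.normal_bot, F.of_subsingleton⟩
  obtain ⟨M, hM⟩ := hfin.exists_maximal hne
  have h1 : rad F G = M := by
    apply le_antisymm
    · refine sSup_le fun N hN => ?_
      have := hM.prop.1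
      have := hN.1
      have h2 : M ⊔ N ∈ {N : Subgroup G | N.Normal ∧ F.mem N} :=
        ⟨inferInstance, F.sup hM.prop.2 hN.2⟩
      exact le_sup_right.trans (hM.le_of_ge h2 le_sup_left)
    · exact le_sSup hM.prop
  rw [h1]
  exact hM.prop.2

theorem map_rad_le {G H : Type} [Group G] [Group H] (f : G →* H)
    (hf : Function.Surjective f) : (rad F G).map f ≤ rad F H := by
  rw [rad, sSup_eq_iSup', Subgroup.map_iSup]
  refine iSup_le fun N => ?_
  exact le_rad F (N.2.1.map f hf) (F.map f N.2.2)

theorem rad_characteristic (G : Type) [Group G] : (rad F G).Characteristic :=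
  Subgroup.characteristic_iff_map_le.2 (fun ϕ => map_rad_le F ϕ.toMonoidHom ϕ.surjective)

/-- A normal subgroup in the class, of a normal subgroup, generates nothing outside the
radical. -/
theorem map_rad_subtype_le {G : Type} [Group G] [Finite G] {N : Subgroup G} (hN : N.Normal) :
    (rad F N).map N.subtype ≤ rad F G := by
  have := rad_characteristic F N
  exact le_rad F inferInstance (F.map _ (rad_mem F N))

/-- If the kernel of a surjective homomorphism is the radical, the image has trivial radical. -/
theorem rad_eq_bot_of_ker {G H : Type} [Group G] [Finite G] [Group H] (f : G →* H)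
    (hf : Function.Surjective f) (hk : f.ker = rad F G) : rad F H = ⊥ := by
  have : Finite H := Finite.of_surjective f hf
  have h1 : F.mem ((rad F H).comap f) := by
    refine F.of_ker ((f.comp ((rad F H).comap f).subtype).codRestrict (rad F H) (fun x => x.2))
      ?_ (rad_mem F H)
    have h2 : F.mem f.ker := by
      rw [hk]
      exact rad_mem F G
    refine F.of_injective (H := f.ker)
      { toFun := fun x => ⟨(x.1 : G), ?_⟩, map_one' := rfl, map_mul' := fun _ _ => rfl } ?_ h2
    · exact congrArg Subtype.val (MonoidHom.mem_ker.1 x.2)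
    · intro x y hxy
      have h := Subtype.ext_iff.1 hxy
      exact Subtype.ext (Subtype.ext h)
  have h3 : (rad F H).comap f ≤ f.ker := by
    rw [hk]
    exact le_rad F inferInstance h1
  rw [eq_bot_iff]
  intro x hx
  obtain ⟨y, rfl⟩ := hf x
  exact h3 hx

theorem eq_bot_of_rad {G : Type} [Group G] (hr : rad F G = ⊥) {N : Subgroup G}
    (hN : N.Normal) (h : F.mem N) : N = ⊥ := by
  rw [eq_bot_iff, ← hr]
  exact le_rad F hN h

/-- The radical of a normal subgroup of a group with trivial radical is trivial. -/
theorem rad_subgroup_eq_bot {G : Type} [Group G] [Finite G] (hr : rad F G = ⊥)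
    {N : Subgroup G} (hN : N.Normal) : rad F N = ⊥ := by
  have h1 := map_rad_subtype_le F hN
  rw [hr, le_bot_iff] at h1
  exact (Subgroup.map_eq_bot_iff_of_injective _ N.subtype_injective).1 h1

end LibKS
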