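import Pool.Agent.LibKS.A7

set_option autoImplicit false

namespace LibKS

variable {p : ℕ} {F : GoodClass p}

/-- The hypothesis on `E / N` passes to images. -/
private theorem A10_transfer {U U' : Type} [Group U] [Group U'] (f : U →* U')
    (N E : Subgroup U) [N.Normal] [(N.map f).Normal]
    (hE : F.mem (E.map (QuotientGroup.mk' N))) :
    F.mem ((E.map f).map (QuotientGroup.mk' (N.map f))) := by
  have hle : N ≤ ((QuotientGroup.mk' (N.map f)).comp f).ker := by
    intro x hx
    rw [MonoidHom.mem_ker, MonoidHom.comp_apply, QuotientGroup.mk'_apply,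
      QuotientGroup.eq_one_iff]
    exact Subgroup.mem_map_of_mem f hx
  let φ : U ⧸ N →* U' ⧸ N.map f :=
    QuotientGroup.lift N ((QuotientGroup.mk' (N.map f)).comp f) hle
  have h1 : (E.map (QuotientGroup.mk' N)).map φ
      = (E.map f).map (QuotientGroup.mk' (N.map f)) := by
    rw [Subgroup.map_map, Subgroup.map_map]
    congr 1
  rw [← h1]
  exact F.map φ hE

/-- A supplement surjects onto the quotient. -/
private theorem A10_surj {U : Type} [Group U] {E V : Subgroup U} [E.Normal] (hVE : V ⊔ E = ⊤) :
    Function.Surjective ((QuotientGroup.mk' E).comp V.subtype) := by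
  intro q
  obtain ⟨u, rfl⟩ := QuotientGroup.mk'_surjective E q
  have hu : u ∈ V ⊔ E := hVE ▸ Subgroup.mem_top u
  obtain ⟨v, hv, e, he, rfl⟩ := Subgroup.mem_sup_of_normal_right.1 hu
  refine ⟨⟨v, hv⟩, ?_⟩
  rw [MonoidHom.comp_apply, QuotientGroup.mk'_apply, QuotientGroup.mk'_apply,
    QuotientGroup.eq]
  simpa using he

/-- The first quotient. -/
private theorem A10_first [Fact p.Prime] {m : ℕ} {U : Type} [Group U]
    {N E V : Subgroup U} [N.Normal] [E.Normal] (hNE : N ≤ E)
    (hE : F.mem (E.map (QuotientGroup.mk' N))) (hVE : V ⊔ E = ⊤)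
    (h : PL F m V) : PL F m (U ⧸ N) := by
  have h1 : PL F m (U ⧸ E) := PL.of_surjective _ (A10_surj hVE) h
  let φ : U ⧸ N →* U ⧸ E := QuotientGroup.map N E (MonoidHom.id U) hNE
  have hφ : Function.Surjective φ := by
    intro q
    obtain ⟨u, rfl⟩ := QuotientGroup.mk'_surjective E q
    exact ⟨QuotientGroup.mk' N u, rfl⟩
  have hk : φ.ker ≤ E.map (QuotientGroup.mk' N) := by
    intro q hq
    obtain ⟨u, rfl⟩ := QuotientGroup.mk'_surjective N q
    refine ⟨u, ?_, rfl⟩
    have h2 : (QuotientGroup.mk' E) u = 1 := hq
    rwa [QuotientGroup.mk'_apply, QuotientGroup.eq_one_iff] at h2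
  exact PL.of_ker φ hφ (F.of_le hk hE) h1

/-- A layered normal subgroup with trivial centralizer. -/
private theorem A10_rad [Fact p.Prime] {X : Type} [Group X] [Finite X] {S : Subgroup X}
    (hSn : S.Normal) (hS : Layered F S) (hc : Subgroup.centralizer (S : Set X) = ⊥) :
    rad F X = ⊥ := by
  have h1 : rad F X ⊓ S = ⊥ := by
    have h2 : ((rad F X).subgroupOf S) = ⊥ := by
      apply eq_bot_of_rad F hS.rad_eq_bot
      · exact inferInstance
      · refine F.of_injective ((Subgroup.inclusion (le_refl (rad F X))).comp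
          (((S.subtype).comp ((rad F X).subgroupOf S).subtype).codRestrict (rad F X) ?_)) ?_
          (rad_mem F X)
        · intro x
          exact x.2
        · intro x y hxy
          have := congrArg (Subtype.val) hxy
          exact Subtype.ext (Subtype.ext this)
    rw [eq_bot_iff]
    intro x hx
    have h3 : (⟨x, hx.2⟩ : S) ∈ (rad F X).subgroupOf S := hx.1
    rw [h2, Subgroup.mem_bot] at h3
    rw [Subgroup.mem_bot]
    exact congrArg Subtype.val h3
  rw [eq_bot_iff, ← hc]
  intro x hx
  rw [Subgroup.mem_centralizer_iff]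
  intro s hs
  have h4 : s * x * s⁻¹ * x⁻¹ ∈ rad F X ⊓ S := by
    constructor
    · exact (rad F X).mul_mem ((rad_normal F X).conj_mem x hx s) ((rad F X).inv_mem hx)
    · have : s * (x * s⁻¹ * x⁻¹) ∈ S := S.mul_mem hs (hSn.conj_mem _ (S.inv_mem hs) x)
      simpa [mul_assoc] using this
  rw [h1, Subgroup.mem_bot] at h4
  have h5 : s * x = x * s := by
    calc s * x = (s * x * s⁻¹ * x⁻¹) * (x * s) := by group
      _ = x * s := by rw [h4, one_mul]
  exact h5

private theorem A10_layer [Fact p.Prime] {X : Type} [Group X] [Finite X] {S : Subgroup X}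
    (hSn : S.Normal) (hc : Subgroup.centralizer (S : Set X) = ⊥) :
    layer F X ≤ S := by
  refine sSup_le fun T hT => ?_
  have hT : IsComp F T := hT
  rcases hT.le_or_commute hSn with h | h
  · exact h
  · exfalso
    apply hT.ne_bot
    rw [eq_bot_iff, ← hc]
    intro t ht
    rw [Subgroup.mem_centralizer_iff]
    intro s hs
    exact (h t ht s hs).eq.symm

/-- The successor step when the radical of `N` is trivial. -/
private theorem A10_step [Fact p.Prime] {m : ℕ}
    (ih : ∀ {U : Type} [Group U] [Finite U] {N E V : Subgroup U} [N.Normal] [E.Normal],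
      N ≤ E → F.mem (E.map (QuotientGroup.mk' N)) → N ≤ V → V ⊔ E = ⊤ →
      PL F m V → PL F m U)
    {U : Type} [Group U] [Finite U] {N E V : Subgroup U} [hN : N.Normal] [hEn : E.Normal]
    (hNE : N ≤ E) (hE : F.mem (E.map (QuotientGroup.mk' N))) (hNV : N ≤ V) (hVE : V ⊔ E = ⊤)
    (h : PL F (m + 1) V) (hr : rad F N = ⊥) : PL F (m + 1) U := by
  have hchar : (layer F N).Characteristic :=
    Subgroup.characteristic_iff_map_le.2 fun φ => map_layer_equiv_le F φ
  let S : Subgroup U := (layer F N).map N.subtype
  have hSN : S ≤ N := Subgroup.map_subtype_le _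
  have hSn : S.Normal := inferInstance
  let C : Subgroup U := Subgroup.centralizer (S : Set U)
  have hCn : C.Normal := inferInstance
  have hNC : N ⊓ C = ⊥ := by
    rw [eq_bot_iff]
    rintro x ⟨hxN, hxC⟩
    have h1 : (⟨x, hxN⟩ : N) ∈ Subgroup.centralizer (layer F N : Set N) := by
      rw [Subgroup.mem_centralizer_iff]
      intro s hs
      have h2 := Subgroup.mem_centralizer_iff.1 hxC (s : U) ⟨s, hs, rfl⟩
      exact Subtype.ext h2
    rw [centralizer_layer F hr, Subgroup.mem_bot] at h1
    rw [Subgroup.mem_bot]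
    exact congrArg Subtype.val h1
  let q : U →* U ⧸ C := QuotientGroup.mk' C
  have hq : Function.Surjective q := QuotientGroup.mk'_surjective C
  let L : Subgroup (U ⧸ C) := (layer F N).map (q.comp N.subtype)
  have hLS : L = S.map q := (Subgroup.map_map _ _ _).symm
  have hLn : L.Normal := by
    rw [hLS]
    exact Subgroup.Normal.map hSn q hq
  have hL : Layered F L := (layered_layer (F := F) N).of_surjective
    (MonoidHom.subgroupMap (q.comp N.subtype) (layer F N))
    (MonoidHom.subgroupMap_surjective _ _)
  -- the centralizer of the layer in the quotient is trivial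
  have hcL : Subgroup.centralizer (L : Set (U ⧸ C)) = ⊥ := by
    rw [eq_bot_iff]
    intro x hx
    obtain ⟨v, rfl⟩ := hq x
    rw [Subgroup.mem_bot]
    change QuotientGroup.mk' C v = 1
    rw [QuotientGroup.mk'_apply, QuotientGroup.eq_one_iff]
    change v ∈ Subgroup.centralizer (S : Set U)
    rw [Subgroup.mem_centralizer_iff]
    intro s hs
    have h1 : q s ∈ (L : Set (U ⧸ C)) := by
      rw [hLS]
      exact ⟨s, hs, rfl⟩
    have h2 := Subgroup.mem_centralizer_iff.1 hx (q s) h1
    have h3 : s * v * s⁻¹ * v⁻¹ ∈ N ⊓ C := by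
      constructor
      · have h4 : s * (v * s⁻¹ * v⁻¹) ∈ S := S.mul_mem hs (hSn.conj_mem _ (S.inv_mem hs) v)
        have h5 := hSN h4
        simpa [mul_assoc] using h5
      · change s * v * s⁻¹ * v⁻¹ ∈ C
        rw [← QuotientGroup.eq_one_iff]
        change q (s * v * s⁻¹ * v⁻¹) = 1
        rw [map_mul, map_mul, map_mul, h2, map_inv, map_inv]
        group
    rw [hNC, Subgroup.mem_bot] at h3
    calc s * v = (s * v * s⁻¹ * v⁻¹) * (v * s) := by group
      _ = v * s := by rw [h3, one_mul]
  -- the image of `V`
  let W : Subgroup (U ⧸ C) := V.map q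
  have hLW : L ≤ W := by
    rw [hLS]
    exact Subgroup.map_mono (hSN.trans hNV)
  have hS' : Layered F (L.subgroupOf W) := by
    refine Layered.of_surjective (Subgroup.subgroupOfEquivOfLe hLW).symm.toMonoidHom ?_ hL
    exact (Subgroup.subgroupOfEquivOfLe hLW).symm.surjective
  have hcW : Subgroup.centralizer ((L.subgroupOf W : Subgroup W) : Set W) = ⊥ := by
    rw [eq_bot_iff]
    intro x hx
    have h1 : (x : U ⧸ C) ∈ Subgroup.centralizer (L : Set (U ⧸ C)) := by
      rw [Subgroup.mem_centralizer_iff]
      intro s hs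
      have h2 := Subgroup.mem_centralizer_iff.1 hx ⟨s, hLW hs⟩ hs
      exact congrArg Subtype.val h2
    rw [hcL, Subgroup.mem_bot] at h1
    rw [Subgroup.mem_bot]
    exact Subtype.ext h1
  have hnW : (L.subgroupOf W).Normal := inferInstance
  have hradW : rad F W = ⊥ := A10_rad hnW hS' hcW
  have hlayW : layer F W ≤ L.subgroupOf W := A10_layer hnW hcW
  have hPW : PL F (m + 1) W :=
    PL.of_surjective (MonoidHom.subgroupMap q V) (MonoidHom.subgroupMap_surjective _ _) h
  have hPW' : PL F m (W ⧸ layer F W) := hPW.quotient_layer hradW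
  -- the induction hypothesis in the quotient
  let f : U →* (U ⧸ C) ⧸ L := (QuotientGroup.mk' L).comp q
  have hf : Function.Surjective f := (QuotientGroup.mk'_surjective L).comp hq
  have hNn' : (N.map f).Normal := Subgroup.Normal.map hN f hf
  have hEn' : (E.map f).Normal := Subgroup.Normal.map hEn f hf
  have hPV : PL F m (V.map f) := by
    let g : W →* V.map f := ((QuotientGroup.mk' L).comp W.subtype).codRestrict (V.map f) (by
      rintro ⟨_, v, hv, rfl⟩
      exact ⟨v, hv, rfl⟩)
    have hg : Function.Surjective g := by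
      rintro ⟨_, v, hv, rfl⟩
      exact ⟨⟨q v, v, hv, rfl⟩, Subtype.ext rfl⟩
    have hle : layer F W ≤ g.ker := by
      intro x hx
      have h1 : (x : U ⧸ C) ∈ L := hlayW hx
      rw [MonoidHom.mem_ker]
      apply Subtype.ext
      change QuotientGroup.mk' L (x : U ⧸ C) = 1
      rw [QuotientGroup.mk'_apply, QuotientGroup.eq_one_iff]
      exact h1
    refine PL.of_surjective (QuotientGroup.lift (layer F W) g hle) ?_ hPW'
    intro y
    obtain ⟨x, rfl⟩ := hg y
    exact ⟨QuotientGroup.mk' _ x, rfl⟩
  have hPU' : PL F m ((U ⧸ C) ⧸ L) := by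
    refine ih (N := N.map f) (E := E.map f) (V := V.map f) (Subgroup.map_mono hNE)
      (A10_transfer f N E hE) (Subgroup.map_mono hNV) ?_ hPV
    rw [← Subgroup.map_sup, hVE, Subgroup.map_top_of_surjective f hf]
  have hPC : PL F (m + 1) (U ⧸ C) := by
    refine PL.succ_of_layered (MonoidHom.id (U ⧸ C)) Function.surjective_id ?_ hL hPU'
    have : Subsingleton (MonoidHom.id (U ⧸ C)).ker := by
      rw [MonoidHom.ker_id]
      infer_instance
    exact F.of_subsingleton
  exact PL.of_ker_inf hNC (A10_first hNE hE hVE h) hPC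

/-- Lemma B: the length of a supplement `V ≥ N` of a normal subgroup `E` with `E / N` in the
class. -/
theorem PL.of_supplement [Fact p.Prime] {m : ℕ} {U : Type} [Group U] [Finite U]
    {N E V : Subgroup U} [N.Normal] [E.Normal] (hNE : N ≤ E)
    (hE : F.mem (E.map (QuotientGroup.mk' N))) (hNV : N ≤ V) (hVE : V ⊔ E = ⊤)
    (h : PL F m V) : PL F m U := by
  induction m generalizing U with
  | zero =>
    have hV : F.mem V := h
    have hN : F.mem N := F.of_le hNV hV
    have hEm : F.mem E := by
      refine F.of_ker (MonoidHom.subgroupMap (QuotientGroup.mk' N) E) ?_ hE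
      let g : (MonoidHom.subgroupMap (QuotientGroup.mk' N) E).ker →* N :=
        (E.subtype.comp (MonoidHom.subgroupMap (QuotientGroup.mk' N) E).ker.subtype).codRestrict N
          (by
            rintro ⟨x, hx⟩
            have h1 : QuotientGroup.mk' N (x : U) = 1 := congrArg Subtype.val hx
            rw [QuotientGroup.mk'_apply, QuotientGroup.eq_one_iff] at h1
            exact h1)
      refine F.of_injective g ?_ hN
      intro x y hxy
      have h2 : ((g x : N) : U) = ((g y : N) : U) := congrArg Subtype.val hxy
      exact Subtype.ext (Subtype.ext h2)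
    change F.mem U
    refine F.of_ker (QuotientGroup.mk' E) ?_ (F.of_surjective _ (A10_surj hVE) hV)
    rw [QuotientGroup.ker_mk']
    exact hEm
  | succ m ih =>
    have hchar : (rad F N).Characteristic := rad_characteristic F N
    let R : Subgroup U := (rad F N).map N.subtype
    have hRn : R.Normal := inferInstance
    have hRF : F.mem R := F.map N.subtype (rad_mem F N)
    let f : U →* U ⧸ R := QuotientGroup.mk' R
    have hf : Function.Surjective f := QuotientGroup.mk'_surjective R
    have hNn' : (N.map f).Normal := Subgroup.Normal.map inferInstance f hf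
    have hEn' : (E.map f).Normal := Subgroup.Normal.map inferInstance f hf
    have hrad : rad F (N.map f) = ⊥ := by
      refine rad_eq_bot_of_ker F (MonoidHom.subgroupMap f N)
        (MonoidHom.subgroupMap_surjective _ _) ?_
      ext x
      rw [MonoidHom.mem_ker]
      constructor
      · intro hx
        have h1 : f (x : U) = 1 := congrArg Subtype.val hx
        change QuotientGroup.mk' R (x : U) = 1 at h1
        rw [QuotientGroup.mk'_apply, QuotientGroup.eq_one_iff] at h1
        obtain ⟨y, hy, hyx⟩ := h1
        have : y = x := Subtype.ext hyx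
        exact this ▸ hy
      · intro hx
        apply Subtype.ext
        change QuotientGroup.mk' R (x : U) = 1
        rw [QuotientGroup.mk'_apply, QuotientGroup.eq_one_iff]
        exact ⟨x, hx, rfl⟩
    have h1 : PL F (m + 1) (U ⧸ R) := by
      refine A10_step (fun {U} _ _ {N E V} _ _ a b c d e => ih a b c d e)
        (N := N.map f) (E := E.map f) (V := V.map f) (Subgroup.map_mono hNE)
        (A10_transfer f N E hE) (Subgroup.map_mono hNV) ?_
        (PL.of_surjective (MonoidHom.subgroupMap f V) (MonoidHom.subgroupMap_surjective _ _) h)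
        hrad
      rw [← Subgroup.map_sup, hVE, Subgroup.map_top_of_surjective f hf]
    refine PL.of_ker f hf ?_ h1
    change F.mem (QuotientGroup.mk' R).ker
    rw [QuotientGroup.ker_mk']
    exact hRF

end LibKS
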