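import Pool.Agent.LibKS.A10

set_option autoImplicit false

namespace LibKS

variable {p : ℕ} {F : GoodClass p}

/-- Groups of minimal order of length larger than `n`. -/
theorem nilClass_of_minimal [Fact p.Prime] {n : ℕ} {U : Type} [Group U] [Finite U]
    (h : ¬ PL F n U) (hmin : ∀ V : Subgroup U, V ≠ ⊤ → PL F n V) : NilClass F U := by
  intro H _ f hf N' hN' hFN'
  have hHfin : Finite H := Finite.of_surjective f hf
  refine (Group.isNilpotent_of_finite_tfae.out 3 0 rfl rfl).1 ?_
  intro q hq P
  -- the normaliser of `P` in `H`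
  set P' : Subgroup H := (P : Subgroup N').map N'.subtype with hP'
  have hfrat : (Subgroup.normalizer (P' : Set H)) ⊔ N' = ⊤ := P.normalizer_sup_eq_top
  set V : Subgroup U := (Subgroup.normalizer (P' : Set H)).comap f with hV
  set E : Subgroup U := N'.comap f with hE
  have hVtop : V = ⊤ := by
    by_contra hne
    apply h
    have hEn : E.Normal := hN'.comap f
    have hNE : f.ker ≤ E := by
      intro x hx
      rw [hE, Subgroup.mem_comap, (MonoidHom.mem_ker).1 hx]
      exact N'.one_mem
    have hNV : f.ker ≤ V := by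
      intro x hx
      rw [hV, Subgroup.mem_comap, (MonoidHom.mem_ker).1 hx]
      exact (Subgroup.normalizer (P' : Set H)).one_mem
    have hVE : V ⊔ E = ⊤ := by
      rw [hV, hE, Subgroup.comap_sup_eq f _ _ hf, hfrat, Subgroup.comap_top]
    have hEF : F.mem (E.map (QuotientGroup.mk' f.ker)) := by
      let e := QuotientGroup.quotientKerEquivOfSurjective f hf
      have he : ∀ x : E.map (QuotientGroup.mk' f.ker), e (x : U ⧸ f.ker) ∈ N' := by
        rintro ⟨_, y, hy, rfl⟩
        exact hy
      refine F.of_injective (H := N')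
        ((e.toMonoidHom.comp (E.map (QuotientGroup.mk' f.ker)).subtype).codRestrict N' he) ?_ hFN'
      intro x y hxy
      apply Subtype.ext
      apply e.injective
      exact congrArg Subtype.val hxy
    exact PL.of_supplement hNE hEF hNV hVE (hmin V hne)
  have hnorm : (Subgroup.normalizer (P' : Set H)) = ⊤ := by
    rw [← top_le_iff]
    intro y _
    obtain ⟨x, rfl⟩ := hf y
    have : x ∈ V := by rw [hVtop]; exact Subgroup.mem_top x
    exact this
  refine ⟨fun x hx g => ?_⟩
  have hg : (g : H) ∈ (Subgroup.normalizer (P' : Set H)) := by rw [hnorm]; exact Subgroup.mem_top _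
  have hx' : (x : H) ∈ P' := ⟨x, hx, rfl⟩
  have h1 := (Subgroup.mem_normalizer_iff.1 hg (x : H)).1 hx'
  obtain ⟨y, hy, hyx⟩ := h1
  have h2 : y = g * x * g⁻¹ := Subtype.ext hyx
  rw [← h2]
  exact hy

end LibKS
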