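import Pool.Agent.LibKS.A7

set_option autoImplicit false

namespace LibKS

variable {p : ℕ} {F : GoodClass p}

/-- The action by conjugation of a subgroup on a subgroup normalised by it. -/
@[reducible] def A12_act {H : Type} [Group H] (Z S : Subgroup H)
    (h : ∀ z ∈ Z, ∀ s ∈ S, z * s * z⁻¹ ∈ S) : MulDistribMulAction Z S where
  smul z s := ⟨z * s * (z : H)⁻¹, h z z.2 s s.2⟩
  one_smul s := Subtype.ext (by
    change ((1 : Z) : H) * s * ((1 : Z) : H)⁻¹ = s
    simp)
  mul_smul x y s := Subtype.ext (by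
    change ((x * y : Z) : H) * s * ((x * y : Z) : H)⁻¹ = x * (y * s * (y : H)⁻¹) * (x : H)⁻¹
    simp only [Subgroup.coe_mul]
    group)
  smul_mul x s t := Subtype.ext (by
    change (x : H) * ((s : H) * t) * (x : H)⁻¹ =
      (x * s * (x : H)⁻¹) * (x * t * (x : H)⁻¹)
    group)
  smul_one x := Subtype.ext (by
    change (x : H) * 1 * (x : H)⁻¹ = 1
    simp)

/-- The automorphisms given by conjugation. -/
def A12_aut {H : Type} [Group H] (Z S : Subgroup H)
    (h : ∀ z ∈ Z, ∀ s ∈ S, z * s * z⁻¹ ∈ S) : Z →* MulAut S :=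
  letI := A12_act Z S h
  MulDistribMulAction.toMulAut Z S

theorem A12_aut_apply {H : Type} [Group H] (Z S : Subgroup H)
    (h : ∀ z ∈ Z, ∀ s ∈ S, z * s * z⁻¹ ∈ S) (z : Z) (s : S) :
    ((A12_aut Z S h z s : S) : H) = z * s * (z : H)⁻¹ := rfl

open Classical in
/-- Elements of the layer inducing given inner automorphisms on the components. -/
theorem A12_exists_layer [Fact p.Prime] {H : Type} [Group H] [Finite H]
    (s : ∀ S : {S : Subgroup H // IsComp F S}, S.1) :
    ∃ l ∈ layer F H, ∀ (S : {S : Subgroup H // IsComp F S}) (x : S.1),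
      l * x * l⁻¹ = (s S : H) * x * (s S : H)⁻¹ := by
  obtain ⟨e, he⟩ := exists_layer_equiv (F := F) H
  refine ⟨(e s : H), (e s).2, ?_⟩
  intro S x
  have h1 : s * Pi.mulSingle S x * s⁻¹ = Pi.mulSingle S (s S * x * (s S)⁻¹) := by
    funext T
    by_cases hT : T = S
    · subst hT
      simp
    · simp [Pi.mulSingle_eq_of_ne hT]
  have h2 := congrArg (fun y => ((e y : layer F H) : H)) h1
  simp only [map_mul, map_inv, Subgroup.coe_mul, Subgroup.coe_inv, he] at h2
  exact h2

/-- The kernel of the action on the components, modulo the layer. -/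
theorem ker_comps_mem [Fact p.Prime] {H : Type} [Group H] [Finite H] (hO : OutHyp F H)
    (hr : rad F H = ⊥) (Z : Subgroup H) (hZ : ∀ z ∈ Z, ∀ S : Subgroup H, IsComp F S →
      S.map (MulAut.conj z).toMonoidHom = S) (hZn : Z.Normal) :
    F.mem (Z.map (QuotientGroup.mk' (layer F H))) := by
  classical
  have hst : ∀ S : {S : Subgroup H // IsComp F S}, ∀ z ∈ Z, ∀ s ∈ S.1, z * s * z⁻¹ ∈ S.1 := by
    intro S z hz s hs
    rw [← hZ z hz S.1 S.2]
    exact ⟨s, hs, rfl⟩
  let out : ∀ S : {S : Subgroup H // IsComp F S},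
      Z →* MulAut S.1 ⧸ (MulAut.conj : S.1 →* MulAut S.1).range :=
    fun S => (QuotientGroup.mk' _).comp (A12_aut Z S.1 (hst S))
  let ρ : Z →* (∀ S : {S : Subgroup H // IsComp F S},
      MulAut S.1 ⧸ (MulAut.conj : S.1 →* MulAut S.1).range) := MonoidHom.pi out
  have hmem : F.mem (Z ⧸ ρ.ker) := by
    apply F.of_injective (QuotientGroup.kerLift ρ) (QuotientGroup.kerLift_injective ρ)
    apply F.pi
    intro S
    exact hO S.1 S.2.simple S.2.not_mem ⟨S.1, MonoidHom.id _, Function.surjective_id⟩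
  -- the kernel is contained in the layer
  have hker : ∀ z : Z, z ∈ ρ.ker → (z : H) ∈ layer F H := by
    intro z hz
    have h1 : ∀ S : {S : Subgroup H // IsComp F S}, ∃ s : S.1,
        MulAut.conj s = A12_aut Z S.1 (hst S) z := by
      intro S
      have h2 : out S z = 1 := congrFun (MonoidHom.mem_ker.mp hz) S
      have h3 : A12_aut Z S.1 (hst S) z ∈ (MulAut.conj : S.1 →* MulAut S.1).range :=
        (QuotientGroup.eq_one_iff _).mp h2
      exact h3
    choose s hs using h1
    obtain ⟨l, hl, hl2⟩ := A12_exists_layer (F := F) s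
    have h4 : ∀ S : {S : Subgroup H // IsComp F S}, ∀ x : S.1,
        l * x * l⁻¹ = (z : H) * x * (z : H)⁻¹ := by
      intro S x
      rw [hl2 S x]
      have h5 := congrArg (fun t : S.1 => (t : H)) (DFunLike.congr_fun (hs S) x)
      exact h5
    have h5 : l⁻¹ * z ∈ Subgroup.centralizer (layer F H : Set H) := by
      have h6 : layer F H ≤ Subgroup.centralizer {l⁻¹ * (z : H)} := by
        rw [layer]
        apply sSup_le
        intro S hS x hx
        rw [Subgroup.mem_centralizer_iff]
        intro w hw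
        rw [Set.mem_singleton_iff] at hw
        subst hw
        have h7 := h4 ⟨S, hS⟩ ⟨x, hx⟩
        change l * x * l⁻¹ = (z : H) * x * (z : H)⁻¹ at h7
        have h8 : l⁻¹ * (z : H) * x = l⁻¹ * ((z : H) * x * (z : H)⁻¹) * z := by group
        rw [h8, ← h7]
        group
      rw [Subgroup.mem_centralizer_iff]
      intro x hx
      exact (Subgroup.mem_centralizer_iff.mp (h6 hx) _ (Set.mem_singleton _)).symm
    rw [centralizer_layer F hr, Subgroup.mem_bot] at h5
    have h6 : (z : H) = l := by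
      have h7 : l * (l⁻¹ * (z : H)) = l * 1 := by rw [h5]
      rwa [mul_inv_cancel_left, mul_one] at h7
    rw [h6]
    exact hl
  have hφ : ∀ z ∈ ρ.ker, (QuotientGroup.mk' (layer F H)).subgroupMap Z z = 1 := by
    intro z hz
    apply Subtype.ext
    exact (QuotientGroup.eq_one_iff _).mpr (hker z hz)
  apply F.of_surjective (QuotientGroup.lift ρ.ker ((QuotientGroup.mk' (layer F H)).subgroupMap Z) hφ)
    _ hmem
  intro y
  obtain ⟨z, hz⟩ := (QuotientGroup.mk' (layer F H)).subgroupMap_surjective Z y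
  exact ⟨QuotientGroup.mk z, hz⟩

end LibKS
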