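import Pool.Agent.LibKS.A12

set_option autoImplicit false

namespace LibKS

variable {p : ℕ} {F : GoodClass p}

theorem exists_comp_of_not_PL [Fact p.Prime] {n : ℕ} {G : Type} [Group G] [Finite G]
    (hO : OutHyp F G) (h : ¬ PL F (n + 1) G) :
    ∃ (H : Type) (_ : Group H) (f : G →* H), Function.Surjective f ∧ F.mem f.ker ∧
      ∃ S : Subgroup H, IsComp F S ∧ ¬ PL F n (H ⧸ (MulAction.toPermHom H (Om S)).ker) := by
  classical
  have hf : Function.Surjective (QuotientGroup.mk' (rad F G)) := QuotientGroup.mk'_surjective _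
  have hk : F.mem (QuotientGroup.mk' (rad F G)).ker := by
    rw [QuotientGroup.ker_mk']
    exact rad_mem F G
  refine ⟨G ⧸ rad F G, inferInstance, QuotientGroup.mk' (rad F G), hf, hk, ?_⟩
  by_contra hcon
  apply h
  refine PL.of_ker _ hf hk (PL.succ_of_layer ?_)
  have hr : rad F (G ⧸ rad F G) = ⊥ :=
    rad_eq_bot_of_ker F (QuotientGroup.mk' (rad F G)) hf (QuotientGroup.ker_mk' _)
  have hO' : OutHyp F (G ⧸ rad F G) := OutHyp.of_surjective hO _ hf
  have hall : ∀ S : {S : Subgroup (G ⧸ rad F G) // IsComp F S},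
      PL F n ((G ⧸ rad F G) ⧸ (MulAction.toPermHom (G ⧸ rad F G) (Om S.1)).ker) := by
    intro S
    by_contra hS
    exact hcon ⟨S.1, S.2, hS⟩
  have hn : (⨅ S : {S : Subgroup (G ⧸ rad F G) // IsComp F S},
      (MulAction.toPermHom (G ⧸ rad F G) (Om S.1)).ker).Normal :=
    Subgroup.normal_iInf_normal fun S => inferInstance
  have h1 := PL.formation_iInf (F := F) (n := n)
    (A := fun S : {S : Subgroup (G ⧸ rad F G) // IsComp F S} =>
      (MulAction.toPermHom (G ⧸ rad F G) (Om S.1)).ker) hall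
  set Z := (⨅ S : {S : Subgroup (G ⧸ rad F G) // IsComp F S},
      (MulAction.toPermHom (G ⧸ rad F G) (Om S.1)).ker) with hZdef
  have hZ : ∀ z ∈ Z, ∀ S : Subgroup (G ⧸ rad F G), IsComp F S →
      S.map (MulAut.conj z).toMonoidHom = S := by
    intro z hz S hS
    have h2 : z ∈ (MulAction.toPermHom (G ⧸ rad F G) (Om S)).ker :=
      (Subgroup.mem_iInf.mp hz) ⟨S, hS⟩
    have h3 : MulAction.toPermHom (G ⧸ rad F G) (Om S) z = 1 := h2
    have h4 : S.map (MulAut.conj (1 : G ⧸ rad F G)).toMonoidHom = S := by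
      ext y
      simp
    have h5 := congrArg (fun f => ((f (⟨S, 1, h4⟩ : Om S) : Om S)).1) h3
    exact h5
  have h6 := ker_comps_mem hO' hr Z hZ hn
  have hN : (Z.map (QuotientGroup.mk' (layer F (G ⧸ rad F G)))).Normal :=
    Subgroup.Normal.map hn _ (QuotientGroup.mk'_surjective _)
  refine PL.of_ker (QuotientGroup.mk' (Z.map (QuotientGroup.mk' (layer F (G ⧸ rad F G)))))
    (QuotientGroup.mk'_surjective _) ?_ ?_
  · rw [QuotientGroup.ker_mk']
    exact h6
  · refine PL.of_surjective (QuotientGroup.map Z _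
      (QuotientGroup.mk' (layer F (G ⧸ rad F G))) (Subgroup.le_comap_map _ _)) ?_ h1
    intro y
    obtain ⟨z, rfl⟩ := QuotientGroup.mk'_surjective _ y
    obtain ⟨x, rfl⟩ := QuotientGroup.mk'_surjective _ z
    exact ⟨(x : (G ⧸ rad F G) ⧸ Z), rfl⟩

end LibKS
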