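import Pool.Agent.LibKS.A1

set_option autoImplicit false

namespace LibKS

variable {p : ℕ} {F : GoodClass p}

theorem IsComp.exists_not_commute [Fact p.Prime] {H : Type} [Group H] {S : Subgroup H}
    (hS : IsComp F S) : ∃ a ∈ S, ∃ b ∈ S, ¬ Commute a b := by
  by_contra hcon
  push Not at hcon
  apply hS.not_mem
  apply F.of_simple_comm hS.simple
  intro a b
  have := hcon a a.2 b b.2
  exact Subtype.ext this

theorem IsComp.dvd_card [Fact p.Prime] {H : Type} [Group H] [Finite H] {S : Subgroup H}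
    (hS : IsComp F S) : p ∣ Nat.card S := by
  by_contra hcon
  exact hS.not_mem (F.of_coprime ((Nat.Prime.coprime_iff_not_dvd Fact.out).2 hcon))

theorem IsComp.ne_bot {H : Type} [Group H] {S : Subgroup H} (hS : IsComp F S) : S ≠ ⊥ := by
  have := hS.simple
  have h : Nontrivial S := IsSimpleGroup.toNontrivial
  exact (Subgroup.nontrivial_iff_ne_bot S).mp h

theorem IsComp.eq_bot_or_eq {H : Type} [Group H] {S : Subgroup H} (hS : IsComp F S)
    {X : Subgroup H} (hX : X ≤ S) (hn : ∀ s ∈ S, ∀ x ∈ X, s * x * s⁻¹ ∈ X) : X = ⊥ ∨ X = S := by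
  have := hS.simple
  have hN : (X.subgroupOf S).Normal := by
    refine ⟨fun x hx s => ?_⟩
    rw [Subgroup.mem_subgroupOf] at hx ⊢
    exact hn s s.2 x hx
  rcases hN.eq_bot_or_eq_top with h | h
  · left
    rw [Subgroup.subgroupOf_eq_bot] at h
    exact h.eq_bot_of_le hX
  · right
    exact le_antisymm hX (Subgroup.subgroupOf_eq_top.mp h)

/-- An element commuting with all of a component and lying in it is trivial. -/
theorem IsComp.center_trivial [Fact p.Prime] {H : Type} [Group H] {S : Subgroup H}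
    (hS : IsComp F S) {x : H} (hx : x ∈ S) (hc : ∀ y ∈ S, Commute x y) : x = 1 := by
  have hX : S ⊓ Subgroup.centralizer (S : Set H) = ⊥ ∨
      S ⊓ Subgroup.centralizer (S : Set H) = S := by
    refine hS.eq_bot_or_eq inf_le_left ?_
    intro s hs y hy
    refine ⟨S.mul_mem (S.mul_mem hs hy.1) (S.inv_mem hs), ?_⟩
    have h1 := Subgroup.mem_centralizer_iff.mp hy.2 s hs
    have h2 : s * y * s⁻¹ = y := by rw [h1, mul_inv_cancel_right]
    rw [h2]
    exact hy.2
  rcases hX with h | h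
  · have h1 : x ∈ S ⊓ Subgroup.centralizer (S : Set H) :=
      ⟨hx, Subgroup.mem_centralizer_iff.mpr fun y hy => (hc y hy).symm⟩
    rw [h] at h1
    exact Subgroup.mem_bot.mp h1
  · exfalso
    obtain ⟨a, ha, b, hb, hab⟩ := hS.exists_not_commute
    rw [← h] at hb
    exact hab (Subgroup.mem_centralizer_iff.mp hb.2 a ha)

theorem IsComp.le_or_commute [Fact p.Prime] {H : Type} [Group H] {S N : Subgroup H}
    (hS : IsComp F S) (hN : N.Normal) : S ≤ N ∨ ∀ a ∈ S, ∀ b ∈ N, Commute a b := by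
  have hX : S ⊓ N = ⊥ ∨ S ⊓ N = S := by
    refine hS.eq_bot_or_eq inf_le_left ?_
    intro s hs y hy
    exact ⟨S.mul_mem (S.mul_mem hs hy.1) (S.inv_mem hs), hN.conj_mem y hy.2 s⟩
  rcases hX with h | h
  swap
  · exact Or.inl (inf_eq_left.mp h)
  right
  intro a ha b hb
  have hmem : ∀ z, z ∈ S → z ∈ N → z = 1 := by
    intro z h1 h2
    have h3 : z ∈ S ⊓ N := ⟨h1, h2⟩
    rw [h] at h3
    exact Subgroup.mem_bot.mp h3
  have hcN : ∀ a' : H, a' * (b * a'⁻¹ * b⁻¹) ∈ N := by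
    intro a'
    have h1 := N.mul_mem (hN.conj_mem b hb a') (N.inv_mem hb)
    have h2 : a' * b * a'⁻¹ * b⁻¹ = a' * (b * a'⁻¹ * b⁻¹) := by group
    rwa [h2] at h1
  rcases hS.conj b with hb' | hb'
  · have h1 : b * a⁻¹ * b⁻¹ ∈ S := by
      rw [← hb']
      exact ⟨a⁻¹, S.inv_mem ha, rfl⟩
    have h2 := hmem _ (S.mul_mem ha h1) (hcN a)
    have h3 : a * b = b * a := by
      have h4 : a * (b * a⁻¹ * b⁻¹) * (b * a) = b * a := by rw [h2, one_mul]
      have h5 : a * (b * a⁻¹ * b⁻¹) * (b * a) = a * b := by group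
      rw [← h5, h4]
    exact h3
  · exfalso
    obtain ⟨x, hx, y, hy, hxy⟩ := hS.exists_not_commute
    apply hxy
    -- `c = b x⁻¹ b⁻¹` commutes with `y`
    have hc : Commute y (b * x⁻¹ * b⁻¹) := hb' y hy x⁻¹ (S.inv_mem hx)
    have h1 : (x * (b * x⁻¹ * b⁻¹)) * (y * (x * (b * x⁻¹ * b⁻¹))⁻¹ * y⁻¹) ∈ N :=
      N.mul_mem (hcN x) (hN.conj_mem _ (N.inv_mem (hcN x)) y)
    have h2 : (x * (b * x⁻¹ * b⁻¹)) * (y * (x * (b * x⁻¹ * b⁻¹))⁻¹ * y⁻¹) =
        x * y * x⁻¹ * y⁻¹ := by
      have h3 : (b * x⁻¹ * b⁻¹) * y = y * (b * x⁻¹ * b⁻¹) := hc.eq.symm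
      calc (x * (b * x⁻¹ * b⁻¹)) * (y * (x * (b * x⁻¹ * b⁻¹))⁻¹ * y⁻¹)
          = x * ((b * x⁻¹ * b⁻¹) * y) * (b * x⁻¹ * b⁻¹)⁻¹ * x⁻¹ * y⁻¹ := by group
        _ = x * (y * (b * x⁻¹ * b⁻¹)) * (b * x⁻¹ * b⁻¹)⁻¹ * x⁻¹ * y⁻¹ := by rw [h3]
        _ = x * y * x⁻¹ * y⁻¹ := by group
    rw [h2] at h1
    have h4 := hmem _ (S.mul_mem (S.mul_mem (S.mul_mem hx hy) (S.inv_mem hx)) (S.inv_mem hy)) h1
    have h5 : x * y = y * x := by
      have h6 : x * y * x⁻¹ * y⁻¹ * (y * x) = y * x := by rw [h4, one_mul]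
      have h7 : x * y * x⁻¹ * y⁻¹ * (y * x) = x * y := by group
      rw [← h7, h6]
    exact h5

private theorem A2_mem_normalizer {H : Type} [Group H] {S : Subgroup H} {x : H}
    (h : S.map (MulAut.conj x).toMonoidHom = S) : x ∈ Subgroup.normalizer (S : Set H) :=
  Subgroup.mem_normalizer_iff_map_conj_eq.mpr h

private theorem A2_commute_mem_normalizer {H : Type} [Group H] {S : Subgroup H} {x : H}
    (h : ∀ a ∈ S, Commute a x) : x ∈ Subgroup.normalizer (S : Set H) := by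
  rw [Subgroup.mem_normalizer_iff]
  intro a
  constructor
  · intro ha
    have h1 : x * a * x⁻¹ = a := by rw [← (h a ha).eq, mul_inv_cancel_right]
    rw [h1]
    exact ha
  · intro ha
    have h1 := (h _ ha).eq
    have h2 : x * a * x⁻¹ = a := by
      have h3 : x * a = x * (x * a * x⁻¹) := by rw [← h1]; group
      have h4 : a = x * a * x⁻¹ := mul_left_cancel h3
      exact h4.symm
    rw [h2] at ha
    exact ha

private theorem A2_normalClosure_le {H : Type} [Group H] {S : Subgroup H} (hS : IsComp F S) :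
    Subgroup.normalClosure (S : Set H) ≤ Subgroup.normalizer (S : Set H) := by
  rw [Subgroup.normalClosure, Subgroup.closure_le]
  intro y hy
  rw [Group.mem_conjugatesOfSet_iff] at hy
  obtain ⟨s, hs, hsy⟩ := hy
  obtain ⟨g, hg⟩ := isConj_iff.mp hsy
  rcases hS.conj g with h | h
  · have h1 : y ∈ S := by
      rw [← h]
      exact ⟨s, hs, hg⟩
    exact Subgroup.le_normalizer h1
  · apply A2_commute_mem_normalizer
    intro a ha
    rw [← hg]
    exact h a ha s hs

theorem IsComp.eq_or_commute [Fact p.Prime] {H : Type} [Group H] {S S' : Subgroup H}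
    (hS : IsComp F S) (hS' : IsComp F S') : S = S' ∨ ∀ a ∈ S, ∀ b ∈ S', Commute a b := by
  by_cases hcom : ∀ a ∈ S, ∀ b ∈ S', Commute a b
  · exact Or.inr hcom
  left
  have h1 : S' ≤ Subgroup.normalizer (S : Set H) := by
    rcases hS'.le_or_commute (N := Subgroup.normalClosure (S : Set H))
      Subgroup.normalClosure_normal with h | h
    · exact h.trans (A2_normalClosure_le hS)
    · exact absurd (fun a ha b hb => (h b hb a (Subgroup.subset_normalClosure ha)).symm) hcom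
  have h2 : S ≤ Subgroup.normalizer (S' : Set H) := by
    rcases hS.le_or_commute (N := Subgroup.normalClosure (S' : Set H))
      Subgroup.normalClosure_normal with h | h
    · exact h.trans (A2_normalClosure_le hS')
    · exact absurd (fun a ha b hb => h a ha b (Subgroup.subset_normalClosure hb)) hcom
  have hX : S ⊓ S' = ⊥ ∨ S ⊓ S' = S := by
    refine hS.eq_bot_or_eq inf_le_left ?_
    intro s hs y hy
    exact ⟨S.mul_mem (S.mul_mem hs hy.1) (S.inv_mem hs),
      (Subgroup.mem_normalizer_iff.mp (h2 hs) y).mp hy.2⟩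
  have hX' : S ⊓ S' = ⊥ ∨ S ⊓ S' = S' := by
    refine hS'.eq_bot_or_eq inf_le_right ?_
    intro s hs y hy
    exact ⟨(Subgroup.mem_normalizer_iff.mp (h1 hs) y).mp hy.1,
      S'.mul_mem (S'.mul_mem hs hy.2) (S'.inv_mem hs)⟩
  have hne : S ⊓ S' ≠ ⊥ := by
    intro hbot
    apply hcom
    intro a ha b hb
    have h3 : a * b * a⁻¹ ∈ S' := (Subgroup.mem_normalizer_iff.mp (h2 ha) b).mp hb
    have h4 : b * a⁻¹ * b⁻¹ ∈ S :=
      (Subgroup.mem_normalizer_iff.mp (h1 hb) a⁻¹).mp (S.inv_mem ha)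
    have h5 : a * b * a⁻¹ * b⁻¹ ∈ S ⊓ S' := by
      refine ⟨?_, S'.mul_mem h3 (S'.inv_mem hb)⟩
      have h6 := S.mul_mem ha h4
      have h7 : a * (b * a⁻¹ * b⁻¹) = a * b * a⁻¹ * b⁻¹ := by group
      rwa [h7] at h6
    rw [hbot, Subgroup.mem_bot] at h5
    have h6 : a * b * a⁻¹ * b⁻¹ * (b * a) = b * a := by rw [h5, one_mul]
    have h7 : a * b * a⁻¹ * b⁻¹ * (b * a) = a * b := by group
    change a * b = b * a
    rw [← h7, h6]
  rcases hX with h | h
  · exact absurd h hne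
  · rcases hX' with h' | h'
    · exact absurd h' hne
    · rw [← h, h']

theorem IsComp.map_conj_of_mem_layer [Fact p.Prime] {H : Type} [Group H] {S : Subgroup H}
    (hS : IsComp F S) {x : H} (hx : x ∈ layer F H) :
    S.map (MulAut.conj x).toMonoidHom = S := by
  have h1 : layer F H ≤ Subgroup.normalizer (S : Set H) := by
    rw [layer]
    apply sSup_le
    intro S' hS'
    rcases hS.eq_or_commute hS' with h | h
    · rw [← h]
      exact Subgroup.le_normalizer
    · intro y hy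
      exact A2_commute_mem_normalizer fun a ha => h a ha y hy
  exact Subgroup.mem_normalizer_iff_map_conj_eq.mp (h1 hx)

end LibKS
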