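import Mathlib

set_option autoImplicit false

namespace LibKS

private theorem C0_injective {G : Type} [Group G] {ι : Type} [Fintype ι] [DecidableEq ι]
    (T : ι → Subgroup G)
    (hcomm : Pairwise fun i j : ι => ∀ x y : G, x ∈ T i → y ∈ T j → Commute x y)
    (hc : ∀ i, ∀ x ∈ T i, (∀ y ∈ T i, Commute x y) → x = 1) :
    Function.Injective (Subgroup.noncommPiCoprod hcomm) := by
  rw [injective_iff_map_eq_one]
  intro f hf
  funext i
  apply Subtype.ext
  refine hc i (f i) (f i).2 fun y hy => ?_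
  have h1 : f * Pi.mulSingle i (⟨y, hy⟩ : T i) * f⁻¹ =
      Pi.mulSingle i (f i * (⟨y, hy⟩ : T i) * (f i)⁻¹) := by
    funext j
    by_cases hj : j = i
    · subst hj
      simp
    · simp [Pi.mulSingle_eq_of_ne hj]
  have h2 := congrArg (Subgroup.noncommPiCoprod hcomm) h1
  rw [map_mul, map_mul, map_inv, hf, Subgroup.noncommPiCoprod_mulSingle,
    Subgroup.noncommPiCoprod_mulSingle] at h2
  simp only [one_mul, inv_one, mul_one, Subgroup.coe_mul, Subgroup.coe_inv] at h2
  rw [eq_mul_inv_iff_mul_eq] at h2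
  exact h2.symm

/-- Internal direct product of pairwise commuting subgroups with trivial centres. -/
theorem exists_prod_equiv {G : Type} [Group G] {ι : Type} [Fintype ι] [DecidableEq ι]
    (T : ι → Subgroup G)
    (hcomm : ∀ i j, i ≠ j → ∀ x ∈ T i, ∀ y ∈ T j, Commute x y)
    (hc : ∀ i, ∀ x ∈ T i, (∀ y ∈ T i, Commute x y) → x = 1) :
    ∃ e : (∀ i, T i) ≃* (⨆ i, T i : Subgroup G),
      ∀ i (t : T i), ((e (Pi.mulSingle i t) : (⨆ i, T i : Subgroup G)) : G) = t := by
  have hcomm' : Pairwise fun i j : ι => ∀ x y : G, x ∈ T i → y ∈ T j → Commute x y :=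
    fun i j hij x y hx hy => hcomm i j hij x hx y hy
  refine ⟨(MonoidHom.ofInjective (C0_injective T hcomm' hc)).trans
    (MulEquiv.subgroupCongr Subgroup.noncommPiCoprod_range), fun i t => ?_⟩
  simp [MonoidHom.ofInjective_apply]

/-- The same for subgroups `Q i` of the subgroups `T i`; the isomorphism is compatible with the
previous one. -/
theorem exists_prod_equiv_sub {G : Type} [Group G] {ι : Type} [Fintype ι] [DecidableEq ι]
    (T Q : ι → Subgroup G) (hQ : ∀ i, Q i ≤ T i)
    (hcomm : ∀ i j, i ≠ j → ∀ x ∈ T i, ∀ y ∈ T j, Commute x y)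
    (hc : ∀ i, ∀ x ∈ T i, (∀ y ∈ T i, Commute x y) → x = 1) :
    ∃ (E : (∀ i, T i) →* G) (e : (∀ i, Q i) ≃* (⨆ i, Q i : Subgroup G)),
      Function.Injective E ∧ E.range = (⨆ i, T i) ∧
      (∀ i (t : T i), E (Pi.mulSingle i t) = t) ∧
      (∀ q : ∀ i, Q i, ((e q : (⨆ i, Q i : Subgroup G)) : G) =
        E (fun i => ⟨(q i : G), hQ i (q i).2⟩)) := by
  have hcT : Pairwise fun i j : ι => ∀ x y : G, x ∈ T i → y ∈ T j → Commute x y :=
    fun i j hij x y hx hy => hcomm i j hij x hx y hy
  have hcQ : Pairwise fun i j : ι => ∀ x y : G, x ∈ Q i → y ∈ Q j → Commute x y :=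
    fun i j hij x y hx hy => hcomm i j hij x (hQ i hx) y (hQ j hy)
  have hinjT := C0_injective T hcT hc
  let J : (∀ i, Q i) →* (∀ i, T i) := MonoidHom.pi fun i =>
    (Subgroup.inclusion (hQ i)).comp (Pi.evalMonoidHom (fun i => Q i) i)
  have hJ : ∀ q : ∀ i, Q i, J q = fun i => ⟨(q i : G), hQ i (q i).2⟩ := fun q => rfl
  have heq : Subgroup.noncommPiCoprod hcQ = (Subgroup.noncommPiCoprod hcT).comp J := by
    refine MonoidHom.pi_ext fun i x => ?_
    rw [Subgroup.noncommPiCoprod_mulSingle, MonoidHom.comp_apply]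
    have : J (Pi.mulSingle i x) = Pi.mulSingle i (⟨(x : G), hQ i x.2⟩ : T i) := by
      funext j
      by_cases hj : j = i
      · subst hj
        rw [hJ]
        apply Subtype.ext
        simp
      · rw [hJ]
        apply Subtype.ext
        simp [Pi.mulSingle_eq_of_ne hj]
    rw [this, Subgroup.noncommPiCoprod_mulSingle]
  have hJinj : Function.Injective J := by
    intro q q' h
    funext i
    apply Subtype.ext
    have := congrArg (fun f : ∀ i, T i => (f i : G)) h
    exact this
  have hinjQ : Function.Injective (Subgroup.noncommPiCoprod hcQ) := by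
    rw [heq]
    exact hinjT.comp hJinj
  refine ⟨Subgroup.noncommPiCoprod hcT, (MonoidHom.ofInjective hinjQ).trans
    (MulEquiv.subgroupCongr Subgroup.noncommPiCoprod_range), hinjT,
    Subgroup.noncommPiCoprod_range, fun i t => Subgroup.noncommPiCoprod_mulSingle _ _, fun q => ?_⟩
  have h3 := DFunLike.congr_fun heq q
  rw [MonoidHom.comp_apply, hJ] at h3
  rw [← h3]
  simp [MonoidHom.ofInjective_apply]

end LibKS
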