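import Pool.Agent.LibKS.A2
import Pool.Agent.LibKS.C0

set_option autoImplicit false

namespace LibKS

variable {p : ℕ} {F : GoodClass p}

open Classical in
private theorem A2b_layer_equiv [Fact p.Prime] (H : Type) [Group H] [Finite H] :
    ∃ e : (∀ S : {S : Subgroup H // IsComp F S}, S.1) ≃* layer F H,
      ∀ (S : {S : Subgroup H // IsComp F S}) (s : S.1),
        ((e (Pi.mulSingle S s) : layer F H) : H) = s := by
  haveI : Fintype {S : Subgroup H // IsComp F S} := Fintype.ofFinite _
  obtain ⟨e, he⟩ := exists_prod_equiv (G := H) (ι := {S : Subgroup H // IsComp F S})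
    (fun S => S.1)
    (fun S S' hne x hx y hy => by
      rcases S.2.eq_or_commute S'.2 with h | h
      · exact absurd (Subtype.ext h) hne
      · exact h x hx y hy)
    (fun S x hx hc => S.2.center_trivial hx hc)
  have hL : (⨆ S : {S : Subgroup H // IsComp F S}, S.1 : Subgroup H) = layer F H := by
    rw [layer, sSup_eq_iSup']
    rfl
  refine ⟨e.trans (MulEquiv.subgroupCongr hL), fun S s => ?_⟩
  have := he S s
  rw [MulEquiv.trans_apply, MulEquiv.subgroupCongr_apply]
  exact this

/-- The elements of the normal closure of a component commuting with it and all its conjugates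
are trivial. -/
theorem IsComp.eq_one_of_mem_normalClosure [Fact p.Prime] {H : Type} [Group H] [Finite H]
    {S : Subgroup H} (hS : IsComp F S) {x : H} (hx : x ∈ Subgroup.normalClosure (S : Set H))
    (hc : ∀ y ∈ Subgroup.normalClosure (S : Set H), Commute x y) : x = 1 := by
  classical
  obtain ⟨e, he⟩ := A2b_layer_equiv (F := F) H
  have hle : Subgroup.normalClosure (S : Set H) ≤ layer F H := by
    have h1 : (S : Set H) ⊆ (layer F H : Set H) := by
      have : S ≤ layer F H := le_sSup hS
      exact this
    haveI := layer_normal F H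
    exact Subgroup.normalClosure_le_normal h1
  -- `x` commutes with all components
  have hcom : ∀ S' : {S : Subgroup H // IsComp F S}, ∀ y ∈ S'.1, Commute x y := by
    intro S' y hy
    rcases S'.2.le_or_commute (N := Subgroup.normalClosure (S : Set H))
      Subgroup.normalClosure_normal with h | h
    · exact hc y (h hy)
    · exact (h y hy x hx).symm
  have hf : e.symm ⟨x, hle hx⟩ = 1 := by
    funext S'
    apply Subtype.ext
    refine S'.2.center_trivial (e.symm ⟨x, hle hx⟩ S').2 fun y hy => ?_
    have h1 : (⟨x, hle hx⟩ : layer F H) * e (Pi.mulSingle S' (⟨y, hy⟩ : S'.1)) =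
        e (Pi.mulSingle S' (⟨y, hy⟩ : S'.1)) * ⟨x, hle hx⟩ := by
      apply Subtype.ext
      rw [Subgroup.coe_mul, Subgroup.coe_mul, he]
      exact (hcom S' y hy).eq
    have h2 := congrArg e.symm h1
    rw [map_mul, map_mul, MulEquiv.symm_apply_apply] at h2
    have h3 := congrFun h2 S'
    rw [Pi.mul_apply, Pi.mul_apply, Pi.mulSingle_eq_same] at h3
    have h4 := congrArg Subtype.val h3
    exact h4
  have h5 : (⟨x, hle hx⟩ : layer F H) = 1 := by
    rw [← e.apply_symm_apply (⟨x, hle hx⟩ : layer F H), hf, map_one]
  exact congrArg Subtype.val h5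

open Classical in
/-- The product map from the product of all components is an isomorphism onto the layer. -/
theorem exists_layer_equiv [Fact p.Prime] (H : Type) [Group H] [Finite H] :
    ∃ e : (∀ S : {S : Subgroup H // IsComp F S}, S.1) ≃* layer F H,
      ∀ (S : {S : Subgroup H // IsComp F S}) (s : S.1),
        ((e (Pi.mulSingle S s) : layer F H) : H) = s :=
  A2b_layer_equiv H

end LibKS
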