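import Pool.Agent.LibKS.A2

set_option autoImplicit false

namespace LibKS

variable {p : ℕ} {F : GoodClass p}

/-- The image of a component under a homomorphism injective on it: simple, not in the class. -/
theorem A3_map_inj {G H : Type} [Group G] [Group H] (f : G →* H) {S : Subgroup G}
    (hs : IsSimpleGroup S) (hn : ¬ F.mem S) (hi : ∀ x ∈ S, f x = 1 → x = 1) :
    IsSimpleGroup (S.map f) ∧ ¬ F.mem (S.map f) := by
  let g : S →* S.map f := f.subgroupMap S
  have hg : Function.Bijective g := by
    constructor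
    · rw [injective_iff_map_eq_one]
      intro a ha
      apply Subtype.ext
      exact hi a a.2 (congrArg Subtype.val ha)
    · exact f.subgroupMap_surjective S
  let e : S ≃* S.map f := MulEquiv.ofBijective g hg
  refine ⟨MulEquiv.isSimpleGroup e.symm, fun h => hn ?_⟩
  exact F.of_injective (G := S) (H := S.map f) e.toMonoidHom e.injective h

/-- A component of a normal subgroup is a component. -/
theorem IsComp.of_normal [Fact p.Prime] {H : Type} [Group H] {N : Subgroup H}
    (hN : N.Normal) {S : Subgroup N} (hS : IsComp F S) : IsComp F (S.map N.subtype) := by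
  have h1 := A3_map_inj (F := F) N.subtype hS.simple hS.not_mem
    (fun x _ hx => Subtype.ext hx)
  refine ⟨h1.1, h1.2, fun g => ?_⟩
  have hS' := hS.map_equiv (MulAut.conjNormal g : MulAut N)
  rcases hS.eq_or_commute hS' with h | h
  · left
    conv_rhs => rw [h]
    ext x
    simp only [Subgroup.mem_map, MulEquiv.coe_toMonoidHom, MulAut.conj_apply]
    constructor
    · rintro ⟨_, ⟨s, hs, rfl⟩, rfl⟩
      exact ⟨_, ⟨s, hs, rfl⟩, by simp [MulAut.conjNormal_apply]⟩
    · rintro ⟨_, ⟨s, hs, rfl⟩, rfl⟩
      exact ⟨_, ⟨s, hs, rfl⟩, by simp [MulAut.conjNormal_apply]⟩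
  · right
    rintro _ ⟨a, ha, rfl⟩ _ ⟨b, hb, rfl⟩
    have h2 := (h a ha _ ⟨b, hb, rfl⟩).map N.subtype
    simpa [MulAut.conjNormal_apply] using h2

/-- A component contained in a subgroup is a component of it. -/
theorem IsComp.subgroupOf [Fact p.Prime] {H : Type} [Group H] {N S : Subgroup H}
    (hS : IsComp F S) (h : S ≤ N) : IsComp F (S.subgroupOf N) := by
  have e := Subgroup.subgroupOfEquivOfLe h
  refine ⟨?_, ?_, fun g => ?_⟩
  · have := hS.simple
    exact MulEquiv.isSimpleGroup e
  · intro hm
    exact hS.not_mem (F.of_injective (G := S) (H := S.subgroupOf N)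
      e.symm.toMonoidHom e.symm.injective hm)
  · rcases hS.conj (g : H) with h1 | h1
    · left
      ext x
      simp only [Subgroup.mem_map, MulEquiv.coe_toMonoidHom, MulAut.conj_apply,
        Subgroup.mem_subgroupOf]
      constructor
      · rintro ⟨s, hs, rfl⟩
        rw [← h1]
        exact ⟨s, hs, by simp⟩
      · intro hx
        rw [← h1] at hx
        obtain ⟨s, hs, hsx⟩ := hx
        refine ⟨⟨s, h hs⟩, hs, Subtype.ext ?_⟩
        simpa using hsx
    · right
      intro a ha b hb
      have h2 := h1 a ha b hb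
      apply Subtype.ext
      exact h2

theorem IsComp.map_surjective [Fact p.Prime] {G H : Type} [Group G] [Group H] (f : G →* H)
    (hf : Function.Surjective f) {S : Subgroup G} (hS : IsComp F S) :
    S.map f = ⊥ ∨ IsComp F (S.map f) := by
  rcases hS.eq_bot_or_eq (X := S ⊓ f.ker) inf_le_left (by
    rintro s hs x ⟨hx, hxk⟩
    exact ⟨S.mul_mem (S.mul_mem hs hx) (S.inv_mem hs), f.normal_ker.conj_mem x hxk s⟩) with h | h
  · right
    have h1 := A3_map_inj (F := F) f hS.simple hS.not_mem (fun x hx hx1 => by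
      have : x ∈ S ⊓ f.ker := ⟨hx, hx1⟩
      rw [h] at this
      exact this)
    refine ⟨h1.1, h1.2, fun g => ?_⟩
    obtain ⟨g, rfl⟩ := hf g
    rcases hS.conj g with h2 | h2
    · left
      conv_rhs => rw [← h2]
      ext x
      simp only [Subgroup.mem_map, MulEquiv.coe_toMonoidHom, MulAut.conj_apply]
      constructor
      · rintro ⟨_, ⟨s, hs, rfl⟩, rfl⟩
        exact ⟨_, ⟨s, hs, rfl⟩, by simp⟩
      · rintro ⟨_, ⟨s, hs, rfl⟩, rfl⟩
        exact ⟨_, ⟨s, hs, rfl⟩, by simp⟩
    · right
      rintro _ ⟨a, ha, rfl⟩ _ ⟨b, hb, rfl⟩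
      have h3 := (h2 a ha b hb).map f
      simpa using h3
  · left
    rw [Subgroup.map_eq_bot_iff, ← h]
    exact inf_le_right

variable (F)

theorem map_layer_le [Fact p.Prime] {G H : Type} [Group G] [Group H] (f : G →* H)
    (hf : Function.Surjective f) : (layer F G).map f ≤ layer F H := by
  rw [layer, sSup_eq_iSup', Subgroup.map_iSup]
  refine iSup_le fun S => ?_
  rcases S.2.map_surjective f hf with h | h
  · rw [h]
    exact bot_le
  · exact le_sSup h

theorem map_layer_subtype_le [Fact p.Prime] {H : Type} [Group H] {N : Subgroup H}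
    (hN : N.Normal) : (layer F N).map N.subtype ≤ layer F H := by
  rw [layer, sSup_eq_iSup', Subgroup.map_iSup]
  refine iSup_le fun S => ?_
  exact le_sSup (S.2.of_normal hN)

end LibKS
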