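import Pool.Agent.LibKS.A3

set_option autoImplicit false

namespace LibKS

variable {p : ℕ} (F : GoodClass p)

/-- A minimal subgroup with a given property below a given one. -/
private theorem A3b_exists_min {H : Type} [Group H] [Finite H] (P : Subgroup H → Prop)
    {N : Subgroup H} (hN : P N) :
    ∃ M, P M ∧ M ≤ N ∧ ∀ M', P M' → M' ≤ M → M' = M := by
  obtain ⟨M, hMN, hM⟩ := Set.Finite.exists_le_minimal (Set.toFinite {X : Subgroup H | P X}) hN
  exact ⟨M, hM.prop, hMN, fun M' h' hle => le_antisymm hle (hM.2 h' hle)⟩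

/-- In a group with trivial radical every nontrivial normal subgroup contains a component. -/
theorem exists_comp_le [Fact p.Prime] {H : Type} [Group H] [Finite H] (hr : rad F H = ⊥)
    {N : Subgroup H} (hN : N.Normal) (hne : N ≠ ⊥) : ∃ S : Subgroup H, IsComp F S ∧ S ≤ N := by
  obtain ⟨M, ⟨hMn, hMne⟩, hMN, hMmin⟩ :=
    A3b_exists_min (fun X : Subgroup H => X.Normal ∧ X ≠ ⊥) (N := N) ⟨hN, hne⟩
  obtain ⟨S, ⟨hSne, hSM⟩, hSle, hSmin⟩ :=
    A3b_exists_min (fun X : Subgroup H => X ≠ ⊥ ∧ ∀ m ∈ M, ∀ s ∈ X, m * s * m⁻¹ ∈ X) (N := M)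
      ⟨hMne, fun m hm s hs => M.mul_mem (M.mul_mem hm hs) (M.inv_mem hm)⟩
  -- conjugates
  have hconj : ∀ g : H, S.map (MulAut.conj g).toMonoidHom = S ∨
      ∀ a ∈ S, ∀ b ∈ S, Commute a (g * b * g⁻¹) := by
    intro g
    have hgM : ∀ m ∈ M, ∀ s ∈ S.map (MulAut.conj g).toMonoidHom,
        m * s * m⁻¹ ∈ S.map (MulAut.conj g).toMonoidHom := by
      rintro m hm _ ⟨s, hs, rfl⟩
      refine ⟨(g⁻¹ * m * g) * s * (g⁻¹ * m * g)⁻¹, hSM _ ?_ s hs, ?_⟩
      · have := hMn.conj_mem m hm g⁻¹
        simpa using this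
      · simp only [MulEquiv.coe_toMonoidHom, MulAut.conj_apply]
        group
    by_cases h : S ⊓ S.map (MulAut.conj g).toMonoidHom = ⊥
    · right
      intro a ha b hb
      have hb' : g * b * g⁻¹ ∈ S.map (MulAut.conj g).toMonoidHom := ⟨b, hb, by simp⟩
      have hbM : g * b * g⁻¹ ∈ M := hMn.conj_mem b (hSle hb) g
      set c := g * b * g⁻¹ with hc
      have h1 : a * c * a⁻¹ * c⁻¹ ∈ S := by
        have : a * (c * a⁻¹ * c⁻¹) ∈ S := S.mul_mem ha (hSM c hbM _ (S.inv_mem ha))
        simpa [mul_assoc] using this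
      have h2 : a * c * a⁻¹ * c⁻¹ ∈ S.map (MulAut.conj g).toMonoidHom :=
        Subgroup.mul_mem _ (hgM a (hSle ha) _ hb') (Subgroup.inv_mem _ hb')
      have h3 : a * c * a⁻¹ * c⁻¹ ∈ (⊥ : Subgroup H) := by
        rw [← h]; exact ⟨h1, h2⟩
      rw [Subgroup.mem_bot] at h3
      have h4 : a * c = c * a := by
        have : a * c * a⁻¹ = c := mul_inv_eq_one.mp h3
        calc a * c = a * c * a⁻¹ * a := by group
          _ = c * a := by rw [this]
      exact h4
    · left
      have h1 : S ⊓ S.map (MulAut.conj g).toMonoidHom = S := by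
        refine hSmin _ ⟨h, fun m hm s hs => ⟨hSM m hm s hs.1, hgM m hm s hs.2⟩⟩ inf_le_left
      have h2 : S ≤ S.map (MulAut.conj g).toMonoidHom := inf_eq_left.mp h1
      have h3 : Nat.card (S.map (MulAut.conj g).toMonoidHom) = Nat.card S :=
        Subgroup.card_map_of_injective (MulAut.conj g).injective
      exact (Subgroup.eq_of_le_of_card_ge h2 (le_of_eq h3)).symm
  -- the conjugates generate M
  have hgen : (⨆ g : H, S.map (MulAut.conj g).toMonoidHom) = M := by
    refine hMmin _ ⟨?_, ?_⟩ ?_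
    · refine ⟨fun n hn x => ?_⟩
      have : (⨆ g : H, S.map (MulAut.conj g).toMonoidHom).map (MulAut.conj x).toMonoidHom ≤
          ⨆ g : H, S.map (MulAut.conj g).toMonoidHom := by
        rw [Subgroup.map_iSup]
        refine iSup_le fun g => ?_
        refine le_trans (le_of_eq ?_) (le_iSup _ (x * g))
        rw [Subgroup.map_map]
        congr 1
        ext y
        simp [MulAut.conj_apply, mul_assoc]
      exact this ⟨n, hn, rfl⟩
    · intro h
      apply hSne
      rw [eq_bot_iff, ← h]
      refine le_trans ?_ (le_iSup _ 1)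
      intro s hs
      exact ⟨s, hs, by simp⟩
    · refine iSup_le fun g => ?_
      rintro _ ⟨s, hs, rfl⟩
      exact hMn.conj_mem s (hSle hs) g
  have hsimple : IsSimpleGroup S := by
    have : Nontrivial S := (Subgroup.nontrivial_iff_ne_bot S).mpr hSne
    refine ⟨fun A hA => ?_⟩
    have hAle : A.map S.subtype ≤ S := by
      rintro _ ⟨a, _, rfl⟩
      exact a.2
    have hAM : ∀ m ∈ M, ∀ s ∈ A.map S.subtype, m * s * m⁻¹ ∈ A.map S.subtype := by
      have hle : M ≤ Subgroup.normalizer (A.map S.subtype : Set H) := by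
        rw [← hgen]
        refine iSup_le fun g => ?_
        have key : ∀ x ∈ S.map (MulAut.conj g).toMonoidHom, ∀ s ∈ A.map S.subtype,
            x * s * x⁻¹ ∈ A.map S.subtype := by
          rcases hconj g with h | h
          · rw [h]
            rintro x hx _ ⟨a, ha, rfl⟩
            exact ⟨⟨x, hx⟩ * a * ⟨x, hx⟩⁻¹, hA.conj_mem a ha _, rfl⟩
          · rintro _ ⟨x, hx, rfl⟩ s hs
            have hcomm := h s (hAle hs) x hx
            have h5 : (MulAut.conj g).toMonoidHom x * s * ((MulAut.conj g).toMonoidHom x)⁻¹ = s := by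
              simp only [MulEquiv.coe_toMonoidHom, MulAut.conj_apply]
              rw [← hcomm.eq]
              group
            rw [h5]
            exact hs
        intro x hx
        rw [Subgroup.mem_normalizer_iff]
        intro s
        constructor
        · intro hs
          exact key x hx s hs
        · intro hs
          have := key x⁻¹ (Subgroup.inv_mem _ hx) _ hs
          simpa [mul_assoc] using this
      intro m hm s hs
      exact (Subgroup.mem_normalizer_iff.mp (hle hm) s).mp hs
    by_cases h : A.map S.subtype = ⊥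
    · left
      exact (Subgroup.map_eq_bot_iff_of_injective A S.subtype_injective).mp h
    · right
      have h1 := hSmin _ ⟨h, hAM⟩ hAle
      rw [eq_top_iff]
      intro s _
      have : (s : H) ∈ A.map S.subtype := by rw [h1]; exact s.2
      obtain ⟨a, ha, hh⟩ := this
      have : a = s := Subtype.ext hh
      rwa [← this]
  refine ⟨S, ⟨hsimple, ?_, hconj⟩, hSle.trans hMN⟩
  intro hF
  have h1 : rad F M = ⊥ := rad_subgroup_eq_bot F hr hMn
  have h2 : (S.subgroupOf M).Normal := by
    refine ⟨fun n hn g => ?_⟩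
    rw [Subgroup.mem_subgroupOf] at hn ⊢
    exact hSM g g.2 n hn
  have h3 : F.mem (S.subgroupOf M) := F.of_equiv (Subgroup.subgroupOfEquivOfLe hSle) hF
  have h4 := eq_bot_of_rad F h1 h2 h3
  rw [Subgroup.subgroupOf_eq_bot] at h4
  exact hSne ((h4.eq_bot_of_le hSle))

theorem centralizer_layer [Fact p.Prime] {H : Type} [Group H] [Finite H]
    (hr : rad F H = ⊥) : Subgroup.centralizer (layer F H : Set H) = ⊥ := by
  by_contra hne
  have hn : (Subgroup.centralizer (layer F H : Set H)).Normal := inferInstance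
  obtain ⟨S, hS, hle⟩ := exists_comp_le F hr hn hne
  obtain ⟨a, ha, b, hb, hab⟩ := hS.exists_not_commute
  apply hab
  have h1 : b ∈ layer F H := (le_sSup (show S ∈ {S : Subgroup H | IsComp F S} from hS)) hb
  have h2 := Subgroup.mem_centralizer_iff.mp (hle ha) b h1
  exact h2.symm

end LibKS
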