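import Pool.Agent.LibKS.A3
import Pool.Agent.LibKS.A2b

set_option autoImplicit false

namespace LibKS

variable {p : ℕ} (F : GoodClass p)

/-- A group generated by its components. -/
def Layered (X : Type) [Group X] : Prop := layer F X = ⊤

variable {F}

theorem Layered.of_surjective [Fact p.Prime] {X Y : Type} [Group X] [Group Y] (f : X →* Y)
    (hf : Function.Surjective f) (hX : Layered F X) : Layered F Y := by
  have h1 := map_layer_le F f hf
  rw [Layered] at hX
  rw [hX, Subgroup.map_top_of_surjective f hf] at h1
  exact top_le_iff.1 h1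

theorem Layered.center_eq_bot [Fact p.Prime] {X : Type} [Group X] [Finite X]
    (hX : Layered F X) : Subgroup.center X = ⊥ := by
  classical
  rw [Layered] at hX
  rw [eq_bot_iff]
  intro x hx
  rw [Subgroup.mem_bot]
  rw [Subgroup.mem_center_iff] at hx
  obtain ⟨e, he⟩ := exists_layer_equiv (F := F) X
  have hxl : x ∈ layer F X := by rw [hX]; exact Subgroup.mem_top x
  set a := e.symm ⟨x, hxl⟩ with ha
  have ha1 : e a = ⟨x, hxl⟩ := by rw [ha, MulEquiv.apply_symm_apply]
  have haS : ∀ S : {S : Subgroup X // IsComp F S}, a S = 1 := by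
    intro S
    have h1 : ((a S : S.1) : X) = 1 := by
      apply S.2.center_trivial (a S).2
      intro y hy
      have h2 : a * Pi.mulSingle S ⟨y, hy⟩ = Pi.mulSingle S ⟨y, hy⟩ * a := by
        apply e.injective
        apply Subtype.ext
        rw [map_mul, map_mul, Subgroup.coe_mul, Subgroup.coe_mul, he, ha1]
        exact (hx y).symm
      have h3 := congrFun h2 S
      rw [Pi.mul_apply, Pi.mul_apply, Pi.mulSingle_eq_same] at h3
      exact congrArg Subtype.val h3
    exact Subtype.ext h1
  have ha2 : a = 1 := funext haS
  have h4 : (⟨x, hxl⟩ : layer F X) = 1 := by rw [← ha1, ha2, map_one]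
  exact congrArg Subtype.val h4

/-- A layered group has trivial radical. -/
theorem Layered.rad_eq_bot [Fact p.Prime] {X : Type} [Group X] [Finite X]
    (hX : Layered F X) : rad F X = ⊥ := by
  have hc := hX.center_eq_bot
  rw [Layered] at hX
  have h1 : layer F X ≤ Subgroup.centralizer (rad F X : Set X) := by
    refine sSup_le fun S hS => ?_
    rcases IsComp.le_or_commute hS (rad_normal F X) with h | h
    · exact absurd (GoodClass.of_le F h (rad_mem F X)) hS.not_mem
    · intro a ha
      rw [Subgroup.mem_centralizer_iff]
      intro b hb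
      exact (h a ha b hb).symm
  rw [eq_bot_iff, ← hc]
  intro r hr
  rw [Subgroup.mem_center_iff]
  intro g
  have h2 : g ∈ Subgroup.centralizer (rad F X : Set X) := h1 (by rw [hX]; exact Subgroup.mem_top g)
  rw [Subgroup.mem_centralizer_iff] at h2
  exact (h2 r hr).symm

/-- A normal subgroup of a layered group has a direct complement, namely its centralizer. -/
theorem Layered.sup_centralizer [Fact p.Prime] {X : Type} [Group X] [Finite X]
    (hX : Layered F X) {N : Subgroup X} (hN : N.Normal) :
    N ⊔ Subgroup.centralizer (N : Set X) = ⊤ := by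
  rw [Layered] at hX
  rw [← top_le_iff, ← hX]
  refine sSup_le fun S hS => ?_
  rcases IsComp.le_or_commute hS hN with h | h
  · exact h.trans le_sup_left
  · refine le_trans ?_ le_sup_right
    intro a ha
    rw [Subgroup.mem_centralizer_iff]
    intro b hb
    exact (h a ha b hb).symm

theorem Layered.normal [Fact p.Prime] {X : Type} [Group X] [Finite X]
    (hX : Layered F X) {N : Subgroup X} (hN : N.Normal) : Layered F N := by
  have hcen := hX.center_eq_bot
  have hsup := hX.sup_centralizer hN
  have hX' := hX
  rw [Layered] at hX'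
  set C := Subgroup.centralizer (N : Set X) with hC
  have hCn : C.Normal := by
    rw [hC]; infer_instance
  set N0 : Subgroup X := sSup {S : Subgroup X | IsComp F S ∧ S ≤ N} with hN0
  have hN0N : N0 ≤ N := sSup_le fun S hS => hS.2
  have htop : N0 ⊔ C = ⊤ := by
    rw [← top_le_iff, ← hX']
    refine sSup_le fun S hS => ?_
    rcases IsComp.le_or_commute hS hN with h | h
    · have hSN : S ∈ {S : Subgroup X | IsComp F S ∧ S ≤ N} := ⟨hS, h⟩
      exact le_trans (le_sSup hSN) le_sup_left
    · refine le_trans ?_ le_sup_right
      intro a ha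
      rw [hC, Subgroup.mem_centralizer_iff]
      intro b hb
      exact (h a ha b hb).symm
  have hNN0 : N ≤ N0 := by
    intro x hx
    have hx' : x ∈ ((N0 ⊔ C : Subgroup X) : Set X) := by rw [htop]; exact Subgroup.mem_top x
    rw [Subgroup.mul_normal N0 C] at hx'
    obtain ⟨n0, hn0, c, hc, rfl⟩ := Set.mem_mul.1 hx'
    have hcN : c ∈ N := by
      have h1 := N.mul_mem (N.inv_mem (hN0N hn0)) hx
      rwa [inv_mul_cancel_left] at h1
    have hc1 : c ∈ Subgroup.center X := by
      have h2 : N ⊔ C ≤ Subgroup.centralizer ({c} : Set X) := by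
        refine sup_le ?_ ?_
        · intro n hn
          rw [Subgroup.mem_centralizer_iff]
          intro c' hc'
          rw [Set.mem_singleton_iff.1 hc']
          have h3 := Subgroup.mem_centralizer_iff.1 (show c ∈ Subgroup.centralizer (N : Set X)
            from hc) n hn
          exact h3.symm
        · intro d hd
          rw [Subgroup.mem_centralizer_iff]
          intro c' hc'
          rw [Set.mem_singleton_iff.1 hc']
          exact Subgroup.mem_centralizer_iff.1 (show d ∈ Subgroup.centralizer (N : Set X)
            from hd) c hcN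
      rw [Subgroup.mem_center_iff]
      intro g
      have h4 : g ∈ Subgroup.centralizer ({c} : Set X) := h2 (by rw [hsup]; exact Subgroup.mem_top g)
      exact (Subgroup.mem_centralizer_iff.1 h4 c rfl).symm
    rw [hcen, Subgroup.mem_bot] at hc1
    change n0 * c ∈ N0
    rw [hc1, mul_one]
    exact hn0
  have hfin : N0 ≤ (layer F N).map N.subtype := by
    refine sSup_le fun S hS => ?_
    intro s hs
    have h1 : (S.subgroupOf N) ≤ layer F N := le_sSup (hS.1.subgroupOf hS.2)
    exact ⟨⟨s, hS.2 hs⟩, h1 (by rwa [Subgroup.mem_subgroupOf]), rfl⟩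
  rw [Layered, ← top_le_iff]
  intro x _
  obtain ⟨y, hy, hyx⟩ := hfin (hNN0 x.2)
  have : y = x := Subtype.ext hyx
  rw [← this]
  exact hy

end LibKS
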