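import Pool.Agent.LibKS.A5

set_option autoImplicit false

namespace LibKS

variable {p : ℕ} {F : GoodClass p}

theorem layered_layer [Fact p.Prime] (H : Type) [Group H] [Finite H] :
    Layered F (layer F H) := by
  have h1 : layer F H ≤ (layer F (layer F H)).map (layer F H).subtype := by
    rw [layer, sSup_le_iff]
    intro S hS
    have hS' : IsComp F S := hS
    have hle : S ≤ layer F H := le_sSup hS'
    have hc : IsComp F (S.subgroupOf (layer F H)) := IsComp.subgroupOf hS' hle
    have hle2 : S.subgroupOf (layer F H) ≤ layer F (layer F H) := le_sSup hc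
    intro x hx
    exact ⟨⟨x, hle hx⟩, hle2 hx, rfl⟩
  rw [Layered, eq_top_iff]
  intro x _
  obtain ⟨y, hy, hyx⟩ := h1 x.2
  have : y = x := Subtype.ext hyx
  rw [← this]
  exact hy

theorem Layered.le_layer [Fact p.Prime] {H : Type} [Group H] {N : Subgroup H}
    (hN : N.Normal) (h : Layered F N) : N ≤ layer F H := by
  intro x hx
  have h1 := map_layer_subtype_le F hN
  apply h1
  refine ⟨⟨x, hx⟩, ?_, rfl⟩
  rw [Layered] at h
  rw [h]
  trivial

/-- A subdirect product of two layered groups is layered. -/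
theorem Layered.of_quotients [Fact p.Prime] {X : Type} [Group X] [Finite X]
    {A B : Subgroup X} [A.Normal] [B.Normal] (h : A ⊓ B = ⊥)
    (hA : Layered F (X ⧸ A)) (hB : Layered F (X ⧸ B)) : Layered F X := by
  have hAB : ∀ x, x ∈ A → x ∈ B → x = 1 := by
    intro x h1 h2
    have : x ∈ A ⊓ B := ⟨h1, h2⟩
    rw [h] at this
    exact this
  -- the image of `A` in `X ⧸ B`
  have hA'n : (A.map (QuotientGroup.mk' B)).Normal :=
    Subgroup.Normal.map inferInstance _ (QuotientGroup.mk'_surjective B)
  have hA' : Layered F (A.map (QuotientGroup.mk' B)) := Layered.normal hB hA'n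
  have hinj : Function.Injective ((QuotientGroup.mk' B).subgroupMap A) := by
    rw [injective_iff_map_eq_one]
    rintro ⟨a, ha⟩ h1
    have h2 : QuotientGroup.mk' B a = 1 := congrArg Subtype.val h1
    rw [QuotientGroup.mk'_apply, QuotientGroup.eq_one_iff] at h2
    exact Subtype.ext (hAB a ha h2)
  have hbij : Function.Bijective ((QuotientGroup.mk' B).subgroupMap A) :=
    ⟨hinj, MonoidHom.subgroupMap_surjective _ _⟩
  have hAl : Layered F A :=
    Layered.of_surjective (MulEquiv.ofBijective _ hbij).symm.toMonoidHom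
      (MulEquiv.ofBijective _ hbij).symm.surjective hA'
  -- the centralizer of `A`
  have hCn : (Subgroup.centralizer (A : Set X)).Normal := inferInstance
  have hsup : ∀ x : X, ∃ a ∈ A, ∃ y ∈ Subgroup.centralizer (A : Set X), x = a * y := by
    intro x
    have h1 := Layered.sup_centralizer hB hA'n
    have h2 : QuotientGroup.mk' B x ∈ A.map (QuotientGroup.mk' B) ⊔
        Subgroup.centralizer ((A.map (QuotientGroup.mk' B) : Subgroup (X ⧸ B)) : Set (X ⧸ B)) := by
      rw [h1]
      trivial
    rw [Subgroup.mem_sup_of_normal_left] at h2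
    obtain ⟨_, ⟨a, ha, rfl⟩, c, hc, hac⟩ := h2
    refine ⟨a, ha, a⁻¹ * x, ?_, by group⟩
    have hcy : QuotientGroup.mk' B (a⁻¹ * x) = c := by
      rw [map_mul, map_inv, ← hac]
      group
    rw [Subgroup.mem_centralizer_iff]
    intro b hb
    have h3 := (Subgroup.mem_centralizer_iff.mp hc) (QuotientGroup.mk' B b) ⟨b, hb, rfl⟩
    rw [← hcy, ← map_mul, ← map_mul] at h3
    have h4 : (b * (a⁻¹ * x)) * ((a⁻¹ * x) * b)⁻¹ ∈ B := by
      rw [← QuotientGroup.eq_one_iff, ← QuotientGroup.mk'_apply, map_mul, map_inv, h3,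
        mul_inv_cancel]
    have h5 : (b * (a⁻¹ * x)) * ((a⁻¹ * x) * b)⁻¹ ∈ A := by
      have h6 : (b * (a⁻¹ * x)) * ((a⁻¹ * x) * b)⁻¹ =
          b * ((a⁻¹ * x) * b⁻¹ * (a⁻¹ * x)⁻¹) := by group
      rw [h6]
      exact A.mul_mem hb (Subgroup.Normal.conj_mem inferInstance _ (A.inv_mem hb) _)
    exact mul_inv_eq_one.mp (hAB _ h5 h4)
  have hCA : ∀ x, x ∈ A → x ∈ Subgroup.centralizer (A : Set X) → x = 1 := by
    intro x hx hxc
    have h1 : (⟨x, hx⟩ : A) ∈ Subgroup.center A := by
      rw [Subgroup.mem_center_iff]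
      intro g
      exact Subtype.ext ((Subgroup.mem_centralizer_iff.mp hxc) g g.2)
    rw [Layered.center_eq_bot hAl] at h1
    exact congrArg Subtype.val (Subgroup.mem_bot.mp h1)
  have hinj2 : Function.Injective
      ((QuotientGroup.mk' A).comp (Subgroup.centralizer (A : Set X)).subtype) := by
    rw [injective_iff_map_eq_one]
    rintro ⟨c, hc⟩ h1
    have h2 : QuotientGroup.mk' A c = 1 := h1
    rw [QuotientGroup.mk'_apply, QuotientGroup.eq_one_iff] at h2
    exact Subtype.ext (hCA c h2 hc)
  have hsurj2 : Function.Surjective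
      ((QuotientGroup.mk' A).comp (Subgroup.centralizer (A : Set X)).subtype) := by
    intro q
    obtain ⟨x, rfl⟩ := QuotientGroup.mk'_surjective A q
    obtain ⟨a, ha, y, hy, rfl⟩ := hsup x
    refine ⟨⟨y, hy⟩, ?_⟩
    have h1 : QuotientGroup.mk' A a = 1 := by
      rw [QuotientGroup.mk'_apply, QuotientGroup.eq_one_iff]
      exact ha
    rw [map_mul, h1, one_mul]
    rfl
  have hCl : Layered F (Subgroup.centralizer (A : Set X)) :=
    Layered.of_surjective (MulEquiv.ofBijective _ ⟨hinj2, hsurj2⟩).symm.toMonoidHom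
      (MulEquiv.ofBijective _ ⟨hinj2, hsurj2⟩).symm.surjective hA
  have h1 : A ≤ layer F X := Layered.le_layer inferInstance hAl
  have h2 : Subgroup.centralizer (A : Set X) ≤ layer F X := Layered.le_layer hCn hCl
  rw [Layered, eq_top_iff]
  intro x _
  obtain ⟨a, ha, y, hy, rfl⟩ := hsup x
  exact (layer F X).mul_mem (h1 ha) (h2 hy)

end LibKS
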