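import Pool.Agent.LibKS.A5b
import Pool.Agent.LibKS.A3b

set_option autoImplicit false

namespace LibKS

variable {p : ℕ} {F : GoodClass p}

theorem PL.of_surjective [Fact p.Prime] {n : ℕ} {G G' : Type} [Group G] [Group G']
    (f : G →* G') (hf : Function.Surjective f) (h : PL F n G) : PL F n G' := by
  induction n generalizing G G' with
  | zero => exact F.of_surjective f hf h
  | succ n ih =>
    obtain ⟨H, _, f0, hs, hk, hpl⟩ := h
    have hnorm : (f.ker.map f0).Normal := Subgroup.Normal.map inferInstance f0 hs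
    have hle : f.ker ≤ ((QuotientGroup.mk' (f.ker.map f0)).comp f0).ker := by
      intro x hx
      rw [MonoidHom.mem_ker, MonoidHom.comp_apply]
      exact (QuotientGroup.eq_one_iff _).2 ⟨x, hx, rfl⟩
    let g : G' →* H ⧸ f.ker.map f0 :=
      f.liftOfSurjective hf ⟨(QuotientGroup.mk' (f.ker.map f0)).comp f0, hle⟩
    have hg : ∀ x : G, g (f x) = QuotientGroup.mk' (f.ker.map f0) (f0 x) := fun x =>
      MonoidHom.liftOfRightInverse_comp_apply f _ (Function.rightInverse_surjInv hf)
        ⟨(QuotientGroup.mk' (f.ker.map f0)).comp f0, hle⟩ x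
    have hgs : Function.Surjective g := by
      intro y
      obtain ⟨z, rfl⟩ := QuotientGroup.mk'_surjective _ y
      obtain ⟨x, rfl⟩ := hs z
      exact ⟨f x, hg x⟩
    have hgk : g.ker ≤ f0.ker.map f := by
      intro y hy
      obtain ⟨x, rfl⟩ := hf y
      rw [MonoidHom.mem_ker, hg] at hy
      obtain ⟨z, hz, hz'⟩ := (QuotientGroup.eq_one_iff _).1 hy
      refine ⟨x * z⁻¹, ?_, ?_⟩
      · change x * z⁻¹ ∈ f0.ker
        rw [MonoidHom.mem_ker, map_mul, map_inv, hz', mul_inv_cancel]
      · have hz1 : f z = 1 := hz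
        rw [map_mul, map_inv, hz1, inv_one, mul_one]
    refine ⟨H ⧸ f.ker.map f0, inferInstance, g, hgs, F.of_le hgk (F.map f hk), ?_⟩
    have hlay : layer F H ≤ (layer F (H ⧸ f.ker.map f0)).comap
        (QuotientGroup.mk' (f.ker.map f0)) := by
      rw [← Subgroup.map_le_iff_le_comap]
      exact map_layer_le F _ (QuotientGroup.mk'_surjective _)
    refine ih (QuotientGroup.map (layer F H) (layer F (H ⧸ f.ker.map f0))
      (QuotientGroup.mk' (f.ker.map f0)) hlay) ?_ hpl
    intro y
    obtain ⟨z, rfl⟩ := QuotientGroup.mk'_surjective _ y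
    obtain ⟨x, rfl⟩ := QuotientGroup.mk'_surjective _ z
    exact ⟨QuotientGroup.mk' _ x, rfl⟩

theorem PL.of_equiv [Fact p.Prime] {n : ℕ} {G G' : Type} [Group G] [Group G']
    (e : G ≃* G') (h : PL F n G) : PL F n G' :=
  PL.of_surjective e.toMonoidHom e.surjective h

theorem A6_mem_ker_comp {G G' H : Type} [Group G] [Group G'] [Group H] (f : G →* G')
    (f0 : G' →* H) (hk : F.mem f.ker) (hk0 : F.mem f0.ker) : F.mem (f0.comp f).ker := by
  let r : (f0.comp f).ker →* f0.ker :=
    (f.comp (f0.comp f).ker.subtype).codRestrict f0.ker (fun x => x.2)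
  have hr : ∀ x : (f0.comp f).ker, ((r x : f0.ker) : G') = f (x : G) := fun _ => rfl
  have hrk : ∀ x : r.ker, ((x : (f0.comp f).ker) : G) ∈ f.ker := by
    intro x
    have h1 : r (x : (f0.comp f).ker) = 1 := x.2
    have h2 := hr (x : (f0.comp f).ker)
    rw [h1] at h2
    exact h2.symm
  refine F.of_ker r (F.of_injective (((f0.comp f).ker.subtype.comp r.ker.subtype).codRestrict
    f.ker hrk) ?_ hk) hk0
  intro x y hxy
  have h3 := congrArg Subtype.val hxy
  exact Subtype.ext (Subtype.ext h3)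

theorem PL.of_ker [Fact p.Prime] {n : ℕ} {G G' : Type} [Group G] [Group G'] (f : G →* G')
    (hf : Function.Surjective f) (hk : F.mem f.ker) (h : PL F n G') : PL F n G := by
  cases n with
  | zero => exact F.of_ker f hk h
  | succ n =>
    obtain ⟨H, _, f0, hs, hk0, hpl⟩ := h
    exact ⟨H, _, f0.comp f, hs.comp hf, A6_mem_ker_comp f f0 hk hk0, hpl⟩

/-- `PL` passes from one quotient to a smaller one. -/
theorem PL.of_le [Fact p.Prime] {n : ℕ} {G : Type} [Group G] {A B : Subgroup G} [A.Normal]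
    [B.Normal] (hAB : A ≤ B) (h : PL F n (G ⧸ A)) : PL F n (G ⧸ B) := by
  refine PL.of_surjective (QuotientGroup.map A B (MonoidHom.id G) hAB) ?_ h
  intro y
  obtain ⟨x, rfl⟩ := QuotientGroup.mk'_surjective _ y
  exact ⟨QuotientGroup.mk' _ x, rfl⟩

theorem A6_succ [Fact p.Prime] {n : ℕ} {G : Type} [Group G] (h : PL F n G) :
    PL F (n + 1) G := by
  induction n generalizing G with
  | zero =>
    refine ⟨Unit, inferInstance, 1, fun y => ⟨1, rfl⟩, ?_, ?_⟩
    · exact F.of_injective (Subgroup.subtype _) (Subgroup.subtype_injective _) h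
    · exact F.of_surjective (QuotientGroup.mk' (layer F Unit)) (QuotientGroup.mk'_surjective _)
        (F.of_subsingleton)
  | succ n ih =>
    obtain ⟨H, _, f0, hs, hk0, hpl⟩ := h
    exact ⟨H, _, f0, hs, hk0, ih hpl⟩

theorem PL.mono [Fact p.Prime] {n m : ℕ} (hnm : n ≤ m) {G : Type} [Group G]
    (h : PL F n G) : PL F m G := by
  induction hnm with
  | refl => exact h
  | step _ ih => exact A6_succ ih

theorem PL.of_mem [Fact p.Prime] (n : ℕ) {G : Type} [Group G] (h : F.mem G) : PL F n G :=
  PL.mono (Nat.zero_le n) (show PL F 0 G from h)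

/-- Canonical form of the successor step. -/
theorem PL.quotient_layer [Fact p.Prime] {n : ℕ} {G : Type} [Group G] [Finite G]
    (h : PL F (n + 1) G) (hr : rad F G = ⊥) : PL F n (G ⧸ layer F G) := by
  obtain ⟨H, _, f, hs, hk, hpl⟩ := h
  have hker : f.ker = ⊥ := eq_bot_of_rad F hr inferInstance hk
  let e : G ≃* H := MulEquiv.ofBijective f ⟨(MonoidHom.ker_eq_bot_iff f).1 hker, hs⟩
  have hlay : layer F H ≤ (layer F G).comap e.symm.toMonoidHom := by
    rw [← Subgroup.map_le_iff_le_comap]
    exact map_layer_le F _ e.symm.surjective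
  refine PL.of_surjective (QuotientGroup.map (layer F H) (layer F G) e.symm.toMonoidHom hlay)
    ?_ hpl
  intro y
  obtain ⟨x, rfl⟩ := QuotientGroup.mk'_surjective _ y
  refine ⟨QuotientGroup.mk' _ (e x), ?_⟩
  change QuotientGroup.mk' _ (e.symm (e x)) = _
  rw [e.symm_apply_apply]

theorem PL.succ_of_layer [Fact p.Prime] {n : ℕ} {G : Type} [Group G]
    (h : PL F n (G ⧸ layer F G)) : PL F (n + 1) G := by
  refine ⟨G, _, MonoidHom.id G, fun x => ⟨x, rfl⟩, ?_, h⟩
  have : Subsingleton (MonoidHom.id G).ker := by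
    refine ⟨fun a b => Subtype.ext ?_⟩
    have ha : (a : G) = 1 := a.2
    have hb : (b : G) = 1 := b.2
    rw [ha, hb]
  exact F.of_subsingleton

/-- The successor step by means of a normal subgroup `L` whose image modulo the normal subgroup
`R` of the class is layered. -/
theorem PL.succ_of_layered [Fact p.Prime] {n : ℕ} {G H : Type} [Group G] [Group H]
    (f : G →* H) (hf : Function.Surjective f) (hk : F.mem f.ker) {L : Subgroup H} [L.Normal]
    (hL : Layered F L) (h : PL F n (H ⧸ L)) : PL F (n + 1) G :=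
  ⟨H, _, f, hf, hk, PL.of_le (Layered.le_layer inferInstance hL) h⟩

theorem NilClass.of_surjective {G H : Type} [Group G] [Group H] (hG : NilClass F G)
    (f : G →* H) (hf : Function.Surjective f) : NilClass F H := by
  intro H' _ f' hf' N hN hNF
  exact hG H' (f'.comp f) (hf'.comp hf) N hN hNF

theorem OutHyp.of_surjective {G H : Type} [Group G] [Group H] (hG : OutHyp F G)
    (f : G →* H) (hf : Function.Surjective f) : OutHyp F H := by
  rintro T _ hT hTF ⟨K, g, hg⟩
  refine hG T hT hTF ⟨K.comap f, g.comp (f.subgroupComap K), ?_⟩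
  intro t
  obtain ⟨y, rfl⟩ := hg t
  obtain ⟨x, hx⟩ := hf (y : H)
  refine ⟨⟨x, ?_⟩, ?_⟩
  · rw [Subgroup.mem_comap, hx]
    exact y.2
  · rw [MonoidHom.comp_apply]
    congr 1
    exact Subtype.ext hx

theorem OutHyp.subgroup {G : Type} [Group G] (hG : OutHyp F G) (U : Subgroup G) :
    OutHyp F U := by
  rintro T _ hT hTF ⟨K, g, hg⟩
  let e : K ≃* K.map U.subtype := K.equivMapOfInjective U.subtype U.subtype_injective
  exact hG T hT hTF ⟨K.map U.subtype, g.comp e.symm.toMonoidHom, hg.comp e.symm.surjective⟩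

end LibKS
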