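import Pool.Agent.LibKS.A6

set_option autoImplicit false

namespace LibKS

variable {p : ℕ} {F : GoodClass p}

/-- The quotient by the kernel of a homomorphism with normal range in a layered group is
layered. -/
private theorem A7_layered_quotient_ker [Fact p.Prime] {X Y : Type} [Group X] [Group Y]
    [Finite Y] (φ : X →* Y) (hY : Layered F Y) (hn : φ.range.Normal) :
    Layered F (X ⧸ φ.ker) := by
  have h1 : Layered F φ.range := Layered.normal hY hn
  exact Layered.of_surjective (QuotientGroup.quotientKerEquivRange φ).symm.toMonoidHom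
    (QuotientGroup.quotientKerEquivRange φ).symm.surjective h1

private theorem A7_core [Fact p.Prime] {Y H₁ H₂ : Type} [Group Y] [Group H₁] [Group H₂]
    [Finite Y] [Finite H₁] [Finite H₂] (f₁ : Y →* H₁) (f₂ : Y →* H₂)
    (h₁ : Function.Surjective f₁) (h₂ : Function.Surjective f₂) (hk : f₁.ker ⊓ f₂.ker = ⊥) :
    Layered F ((layer F H₁).comap f₁ ⊓ (layer F H₂).comap f₂ : Subgroup Y) := by
  set L : Subgroup Y := (layer F H₁).comap f₁ ⊓ (layer F H₂).comap f₂ with hL
  have hLn : L.Normal := by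
    rw [hL]
    infer_instance
  let φ₁ : L →* layer F H₁ := (f₁.comp L.subtype).codRestrict (layer F H₁)
    (fun x => x.2.1)
  let φ₂ : L →* layer F H₂ := (f₂.comp L.subtype).codRestrict (layer F H₂)
    (fun x => x.2.2)
  have hn₁ : φ₁.range.Normal := by
    refine ⟨?_⟩
    rintro _ ⟨x, rfl⟩ g
    obtain ⟨y, hy⟩ := h₁ (g : H₁)
    refine ⟨⟨y * x * y⁻¹, hLn.conj_mem x x.2 y⟩, ?_⟩
    apply Subtype.ext
    change f₁ (y * x * y⁻¹) = g * f₁ x * (g : H₁)⁻¹
    rw [map_mul, map_mul, map_inv, hy]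
  have hn₂ : φ₂.range.Normal := by
    refine ⟨?_⟩
    rintro _ ⟨x, rfl⟩ g
    obtain ⟨y, hy⟩ := h₂ (g : H₂)
    refine ⟨⟨y * x * y⁻¹, hLn.conj_mem x x.2 y⟩, ?_⟩
    apply Subtype.ext
    change f₂ (y * x * y⁻¹) = g * f₂ x * (g : H₂)⁻¹
    rw [map_mul, map_mul, map_inv, hy]
  refine Layered.of_quotients (A := φ₁.ker) (B := φ₂.ker) ?_
    (A7_layered_quotient_ker φ₁ (layered_layer H₁) hn₁)
    (A7_layered_quotient_ker φ₂ (layered_layer H₂) hn₂)
  rw [eq_bot_iff]
  rintro x ⟨hx1, hx2⟩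
  rw [Subgroup.mem_bot]
  apply Subtype.ext
  have e1 : f₁ x = 1 := congrArg Subtype.val hx1
  have e2 : f₂ x = 1 := congrArg Subtype.val hx2
  have : (x : Y) ∈ f₁.ker ⊓ f₂.ker := ⟨e1, e2⟩
  rw [hk, Subgroup.mem_bot] at this
  simpa using this

private theorem A7_quot_comap [Fact p.Prime] {n : ℕ} {Y H : Type} [Group Y] [Group H]
    (f : Y →* H) (hf : Function.Surjective f) {N : Subgroup H} [N.Normal]
    (h : PL F n (H ⧸ N)) : PL F n (Y ⧸ N.comap f) := by
  have hs : Function.Surjective ((QuotientGroup.mk' N).comp f) :=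
    (QuotientGroup.mk'_surjective N).comp hf
  have h1 : PL F n (Y ⧸ ((QuotientGroup.mk' N).comp f).ker) :=
    PL.of_equiv (QuotientGroup.quotientKerEquivOfSurjective _ hs).symm h
  refine PL.of_le ?_ h1
  intro x hx
  rw [MonoidHom.mem_ker, MonoidHom.comp_apply, QuotientGroup.mk'_apply,
    QuotientGroup.eq_one_iff] at hx
  exact hx

private theorem A7_step [Fact p.Prime] {n : ℕ}
    (ih : ∀ {G : Type} [Group G] [Finite G] {A B : Subgroup G} [A.Normal] [B.Normal],
      PL F n (G ⧸ A) → PL F n (G ⧸ B) → PL F n (G ⧸ (A ⊓ B)))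
    {Y H₁ H₂ : Type} [Group Y] [Group H₁] [Group H₂]
    [Finite Y] [Finite H₁] [Finite H₂] (f₁ : Y →* H₁) (f₂ : Y →* H₂)
    (h₁ : Function.Surjective f₁) (h₂ : Function.Surjective f₂) (hk : f₁.ker ⊓ f₂.ker = ⊥)
    (r₁ : rad F H₁ = ⊥) (r₂ : rad F H₂ = ⊥) (p₁ : PL F (n + 1) H₁) (p₂ : PL F (n + 1) H₂) :
    PL F (n + 1) Y := by
  have hl := A7_core (F := F) f₁ f₂ h₁ h₂ hk
  have q₁ : PL F n (H₁ ⧸ layer F H₁) := p₁.quotient_layer r₁
  have q₂ : PL F n (H₂ ⧸ layer F H₂) := p₂.quotient_layer r₂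
  have t := ih (A7_quot_comap f₁ h₁ q₁) (A7_quot_comap f₂ h₂ q₂)
  refine PL.succ_of_layered (MonoidHom.id Y) (fun y => ⟨y, rfl⟩) ?_ hl t
  have : Subsingleton (MonoidHom.id Y).ker := by
    rw [MonoidHom.ker_id]
    infer_instance
  exact F.of_subsingleton

/-- Formation property of the length. -/
theorem PL.formation [Fact p.Prime] {n : ℕ} {G : Type} [Group G] [Finite G]
    {A B : Subgroup G} [A.Normal] [B.Normal] (hA : PL F n (G ⧸ A)) (hB : PL F n (G ⧸ B)) :
    PL F n (G ⧸ (A ⊓ B)) := by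
  induction n generalizing G with
  | zero =>
    have ha : F.mem (G ⧸ A) := hA
    have hb : F.mem (G ⧸ B) := hB
    change F.mem (G ⧸ (A ⊓ B))
    let φ : G →* (G ⧸ A) × (G ⧸ B) := (QuotientGroup.mk' A).prod (QuotientGroup.mk' B)
    have hle : A ⊓ B ≤ φ.ker := by
      intro x hx
      rw [MonoidHom.mem_ker]
      ext
      · exact (QuotientGroup.eq_one_iff x).2 hx.1
      · exact (QuotientGroup.eq_one_iff x).2 hx.2
    refine F.of_injective (QuotientGroup.lift (A ⊓ B) φ hle) ?_ (F.prod ha hb)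
    rw [injective_iff_map_eq_one]
    intro x
    refine QuotientGroup.induction_on x (fun g hg => ?_)
    rw [QuotientGroup.lift_mk] at hg
    have g1 : (g : G ⧸ A) = 1 := congrArg Prod.fst hg
    have g2 : (g : G ⧸ B) = 1 := congrArg Prod.snd hg
    rw [QuotientGroup.eq_one_iff] at g1 g2 ⊢
    exact ⟨g1, g2⟩
  | succ n ih =>
    let H₁ := (G ⧸ A) ⧸ rad F (G ⧸ A)
    let H₂ := (G ⧸ B) ⧸ rad F (G ⧸ B)
    let f₁ : G →* H₁ := (QuotientGroup.mk' (rad F (G ⧸ A))).comp (QuotientGroup.mk' A)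
    let f₂ : G →* H₂ := (QuotientGroup.mk' (rad F (G ⧸ B))).comp (QuotientGroup.mk' B)
    have s₁ : Function.Surjective f₁ :=
      (QuotientGroup.mk'_surjective _).comp (QuotientGroup.mk'_surjective _)
    have s₂ : Function.Surjective f₂ :=
      (QuotientGroup.mk'_surjective _).comp (QuotientGroup.mk'_surjective _)
    have r₁ : rad F H₁ = ⊥ := rad_eq_bot_of_ker F (QuotientGroup.mk' (rad F (G ⧸ A)))
      (QuotientGroup.mk'_surjective _) (QuotientGroup.ker_mk' _)
    have r₂ : rad F H₂ = ⊥ := rad_eq_bot_of_ker F (QuotientGroup.mk' (rad F (G ⧸ B)))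
      (QuotientGroup.mk'_surjective _) (QuotientGroup.ker_mk' _)
    have p₁ : PL F (n + 1) H₁ := PL.of_surjective _ (QuotientGroup.mk'_surjective _) hA
    have p₂ : PL F (n + 1) H₂ := PL.of_surjective _ (QuotientGroup.mk'_surjective _) hB
    let R : Subgroup G := f₁.ker ⊓ f₂.ker
    let g₁ : G ⧸ R →* H₁ := QuotientGroup.lift R f₁ inf_le_left
    let g₂ : G ⧸ R →* H₂ := QuotientGroup.lift R f₂ inf_le_right
    have hY : PL F (n + 1) (G ⧸ R) := by
      refine A7_step (fun {G} _ _ {A B} _ _ => ih) g₁ g₂ ?_ ?_ ?_ r₁ r₂ p₁ p₂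
      · intro y
        obtain ⟨x, rfl⟩ := s₁ y
        exact ⟨(x : G ⧸ R), rfl⟩
      · intro y
        obtain ⟨x, rfl⟩ := s₂ y
        exact ⟨(x : G ⧸ R), rfl⟩
      · rw [eq_bot_iff]
        rintro x ⟨hx1, hx2⟩
        rw [Subgroup.mem_bot]
        revert hx1 hx2
        refine QuotientGroup.induction_on x (fun g h1 h2 => ?_)
        rw [QuotientGroup.eq_one_iff]
        exact ⟨h1, h2⟩
    have hle : A ⊓ B ≤ R := by
      intro x hx
      have e1 : ((x : G) : G ⧸ A) = 1 := (QuotientGroup.eq_one_iff x).2 hx.1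
      have e2 : ((x : G) : G ⧸ B) = 1 := (QuotientGroup.eq_one_iff x).2 hx.2
      refine ⟨?_, ?_⟩
      · change f₁ x = 1
        change QuotientGroup.mk' (rad F (G ⧸ A)) (x : G ⧸ A) = 1
        rw [e1, map_one]
      · change f₂ x = 1
        change QuotientGroup.mk' (rad F (G ⧸ B)) (x : G ⧸ B) = 1
        rw [e2, map_one]
    let h : G ⧸ (A ⊓ B) →* G ⧸ R := QuotientGroup.lift (A ⊓ B) (QuotientGroup.mk' R)
      (by rw [QuotientGroup.ker_mk']; exact hle)
    have hs : Function.Surjective h := by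
      intro y
      refine QuotientGroup.induction_on y (fun g => ?_)
      exact ⟨(g : G ⧸ (A ⊓ B)), rfl⟩
    refine PL.of_ker h hs ?_ hY
    -- the kernel embeds in the product of the two radicals
    let a₁ : G ⧸ (A ⊓ B) →* G ⧸ A := QuotientGroup.lift (A ⊓ B) (QuotientGroup.mk' A)
      (by rw [QuotientGroup.ker_mk']; exact inf_le_left)
    let a₂ : G ⧸ (A ⊓ B) →* G ⧸ B := QuotientGroup.lift (A ⊓ B) (QuotientGroup.mk' B)
      (by rw [QuotientGroup.ker_mk']; exact inf_le_right)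
    have m₁ : ∀ x : h.ker, a₁ x ∈ rad F (G ⧸ A) := by
      rintro ⟨x, hx⟩
      revert hx
      refine QuotientGroup.induction_on x (fun g hg => ?_)
      have hg' : ((g : G) : G ⧸ R) = 1 := hg
      rw [QuotientGroup.eq_one_iff] at hg'
      have h3 : f₁ g = 1 := hg'.1
      exact (QuotientGroup.eq_one_iff _).1 h3
    have m₂ : ∀ x : h.ker, a₂ x ∈ rad F (G ⧸ B) := by
      rintro ⟨x, hx⟩
      revert hx
      refine QuotientGroup.induction_on x (fun g hg => ?_)
      have hg' : ((g : G) : G ⧸ R) = 1 := hg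
      rw [QuotientGroup.eq_one_iff] at hg'
      have h3 : f₂ g = 1 := hg'.2
      exact (QuotientGroup.eq_one_iff _).1 h3
    let b₁ : h.ker →* rad F (G ⧸ A) := (a₁.comp h.ker.subtype).codRestrict _ m₁
    let b₂ : h.ker →* rad F (G ⧸ B) := (a₂.comp h.ker.subtype).codRestrict _ m₂
    refine F.of_injective (b₁.prod b₂) ?_ (F.prod (rad_mem F (G ⧸ A)) (rad_mem F (G ⧸ B)))
    rw [injective_iff_map_eq_one]
    rintro ⟨x, hx⟩ hb
    have e1 : a₁ x = 1 := congrArg Subtype.val (congrArg Prod.fst hb)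
    have e2 : a₂ x = 1 := congrArg Subtype.val (congrArg Prod.snd hb)
    apply Subtype.ext
    change x = 1
    clear hb hx
    revert e1 e2
    refine QuotientGroup.induction_on x (fun g e1 e2 => ?_)
    have e1' : ((g : G) : G ⧸ A) = 1 := e1
    have e2' : ((g : G) : G ⧸ B) = 1 := e2
    rw [QuotientGroup.eq_one_iff] at e1' e2' ⊢
    exact ⟨e1', e2'⟩

/-- Formation property for a finite family. -/
theorem PL.formation_iInf [Fact p.Prime] {n : ℕ} {G : Type} [Group G] [Finite G] {ι : Type}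
    [Finite ι] {A : ι → Subgroup G} [∀ i, (A i).Normal] (hA : ∀ i, PL F n (G ⧸ A i))
    [(⨅ i, A i).Normal] : PL F n (G ⧸ (⨅ i, A i)) := by
  classical
  cases nonempty_fintype ι
  have key : ∀ s : Finset ι, ∃ B : Subgroup G, ∃ _ : B.Normal, B ≤ (⨅ i ∈ s, A i) ∧
      PL F n (G ⧸ B) ∨ s = ∅ := by
    intro s
    induction s using Finset.induction_on with
    | empty => exact ⟨⊤, inferInstance, Or.inr rfl⟩
    | insert i s hi ih =>
      obtain ⟨B, hB, h | h⟩ := ih
      · obtain ⟨h1, h2⟩ := h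
        refine ⟨A i ⊓ B, inferInstance, Or.inl ⟨?_, PL.formation (hA i) h2⟩⟩
        rw [Finset.iInf_insert]
        exact inf_le_inf le_rfl h1
      · subst h
        refine ⟨A i, inferInstance, Or.inl ⟨?_, hA i⟩⟩
        simp
  obtain ⟨B, hB, h | h⟩ := key Finset.univ
  · obtain ⟨h1, h2⟩ := h
    exact PL.of_le (le_trans h1 (by simp)) h2
  · have : IsEmpty ι := Finset.univ_eq_empty_iff.1 h
    apply PL.of_mem
    have htop : (⨅ i, A i) = ⊤ := by simp
    have : Subsingleton (G ⧸ (⨅ i, A i)) := by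
      refine ⟨fun x y => ?_⟩
      refine QuotientGroup.induction_on x (fun g => ?_)
      refine QuotientGroup.induction_on y (fun g' => ?_)
      rw [QuotientGroup.eq, htop]
      exact Subgroup.mem_top _
    exact F.of_subsingleton

/-- Formation property for the kernels of homomorphisms. -/
theorem PL.of_ker_inf [Fact p.Prime] {n : ℕ} {G : Type} [Group G] [Finite G]
    {A B : Subgroup G} [A.Normal] [B.Normal] (hAB : A ⊓ B = ⊥) (hA : PL F n (G ⧸ A))
    (hB : PL F n (G ⧸ B)) : PL F n G := by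
  have h := PL.formation hA hB
  refine PL.of_ker (QuotientGroup.mk' (A ⊓ B)) (QuotientGroup.mk'_surjective _) ?_ h
  rw [QuotientGroup.ker_mk']
  have : Subsingleton (A ⊓ B : Subgroup G) := by
    rw [hAB]
    infer_instance
  exact F.of_subsingleton

end LibKS
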