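import Pool.Agent.LibKS.A7

set_option autoImplicit false

namespace LibKS

variable {p : ℕ} {F : GoodClass p}

private theorem A8_layer_char (H : Type) [Group H] : (layer F H).Characteristic := by
  rw [Subgroup.characteristic_iff_map_le]
  intro e
  exact map_layer_equiv_le F e

/-- Extensions. -/
theorem PL.ext [Fact p.Prime] {c n : ℕ} {G : Type} [Group G] [Finite G] (N : Subgroup G)
    [N.Normal] (hN : PL F c N) (hG : PL F n (G ⧸ N)) : PL F (n + c) G := by
  induction c generalizing n G with
  | zero =>
    refine PL.of_ker (QuotientGroup.mk' N) (QuotientGroup.mk'_surjective N) ?_ hG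
    rw [QuotientGroup.ker_mk']
    exact hN
  | succ c ih =>
    have hRc : (rad F N).Characteristic := rad_characteristic F N
    set R : Subgroup G := (rad F N).map N.subtype with hR
    have hRn : R.Normal := ConjAct.normal_of_characteristic_of_normal
    have hRF : F.mem R := GoodClass.map F N.subtype (rad_mem F N)
    set f : G →* G ⧸ R := QuotientGroup.mk' R with hf
    have hfs : Function.Surjective f := QuotientGroup.mk'_surjective R
    have hfk : f.ker = R := QuotientGroup.ker_mk' R
    set N' : Subgroup (G ⧸ R) := N.map f with hN'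
    have hN'n : N'.Normal := Subgroup.Normal.map inferInstance f hfs
    set g : N →* N' := f.subgroupMap N with hg
    have hgs : Function.Surjective g := f.subgroupMap_surjective N
    have hgk : g.ker = rad F N := by
      ext x
      rw [MonoidHom.mem_ker]
      have h1 : g x = 1 ↔ f (x : G) = 1 := by
        rw [← Subtype.coe_inj]
        rfl
      rw [h1, ← MonoidHom.mem_ker, hfk, hR]
      constructor
      · rintro ⟨y, hy, hyx⟩
        have : y = x := Subtype.ext hyx
        rw [← this]; exact hy
      · intro hx
        exact ⟨x, hx, rfl⟩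
    have hrad : rad F N' = ⊥ := rad_eq_bot_of_ker F g hgs hgk
    have hPN' : PL F c (N' ⧸ layer F N') :=
      PL.quotient_layer (PL.of_surjective g hgs hN) hrad
    have hLc : (layer F N').Characteristic := A8_layer_char N'
    set L : Subgroup (G ⧸ R) := (layer F N').map N'.subtype with hL
    have hLn : L.Normal := ConjAct.normal_of_characteristic_of_normal
    have hLl : Layered F L :=
      Layered.of_surjective
        ((layer F N').equivMapOfInjective N'.subtype N'.subtype_injective).toMonoidHom
        ((layer F N').equivMapOfInjective N'.subtype N'.subtype_injective).surjective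
        (layered_layer N')
    set q : G ⧸ R →* (G ⧸ R) ⧸ L := QuotientGroup.mk' L with hq
    have hqs : Function.Surjective q := QuotientGroup.mk'_surjective L
    set M : Subgroup ((G ⧸ R) ⧸ L) := N'.map q with hM
    have hMn : M.Normal := Subgroup.Normal.map inferInstance q hqs
    have hPM : PL F c M := by
      have hker : ∀ x ∈ layer F N', q.subgroupMap N' x = 1 := by
        intro x hx
        apply Subtype.ext
        change q (x : G ⧸ R) = 1
        rw [← MonoidHom.mem_ker, hq, QuotientGroup.ker_mk', hL]
        exact ⟨x, hx, rfl⟩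
      refine PL.of_surjective (QuotientGroup.lift (layer F N') (q.subgroupMap N') hker) ?_ hPN'
      intro y
      obtain ⟨x, hx⟩ := q.subgroupMap_surjective N' y
      exact ⟨(x : N' ⧸ layer F N'), by rw [← hx]; rfl⟩
    have hPQ : PL F n (((G ⧸ R) ⧸ L) ⧸ M) := by
      have hker : ∀ x ∈ N, ((QuotientGroup.mk' M).comp (q.comp f)) x = 1 := by
        intro x hx
        change (QuotientGroup.mk' M) (q (f x)) = 1
        rw [← MonoidHom.mem_ker, QuotientGroup.ker_mk', hM]
        exact ⟨f x, ⟨x, hx, rfl⟩, rfl⟩
      refine PL.of_surjective (QuotientGroup.lift N ((QuotientGroup.mk' M).comp (q.comp f)) hker)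
        ?_ hG
      intro y
      obtain ⟨x, hx⟩ := ((QuotientGroup.mk'_surjective M).comp (hqs.comp hfs)) y
      exact ⟨(x : G ⧸ N), by rw [← hx]; rfl⟩
    have h1 : PL F (n + c) ((G ⧸ R) ⧸ L) := ih M hPM hPQ
    exact PL.succ_of_layered f hfs (by rw [hfk]; exact hRF) hLl h1

theorem PL.of_card [Fact p.Prime] {c : ℕ} {G : Type} [Group G] [Finite G]
    (h : Nat.card G ≤ c) : PL F c G := by
  induction c generalizing G with
  | zero =>
    have : 0 < Nat.card G := Nat.card_pos
    omega
  | succ c ih =>
    by_cases hG : F.mem G
    · exact PL.of_mem _ hG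
    · set f : G →* G ⧸ rad F G := QuotientGroup.mk' (rad F G) with hf
      have hfs : Function.Surjective f := QuotientGroup.mk'_surjective _
      have hfk : f.ker = rad F G := QuotientGroup.ker_mk' _
      have hradF : F.mem (rad F G) := rad_mem F G
      have hrad : rad F (G ⧸ rad F G) = ⊥ := rad_eq_bot_of_ker F f hfs hfk
      have hne : (⊤ : Subgroup (G ⧸ rad F G)) ≠ ⊥ := by
        intro h0
        apply hG
        have h1 : rad F G = ⊤ := by
          rw [← hfk, ← top_le_iff]
          intro x _
          rw [MonoidHom.mem_ker, ← Subgroup.mem_bot, ← h0]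
          exact Subgroup.mem_top _
        have h2 : F.mem (⊤ : Subgroup G) := by rw [← h1]; exact hradF
        exact F.of_equiv (Subgroup.topEquiv (G := G)).symm h2
      obtain ⟨S, hS, -⟩ := exists_comp_le F hrad (N := ⊤) inferInstance hne
      have hSl : S ≤ layer F (G ⧸ rad F G) := le_sSup hS
      have hlne : layer F (G ⧸ rad F G) ≠ ⊥ := by
        intro h0
        rw [h0] at hSl
        exact hS.ne_bot (le_bot_iff.1 hSl)
      have hcard := Subgroup.card_eq_card_quotient_mul_card_subgroup (layer F (G ⧸ rad F G))
      have hcardl : 1 < Nat.card (layer F (G ⧸ rad F G)) :=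
        (Subgroup.one_lt_card_iff_ne_bot _).2 hlne
      have hcardq : Nat.card (G ⧸ rad F G) ≤ Nat.card G :=
        Nat.card_le_card_of_surjective f hfs
      have hpos : 0 < Nat.card ((G ⧸ rad F G) ⧸ layer F (G ⧸ rad F G)) := Nat.card_pos
      have hle : Nat.card ((G ⧸ rad F G) ⧸ layer F (G ⧸ rad F G)) * 2 ≤
          Nat.card (G ⧸ rad F G) := by
        rw [hcard]
        exact Nat.mul_le_mul_left _ hcardl
      have h3 : PL F c ((G ⧸ rad F G) ⧸ layer F (G ⧸ rad F G)) := ih (by omega)
      exact ⟨G ⧸ rad F G, inferInstance, f, hfs, by rw [hfk]; exact hradF, h3⟩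

end LibKS
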