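import Pool.Agent.LibKS.A8

set_option autoImplicit false

namespace LibKS

variable {p : ℕ} {F : GoodClass p}

/-- A group acting faithfully with orbits of length at most `κ` has bounded length. -/
theorem PL.of_smallOrbits [Fact p.Prime] {κ : ℕ} {B Ω : Type} [Group B] [Finite B]
    [Finite Ω] [MulAction B Ω] (h : ∀ ω : Ω, Nat.card (MulAction.orbit B ω) ≤ κ) :
    PL F κ.factorial (B ⧸ (MulAction.toPermHom B Ω).ker) := by
  classical
  let A : Ω → Subgroup B := fun ω => (MulAction.toPermHom B (MulAction.orbit B ω)).ker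
  have hAn : ∀ ω, (A ω).Normal := fun ω => inferInstance
  have hcard : ∀ ω, PL F κ.factorial (B ⧸ A ω) := by
    intro ω
    apply PL.of_card
    have e := QuotientGroup.quotientKerEquivRange
      (MulAction.toPermHom B (MulAction.orbit B ω))
    calc Nat.card (B ⧸ A ω)
        = Nat.card (MulAction.toPermHom B (MulAction.orbit B ω)).range :=
          Nat.card_congr e.toEquiv
      _ ≤ Nat.card (Equiv.Perm (MulAction.orbit B ω)) :=
          Nat.card_le_card_of_injective _ Subtype.val_injective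
      _ = (Nat.card (MulAction.orbit B ω)).factorial := Nat.card_perm
      _ ≤ κ.factorial := Nat.factorial_le (h ω)
  have hle : (⨅ ω, A ω) ≤ (MulAction.toPermHom B Ω).ker := by
    intro b hb
    rw [MonoidHom.mem_ker]
    ext ω
    have h1 : b ∈ A ω := (Subgroup.mem_iInf.mp hb) ω
    have h2 : MulAction.toPermHom B (MulAction.orbit B ω) b = 1 := h1
    have h3 := congrArg (fun f => ((f ⟨ω, MulAction.mem_orbit_self ω⟩ : MulAction.orbit B ω) : Ω)) h2
    exact h3
  have hn : (⨅ ω, A ω).Normal := Subgroup.normal_iInf_normal hAn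
  exact PL.of_le hle (PL.formation_iInf hcard)

/-- The small orbits step: `K₁` has an orbit of length at most `κ`. -/
theorem PL.small_step [Fact p.Prime] {κ n : ℕ} {Γ Ω : Type} [Group Γ] [Finite Γ]
    [Finite Ω] [MulAction Γ Ω] [MulAction.IsPretransitive Γ Ω] (K₁ : Subgroup Γ) (v₀ : Ω)
    (h : Nat.card (MulAction.orbit K₁ v₀) ≤ κ) (hP : PL F n (Γ ⧸ K₁.normalCore)) :
    PL F (n + κ.factorial) (Γ ⧸ (MulAction.toPermHom Γ Ω).ker) := by
  classical
  have horb : ∀ ω : Ω, Nat.card (MulAction.orbit K₁.normalCore ω) ≤ κ := by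
    intro ω
    obtain ⟨γ, hγ⟩ := MulAction.exists_smul_eq Γ ω v₀
    refine le_trans ?_ h
    have hmap : ∀ x : MulAction.orbit K₁.normalCore ω, γ • (x : Ω) ∈ MulAction.orbit K₁ v₀ := by
      rintro ⟨x, b, rfl⟩
      have hb : γ * (b : Γ) * γ⁻¹ ∈ K₁.normalCore :=
        Subgroup.Normal.conj_mem inferInstance _ b.2 γ
      refine ⟨⟨γ * (b : Γ) * γ⁻¹, Subgroup.normalCore_le K₁ hb⟩, ?_⟩
      change (γ * (b : Γ) * γ⁻¹) • v₀ = γ • ((b : Γ) • ω)
      rw [← hγ, smul_smul, smul_smul]
      congr 1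
      group
    apply Nat.card_le_card_of_injective
      (fun x : MulAction.orbit K₁.normalCore ω => (⟨γ • (x : Ω), hmap x⟩ : MulAction.orbit K₁ v₀))
    intro x y hxy
    have h1 : γ • (x : Ω) = γ • (y : Ω) := congrArg Subtype.val hxy
    exact Subtype.ext (MulAction.injective γ h1)
  have h1 := PL.of_smallOrbits (F := F) horb
  have hN : (K₁.normalCore.map (QuotientGroup.mk' (MulAction.toPermHom Γ Ω).ker)).Normal :=
    Subgroup.Normal.map inferInstance _ (QuotientGroup.mk'_surjective _)
  apply PL.ext (K₁.normalCore.map (QuotientGroup.mk' (MulAction.toPermHom Γ Ω).ker))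
  · -- the normal subgroup
    have hk : (MulAction.toPermHom K₁.normalCore Ω).ker ≤
        ((QuotientGroup.mk' (MulAction.toPermHom Γ Ω).ker).subgroupMap K₁.normalCore).ker := by
      intro b hb
      rw [MonoidHom.mem_ker] at hb ⊢
      apply Subtype.ext
      change QuotientGroup.mk' (MulAction.toPermHom Γ Ω).ker (b : Γ) = 1
      rw [QuotientGroup.mk'_apply, QuotientGroup.eq_one_iff, MonoidHom.mem_ker]
      ext ω
      exact congrArg (fun f : Equiv.Perm Ω => f ω) hb
    refine PL.of_surjective (QuotientGroup.lift _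
      ((QuotientGroup.mk' (MulAction.toPermHom Γ Ω).ker).subgroupMap K₁.normalCore) hk) ?_ h1
    intro y
    obtain ⟨b, hb⟩ := MonoidHom.subgroupMap_surjective
      (QuotientGroup.mk' (MulAction.toPermHom Γ Ω).ker) K₁.normalCore y
    exact ⟨(b : K₁.normalCore ⧸ (MulAction.toPermHom K₁.normalCore Ω).ker), hb⟩
  · refine PL.of_surjective (QuotientGroup.map K₁.normalCore _
      (QuotientGroup.mk' (MulAction.toPermHom Γ Ω).ker) (Subgroup.le_comap_map _ _)) ?_ hP
    intro y
    obtain ⟨z, rfl⟩ := QuotientGroup.mk'_surjective _ y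
    obtain ⟨x, rfl⟩ := QuotientGroup.mk'_surjective _ z
    exact ⟨(x : Γ ⧸ K₁.normalCore), rfl⟩

end LibKS
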