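import Pool.Agent.LibKS.A6

set_option autoImplicit false

namespace LibKS

variable {p : ℕ} {F : GoodClass p}

/-- The conclusion of the structure theorem. -/
def StructureGoal (F : GoodClass p) {G H : Type} [Group G] [Group H] (K : Subgroup G)
    (S : Subgroup H) : Prop :=
  ∃ (Γ : Type) (_ : Group Γ) (ρ : G →* Γ) (K₁ : Subgroup Γ) (Ω V : Type)
    (_ : MulAction Γ Ω) (a : K₁ →* Equiv.Perm V) (T : Ω → Subgroup Γ),
    Function.Surjective ρ ∧ Finite Ω ∧ Finite V ∧ Nonempty V ∧ Based p K₁ a T ∧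
    (∃ v₀, ActsNontriv a (T v₀)) ∧
    (∀ n, PL F n (Γ ⧸ (MulAction.toPermHom Γ Ω).ker) →
      PL F n (H ⧸ (MulAction.toPermHom H (Om S)).ker)) ∧
    ∀ γ : G, Nat.card {x : G // x⁻¹ * γ * x ∈ K} * (Nat.card Γ * Nat.card V) ≤
      Nat.card (fixSet K₁ a (ρ γ)) * Nat.card G

end LibKS
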