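import Pool.Agent.LibKS.Defs

set_option autoImplicit false

namespace LibKS

/-- Descent of the data to a quotient. -/
theorem exists_descend {G A : Type} [Group G] [Finite G] [Finite A] (K' Z : Subgroup G)
    [Z.Normal] (hZ : Z ≤ K') (act : K' →* Equiv.Perm A)
    (htriv : ∀ z : K', (z : G) ∈ Z → act z = 1) :
    ∃ a : (K'.map (QuotientGroup.mk' Z)) →* Equiv.Perm A,
      (∀ y : K', a ⟨QuotientGroup.mk' Z y, y, y.2, rfl⟩ = act y) ∧
      ∀ γ : G, Nat.card (fixSet K' act γ) =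
        Nat.card Z * Nat.card (fixSet (K'.map (QuotientGroup.mk' Z)) a
          (QuotientGroup.mk' Z γ)) := by
  set φ := (QuotientGroup.mk' Z).subgroupMap K' with hφ
  have hφs : Function.Surjective φ := (QuotientGroup.mk' Z).subgroupMap_surjective K'
  have hker : φ.ker ≤ act.ker := by
    intro y hy
    rw [MonoidHom.mem_ker] at hy ⊢
    apply htriv
    have h1 : (QuotientGroup.mk' Z) (y : G) = 1 := congrArg Subtype.val hy
    rwa [← MonoidHom.mem_ker, QuotientGroup.ker_mk'] at h1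
  set a : (K'.map (QuotientGroup.mk' Z)) →* Equiv.Perm A :=
    MonoidHom.liftOfSurjective φ hφs ⟨act, hker⟩ with ha
  have haφ : ∀ y : K', a (φ y) = act y := fun y =>
    MonoidHom.liftOfRightInverse_comp_apply φ _ (Function.rightInverse_surjInv hφs) ⟨act, hker⟩ y
  have hay : ∀ y : K', a ⟨QuotientGroup.mk' Z y, y, y.2, rfl⟩ = act y := haφ
  refine ⟨a, hay, fun γ => ?_⟩
  have hiff : ∀ (x : G) (ξ : A), (x, ξ) ∈ fixSet K' act γ ↔
      ((QuotientGroup.mk x : G ⧸ Z), ξ) ∈ fixSet (K'.map (QuotientGroup.mk' Z)) a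
        (QuotientGroup.mk' Z γ) := by
    intro x ξ
    constructor
    · rintro ⟨h, hξ⟩
      have h2 : (QuotientGroup.mk x : G ⧸ Z)⁻¹ * QuotientGroup.mk' Z γ * QuotientGroup.mk x ∈
          K'.map (QuotientGroup.mk' Z) := ⟨_, h, rfl⟩
      exact ⟨h2, by have := hay ⟨_, h⟩; rw [← this] at hξ; exact hξ⟩
    · rintro ⟨h', hξ⟩
      obtain ⟨y, hy, hyx⟩ := h'
      have h3 : (QuotientGroup.mk' Z) y = (QuotientGroup.mk' Z) (x⁻¹ * γ * x) := hyx
      have h4 : y⁻¹ * (x⁻¹ * γ * x) ∈ Z := QuotientGroup.eq.1 h3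
      have h5 : x⁻¹ * γ * x ∈ K' := by
        have := K'.mul_mem hy (hZ h4)
        rwa [mul_inv_cancel_left] at this
      exact ⟨h5, by have := hay ⟨_, h5⟩; rw [← this]; exact hξ⟩
  set FS := fixSet (K'.map (QuotientGroup.mk' Z)) a (QuotientGroup.mk' Z γ) with hFS
  rw [← Nat.card_prod]
  refine Nat.card_congr ?_
  have e1 : fixSet K' act γ ≃ (Σ ξ : A, {x : G // (x, ξ) ∈ fixSet K' act γ}) :=
    ⟨fun s => ⟨s.1.2, s.1.1, s.2⟩, fun t => ⟨(t.2.1, t.1), t.2.2⟩, fun _ => rfl, fun _ => rfl⟩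
  have e2 : (Σ ξ : A, {x : G // (x, ξ) ∈ fixSet K' act γ}) ≃
      (Σ ξ : A, Z × {q : G ⧸ Z // (q, ξ) ∈ FS}) := by
    refine Equiv.sigmaCongrRight fun ξ => ?_
    refine Equiv.trans ?_ (QuotientGroup.preimageMkEquivSubgroupProdSet Z
      {q : G ⧸ Z | (q, ξ) ∈ FS})
    exact Equiv.subtypeEquivRight fun x => hiff x ξ
  have e3 : (Σ ξ : A, Z × {q : G ⧸ Z // (q, ξ) ∈ FS}) ≃ Z × FS :=
    ⟨fun t => (t.2.1, ⟨(t.2.2.1, t.1), t.2.2.2⟩), fun s => ⟨s.2.1.2, s.1, s.2.1.1, s.2.2⟩,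
      fun _ => rfl, fun _ => rfl⟩
  exact (e1.trans e2).trans e3

end LibKS
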