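import Pool.Agent.LibKS.B0
import Pool.Agent.LibKS.A2b

set_option autoImplicit false

namespace LibKS

variable {p : ℕ} {F : GoodClass p}

private theorem B1_card_comp {G H : Type} [Group G] [Group H] (f : G →* H)
    (hf : Function.Surjective f) (P : H → Prop) :
    Nat.card {x : G // P (f x)} = Nat.card {y : H // P y} * Nat.card f.ker := by
  let s : H → G := Function.surjInv hf
  have hs : ∀ y, f (s y) = y := Function.surjInv_eq hf
  rw [← Nat.card_prod]
  refine Nat.card_congr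
    { toFun := fun x => (⟨f x.1, x.2⟩, ⟨(s (f x.1))⁻¹ * x.1, by
        rw [MonoidHom.mem_ker, map_mul, map_inv, hs, inv_mul_cancel]⟩)
      invFun := fun q => ⟨s q.1.1 * q.2.1, by
        rw [map_mul, hs, MonoidHom.mem_ker.1 q.2.2, mul_one]
        exact q.1.2⟩
      left_inv := ?_
      right_inv := ?_ }
  · rintro ⟨x, hx⟩
    exact Subtype.ext (mul_inv_cancel_left _ _)
  · rintro ⟨⟨y, hy⟩, ⟨k, hk⟩⟩
    have h1 : f (s y * k) = y := by
      rw [map_mul, hs, MonoidHom.mem_ker.1 hk, mul_one]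
    refine Prod.ext (Subtype.ext h1) (Subtype.ext ?_)
    change (s (f (s y * k)))⁻¹ * (s y * k) = k
    rw [h1, inv_mul_cancel_left]

section fixed

variable {H : Type} [Group H] (C J : Subgroup H)

private theorem B1_fixed_iff (T' : Subgroup H) (g : (C ⊔ J : Subgroup H)) (hT : T' ≤ C ⊔ J) :
    FixedBy (MulAction.toPermHom (C ⊔ J : Subgroup H)
      ((C ⊔ J : Subgroup H) ⧸ J.subgroupOf (C ⊔ J))) T' (QuotientGroup.mk g) ↔
      ∀ t ∈ T', (g : H)⁻¹ * t * g ∈ J := by
  constructor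
  · intro h t ht
    have h1 := h ⟨t⁻¹, hT (T'.inv_mem ht)⟩ (T'.inv_mem ht)
    rw [MulAction.toPermHom_apply, MulAction.toPerm_apply, MulAction.Quotient.smul_mk,
      QuotientGroup.eq, Subgroup.mem_subgroupOf] at h1
    simpa [smul_eq_mul, mul_assoc] using h1
  · intro h k hk
    rw [MulAction.toPermHom_apply, MulAction.toPerm_apply, MulAction.Quotient.smul_mk,
      QuotientGroup.eq, Subgroup.mem_subgroupOf]
    have h1 := h (k : H)⁻¹ (T'.inv_mem hk)
    simpa [smul_eq_mul, mul_assoc] using h1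

private theorem B1_le_of_fixed [C.Normal] (T' : Subgroup H) (hT : T' ≤ C ⊔ J)
    (hn : ∀ c ∈ C, ∀ t ∈ T', c * t * c⁻¹ ∈ T')
    (ξ : (C ⊔ J : Subgroup H) ⧸ J.subgroupOf (C ⊔ J))
    (h : FixedBy (MulAction.toPermHom (C ⊔ J : Subgroup H)
      ((C ⊔ J : Subgroup H) ⧸ J.subgroupOf (C ⊔ J))) T' ξ) : T' ≤ J := by
  induction ξ using QuotientGroup.induction_on with
  | H g =>
    rw [B1_fixed_iff C J T' g hT] at h
    obtain ⟨c, hc, j, hj, hg⟩ := Subgroup.mem_sup_of_normal_left.1 g.2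
    intro t ht
    have h1 := h _ (hn c hc t ht)
    rw [← hg] at h1
    have h2 : j * ((c * j)⁻¹ * (c * t * c⁻¹) * (c * j)) * j⁻¹ ∈ J :=
      J.mul_mem (J.mul_mem hj h1) (J.inv_mem hj)
    have h3 : j * ((c * j)⁻¹ * (c * t * c⁻¹) * (c * j)) * j⁻¹ = t := by group
    rwa [h3] at h2

private theorem B1_fixed_of_le [C.Normal] (T' : Subgroup H) (hT : T' ≤ C ⊔ J)
    (hn : ∀ c ∈ C, ∀ t ∈ T', c * t * c⁻¹ ∈ T') (hJ : T' ≤ J)
    (ξ : (C ⊔ J : Subgroup H) ⧸ J.subgroupOf (C ⊔ J)) :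
    FixedBy (MulAction.toPermHom (C ⊔ J : Subgroup H)
      ((C ⊔ J : Subgroup H) ⧸ J.subgroupOf (C ⊔ J))) T' ξ := by
  induction ξ using QuotientGroup.induction_on with
  | H g =>
    rw [B1_fixed_iff C J T' g hT]
    obtain ⟨c, hc, j, hj, hg⟩ := Subgroup.mem_sup_of_normal_left.1 g.2
    intro t ht
    rw [← hg]
    have h1 : c⁻¹ * t * c ∈ J := by
      have := hJ (hn c⁻¹ (C.inv_mem hc) t ht)
      rwa [inv_inv] at this
    have h2 : (c * j)⁻¹ * t * (c * j) = j⁻¹ * (c⁻¹ * t * c) * j := by group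
    rw [h2]
    exact J.mul_mem (J.mul_mem (J.inv_mem hj) h1) hj

private theorem B1_card_fixSet [Finite H] (γ : H) :
    Nat.card ((C ⊔ J : Subgroup H) ⧸ J.subgroupOf (C ⊔ J)) * Nat.card {y : H // y⁻¹ * γ * y ∈ J}
      ≤ Nat.card (fixSet (C ⊔ J) (MulAction.toPermHom (C ⊔ J : Subgroup H)
      ((C ⊔ J : Subgroup H) ⧸ J.subgroupOf (C ⊔ J))) γ) := by
  rw [← Nat.card_prod]
  let V := (C ⊔ J : Subgroup H) ⧸ J.subgroupOf (C ⊔ J)
  have key : ∀ q : V × {y : H // y⁻¹ * γ * y ∈ J},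
      ((q.2.1 * ((q.1.out : (C ⊔ J : Subgroup H)) : H)⁻¹, q.1) : H × V) ∈
        fixSet (C ⊔ J) (MulAction.toPermHom (C ⊔ J : Subgroup H) V) γ := by
    rintro ⟨ξ, ⟨y, hy⟩⟩
    set g : (C ⊔ J : Subgroup H) := ξ.out with hgdef
    have hg : (QuotientGroup.mk g : V) = ξ := Quotient.out_eq ξ
    have h1 : (y * (g : H)⁻¹)⁻¹ * γ * (y * (g : H)⁻¹) = g * (y⁻¹ * γ * y) * (g : H)⁻¹ := by group
    have h2 : (y * (g : H)⁻¹)⁻¹ * γ * (y * (g : H)⁻¹) ∈ C ⊔ J := by
      rw [h1]
      exact (C ⊔ J).mul_mem ((C ⊔ J).mul_mem g.2 (le_sup_right (a := C) hy))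
        ((C ⊔ J).inv_mem g.2)
    refine ⟨h2, ?_⟩
    change MulAction.toPermHom (C ⊔ J : Subgroup H) V ⟨_, h2⟩ ξ = ξ
    rw [← hg, MulAction.toPermHom_apply, MulAction.toPerm_apply, MulAction.Quotient.smul_mk,
      QuotientGroup.eq, Subgroup.mem_subgroupOf]
    have h3 : (((⟨(y * (g : H)⁻¹)⁻¹ * γ * (y * (g : H)⁻¹), h2⟩ : (C ⊔ J : Subgroup H)) • g)⁻¹ * g :
        (C ⊔ J : Subgroup H)) = ((y⁻¹ * γ * y)⁻¹ : H) := by
      simp only [smul_eq_mul, Subgroup.coe_mul, Subgroup.coe_inv]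
      group
    rw [h3]
    exact J.inv_mem hy
  refine Nat.card_le_card_of_injective (fun q => (⟨_, key q⟩ :
    fixSet (C ⊔ J) (MulAction.toPermHom (C ⊔ J : Subgroup H) V) γ)) ?_
  rintro ⟨ξ, ⟨y, hy⟩⟩ ⟨ξ', ⟨y', hy'⟩⟩ h
  have h1 := congrArg Subtype.val h
  have h2 : ξ = ξ' := congrArg Prod.snd h1
  subst h2
  have h3 : y * ((ξ.out : (C ⊔ J : Subgroup H)) : H)⁻¹ =
    y' * ((ξ.out : (C ⊔ J : Subgroup H)) : H)⁻¹ := congrArg Prod.fst h1
  have h4 : y = y' := mul_right_cancel h3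
  subst h4
  rfl

end fixed

/-- Type I. -/
theorem structure_typeI [Fact p.Prime] {G H : Type} [Group G] [Group H] [Finite G]
    (K : Subgroup G) (f : G →* H) (hf : Function.Surjective f) (S : Subgroup H)
    (hS : IsComp F S) (hgood : ¬ S ≤ (K.map f).normalCore) : StructureGoal F K S := by
  have hfin : Finite H := Finite.of_surjective f hf
  set J : Subgroup H := K.map f with hJdef
  set C : Subgroup H := Subgroup.normalClosure (S : Set H) with hCdef
  let V : Type := (C ⊔ J : Subgroup H) ⧸ J.subgroupOf (C ⊔ J)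
  have hVfin : Finite V := inferInstance
  have hcomp : ∀ v : Om S, IsComp F v.1 := by
    rintro ⟨_, x, rfl⟩
    exact hS.map_conj x
  have hCL : C ≤ layer F H := by
    apply Subgroup.normalClosure_le_normal
    exact le_sSup (a := S) hS
  have hvC : ∀ v : Om S, v.1 ≤ C := by
    rintro ⟨_, x, rfl⟩ _ ⟨s, hs, rfl⟩
    exact (Subgroup.normalClosure_normal).conj_mem s (Subgroup.subset_normalClosure hs) x
  have hvK : ∀ v : Om S, v.1 ≤ C ⊔ J := fun v => (hvC v).trans le_sup_left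
  have hn : ∀ v : Om S, ∀ c ∈ C, ∀ t ∈ v.1, c * t * c⁻¹ ∈ v.1 := by
    intro v c hc t ht
    have h1 := (hcomp v).map_conj_of_mem_layer (hCL hc)
    rw [← h1]
    exact ⟨t, ht, rfl⟩
  have hfixed : ∀ v : Om S, ∀ ξ : V,
      FixedBy (MulAction.toPermHom (C ⊔ J : Subgroup H) V) v.1 ξ ↔ v.1 ≤ J := fun v ξ =>
    ⟨B1_le_of_fixed C J v.1 (hvK v) (hn v) ξ,
      fun h => B1_fixed_of_le C J v.1 (hvK v) (hn v) h ξ⟩
  have hnontriv : ∀ v : Om S,
      ActsNontriv (MulAction.toPermHom (C ⊔ J : Subgroup H) V) v.1 ↔ ¬ v.1 ≤ J := by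
    intro v
    constructor
    · rintro ⟨ξ, hξ⟩ h
      exact hξ ((hfixed v ξ).2 h)
    · intro h
      exact ⟨(QuotientGroup.mk 1 : V), fun h' => h ((hfixed v _).1 h')⟩
  refine ⟨H, inferInstance, f, C ⊔ J, Om S, V, inferInstance,
    MulAction.toPermHom (C ⊔ J : Subgroup H) V, fun v => v.1, hf, ?_, hVfin, ⟨QuotientGroup.mk 1⟩,
    ?_, ?_, fun n h => h, ?_⟩
  · exact Subtype.finite
  · refine
      { trans := ⟨?_⟩
        le := ?_
        map_conj := fun γ v => rfl
        comm := ?_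
        simple := fun v => (hcomp v).simple
        nonab := fun v => (hcomp v).exists_not_commute
        dvd := fun v => (hcomp v).dvd_card
        smul_eq := ?_
        star := ?_ }
    · rintro ⟨_, x, rfl⟩ ⟨_, y, rfl⟩
      refine ⟨y * x⁻¹, Subtype.ext ?_⟩
      change (S.map (MulAut.conj x).toMonoidHom).map (MulAut.conj (y * x⁻¹)).toMonoidHom =
        S.map (MulAut.conj y).toMonoidHom
      ext z
      simp only [Subgroup.mem_map, MulEquiv.coe_toMonoidHom, MulAut.conj_apply]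
      constructor
      · rintro ⟨_, ⟨s, hs, rfl⟩, rfl⟩
        exact ⟨s, hs, by group⟩
      · rintro ⟨s, hs, rfl⟩
        exact ⟨_, ⟨s, hs, rfl⟩, by group⟩
    · intro v
      refine (hvC v).trans ?_
      have : C.Normal := Subgroup.normalClosure_normal
      exact (Subgroup.normal_le_normalCore (H := C ⊔ J)).2 le_sup_left
    · intro v w hvw
      rcases (hcomp v).eq_or_commute (hcomp w) with h | h
      · exact absurd (Subtype.ext h) hvw
      · exact h
    · intro v w t ht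
      apply Subtype.ext
      rw [Om.smul_coe]
      exact (hcomp w).map_conj_of_mem_layer (hCL (hvC v ht))
    · intro B hB
      rcases B.eq_empty_or_nonempty with rfl | ⟨v, hv⟩
      · simp only [Finset.card_empty, pow_zero, mul_one, one_mul]
        exact Finite.card_subtype_le _
      · have hne : ¬ v.1 ≤ J := (hnontriv v).1 (hB v hv)
        have hempty : IsEmpty {ξ : V // ∀ v ∈ B,
            FixedBy (MulAction.toPermHom (C ⊔ J : Subgroup H) V) v.1 ξ} :=
          ⟨fun ξ => hne ((hfixed v ξ.1).1 (ξ.2 v hv))⟩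
        rw [Nat.card_of_isEmpty, zero_mul]
        exact Nat.zero_le _
  · by_contra hcon
    push Not at hcon
    apply hgood
    have hCJ : C ≤ J := by
      rw [hCdef, Subgroup.normalClosure, Subgroup.closure_le]
      intro y hy
      obtain ⟨s, hs, hsy⟩ := Group.mem_conjugatesOfSet_iff.1 hy
      obtain ⟨x, rfl⟩ := isConj_iff.1 hsy
      let v₀ : Om S := ⟨S.map (MulAut.conj x).toMonoidHom, x, rfl⟩
      have h1 : v₀.1 ≤ J := by
        by_contra h
        exact hcon v₀ ((hnontriv v₀).2 h)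
      exact h1 ⟨s, hs, rfl⟩
    have : C.Normal := Subgroup.normalClosure_normal
    exact Subgroup.subset_normalClosure.trans ((Subgroup.normal_le_normalCore (H := J)).2 hCJ)
  · intro γ
    have h1 : Nat.card {x : G // x⁻¹ * γ * x ∈ K} ≤
        Nat.card {x : G // (f x)⁻¹ * f γ * f x ∈ J} := by
      refine Nat.card_le_card_of_injective
        (fun x => (⟨x.1, by
          rw [← map_inv, ← map_mul, ← map_mul]
          exact ⟨_, x.2, rfl⟩⟩ : {x : G // (f x)⁻¹ * f γ * f x ∈ J})) ?_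
      intro x y hxy
      exact Subtype.ext (congrArg (fun z => z.1) hxy)
    have h2 := B1_card_comp f hf (fun y => y⁻¹ * f γ * y ∈ J)
    have h3 := B1_card_fixSet C J (f γ)
    have h4 : Nat.card G = Nat.card H * Nat.card f.ker := by
      have h5 := B1_card_comp f hf (fun _ => True)
      rwa [Nat.card_congr (Equiv.subtypeUnivEquiv (p := fun _ : G => True) fun _ => trivial),
        Nat.card_congr (Equiv.subtypeUnivEquiv (p := fun _ : H => True) fun _ => trivial)] at h5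
    calc Nat.card {x : G // x⁻¹ * γ * x ∈ K} * (Nat.card H * Nat.card V)
        ≤ (Nat.card {y : H // y⁻¹ * f γ * y ∈ J} * Nat.card f.ker) *
          (Nat.card H * Nat.card V) := by
          rw [← h2]
          exact Nat.mul_le_mul_right _ h1
      _ = (Nat.card V * Nat.card {y : H // y⁻¹ * f γ * y ∈ J}) *
          (Nat.card H * Nat.card f.ker) := by ring
      _ ≤ _ := by
          rw [← h4]
          exact Nat.mul_le_mul_right _ h3

end LibKS
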