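import Mathlib

set_option autoImplicit false

namespace LibKS

/-- Minimal normal subgroups of a nilpotent normal subgroup are central in it. -/
theorem commutator_le_of_nilpotent {G : Type} [Group G] {N E R : Subgroup G} [N.Normal]
    [E.Normal] [R.Normal] (hNE : N ≤ E) (hER : E ≤ R) (hne : N ≠ E)
    (hmin : ∀ X : Subgroup G, X.Normal → N ≤ X → X ≤ E → X = N ∨ X = E)
    (hR : Group.IsNilpotent R) : ⁅E, R⁆ ≤ N := by
  have hX1 : ⁅E, R⁆ ≤ E := Subgroup.commutator_le_left E R
  rcases hmin (⁅E, R⁆ ⊔ N) inferInstance le_sup_right (sup_le hX1 hNE) with h | h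
  · rw [← h]; exact le_sup_left
  · exfalso
    have hk : (QuotientGroup.mk' N).ker = N := QuotientGroup.ker_mk' N
    have hE : ⁅E.map (QuotientGroup.mk' N), R.map (QuotientGroup.mk' N)⁆ =
        E.map (QuotientGroup.mk' N) := by
      conv_rhs => rw [← h]
      rw [Subgroup.map_sup, Subgroup.map_commutator]
      have : N.map (QuotientGroup.mk' N) = ⊥ := by
        rw [Subgroup.map_eq_bot_iff, hk]
      rw [this, sup_bot_eq]
    have hle : ∀ n, E.map (QuotientGroup.mk' N) ≤
        (R.map (QuotientGroup.mk' N)).lowerCentralSeries n := by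
      intro n
      induction n with
      | zero => rw [Subgroup.lowerCentralSeries_zero]; exact Subgroup.map_mono hER
      | succ n ih =>
        rw [Subgroup.lowerCentralSeries_succ, ← hE]
        exact Subgroup.commutator_mono ih le_rfl
    obtain ⟨n, hn⟩ := (Subgroup.isNilpotent_iff_lowerCentralSeries (S := R)).1 hR
    have h1 := hle n
    rw [← Subgroup.map_lowerCentralSeries, hn, Subgroup.map_bot, le_bot_iff,
      Subgroup.map_eq_bot_iff, hk] at h1
    exact hne (le_antisymm hNE h1)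

/-- The abelian section on which `K ⊔ E` acts by conjugation. -/
theorem exists_section {G : Type} [Group G] [Finite G] (K N E : Subgroup G) [N.Normal]
    [E.Normal] (hNE : N ≤ E) (hab : ⁅E, E⁆ ≤ N) :
    ∃ (A : Type) (_ : CommGroup A) (π : E →* A) (act : (K ⊔ E : Subgroup G) →* MulAut A),
      Function.Surjective π ∧ π.ker = (K ⊔ N).subgroupOf E ∧
      ∀ (y : (K ⊔ E : Subgroup G)) (e : E) (h : (y : G) * e * (y : G)⁻¹ ∈ E),
        act y (π e) = π ⟨_, h⟩ := by
  classical
  have hcomm : ∀ a ∈ E, ∀ b ∈ E, a * b * a⁻¹ * b⁻¹ ∈ K ⊔ N := by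
    intro a ha b hb
    exact (le_sup_right : N ≤ K ⊔ N) (hab (Subgroup.commutator_mem_commutator ha hb))
  -- conjugation by elements of `K ⊔ E` preserves `(K ⊔ N) ⊓ E`
  have hconj : ∀ y ∈ K ⊔ E, ∀ m ∈ K ⊔ N, m ∈ E → y * m * y⁻¹ ∈ K ⊔ N := by
    intro y hy m hm hmE
    obtain ⟨k, hk, e, he, rfl⟩ := Subgroup.mem_sup_of_normal_right.1 hy
    have h1 : e * m * e⁻¹ ∈ K ⊔ N := by
      have := (K ⊔ N).mul_mem (hcomm e he m hmE) hm
      simpa [mul_assoc] using this
    have hk' : k ∈ K ⊔ N := (le_sup_left : K ≤ K ⊔ N) hk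
    have := (K ⊔ N).mul_mem ((K ⊔ N).mul_mem hk' h1) ((K ⊔ N).inv_mem hk')
    simpa [mul_assoc] using this
  set M : Subgroup E := (K ⊔ N).subgroupOf E with hM
  have hMn : M.Normal := by
    refine ⟨fun m hm e => ?_⟩
    rw [hM, Subgroup.mem_subgroupOf] at hm ⊢
    exact hconj e ((le_sup_right : E ≤ K ⊔ E) e.2) m hm m.2
  have hAc : ∀ a b : E ⧸ M, a * b = b * a := by
    intro a b
    induction a using QuotientGroup.induction_on with
    | H a =>
      induction b using QuotientGroup.induction_on with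
      | H b =>
        rw [← QuotientGroup.mk_mul, ← QuotientGroup.mk_mul, QuotientGroup.eq, hM,
          Subgroup.mem_subgroupOf]
        have := hcomm (b⁻¹ : E) (b⁻¹ : E).2 (a⁻¹ : E) (a⁻¹ : E).2
        simpa [mul_assoc] using this
  let cg : CommGroup (E ⧸ M) := { QuotientGroup.Quotient.group M with mul_comm := hAc }
  have hle : ∀ y : (K ⊔ E : Subgroup G),
      M.map (MulAut.conjNormal (H := E) (y : G)).toMonoidHom ≤ M := by
    rintro y _ ⟨m, hm, rfl⟩
    rw [hM]
    rw [SetLike.mem_coe, hM, Subgroup.mem_subgroupOf] at hm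
    rw [Subgroup.mem_subgroupOf]
    simpa using hconj y y.2 m hm m.2
  have heq : ∀ y : (K ⊔ E : Subgroup G),
      M.map (MulAut.conjNormal (H := E) (y : G) : E ≃* E).toMonoidHom = M := by
    intro y
    refine le_antisymm (hle y) ?_
    intro m hm
    refine ⟨(MulAut.conjNormal (H := E) ((y⁻¹ : (K ⊔ E : Subgroup G)) : G)) m,
      hle y⁻¹ ⟨m, hm, rfl⟩, ?_⟩
    apply Subtype.ext
    simp [mul_assoc]
  let act0 : (K ⊔ E : Subgroup G) → MulAut (E ⧸ M) := fun y =>
    QuotientGroup.congr M M (MulAut.conjNormal (H := E) (y : G)) (heq y)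
  have hact0 : ∀ (y : (K ⊔ E : Subgroup G)) (e : E),
      act0 y (QuotientGroup.mk e) = QuotientGroup.mk (MulAut.conjNormal (H := E) (y : G) e) :=
    fun y e => rfl
  refine ⟨E ⧸ M, cg, QuotientGroup.mk' M, MonoidHom.mk' act0 ?_, ?_, ?_, ?_⟩
  · intro x y
    ext a
    induction a using QuotientGroup.induction_on with
    | H a =>
      rw [MulAut.mul_apply, hact0, hact0, hact0]
      congr 1
      rw [Subgroup.coe_mul, map_mul]
      rfl
  · exact QuotientGroup.mk'_surjective M
  · exact QuotientGroup.ker_mk' M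
  · intro y e h
    change act0 y (QuotientGroup.mk e) = _
    rw [hact0]
    congr 1

end LibKS
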