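import Pool.Agent.LibKS.Defs

set_option autoImplicit false

namespace LibKS

/-- cardinality of the preimage of a subset under a surjective homomorphism. -/
private theorem B2b_card_preimage {E A : Type} [Group E] [Group A]
    (π : E →* A) (hπ : Function.Surjective π) (Q : A → Prop) :
    Nat.card {e : E // Q (π e)} = Nat.card π.ker * Nat.card {a : A // Q a} := by
  have hs := Function.surjInv_eq hπ
  set s := Function.surjInv hπ with hsdef
  rw [mul_comm, ← Nat.card_prod]
  refine Nat.card_congr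
    ⟨fun e => (⟨π e.1, e.2⟩, ⟨(s (π e.1))⁻¹ * e.1, ?_⟩),
     fun x => ⟨s x.1.1 * x.2.1, ?_⟩, ?_, ?_⟩
  · rw [MonoidHom.mem_ker, map_mul, map_inv, hs, inv_mul_cancel]
  · have h1 : π x.2.1 = 1 := x.2.2
    rw [map_mul, hs, h1, mul_one]
    exact x.1.2
  · intro e
    apply Subtype.ext
    change s (π e.1) * ((s (π e.1))⁻¹ * e.1) = e.1
    group
  · rintro ⟨⟨a, ha⟩, ⟨k, hk⟩⟩
    have h1 : π k = 1 := hk
    have h2 : π (s a * k) = a := by rw [map_mul, hs, h1, mul_one]
    apply Prod.ext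
    · apply Subtype.ext
      exact h2
    · apply Subtype.ext
      change (s (π (s a * k)))⁻¹ * (s a * k) = k
      rw [h2]
      group

/-- Comparison of the numbers of fixed points: an affine map has at most as many fixed points
as its linear part. -/
theorem card_affine_le {G : Type} [Group G] [Finite G] (K N E : Subgroup G) [N.Normal]
    [E.Normal] (hNE : N ≤ E) {A : Type} [CommGroup A] (π : E →* A)
    (act : (K ⊔ E : Subgroup G) →* MulAut A) (hπ : Function.Surjective π)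
    (hker : π.ker = (K ⊔ N).subgroupOf E)
    (hact : ∀ (y : (K ⊔ E : Subgroup G)) (e : E) (h : (y : G) * e * (y : G)⁻¹ ∈ E),
      act y (π e) = π ⟨_, h⟩) (γ : G) :
    Nat.card {x : G // x⁻¹ * γ * x ∈ K} * Nat.card A ≤
      Nat.card (fixSet (K ⊔ E) ((MulAut.toPerm A).comp act) γ) := by
  classical
  have hfG : Fintype G := Fintype.ofFinite G
  have hfE : Fintype E := Fintype.ofFinite E
  have hEn : E.Normal := inferInstance
  have hfA : Finite A := Finite.of_surjective π hπ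
  let c : G → ℕ := fun x => if x⁻¹ * γ * x ∈ K ⊔ N then 1 else 0
  let f : G → ℕ := fun x => Nat.card {ξ : A // ∃ h : x⁻¹ * γ * x ∈ K ⊔ E, act ⟨_, h⟩ ξ = ξ}
  have hE1 : ∀ (e : E) (he : (e : G) ∈ K ⊔ E) (a : A), act ⟨e, he⟩ a = a := by
    intro e he a
    obtain ⟨e', rfl⟩ := hπ a
    have hm : (e : G) * e' * (e : G)⁻¹ ∈ E := hEn.conj_mem _ e'.2 _
    rw [hact ⟨e, he⟩ e' hm]
    have h1 : (⟨(e : G) * e' * (e : G)⁻¹, hm⟩ : E) = e * e' * e⁻¹ := rfl
    have h2 : π ⟨(e : G) * e' * (e : G)⁻¹, hm⟩ = π (e * e' * e⁻¹) := by rw [← h1]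
    refine h2.trans ?_
    rw [map_mul, map_mul, map_inv, mul_comm (π e), mul_assoc, mul_inv_cancel, mul_one]
  -- key local statement
  have key1 : ∀ x : G, x⁻¹ * γ * x ∈ K ⊔ N →
      Nat.card A * ∑ e : E, c (x * e) = ∑ e : E, f (x * e) := by
    intro x hx
    set y := x⁻¹ * γ * x with hy
    have hKN : K ⊔ N ≤ K ⊔ E := sup_le_sup_left hNE K
    have hyE : y ∈ K ⊔ E := hKN hx
    have hconj : ∀ e : E, (x * (e : G))⁻¹ * γ * (x * (e : G)) = (e : G)⁻¹ * y * e := by
      intro e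
      rw [hy]; group
    have hEle : E ≤ K ⊔ E := le_sup_right
    -- f
    have hf : ∀ e : E, f (x * e) = Nat.card {ξ : A // act ⟨y, hyE⟩ ξ = ξ} := by
      intro e
      have hmem : (x * (e : G))⁻¹ * γ * (x * (e : G)) ∈ K ⊔ E := by
        rw [hconj e]
        exact (K ⊔ E).mul_mem ((K ⊔ E).mul_mem ((K ⊔ E).inv_mem (hEle e.2)) hyE) (hEle e.2)
      have heq : (⟨(x * (e : G))⁻¹ * γ * (x * (e : G)), hmem⟩ : (K ⊔ E : Subgroup G)) =
          (⟨(e : G), hEle e.2⟩ : (K ⊔ E : Subgroup G))⁻¹ * ⟨y, hyE⟩ * ⟨(e : G), hEle e.2⟩ := by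
        apply Subtype.ext
        exact hconj e
      have hiff : ∀ ξ : A, (∃ h : (x * (e : G))⁻¹ * γ * (x * (e : G)) ∈ K ⊔ E,
          act ⟨_, h⟩ ξ = ξ) ↔ act ⟨y, hyE⟩ ξ = ξ := by
        intro ξ
        have h1 : act ⟨(x * (e : G))⁻¹ * γ * (x * (e : G)), hmem⟩ ξ = act ⟨y, hyE⟩ ξ := by
          rw [heq, map_mul, map_mul, MulAut.mul_apply, MulAut.mul_apply, hE1, map_inv]
          have h2 : act ⟨(e : G), hEle e.2⟩ (act ⟨y, hyE⟩ ξ) = act ⟨y, hyE⟩ ξ := hE1 _ _ _
          conv_lhs => rw [← h2]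
          exact MulAut.inv_apply_self _ _ _
        constructor
        · rintro ⟨h, hh⟩
          rw [← h1]; exact hh
        · intro hh
          exact ⟨hmem, by rw [h1]; exact hh⟩
      exact Nat.card_congr (Equiv.subtypeEquivRight hiff)
    -- c
    have hc : ∀ e : E, c (x * e) = if act ⟨y, hyE⟩ (π e) = π e then 1 else 0 := by
      intro e
      have hm1 : y * (e : G) * y⁻¹ ∈ E := hEn.conj_mem _ e.2 _
      have hiff : (x * (e : G))⁻¹ * γ * (x * (e : G)) ∈ K ⊔ N ↔ act ⟨y, hyE⟩ (π e) = π e := by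
        rw [hconj e, hact ⟨y, hyE⟩ e hm1]
        have h1 : (π ⟨y * (e : G) * y⁻¹, hm1⟩ = π e) ↔
            (e⁻¹ * ⟨y * (e : G) * y⁻¹, hm1⟩ : E) ∈ π.ker := by
          rw [MonoidHom.mem_ker, map_mul, map_inv, inv_mul_eq_one]
          exact eq_comm
        refine Iff.trans ?_ h1.symm
        rw [hker, Subgroup.mem_subgroupOf]
        change _ ↔ (e : G)⁻¹ * (y * (e : G) * y⁻¹) ∈ K ⊔ N
        have h2 : (e : G)⁻¹ * (y * (e : G) * y⁻¹) = ((e : G)⁻¹ * y * (e : G)) * y⁻¹ := by group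
        rw [h2, Subgroup.mul_mem_cancel_right _ ((K ⊔ N).inv_mem hx)]
      by_cases h : (x * (e : G))⁻¹ * γ * (x * (e : G)) ∈ K ⊔ N
      · simp only [c, if_pos h, if_pos (hiff.mp h)]
      · simp only [c, if_neg h, if_neg (fun h' => h (hiff.mpr h'))]
    have hsumc : ∑ e : E, c (x * e) = Nat.card {e : E // act ⟨y, hyE⟩ (π e) = π e} := by
      rw [Finset.sum_congr rfl (fun e _ => hc e), Finset.sum_boole, Nat.card_eq_fintype_card,
        Fintype.card_subtype]
      rfl
    have hsumf : ∑ e : E, f (x * e) = Nat.card E * Nat.card {ξ : A // act ⟨y, hyE⟩ ξ = ξ} := by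
      rw [Finset.sum_congr rfl (fun e _ => hf e), Finset.sum_const, Finset.card_univ, smul_eq_mul,
        ← Nat.card_eq_fintype_card]
    have hcardE : Nat.card E = Nat.card π.ker * Nat.card A := by
      have h1 := B2b_card_preimage π hπ (fun _ => True)
      rw [Nat.card_congr (Equiv.subtypeUnivEquiv (fun _ : E => trivial)),
        Nat.card_congr (Equiv.subtypeUnivEquiv (fun _ : A => trivial))] at h1
      exact h1
    rw [hsumc, hsumf, B2b_card_preimage π hπ (fun a => act ⟨y, hyE⟩ a = a), hcardE]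
    ring
  have key : ∀ x : G, Nat.card A * ∑ e : E, c (x * e) ≤ ∑ e : E, f (x * e) := by
    intro x
    by_cases hex : ∃ e1 : E, (x * (e1 : G))⁻¹ * γ * (x * (e1 : G)) ∈ K ⊔ N
    · obtain ⟨e1, he1⟩ := hex
      have h1 := key1 (x * e1) he1
      have h2 : ∑ e : E, c (x * e1 * e) = ∑ e : E, c (x * e) := by
        rw [← Equiv.sum_comp (Equiv.mulLeft e1) (fun e : E => c (x * e))]
        refine Finset.sum_congr rfl fun e _ => ?_
        change c (x * e1 * e) = c (x * ((e1 * e : E) : G))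
        rw [Subgroup.coe_mul, mul_assoc]
      have h3 : ∑ e : E, f (x * e1 * e) = ∑ e : E, f (x * e) := by
        rw [← Equiv.sum_comp (Equiv.mulLeft e1) (fun e : E => f (x * e))]
        refine Finset.sum_congr rfl fun e _ => ?_
        change f (x * e1 * e) = f (x * ((e1 * e : E) : G))
        rw [Subgroup.coe_mul, mul_assoc]
      rw [h2, h3] at h1
      exact h1.le
    · push Not at hex
      have h0 : ∑ e : E, c (x * e) = 0 := by
        refine Finset.sum_eq_zero fun e _ => ?_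
        simp only [c, if_neg (hex e)]
      rw [h0, mul_zero]
      exact Nat.zero_le _
  -- summation over x
  have hswap : ∀ u : G → ℕ, ∑ x : G, ∑ e : E, u (x * e) = Nat.card E * ∑ x : G, u x := by
    intro u
    rw [Finset.sum_comm]
    have h1 : ∀ e : E, ∑ x : G, u (x * e) = ∑ x : G, u x := by
      intro e
      exact Equiv.sum_comp (Equiv.mulRight (e : G)) u
    rw [Finset.sum_congr rfl (fun e _ => h1 e), Finset.sum_const, Finset.card_univ, smul_eq_mul,
      ← Nat.card_eq_fintype_card]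
  have hmain : Nat.card A * ∑ x : G, c x ≤ ∑ x : G, f x := by
    have h1 : ∑ x : G, Nat.card A * ∑ e : E, c (x * e) ≤ ∑ x : G, ∑ e : E, f (x * e) :=
      Finset.sum_le_sum fun x _ => key x
    rw [← Finset.mul_sum, hswap c, hswap f] at h1
    have h2 : 0 < Nat.card E := Nat.card_pos
    refine le_of_mul_le_mul_left (a := Nat.card E) ?_ h2
    calc Nat.card E * (Nat.card A * ∑ x : G, c x) = Nat.card A * (Nat.card E * ∑ x : G, c x) := by
          ring
      _ ≤ Nat.card E * ∑ x : G, f x := h1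
  have hX : Nat.card {x : G // x⁻¹ * γ * x ∈ K} ≤ ∑ x : G, c x := by
    have h1 : ∑ x : G, c x = Nat.card {x : G // x⁻¹ * γ * x ∈ K ⊔ N} := by
      simp only [c]
      rw [Finset.sum_boole, Nat.card_eq_fintype_card, Fintype.card_subtype]
      rfl
    rw [h1]
    refine Nat.card_le_card_of_injective
      (fun x : {x : G // x⁻¹ * γ * x ∈ K} => (⟨x.1, (le_sup_left : K ≤ K ⊔ N) x.2⟩ :
        {x : G // x⁻¹ * γ * x ∈ K ⊔ N})) ?_
    intro a b hab
    have h2 := congrArg Subtype.val hab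
    exact Subtype.ext h2
  have hF : Nat.card (fixSet (K ⊔ E) ((MulAut.toPerm A).comp act) γ) = ∑ x : G, f x := by
    rw [← Nat.card_sigma]
    refine Nat.card_congr ⟨fun x => ⟨x.1.1, x.1.2, x.2⟩, fun x => ⟨(x.1, x.2.1), x.2.2⟩, ?_, ?_⟩
    · intro x; rfl
    · intro x; rfl
  rw [hF]
  calc Nat.card {x : G // x⁻¹ * γ * x ∈ K} * Nat.card A ≤ (∑ x : G, c x) * Nat.card A :=
        Nat.mul_le_mul_right _ hX
    _ = Nat.card A * ∑ x : G, c x := by ring
    _ ≤ ∑ x : G, f x := hmain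

end LibKS
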