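import Pool.Agent.LibKS.B0
import Pool.Agent.LibKS.A2b

set_option autoImplicit false

namespace LibKS

variable {p : ℕ} {F : GoodClass p}

/-- A normal subgroup of the normal closure of a component which does not contain the component
is trivial. -/
private theorem B2c_eq_bot [Fact p.Prime] {H : Type} [Group H] [Finite H] {S : Subgroup H}
    (hS : IsComp F S) (X : Subgroup H) (hX : X.Normal)
    (hXle : X ≤ Subgroup.normalClosure (S : Set H)) (hSX : ¬ S ≤ X) : X = ⊥ := by
  have h1 : ∀ a ∈ S, ∀ b ∈ X, Commute a b := (hS.le_or_commute hX).resolve_left hSX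
  have h2 : Subgroup.normalClosure (S : Set H) ≤ Subgroup.centralizer (X : Set H) := by
    have : (Subgroup.centralizer (X : Set H)).Normal := inferInstance
    refine Subgroup.normalClosure_le_normal ?_
    intro s hs
    rw [SetLike.mem_coe, Subgroup.mem_centralizer_iff]
    intro b hb
    exact (h1 s hs b hb).eq.symm
  rw [Subgroup.eq_bot_iff_forall]
  intro x hx
  refine hS.eq_one_of_mem_normalClosure (hXle hx) ?_
  intro y hy
  exact Subgroup.mem_centralizer_iff.1 (h2 hy) x hx

/-- Type II: the properties of the subgroup `D`, in the group `G`. -/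
theorem typeII_facts [Fact p.Prime] {G H : Type} [Group G] [Group H] [Finite G]
    (K N E : Subgroup G) [N.Normal] [E.Normal] (f : G →* H) (hf : Function.Surjective f)
    (S : Subgroup H) (hS : IsComp F S) (hNE : N ≤ E) (hER : E ≤ f.ker)
    (hgood : ¬ S ≤ ((K ⊔ N).normalCore).map f) (hbad : S ≤ ((K ⊔ E).normalCore).map f)
    (L D Z : Subgroup G) (hL : L = (K ⊔ N).normalCore)
    (hD : D = (Subgroup.normalClosure (S : Set H)).comap f ⊓ (K ⊔ E).normalCore)
    (hZ : Z = L ⊔ (D ⊓ f.ker)) :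
    Z.Normal ∧ Z ≤ K ⊔ E ∧ D.map f = Subgroup.normalClosure (S : Set H) ∧
      (∀ v : Om S, (D ⊓ v.1.comap f).map f = v.1) ∧
      (∀ v : Om S, (D ⊓ v.1.comap f) ⊓ Z = D ⊓ f.ker) ∧
      (∀ z ∈ Z, ∀ v : Om S, f z • v = v) := by
  have hHfin : Finite H := Finite.of_surjective f hf
  have hDn : D.Normal := by rw [hD]; infer_instance
  have hLn : L.Normal := by rw [hL]; infer_instance
  have hLK : L ≤ K ⊔ N := by rw [hL]; exact Subgroup.normalCore_le _
  have hDK : D ≤ (K ⊔ E).normalCore := by rw [hD]; exact inf_le_right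
  have hDS : D ≤ (Subgroup.normalClosure (S : Set H)).comap f := by
    rw [hD]; exact inf_le_left
  have hKNKE : K ⊔ N ≤ K ⊔ E := sup_le_sup_left hNE K
  have hZn : Z.Normal := by rw [hZ]; infer_instance
  have hZle : Z ≤ K ⊔ E := by
    rw [hZ]
    exact sup_le (hLK.trans hKNKE) (inf_le_left.trans (hDK.trans (Subgroup.normalCore_le _)))
  have hDmap : D.map f = Subgroup.normalClosure (S : Set H) := by
    apply le_antisymm
    · exact Subgroup.map_le_iff_le_comap.2 hDS
    · have hMn : ((K ⊔ E).normalCore.map f).Normal := Subgroup.Normal.map inferInstance f hf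
      have h1 : Subgroup.normalClosure (S : Set H) ≤ (K ⊔ E).normalCore.map f :=
        Subgroup.normalClosure_le_normal hbad
      intro x hx
      obtain ⟨y, hy, rfl⟩ := h1 hx
      refine ⟨y, ?_, rfl⟩
      rw [hD]
      exact ⟨hx, hy⟩
  have hvle : ∀ v : Om S, v.1 ≤ Subgroup.normalClosure (S : Set H) := by
    rintro ⟨_, g, rfl⟩
    rintro _ ⟨s, hs, rfl⟩
    exact Subgroup.normalClosure_normal.conj_mem s (Subgroup.subset_normalClosure hs) g
  have hvmap : ∀ v : Om S, (D ⊓ v.1.comap f).map f = v.1 := by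
    intro v
    apply le_antisymm
    · rintro _ ⟨y, ⟨-, hy⟩, rfl⟩
      exact hy
    · intro x hx
      have h1 : x ∈ D.map f := by rw [hDmap]; exact hvle v hx
      obtain ⟨y, hy, rfl⟩ := h1
      exact ⟨y, ⟨hy, hx⟩, rfl⟩
  have hLfn : (L.map f).Normal := Subgroup.Normal.map inferInstance f hf
  have hX : Subgroup.normalClosure (S : Set H) ⊓ L.map f = ⊥ := by
    refine B2c_eq_bot hS _ inferInstance inf_le_left ?_
    intro h
    apply hgood
    rw [← hL]
    exact h.trans inf_le_right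
  have hZdec : ∀ z ∈ Z, ∃ l ∈ L, ∃ d ∈ D ⊓ f.ker, l * d = z := by
    intro z hz
    rw [hZ, ← SetLike.mem_coe, Subgroup.mul_normal] at hz
    obtain ⟨l, hl, d, hd, hld⟩ := hz
    exact ⟨l, hl, d, hd, hld⟩
  refine ⟨hZn, hZle, hDmap, hvmap, ?_, ?_⟩
  · intro v
    apply le_antisymm
    · rintro x ⟨⟨hxD, hxv⟩, hxZ⟩
      refine ⟨hxD, ?_⟩
      obtain ⟨l, hl, d, hd, rfl⟩ := hZdec x hxZ
      change f (l * d) ∈ v.1 at hxv
      change f (l * d) = 1
      have hfd : f d = 1 := hd.2
      rw [map_mul, hfd, mul_one] at hxv ⊢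
      have h1 : f l ∈ Subgroup.normalClosure (S : Set H) ⊓ L.map f :=
        ⟨hvle v hxv, l, hl, rfl⟩
      rw [hX] at h1
      exact h1
    · rintro x ⟨hxD, hxk⟩
      have hfx : f x = 1 := hxk
      refine ⟨⟨hxD, ?_⟩, ?_⟩
      · change f x ∈ v.1
        rw [hfx]
        exact v.1.one_mem
      · rw [hZ]
        exact (le_sup_right : D ⊓ f.ker ≤ L ⊔ (D ⊓ f.ker)) ⟨hxD, hxk⟩
  · intro z hz v
    obtain ⟨l, hl, d, hd, rfl⟩ := hZdec z hz
    have hfd : f d = 1 := hd.2
    rw [map_mul, hfd, mul_one]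
    have hc : ∀ y ∈ v.1, f l * y * (f l)⁻¹ = y := by
      intro y hy
      have h1 : f l * y * (f l)⁻¹ * y⁻¹ ∈ Subgroup.normalClosure (S : Set H) ⊓ L.map f := by
        refine ⟨?_, ?_⟩
        · exact Subgroup.mul_mem _
            (Subgroup.normalClosure_normal.conj_mem y (hvle v hy) (f l))
            (Subgroup.inv_mem _ (hvle v hy))
        · have h2 : f l * y * (f l)⁻¹ * y⁻¹ = f l * (y * (f l)⁻¹ * y⁻¹) := by group
          rw [SetLike.mem_coe, h2]
          exact Subgroup.mul_mem _ ⟨l, hl, rfl⟩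
            (hLfn.conj_mem _ (Subgroup.inv_mem _ ⟨l, hl, rfl⟩) y)
      rw [hX, Subgroup.mem_bot, mul_inv_eq_one] at h1
      exact h1
    apply Subtype.ext
    rw [Om.smul_coe]
    ext x
    simp only [Subgroup.mem_map, MulEquiv.coe_toMonoidHom, MulAut.conj_apply]
    constructor
    · rintro ⟨y, hy, rfl⟩
      rw [hc y hy]
      exact hy
    · intro hx
      exact ⟨x, hx, hc x hx⟩

end LibKS
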