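import Pool.Agent.LibKS.B0
import Pool.Agent.LibKS.A2b

set_option autoImplicit false

namespace LibKS

open scoped commutatorElement

variable {p : ℕ} {F : GoodClass p}

/-- A component is perfect. -/
private theorem B2d_perfect [Fact p.Prime] {H : Type} [Group H] {S : Subgroup H}
    (hS : IsComp F S) : S ≤ ⁅S, S⁆ := by
  have h1 : ⁅S, S⁆ ≤ S := by
    rw [Subgroup.commutator_le]
    intro a ha b hb
    exact S.mul_mem (S.mul_mem (S.mul_mem ha hb) (S.inv_mem ha)) (S.inv_mem hb)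
  rcases hS.eq_bot_or_eq h1 (by
    intro s hs x hx
    have h2 : s * x * s⁻¹ = (s * x * s⁻¹ * x⁻¹) * x := by group
    rw [h2]
    exact Subgroup.mul_mem _ (Subgroup.commutator_mem_commutator hs (h1 hx)) hx) with h | h
  · exfalso
    obtain ⟨a, ha, b, hb, hab⟩ := hS.exists_not_commute
    apply hab
    have h3 : ⁅a, b⁆ ∈ ⁅S, S⁆ := Subgroup.commutator_mem_commutator ha hb
    rw [h, Subgroup.mem_bot, commutatorElement_eq_one_iff_commute] at h3
    exact h3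
  · rw [h]

/-- Type II: the subgroup `D` does not act trivially on the abelian section. -/
theorem typeII_nontrivial [Fact p.Prime] {G H : Type} [Group G] [Group H] [Finite G]
    (K N E : Subgroup G) [N.Normal] [E.Normal] (f : G →* H) (hf : Function.Surjective f)
    (S : Subgroup H) (hS : IsComp F S) (hNE : N ≤ E) (hER : E ≤ f.ker) (hab : ⁅E, E⁆ ≤ N)
    (hgood : ¬ S ≤ ((K ⊔ N).normalCore).map f) (hbad : S ≤ ((K ⊔ E).normalCore).map f)
    (D : Subgroup G)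
    (hD : D = (Subgroup.normalClosure (S : Set H)).comap f ⊓ (K ⊔ E).normalCore) :
    ∃ d ∈ D, ∃ e ∈ E, d * e * d⁻¹ * e⁻¹ ∉ K ⊔ N := by
  by_contra hcon
  push Not at hcon
  have hDn : D.Normal := by rw [hD]; infer_instance
  have hDK : D ≤ K ⊔ E := by
    rw [hD]; exact inf_le_right.trans (Subgroup.normalCore_le _)
  have hSD : S ≤ D.map f := by
    intro x hx
    obtain ⟨y, hy, rfl⟩ := hbad hx
    refine ⟨y, ?_, rfl⟩
    rw [hD]
    exact ⟨Subgroup.subset_normalClosure hx, hy⟩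
  -- decomposition of the elements of `D`
  have hdec : ∀ d ∈ D, ∃ e ∈ E, e⁻¹ * d ∈ K ⊔ N := by
    intro d hd
    have h1 : d ∈ ((E ⊔ K : Subgroup G) : Set G) := by
      rw [sup_comm]
      exact hDK hd
    rw [Subgroup.normal_mul] at h1
    obtain ⟨e, he, k, hk, rfl⟩ := h1
    refine ⟨e, he, ?_⟩
    have h2 : e⁻¹ * (e * k) = k := by group
    change e⁻¹ * (e * k) ∈ K ⊔ N
    rw [h2]
    exact (le_sup_left : K ≤ K ⊔ N) hk
  -- `d e' M = e' d M`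
  have h1 : ∀ d ∈ D, ∀ e ∈ E, (e * d)⁻¹ * (d * e) ∈ K ⊔ N := by
    intro d hd e he
    have h2 := hcon d⁻¹ (D.inv_mem hd) e⁻¹ (E.inv_mem he)
    have h3 : (e * d)⁻¹ * (d * e) = d⁻¹ * e⁻¹ * d⁻¹⁻¹ * e⁻¹⁻¹ := by group
    rw [h3]
    exact h2
  have h2 : ∀ d ∈ D, ∀ d' ∈ D, ∀ e ∈ E, ∀ e' ∈ E, e⁻¹ * d ∈ K ⊔ N → e'⁻¹ * d' ∈ K ⊔ N →
      (e' * e)⁻¹ * (d * d') ∈ K ⊔ N := by
    intro d hd d' hd' e he e' he' h h'
    have h3 : (e' * e)⁻¹ * (d * d') =
        (e⁻¹ * d) * ((e' * d)⁻¹ * (d * e')) * (e'⁻¹ * d') := by group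
    rw [h3]
    exact Subgroup.mul_mem _ (Subgroup.mul_mem _ h (h1 d hd e' he')) h'
  have h3 : ∀ e ∈ E, ∀ e' ∈ E, (e' * e)⁻¹ * (e * e') ∈ K ⊔ N := by
    intro e he e' he'
    apply (le_sup_right : N ≤ K ⊔ N)
    apply hab
    have h4 : (e' * e)⁻¹ * (e * e') = ⁅e⁻¹, e'⁻¹⁆ := by
      rw [commutatorElement_def]; group
    rw [h4]
    exact Subgroup.commutator_mem_commutator (E.inv_mem he) (E.inv_mem he')
  have h4 : ∀ d ∈ D, ∀ d' ∈ D, (d' * d)⁻¹ * (d * d') ∈ K ⊔ N := by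
    intro d hd d' hd'
    obtain ⟨e, he, hed⟩ := hdec d hd
    obtain ⟨e', he', hed'⟩ := hdec d' hd'
    have h5 := h2 d hd d' hd' e he e' he' hed hed'
    have h6 := h2 d' hd' d hd e' he' e he hed' hed
    have h7 : (d' * d)⁻¹ * (d * d') =
        ((e * e')⁻¹ * (d' * d))⁻¹ * ((e' * e)⁻¹ * (e * e'))⁻¹ * ((e' * e)⁻¹ * (d * d')) := by
      group
    rw [h7]
    exact Subgroup.mul_mem _ (Subgroup.mul_mem _ (Subgroup.inv_mem _ h6)
      (Subgroup.inv_mem _ (h3 e he e' he'))) h5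
  have h5 : ⁅D, D⁆ ≤ K ⊔ N := by
    rw [Subgroup.commutator_le]
    intro d hd d' hd'
    have h6 := h4 d⁻¹ (D.inv_mem hd) d'⁻¹ (D.inv_mem hd')
    have h7 : (d'⁻¹ * d⁻¹)⁻¹ * (d⁻¹ * d'⁻¹) = ⁅d, d'⁆ := by
      rw [commutatorElement_def]; group
    rw [h7] at h6
    exact h6
  have h6 : ⁅D, D⁆ ≤ (K ⊔ N).normalCore := Subgroup.normal_le_normalCore.2 h5
  apply hgood
  calc S ≤ ⁅S, S⁆ := B2d_perfect hS
    _ ≤ ⁅D.map f, D.map f⁆ := Subgroup.commutator_mono hSD hSD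
    _ = (⁅D, D⁆).map f := (Subgroup.map_commutator D D f).symm
    _ ≤ ((K ⊔ N).normalCore).map f := Subgroup.map_mono h6

end LibKS
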