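import Mathlib

set_option autoImplicit false

namespace LibKS

theorem C8_mul {M : Type} [AddCommGroup M] (a b : AddMonoid.End M) (x : M) :
    (a * b) x = a (b x) := rfl

/-- restriction of a representation to an invariant subgroup -/
def C8_res {M : Type} [AddCommGroup M] {T : Type} [Group T] (ρ : T →* AddMonoid.End M)
    (X : AddSubgroup M) (hX : ∀ t, ∀ x ∈ X, ρ t x ∈ X) : T →* AddMonoid.End X where
  toFun t :=
    { toFun := fun x => ⟨ρ t x, hX t x x.2⟩
      map_zero' := by ext; simp
      map_add' := fun x y => by ext; simp }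
  map_one' := by
    refine AddMonoidHom.ext fun x => Subtype.ext ?_
    change ρ 1 (x : M) = x
    rw [map_one]; rfl
  map_mul' s t := by
    refine AddMonoidHom.ext fun x => Subtype.ext ?_
    change ρ (s * t) (x : M) = ρ s (ρ t x)
    rw [map_mul]; rfl

theorem C8_res_apply {M : Type} [AddCommGroup M] {T : Type} [Group T]
    (ρ : T →* AddMonoid.End M) (X : AddSubgroup M) (hX : ∀ t, ∀ x ∈ X, ρ t x ∈ X) (t : T)
    (x : X) : ((C8_res ρ X hX t x : X) : M) = ρ t x := rfl

/-- the representation on the quotient by an invariant subgroup -/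
def C8_quo {M : Type} [AddCommGroup M] {T : Type} [Group T] (ρ : T →* AddMonoid.End M)
    (X : AddSubgroup M) (hX : ∀ t, ∀ x ∈ X, ρ t x ∈ X) : T →* AddMonoid.End (M ⧸ X) where
  toFun t := QuotientAddGroup.map X X (ρ t) (fun x hx => hX t x hx)
  map_one' := by
    refine AddMonoidHom.ext fun x => ?_
    induction x using QuotientAddGroup.induction_on with
    | H x =>
      change ((ρ 1 x : M) : M ⧸ X) = x
      rw [map_one]; rfl
  map_mul' s t := by
    refine AddMonoidHom.ext fun x => ?_
    induction x using QuotientAddGroup.induction_on with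
    | H x =>
      change ((ρ (s * t) x : M) : M ⧸ X) = ((ρ s (ρ t x) : M) : M ⧸ X)
      rw [map_mul]; rfl

theorem C8_quo_apply {M : Type} [AddCommGroup M] {T : Type} [Group T]
    (ρ : T →* AddMonoid.End M) (X : AddSubgroup M) (hX : ∀ t, ∀ x ∈ X, ρ t x ∈ X) (t : T)
    (x : M) : C8_quo ρ X hX t (x : M ⧸ X) = ((ρ t x : M) : M ⧸ X) := rfl

/-- a nontrivial action of a simple group is faithful -/
theorem C8_inj {M : Type} [AddCommGroup M] {T : Type} [Group T] (hs : IsSimpleGroup T)
    (ρ : T →* AddMonoid.End M) (hnt : ∃ t, ρ t ≠ 1) : Function.Injective ρ := by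
  have : ρ.ker = ⊥ ∨ ρ.ker = ⊤ := Subgroup.Normal.eq_bot_or_eq_top inferInstance
  rcases this with h | h
  · exact (MonoidHom.ker_eq_bot_iff ρ).1 h
  · obtain ⟨t, ht⟩ := hnt
    have : t ∈ ρ.ker := by rw [h]; trivial
    exact absurd ((MonoidHom.mem_ker).1 this) ht

/-- a nonabelian simple group acting nontrivially cannot act trivially on `X` and on `M/X` -/
theorem C8_not_both {M : Type} [AddCommGroup M] {T : Type} [Group T] (hs : IsSimpleGroup T)
    (hna : ∃ a b : T, ¬ Commute a b) (ρ : T →* AddMonoid.End M) (hnt : ∃ t, ρ t ≠ 1)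
    (X : AddSubgroup M) (h1 : ∀ t, ∀ x ∈ X, ρ t x = x) (h2 : ∀ t x, ρ t x - x ∈ X) : False := by
  obtain ⟨a, b, hab⟩ := hna
  apply hab
  apply C8_inj hs ρ hnt
  rw [map_mul, map_mul]
  have key : ∀ s t x, ρ s (ρ t x) = (ρ s x - x) + (ρ t x - x) + x := by
    intro s t x
    have e : ρ t x = (ρ t x - x) + x := by abel
    rw [e, map_add, h1 s _ (h2 t x)]
    abel
  ext x
  rw [C8_mul, C8_mul, key, key]
  abel

/-- additive form with arbitrary endomorphism representations -/
theorem C8_aux : ∀ (N : ℕ) (M : Type) [AddCommGroup M] [Finite M], Nat.card M ≤ N →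
    ∀ (ι : Type) [Fintype ι] (T : ι → Type) [∀ i, Group (T i)]
    (_hs : ∀ i, IsSimpleGroup (T i)) (_hna : ∀ i, ∃ a b : T i, ¬ Commute a b)
    (ρ : ∀ i, T i →* AddMonoid.End M)
    (_hcomm : ∀ i j, i ≠ j → ∀ s t, Commute (ρ i s) (ρ j t)) (_hnt : ∀ i, ∃ t, ρ i t ≠ 1),
    2 ^ Fintype.card ι ≤ Nat.card M ^ 2 := by
  intro N
  induction N using Nat.strong_induction_on with
  | _ N ih =>
  intro M _ _ hMN ι _ T _ hs hna ρ hcomm hnt
  classical
  have hM0 : 0 < Nat.card M := Nat.card_pos
  by_cases hn0 : Fintype.card ι = 0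
  · rw [hn0, pow_zero]; exact Nat.one_le_pow _ _ hM0
  obtain ⟨i0⟩ : Nonempty ι := Fintype.card_pos_iff.1 (Nat.pos_of_ne_zero hn0)
  have hM2 : 2 ≤ Nat.card M := by
    by_contra hlt
    have h1 : Nat.card M = 1 := by omega
    obtain ⟨t, ht⟩ := hnt i0
    have hsub : Subsingleton M := (Nat.card_eq_one_iff_unique.1 h1).1
    exact ht (by ext x; exact Subsingleton.elim _ _)
  by_cases hn1 : Fintype.card ι = 1
  · rw [hn1]
    calc 2 ^ 1 ≤ 2 ^ 2 := by norm_num
      _ ≤ Nat.card M ^ 2 := Nat.pow_le_pow_left hM2 2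
  have hinj : ∀ i, Function.Injective (ρ i) := fun i => C8_inj (hs i) (ρ i) (hnt i)
  by_cases hX : ∃ X : AddSubgroup M, X ≠ ⊥ ∧ X ≠ ⊤ ∧ ∀ i t, ∀ x ∈ X, ρ i t x ∈ X
  · -- reducible
    obtain ⟨X, hXb, hXt, hXi⟩ := hX
    have hcard : Nat.card M = Nat.card (M ⧸ X) * Nat.card X :=
      AddSubgroup.card_eq_card_quotient_mul_card_addSubgroup X
    have hX1 : 1 < Nat.card X := by
      rw [AddSubgroup.one_lt_card_iff_ne_bot]; exact hXb
    have hQpos : 0 < Nat.card (M ⧸ X) := Nat.card_pos
    have hQ1 : 1 < Nat.card (M ⧸ X) := by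
      by_contra hle
      have h1 : Nat.card (M ⧸ X) = 1 := by omega
      exact hXt (AddSubgroup.index_eq_one.1 h1)
    have hXlt : Nat.card X < N := by nlinarith
    have hQlt : Nat.card (M ⧸ X) < N := by nlinarith
    let pX : ι → Prop := fun i => ∃ t, C8_res (ρ i) X (hXi i) t ≠ 1
    let pQ : ι → Prop := fun i => ∃ t, C8_quo (ρ i) X (hXi i) t ≠ 1
    have hor : ∀ i, pX i ∨ pQ i := by
      intro i
      by_contra hcon
      rw [not_or] at hcon
      obtain ⟨c1, c2⟩ := hcon
      simp only [pX, pQ, not_exists, not_not] at c1 c2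
      refine C8_not_both (hs i) (hna i) (ρ i) (hnt i) X ?_ ?_
      · intro t x hx
        have := DFunLike.congr_fun (c1 t) ⟨x, hx⟩
        have h2 := congrArg (fun y : X => (y : M)) this
        simpa [C8_res_apply] using h2
      · intro t x
        have := DFunLike.congr_fun (c2 t) (x : M ⧸ X)
        rw [C8_quo_apply, AddMonoid.End.coe_one, id] at this
        have h3 := (QuotientAddGroup.eq (s := X)).1 this.symm
        have h4 : ρ i t x - x = -x + ρ i t x := by abel
        rw [h4]; exact h3
    have e1 : 2 ^ Fintype.card {i // pX i} ≤ Nat.card X ^ 2 := by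
      refine ih (Nat.card X) hXlt X le_rfl {i // pX i} (fun i => T i.1) (fun i => hs i.1)
        (fun i => hna i.1) (fun i => C8_res (ρ i.1) X (hXi i.1)) ?_ (fun i => i.2)
      intro i j hij s t
      have := hcomm i.1 j.1 (fun h => hij (Subtype.ext h)) s t
      ext x
      exact DFunLike.congr_fun this.eq (x : M)
    have e2 : 2 ^ Fintype.card {i // pQ i} ≤ Nat.card (M ⧸ X) ^ 2 := by
      refine ih (Nat.card (M ⧸ X)) hQlt (M ⧸ X) le_rfl {i // pQ i} (fun i => T i.1)
        (fun i => hs i.1) (fun i => hna i.1) (fun i => C8_quo (ρ i.1) X (hXi i.1)) ?_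
        (fun i => i.2)
      intro i j hij s t
      have := hcomm i.1 j.1 (fun h => hij (Subtype.ext h)) s t
      refine AddMonoidHom.ext fun x => ?_
      induction x using QuotientAddGroup.induction_on with
      | H x => exact congrArg (fun y : M => (y : M ⧸ X)) (DFunLike.congr_fun this.eq x)
    have e3 : Fintype.card ι ≤ Fintype.card {i // pX i} + Fintype.card {i // pQ i} := by
      rw [Fintype.card_subtype, Fintype.card_subtype]
      refine le_trans ?_ (Finset.card_union_le _ _)
      rw [← Finset.card_univ]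
      apply Finset.card_le_card
      intro i _
      rw [Finset.mem_union, Finset.mem_filter, Finset.mem_filter]
      rcases hor i with h | h
      · exact Or.inl ⟨Finset.mem_univ _, h⟩
      · exact Or.inr ⟨Finset.mem_univ _, h⟩
    calc 2 ^ Fintype.card ι ≤ 2 ^ (Fintype.card {i // pX i} + Fintype.card {i // pQ i}) :=
          Nat.pow_le_pow_right (by norm_num) e3
      _ = 2 ^ Fintype.card {i // pX i} * 2 ^ Fintype.card {i // pQ i} := pow_add _ _ _
      _ ≤ Nat.card X ^ 2 * Nat.card (M ⧸ X) ^ 2 := Nat.mul_le_mul e1 e2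
      _ = Nat.card M ^ 2 := by rw [hcard]; ring
  · -- irreducible
    push Not at hX
    -- no fixed points
    have hfix : ∀ i x, (∀ t, ρ i t x = x) → x = 0 := by
      intro i x hx
      let Cx : AddSubgroup M :=
        { carrier := {y | ∀ t, ρ i t y = y}
          zero_mem' := fun t => map_zero _
          add_mem' := fun {a b} ha hb t => by rw [map_add, ha t, hb t]
          neg_mem' := fun {a} ha t => by rw [map_neg, ha t] }
      have hmem : ∀ y, y ∈ Cx ↔ ∀ t, ρ i t y = y := fun y => Iff.rfl
      by_contra hx0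
      have hb : Cx ≠ ⊥ := by
        intro h
        have : x ∈ Cx := hx
        rw [h] at this
        exact hx0 ((AddSubgroup.mem_bot).1 this)
      have ht : Cx ≠ ⊤ := by
        intro h
        obtain ⟨t, ht⟩ := hnt i
        apply ht
        ext y
        have : y ∈ Cx := by rw [h]; trivial
        simpa using this t
      obtain ⟨j, s, y, hy, hys⟩ := hX Cx hb ht
      apply hys
      intro t
      by_cases hij : i = j
      · subst hij
        rw [(hmem y).1 hy s, (hmem y).1 hy t]
      · have := DFunLike.congr_fun (hcomm i j hij t s).eq y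
        rw [C8_mul, C8_mul, (hmem y).1 hy t] at this
        exact this
    -- the ring generated by the first group
    let R : Subring (AddMonoid.End M) := Subring.closure (Set.range (ρ i0))
    have hRc : ∀ r ∈ R, ∀ j, j ≠ i0 → ∀ s, Commute r (ρ j s) := by
      intro r hr j hj s
      have hle : R ≤ Subring.centralizer {ρ j s} := by
        refine Subring.closure_le.2 ?_
        rintro _ ⟨t, rfl⟩
        rw [SetLike.mem_coe, Subring.mem_centralizer_iff]
        intro g hg
        rw [Set.mem_singleton_iff] at hg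
        subst hg
        exact (hcomm j i0 hj s t).eq
      have := (Subring.mem_centralizer_iff.1 (hle hr)) (ρ j s) (Set.mem_singleton _)
      exact this.symm
    have hex : ∃ r ∈ R, r ≠ 0 ∧ ∃ x, x ≠ 0 ∧ r x = 0 := by
      by_contra hcon
      push Not at hcon
      have : Finite (AddMonoid.End M) := by
        have : Finite (M → M) := inferInstance
        exact Finite.of_injective (fun f : AddMonoid.End M => (f : M → M))
          DFunLike.coe_injective
      have hRfin : Finite R := inferInstance
      have hRnt : Nontrivial R := by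
        refine ⟨⟨0, 1, fun h => ?_⟩⟩
        have h' : (0 : AddMonoid.End M) = 1 := congrArg Subtype.val h
        obtain ⟨x, hx⟩ : ∃ x : M, x ≠ 0 := by
          have : Nontrivial M := Finite.one_lt_card_iff_nontrivial.1 (by omega)
          exact exists_ne 0
        have := DFunLike.congr_fun h' x
        simp at this
        exact hx this.symm
      have hdom : NoZeroDivisors R := by
        refine ⟨fun {a b} hab => ?_⟩
        by_contra hne
        rw [not_or] at hne
        obtain ⟨ha, hb⟩ := hne
        have ha' : (a : AddMonoid.End M) ≠ 0 := fun h => ha (Subtype.ext h)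
        have hb' : (b : AddMonoid.End M) ≠ 0 := fun h => hb (Subtype.ext h)
        obtain ⟨x, hx⟩ : ∃ x, (b : AddMonoid.End M) x ≠ 0 := by
          by_contra hc
          push Not at hc
          exact hb' (by ext x; exact hc x)
        have h1 := hcon a a.2 ha' _ hx
        have h2 : (a : AddMonoid.End M) * (b : AddMonoid.End M) = 0 := by
          have := congrArg Subtype.val hab
          simpa using this
        exact h1 (DFunLike.congr_fun h2 x)
      have hisdom : IsDomain R := NoZeroDivisors.to_isDomain R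
      have hfield := Finite.isDomain_to_isField R
      obtain ⟨a, b, hab⟩ := hna i0
      apply hab
      apply hinj i0
      rw [map_mul, map_mul]
      have := hfield.mul_comm ⟨ρ i0 a, Subring.subset_closure ⟨a, rfl⟩⟩
        ⟨ρ i0 b, Subring.subset_closure ⟨b, rfl⟩⟩
      exact congrArg Subtype.val this
    obtain ⟨r, hrR, hr0, x0, hx0, hrx0⟩ := hex
    let r' : M →+ M := r
    let X : AddSubgroup M := r'.ker
    let Y : AddSubgroup M := r'.range
    have hcard : Nat.card M = Nat.card Y * Nat.card X := by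
      rw [AddSubgroup.card_eq_card_quotient_mul_card_addSubgroup X]
      congr 1
      exact Nat.card_congr (QuotientAddGroup.quotientKerEquivRange r').toEquiv
    have hX1 : 1 < Nat.card X := by
      rw [AddSubgroup.one_lt_card_iff_ne_bot]
      intro h
      have : x0 ∈ X := (AddMonoidHom.mem_ker).2 hrx0
      rw [h] at this
      exact hx0 ((AddSubgroup.mem_bot).1 this)
    have hY1 : 1 < Nat.card Y := by
      rw [AddSubgroup.one_lt_card_iff_ne_bot]
      intro h
      apply hr0
      ext x
      have : r x ∈ Y := ⟨x, rfl⟩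
      rw [h] at this
      exact (AddSubgroup.mem_bot).1 this
    have hXlt : Nat.card X < N := by nlinarith
    have hYlt : Nat.card Y < N := by nlinarith
    have hXi : ∀ j : {j // j ≠ i0}, ∀ t, ∀ x ∈ X, ρ j.1 t x ∈ X := by
      intro j t x hx
      rw [AddMonoidHom.mem_ker] at hx ⊢
      have := DFunLike.congr_fun (hRc r hrR j.1 j.2 t).eq x
      rw [C8_mul, C8_mul] at this
      change r (ρ j.1 t x) = 0
      rw [this]
      change ρ j.1 t (r' x) = 0
      rw [hx, map_zero]
    have hYi : ∀ j : {j // j ≠ i0}, ∀ t, ∀ x ∈ Y, ρ j.1 t x ∈ Y := by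
      rintro j t _ ⟨x, rfl⟩
      have := DFunLike.congr_fun (hRc r hrR j.1 j.2 t).eq x
      rw [C8_mul, C8_mul] at this
      exact ⟨ρ j.1 t x, this⟩
    have gen : ∀ (Z : AddSubgroup M) (hZ1 : 1 < Nat.card Z) (hZlt : Nat.card Z < N)
        (hZi : ∀ j : {j // j ≠ i0}, ∀ t, ∀ x ∈ Z, ρ j.1 t x ∈ Z),
        2 ^ Fintype.card {j // j ≠ i0} ≤ Nat.card Z ^ 2 := by
      intro Z hZ1 hZlt hZi
      refine ih (Nat.card Z) hZlt Z le_rfl {j // j ≠ i0} (fun i => T i.1) (fun i => hs i.1)
        (fun i => hna i.1) (fun i => C8_res (ρ i.1) Z (hZi i)) ?_ ?_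
      · intro i j hij s t
        have := hcomm i.1 j.1 (fun h => hij (Subtype.ext h)) s t
        ext x
        exact DFunLike.congr_fun this.eq (x : M)
      · intro i
        by_contra hcon
        push Not at hcon
        have hne : Z ≠ ⊥ := AddSubgroup.one_lt_card_iff_ne_bot Z |>.1 hZ1
        obtain ⟨x, hx, hx0⟩ : ∃ x : M, x ∈ Z ∧ x ≠ 0 := by
          obtain ⟨a, ha⟩ := (AddSubgroup.ne_bot_iff_exists_ne_zero).1 hne
          exact ⟨(a : M), a.2, fun h => ha (Subtype.ext h)⟩
        apply hx0
        apply hfix i.1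
        intro t
        have := DFunLike.congr_fun (hcon t) ⟨x, hx⟩
        have h2 := congrArg (fun y : Z => (y : M)) this
        simpa [C8_res_apply] using h2
    have eX := gen X hX1 hXlt hXi
    have eY := gen Y hY1 hYlt hYi
    have hc : Fintype.card {j // j ≠ i0} = Fintype.card ι - 1 := by
      rw [Fintype.card_subtype_compl, Fintype.card_subtype_eq]
    rw [hc] at eX eY
    calc 2 ^ Fintype.card ι ≤ 2 ^ ((Fintype.card ι - 1) + (Fintype.card ι - 1)) :=
          Nat.pow_le_pow_right (by norm_num) (by omega)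
      _ = 2 ^ (Fintype.card ι - 1) * 2 ^ (Fintype.card ι - 1) := pow_add _ _ _
      _ ≤ Nat.card Y ^ 2 * Nat.card X ^ 2 := Nat.mul_le_mul eY eX
      _ = Nat.card M ^ 2 := by rw [hcard]; ring

/-- the representation on the additive version -/
def C8_toEnd {A : Type} [CommGroup A] {T : Type} [Group T] (ψ : T →* MulAut A) :
    T →* AddMonoid.End (Additive A) where
  toFun t := MonoidHom.toAdditive (ψ t).toMonoidHom
  map_one' := by
    refine AddMonoidHom.ext fun x => ?_
    change Additive.ofMul (ψ 1 x.toMul) = x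
    rw [map_one]; rfl
  map_mul' s t := by
    refine AddMonoidHom.ext fun x => ?_
    change Additive.ofMul (ψ (s * t) x.toMul) = Additive.ofMul (ψ s (ψ t x.toMul))
    rw [map_mul]; rfl

theorem C8_toEnd_apply {A : Type} [CommGroup A] {T : Type} [Group T] (ψ : T →* MulAut A)
    (t : T) (x : A) : C8_toEnd ψ t (Additive.ofMul x) = Additive.ofMul (ψ t x) := rfl

/-- (Star, abelian case) Commuting nonabelian simple groups acting nontrivially on a finite
abelian group. -/
theorem card_pow_le_of_simple_action {A : Type} [CommGroup A] [Finite A] {ι : Type}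
    [Fintype ι] {T : ι → Type} [∀ i, Group (T i)] (hs : ∀ i, IsSimpleGroup (T i))
    (hna : ∀ i, ∃ a b : T i, ¬ Commute a b) (ψ : ∀ i, T i →* MulAut A)
    (hcomm : ∀ i j, i ≠ j → ∀ s t, Commute (ψ i s) (ψ j t)) (hnt : ∀ i, ∃ t, ψ i t ≠ 1) :
    2 ^ Fintype.card ι ≤ Nat.card A ^ 2 := by
  have : Finite (Additive A) := ‹Finite A›
  have h := C8_aux (Nat.card (Additive A)) (Additive A) le_rfl ι T hs hna
    (fun i => C8_toEnd (ψ i)) ?_ ?_
  · exact h
  · intro i j hij s t
    ext x
    have := DFunLike.congr_fun (hcomm i j hij s t).eq x.toMul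
    exact this
  · intro i
    obtain ⟨t, ht⟩ := hnt i
    refine ⟨t, fun h => ht ?_⟩
    ext x
    exact DFunLike.congr_fun h (Additive.ofMul x)

theorem card_fixed_pow_le_of_simple_action {A : Type} [CommGroup A] [Finite A] {ι : Type}
    [Fintype ι] {T : ι → Type} [∀ i, Group (T i)] (hs : ∀ i, IsSimpleGroup (T i))
    (hna : ∀ i, ∃ a b : T i, ¬ Commute a b) (ψ : ∀ i, T i →* MulAut A)
    (hcomm : ∀ i j, i ≠ j → ∀ s t, Commute (ψ i s) (ψ j t)) (hnt : ∀ i, ∃ t, ψ i t ≠ 1) :
    Nat.card {a : A // ∀ i t, ψ i t a = a} ^ 2 * 2 ^ Fintype.card ι ≤ Nat.card A ^ 2 := by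
  have : Finite (Additive A) := ‹Finite A›
  let Cx : AddSubgroup (Additive A) :=
    { carrier := {y | ∀ i t, C8_toEnd (ψ i) t y = y}
      zero_mem' := fun i t => map_zero _
      add_mem' := fun {a b} ha hb i t => by rw [map_add, ha i t, hb i t]
      neg_mem' := fun {a} ha i t => by rw [map_neg, ha i t] }
  have hCi : ∀ i t, ∀ x ∈ Cx, C8_toEnd (ψ i) t x ∈ Cx := by
    intro i t x hx
    have : C8_toEnd (ψ i) t x = x := hx i t
    rw [this]; exact hx
  have hcardC : Nat.card Cx = Nat.card {a : A // ∀ i t, ψ i t a = a} := by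
    refine Nat.card_congr ?_
    exact Equiv.subtypeEquiv Additive.toMul (fun a => Iff.rfl)
  have hcard : Nat.card (Additive A) = Nat.card (Additive A ⧸ Cx) * Nat.card Cx :=
    AddSubgroup.card_eq_card_quotient_mul_card_addSubgroup Cx
  have h := C8_aux (Nat.card (Additive A ⧸ Cx)) (Additive A ⧸ Cx) le_rfl ι T hs hna
    (fun i => C8_quo (C8_toEnd (ψ i)) Cx (hCi i)) ?_ ?_
  · have hA : Nat.card A = Nat.card (Additive A) := rfl
    rw [hA, hcard, ← hcardC, mul_pow, mul_comm]
    exact Nat.mul_le_mul_right _ h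
  · intro i j hij s t
    refine AddMonoidHom.ext fun x => ?_
    induction x using QuotientAddGroup.induction_on with
    | H x =>
      have h1 : C8_toEnd (ψ i) s (C8_toEnd (ψ j) t x) = C8_toEnd (ψ j) t (C8_toEnd (ψ i) s x) :=
        DFunLike.congr_fun (hcomm i j hij s t).eq x.toMul
      exact congrArg (fun y : Additive A => (y : Additive A ⧸ Cx)) h1
  · intro i
    by_contra hcon
    push Not at hcon
    refine C8_not_both (hs i) (hna i) (C8_toEnd (ψ i)) ?_ Cx ?_ ?_
    · obtain ⟨t, ht⟩ := hnt i
      refine ⟨t, fun h => ht ?_⟩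
      ext x
      exact DFunLike.congr_fun h (Additive.ofMul x)
    · intro t x hx
      exact hx i t
    · intro t x
      have := DFunLike.congr_fun (hcon t) (x : Additive A ⧸ Cx)
      rw [C8_quo_apply, AddMonoid.End.coe_one, id] at this
      have h3 := (QuotientAddGroup.eq (s := Cx)).1 this.symm
      have h4 : C8_toEnd (ψ i) t x - x = -x + C8_toEnd (ψ i) t x := by abel
      rw [h4]; exact h3

end LibKS
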