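import Pool.Agent.LibKS.B0
import Pool.Agent.LibKS.B0d
import Pool.Agent.LibKS.B2a
import Pool.Agent.LibKS.B2b
import Pool.Agent.LibKS.B2c
import Pool.Agent.LibKS.B2d
import Pool.Agent.LibKS.C8

set_option autoImplicit false

namespace LibKS

variable {p : ℕ} {F : GoodClass p}

/-- Each conjugate of a component is a component. -/
private theorem B2e_om_comp {H : Type} [Group H] {S : Subgroup H} (hS : IsComp F S)
    (v : Om S) : IsComp F v.1 := by
  obtain ⟨T, x, rfl⟩ := v
  exact hS.map_conj x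

/-- The elements of a conjugate of a component normalise every conjugate. -/
private theorem B2e_smul_self [Fact p.Prime] {H : Type} [Group H] {S : Subgroup H}
    (hS : IsComp F S) (v w : Om S) (h : H) (hh : h ∈ v.1) : h • w = w := by
  apply Subtype.ext
  rw [Om.smul_coe]
  rcases (B2e_om_comp hS v).eq_or_commute (B2e_om_comp hS w) with e | e
  · rw [← e]
    ext y
    simp only [Subgroup.mem_map, MulEquiv.coe_toMonoidHom, MulAut.conj_apply]
    constructor
    · rintro ⟨s, hs, rfl⟩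
      exact v.1.mul_mem (v.1.mul_mem hh hs) (v.1.inv_mem hh)
    · intro hy
      exact ⟨h⁻¹ * y * h, v.1.mul_mem (v.1.mul_mem (v.1.inv_mem hh) hy) hh, by group⟩
  · ext y
    simp only [Subgroup.mem_map, MulEquiv.coe_toMonoidHom, MulAut.conj_apply]
    constructor
    · rintro ⟨s, hs, rfl⟩
      have := e h hh s hs
      rw [this.eq, mul_inv_cancel_right]
      exact hs
    · intro hy
      refine ⟨y, hy, ?_⟩
      have := e h hh y hy
      rw [this.eq, mul_inv_cancel_right]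

/-- The images of a subgroup by two homomorphisms with the same kernel on it are isomorphic. -/
private theorem B2e_equiv {G H Γ : Type} [Group G] [Group H] [Group Γ] (X : Subgroup G)
    (f : G →* H) (g : G →* Γ) (h : X ⊓ f.ker = X ⊓ g.ker) :
    Nonempty (X.map f ≃* X.map g) := by
  have e1 : (f.subgroupMap X).ker = (g.subgroupMap X).ker := by
    ext x
    have h1 : (x : G) ∈ X ⊓ f.ker ↔ (x : G) ∈ X ⊓ g.ker := by rw [h]
    simp only [Subgroup.mem_inf, x.2, true_and, MonoidHom.mem_ker] at h1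
    rw [MonoidHom.mem_ker, MonoidHom.mem_ker, Subtype.ext_iff, Subtype.ext_iff]
    simpa using h1
  exact ⟨(QuotientGroup.quotientKerEquivOfSurjective (f.subgroupMap X)
    (f.subgroupMap_surjective X)).symm.trans
    ((QuotientGroup.quotientMulEquivOfEq e1).trans
      (QuotientGroup.quotientKerEquivOfSurjective (g.subgroupMap X)
        (g.subgroupMap_surjective X)))⟩

/-- Two actions with the same image have isomorphic effective quotients. -/
private theorem B2e_quot_equiv {Γ H Ω : Type} [Group Γ] [Group H] [MulAction Γ Ω]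
    [MulAction H Ω] (h1 : ∀ x : Γ, ∃ y : H, ∀ v : Ω, x • v = y • v)
    (h2 : ∀ y : H, ∃ x : Γ, ∀ v : Ω, x • v = y • v) :
    Nonempty ((Γ ⧸ (MulAction.toPermHom Γ Ω).ker) ≃* (H ⧸ (MulAction.toPermHom H Ω).ker)) := by
  have e : (MulAction.toPermHom Γ Ω).range = (MulAction.toPermHom H Ω).range := by
    ext σ
    constructor
    · rintro ⟨x, rfl⟩
      obtain ⟨y, hy⟩ := h1 x
      refine ⟨y, ?_⟩
      ext v
      simp [hy]
    · rintro ⟨y, rfl⟩
      obtain ⟨x, hx⟩ := h2 y
      refine ⟨x, ?_⟩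
      ext v
      simp [hx]
  exact ⟨(QuotientGroup.quotientKerEquivRange _).trans
    ((MulEquiv.subgroupCongr e).trans (QuotientGroup.quotientKerEquivRange _).symm)⟩

/-- Star condition from the action on an abelian group. -/
private theorem B2e_star {Γ A Ω : Type} [Group Γ] [CommGroup A] [Finite A]
    (K₁ : Subgroup Γ) (b : K₁ →* MulAut A) (T : Ω → Subgroup Γ) (hT : ∀ v, T v ≤ K₁)
    (hsimple : ∀ v, IsSimpleGroup (T v))
    (hnonab : ∀ v, ∃ x ∈ T v, ∃ y ∈ T v, ¬ Commute x y)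
    (hcomm : ∀ v w, v ≠ w → ∀ x ∈ T v, ∀ y ∈ T w, Commute x y)
    (B : Finset Ω) (hB : ∀ v ∈ B, ActsNontriv ((MulAut.toPerm A).comp b) (T v)) :
    Nat.card {ξ : A // ∀ v ∈ B, FixedBy ((MulAut.toPerm A).comp b) (T v) ξ} * 4 ^ B.card ≤
      3 ^ B.card * Nat.card A := by
  classical
  have key := card_fixed_pow_le_of_simple_action (A := A) (ι := B)
    (T := fun v : B => T v.1) (fun v => hsimple v.1)
    (fun v => by
      obtain ⟨x, hx, y, hy, hxy⟩ := hnonab v.1
      refine ⟨⟨x, hx⟩, ⟨y, hy⟩, fun h => hxy ?_⟩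
      have := congrArg Subtype.val h.eq
      exact this)
    (fun v => b.comp (Subgroup.inclusion (hT v.1)))
    (fun v w hvw s t => by
      have h1 : (v : Ω) ≠ w := fun h => hvw (Subtype.ext h)
      have h2 := hcomm v w h1 s s.2 t t.2
      have h3 : Commute (Subgroup.inclusion (hT v.1) s) (Subgroup.inclusion (hT w.1) t) := by
        apply Subtype.ext
        exact h2.eq
      exact h3.map b)
    (fun v => by
      obtain ⟨ξ, hξ⟩ := hB v.1 v.2
      by_contra hcon
      push Not at hcon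
      apply hξ
      intro k hk
      have h1 := hcon ⟨k, hk⟩
      have h2 : Subgroup.inclusion (hT v.1) ⟨k, hk⟩ = k := rfl
      change b (Subgroup.inclusion (hT v.1) ⟨k, hk⟩) = 1 at h1
      rw [h2] at h1
      change b k ξ = ξ
      rw [h1]
      rfl)
  have hcard : Nat.card {a : A // ∀ (i : B) (t : T i.1),
      (b.comp (Subgroup.inclusion (hT i.1))) t a = a} =
      Nat.card {ξ : A // ∀ v ∈ B, FixedBy ((MulAut.toPerm A).comp b) (T v) ξ} := by
    apply Nat.card_congr
    refine Equiv.subtypeEquivRight fun ξ => ?_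
    constructor
    · intro h v hv k hk
      exact h ⟨v, hv⟩ ⟨k, hk⟩
    · intro h v t
      exact h v.1 v.2 (Subgroup.inclusion (hT v.1) t) t.2
  rw [hcard, Fintype.card_coe] at key
  set c := Nat.card {ξ : A // ∀ v ∈ B, FixedBy ((MulAut.toPerm A).comp b) (T v) ξ}
  set n := B.card
  have h9 : (8 : ℕ) ^ n ≤ 9 ^ n := Nat.pow_le_pow_left (by norm_num) n
  have h16 : ((4 : ℕ) ^ n) ^ 2 = 2 ^ n * 8 ^ n := by
    rw [← mul_pow, ← pow_mul, mul_comm n 2, pow_mul]
    norm_num
  have h3 : ((3 : ℕ) ^ n) ^ 2 = 9 ^ n := by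
    rw [← pow_mul, mul_comm n 2, pow_mul]
    norm_num
  have : (c * 4 ^ n) ^ 2 ≤ (3 ^ n * Nat.card A) ^ 2 := by
    calc (c * 4 ^ n) ^ 2 = c ^ 2 * 2 ^ n * 8 ^ n := by rw [mul_pow, h16]; ring
      _ ≤ Nat.card A ^ 2 * 9 ^ n := Nat.mul_le_mul key h9
      _ = (3 ^ n * Nat.card A) ^ 2 := by rw [mul_pow, h3]; ring
  exact le_of_sq_le_sq this
where
  le_of_sq_le_sq {a b : ℕ} (h : a ^ 2 ≤ b ^ 2) : a ≤ b :=
    (Nat.pow_le_pow_iff_left (by norm_num)).1 h

/-- Type II. -/
theorem structure_typeII [Fact p.Prime] {G H : Type} [Group G] [Group H] [Finite G]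
    (K N E : Subgroup G) [N.Normal] [E.Normal] (f : G →* H) (hf : Function.Surjective f)
    (S : Subgroup H) (hS : IsComp F S) (hNE : N ≤ E) (hER : E ≤ f.ker)
    (hcomm : ⁅E, f.ker⁆ ≤ N)
    (hgood : ¬ S ≤ ((K ⊔ N).normalCore).map f) (hbad : S ≤ ((K ⊔ E).normalCore).map f) :
    StructureGoal F K S := by
  classical
  have : Finite H := Finite.of_surjective f hf
  have hab : ⁅E, E⁆ ≤ N := (Subgroup.commutator_mono le_rfl hER).trans hcomm
  obtain ⟨L, hL⟩ : ∃ L, L = (K ⊔ N).normalCore := ⟨_, rfl⟩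
  obtain ⟨D, hD⟩ : ∃ D, D = (Subgroup.normalClosure (S : Set H)).comap f ⊓
    (K ⊔ E).normalCore := ⟨_, rfl⟩
  obtain ⟨Z, hZ⟩ : ∃ Z, Z = L ⊔ (D ⊓ f.ker) := ⟨_, rfl⟩
  obtain ⟨hZn, hZle, hDmap, hvmap, hvZ, hZfix⟩ :=
    typeII_facts K N E f hf S hS hNE hER hgood hbad L D Z hL hD hZ
  obtain ⟨A, instA, π, act, hπ, hker, hact⟩ := exists_section K N E hNE hab
  have : Finite A := Finite.of_surjective π hπ
  have hDn : D.Normal := by rw [hD]; infer_instance
  have hLn : L.Normal := by rw [hL]; infer_instance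
  have hLK : L ≤ K ⊔ N := by rw [hL]; exact Subgroup.normalCore_le _
  have hDK : D ≤ (K ⊔ E).normalCore := by rw [hD]; exact inf_le_right
  have hKNKE : K ⊔ N ≤ K ⊔ E := sup_le_sup_left hNE K
  -- elements acting trivially
  have htrivial : ∀ y : (K ⊔ E : Subgroup G),
      (∀ e ∈ E, (y : G) * e * (y : G)⁻¹ * e⁻¹ ∈ K ⊔ N) → act y = 1 := by
    intro y hy
    ext a
    obtain ⟨e, rfl⟩ := hπ a
    have hn : (y : G) * e * (y : G)⁻¹ ∈ E := ‹E.Normal›.conj_mem e e.2 y
    rw [hact y e hn]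
    change π _ = π e
    rw [← mul_inv_eq_one, ← map_inv, ← map_mul, ← MonoidHom.mem_ker, hker,
      Subgroup.mem_subgroupOf]
    exact hy e e.2
  have htrivial' : ∀ y : (K ⊔ E : Subgroup G), act y = 1 →
      (∀ e ∈ E, (y : G) * e * (y : G)⁻¹ * e⁻¹ ∈ K ⊔ N) := by
    intro y hy e he
    have hn : (y : G) * e * (y : G)⁻¹ ∈ E := ‹E.Normal›.conj_mem e he y
    have h1 := hact y ⟨e, he⟩ hn
    rw [hy] at h1
    change π ⟨e, he⟩ = _ at h1
    have h2 : π (⟨_, hn⟩ * ⟨e, he⟩⁻¹) = 1 := by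
      rw [map_mul, ← h1, map_inv, mul_inv_cancel]
    rw [← MonoidHom.mem_ker, hker, Subgroup.mem_subgroupOf] at h2
    exact h2
  have htriv : ∀ z : (K ⊔ E : Subgroup G), (z : G) ∈ Z → act z = 1 := by
    have hle : Z ≤ act.ker.map (K ⊔ E : Subgroup G).subtype := by
      rw [hZ]
      refine sup_le ?_ ?_
      · intro l hl
        have hlK : l ∈ K ⊔ E := hKNKE (hLK hl)
        refine ⟨⟨l, hlK⟩, ?_, rfl⟩
        apply htrivial ⟨l, hlK⟩
        intro e _
        apply hLK
        have : l * e * l⁻¹ * e⁻¹ = l * (e * l⁻¹ * e⁻¹) := by group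
        rw [this]
        exact L.mul_mem hl (hLn.conj_mem _ (L.inv_mem hl) e)
      · rintro d ⟨hd, hdk⟩
        have hlK : d ∈ K ⊔ E := Subgroup.normalCore_le _ (hDK hd)
        refine ⟨⟨d, hlK⟩, ?_, rfl⟩
        apply htrivial ⟨d, hlK⟩
        intro e he
        apply (le_sup_right : N ≤ K ⊔ N)
        apply hcomm
        rw [Subgroup.commutator_comm]
        exact Subgroup.commutator_mem_commutator hdk he
    intro z hz
    obtain ⟨z', hz', hzz⟩ := hle hz
    have : z' = z := Subtype.ext hzz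
    rw [← this]
    exact hz'
  obtain ⟨a, ha, hcardfix⟩ := exists_descend (K ⊔ E) Z hZle ((MulAut.toPerm A).comp act)
    (fun z hz => by rw [MonoidHom.comp_apply, htriv z hz, map_one])
  -- the action of the quotient
  have hφker : ∀ z ∈ Z, ((MulAction.toPermHom H (Om S)).comp f) z = 1 := by
    intro z hz
    ext v
    simp only [MonoidHom.comp_apply, MulAction.toPermHom_apply, MulAction.toPerm_apply,
      Equiv.Perm.coe_one, id_eq]
    exact hZfix z hz v
  let φ : G ⧸ Z →* Equiv.Perm (Om S) :=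
    QuotientGroup.lift Z ((MulAction.toPermHom H (Om S)).comp f) hφker
  letI instAct : MulAction (G ⧸ Z) (Om S) := MulAction.compHom (Om S) φ
  have hsmul : ∀ (g : G) (v : Om S), (QuotientGroup.mk' Z g) • v = f g • v := by
    intro g v
    rfl
  let T : Om S → Subgroup (G ⧸ Z) := fun v => (D ⊓ v.1.comap f).map (QuotientGroup.mk' Z)
  have hTequiv : ∀ v : Om S, Nonempty (v.1 ≃* T v) := by
    intro v
    have h1 : (D ⊓ v.1.comap f) ⊓ f.ker = (D ⊓ v.1.comap f) ⊓ (QuotientGroup.mk' Z).ker := by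
      rw [QuotientGroup.ker_mk', hvZ v]
      apply le_antisymm
      · rintro x ⟨⟨hx, -⟩, hx'⟩
        exact ⟨hx, hx'⟩
      · rintro x ⟨hx, hx'⟩
        refine ⟨⟨hx, ?_⟩, hx'⟩
        change f x ∈ v.1
        rw [MonoidHom.mem_ker.1 hx']
        exact v.1.one_mem
    obtain ⟨e⟩ := B2e_equiv (D ⊓ v.1.comap f) f (QuotientGroup.mk' Z) h1
    exact ⟨(MulEquiv.subgroupCongr (hvmap v).symm).trans e⟩
  have hTK : ∀ v, T v ≤ ((K ⊔ E).map (QuotientGroup.mk' Z)).normalCore := by
    intro v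
    have : ((K ⊔ E).normalCore.map (QuotientGroup.mk' Z)).Normal :=
      Subgroup.Normal.map inferInstance _ (QuotientGroup.mk'_surjective Z)
    have h1 : (K ⊔ E).normalCore.map (QuotientGroup.mk' Z) ≤
        ((K ⊔ E).map (QuotientGroup.mk' Z)).normalCore :=
      Subgroup.normal_le_normalCore.2 (Subgroup.map_mono (Subgroup.normalCore_le _))
    exact (Subgroup.map_mono (inf_le_left.trans hDK)).trans h1
  have hTcomm : ∀ v w, v ≠ w → ∀ x ∈ T v, ∀ y ∈ T w, Commute x y := by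
    rintro v w hvw _ ⟨x, ⟨hxD, hxv⟩, rfl⟩ _ ⟨y, ⟨hyD, hyw⟩, rfl⟩
    have h1 : Commute (f x) (f y) := by
      rcases (B2e_om_comp hS v).eq_or_commute (B2e_om_comp hS w) with e | e
      · exact absurd (Subtype.ext e) hvw
      · exact e _ hxv _ hyw
    have h2 : x * y * x⁻¹ * y⁻¹ ∈ Z := by
      rw [hZ]
      apply (le_sup_right : D ⊓ f.ker ≤ L ⊔ (D ⊓ f.ker))
      refine ⟨?_, ?_⟩
      · have : x * y * x⁻¹ * y⁻¹ = x * (y * x⁻¹ * y⁻¹) := by group
        rw [this]
        exact D.mul_mem hxD (hDn.conj_mem _ (D.inv_mem hxD) y)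
      · change f (x * y * x⁻¹ * y⁻¹) = 1
        simp only [map_mul, map_inv]
        rw [h1.eq]
        group
    rw [← QuotientGroup.ker_mk' Z, MonoidHom.mem_ker] at h2
    simp only [map_mul, map_inv] at h2
    rw [mul_inv_eq_one, mul_inv_eq_iff_eq_mul] at h2
    exact h2
  have hTsimple : ∀ v, IsSimpleGroup (T v) := by
    intro v
    obtain ⟨e⟩ := hTequiv v
    have := (B2e_om_comp hS v).simple
    exact MulEquiv.isSimpleGroup e.symm
  have hTnonab : ∀ v, ∃ x ∈ T v, ∃ y ∈ T v, ¬ Commute x y := by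
    intro v
    obtain ⟨e⟩ := hTequiv v
    obtain ⟨x, hx, y, hy, hxy⟩ := (B2e_om_comp hS v).exists_not_commute
    refine ⟨e ⟨x, hx⟩, (e ⟨x, hx⟩).2, e ⟨y, hy⟩, (e ⟨y, hy⟩).2, fun h => hxy ?_⟩
    have h1 : e ⟨x, hx⟩ * e ⟨y, hy⟩ = e ⟨y, hy⟩ * e ⟨x, hx⟩ := Subtype.ext h.eq
    rw [← map_mul, ← map_mul] at h1
    exact congrArg Subtype.val (e.injective h1)
  -- multiplicative version of the action
  have hmul : ∀ (k : (K ⊔ E).map (QuotientGroup.mk' Z)), ∃ m : MulAut A,
      MulAut.toPerm A m = a k := by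
    rintro ⟨_, y, hy, rfl⟩
    exact ⟨act ⟨y, hy⟩, (ha ⟨y, hy⟩).symm⟩
  have hinj : Function.Injective (MulAut.toPerm A) := by
    intro m m' h
    ext x
    exact congrArg (fun σ : Equiv.Perm A => σ x) h
  choose b0 hb0 using hmul
  let b : (K ⊔ E).map (QuotientGroup.mk' Z) →* MulAut A :=
    { toFun := b0
      map_one' := by
        apply hinj
        rw [hb0, map_one, map_one]
      map_mul' := fun x y => by
        apply hinj
        rw [hb0, map_mul, map_mul, hb0, hb0] }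
  have hb : (MulAut.toPerm A).comp b = a := by
    ext1 k
    exact hb0 k
  have hbased : Based p ((K ⊔ E).map (QuotientGroup.mk' Z)) a T := by
    refine ⟨⟨?_⟩, hTK, ?_, hTcomm, hTsimple, hTnonab, ?_, ?_, ?_⟩
    · rintro ⟨_, x, rfl⟩ ⟨_, y, rfl⟩
      obtain ⟨g, hg⟩ := hf (y * x⁻¹)
      refine ⟨QuotientGroup.mk' Z g, ?_⟩
      apply Subtype.ext
      change (S.map (MulAut.conj x).toMonoidHom).map (MulAut.conj (f g)).toMonoidHom =
        S.map (MulAut.conj y).toMonoidHom
      rw [hg]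
      ext z
      simp only [Subgroup.mem_map, MulEquiv.coe_toMonoidHom, MulAut.conj_apply]
      constructor
      · rintro ⟨_, ⟨s, hs, rfl⟩, rfl⟩
        exact ⟨s, hs, by group⟩
      · rintro ⟨s, hs, rfl⟩
        exact ⟨_, ⟨s, hs, rfl⟩, by group⟩
    · intro γ v
      obtain ⟨g, rfl⟩ := QuotientGroup.mk'_surjective Z γ
      rw [hsmul]
      ext z
      constructor
      · rintro ⟨_, ⟨x, ⟨hxD, hxv⟩, rfl⟩, rfl⟩
        refine ⟨g * x * g⁻¹, ⟨hDn.conj_mem x hxD g, ?_⟩, ?_⟩
        · change f (g * x * g⁻¹) ∈ (f g • v).1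
          rw [Om.smul_coe]
          exact ⟨f x, hxv, by simp [MulAut.conj_apply]⟩
        · simp [MulAut.conj_apply]
      · rintro ⟨x, ⟨hxD, hxv⟩, rfl⟩
        change f x ∈ (f g • v).1 at hxv
        rw [Om.smul_coe] at hxv
        obtain ⟨s, hs, hsx⟩ := hxv
        refine ⟨QuotientGroup.mk' Z (g⁻¹ * x * g), ⟨g⁻¹ * x * g, ⟨?_, ?_⟩, rfl⟩, ?_⟩
        · have := hDn.conj_mem x hxD g⁻¹
          rwa [inv_inv] at this
        · change f (g⁻¹ * x * g) ∈ v.1
          have : f (g⁻¹ * x * g) = s := by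
            rw [map_mul, map_mul, map_inv, ← hsx]
            simp only [MulEquiv.coe_toMonoidHom, MulAut.conj_apply]
            group
          rw [this]
          exact hs
        · simp only [MulEquiv.coe_toMonoidHom, MulAut.conj_apply, map_mul, map_inv]
          group
    · intro v
      obtain ⟨e⟩ := hTequiv v
      rw [← Nat.card_congr e.toEquiv]
      exact (B2e_om_comp hS v).dvd_card
    · rintro v w _ ⟨t, ⟨htD, htv⟩, rfl⟩
      rw [hsmul]
      exact B2e_smul_self hS v w (f t) htv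
    · intro B hB
      rw [← hb] at hB ⊢
      exact B2e_star _ b T (fun v => (hTK v).trans (Subgroup.normalCore_le _)) hTsimple
        hTnonab hTcomm B hB
  refine ⟨G ⧸ Z, inferInstance, QuotientGroup.mk' Z, (K ⊔ E).map (QuotientGroup.mk' Z), Om S,
    A, instAct, a, T, QuotientGroup.mk'_surjective Z, ?_, inferInstance, inferInstance,
    hbased, ?_, ?_, ?_⟩
  · exact inferInstanceAs (Finite {T : Subgroup H //
      ∃ g : H, S.map (MulAut.conj g).toMonoidHom = T})
  · by_contra hcon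
    obtain ⟨d, hdD, e, heE, hde⟩ := typeII_nontrivial K N E f hf S hS hNE hER hab hgood hbad
      D hD
    have hfix : ∀ (v : Om S) (y : G) (hy : y ∈ D ⊓ v.1.comap f), ∀ hyK : y ∈ K ⊔ E,
        act ⟨y, hyK⟩ = 1 := by
      intro v y hy hyK
      have h1 : ∀ ξ, FixedBy a (T v) ξ := by
        intro ξ
        by_contra h
        exact hcon ⟨v, ξ, h⟩
      ext ξ
      have h2 := h1 ξ ⟨QuotientGroup.mk' Z y, y, hyK, rfl⟩ ⟨y, hy, rfl⟩
      have h3 := ha ⟨y, hyK⟩
      rw [h3] at h2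
      exact h2
    have hDle : D ≤ ⨆ v : Om S, (D ⊓ v.1.comap f) := by
      intro y hy
      have h1 : f y ∈ D.map f := ⟨y, hy, rfl⟩
      rw [hDmap] at h1
      have h2 : Subgroup.normalClosure (S : Set H) ≤
          (⨆ v : Om S, (D ⊓ v.1.comap f)).map f := by
        rw [Subgroup.map_iSup]
        have : (⨆ v : Om S, (D ⊓ v.1.comap f).map f).Normal := by
          simp only [hvmap]
          refine ⟨fun n hn g => ?_⟩
          have h3 : (⨆ v : Om S, v.1).map (MulAut.conj g).toMonoidHom ≤ ⨆ v : Om S, v.1 := by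
            rw [Subgroup.map_iSup]
            refine iSup_le fun v => ?_
            exact le_iSup (fun v : Om S => v.1) (g • v)
          exact h3 ⟨n, hn, rfl⟩
        refine Subgroup.normalClosure_le_normal ?_
        intro s hs
        obtain ⟨v1, hv1⟩ : ∃ v1 : Om S, v1.1 = S := ⟨⟨S, 1, by ext x; simp⟩, rfl⟩
        have h4 : s ∈ (D ⊓ v1.1.comap f).map f := by
          rw [hvmap, hv1]
          exact hs
        exact Subgroup.mem_iSup_of_mem v1 h4
      obtain ⟨y', hy', hyy⟩ := h2 h1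
      have h5 : (⨆ v : Om S, (D ⊓ v.1.comap f)) ≤ D := iSup_le fun v => inf_le_left
      have h6 : y'⁻¹ * y ∈ ⨆ v : Om S, (D ⊓ v.1.comap f) := by
        apply Subgroup.mem_iSup_of_mem (⟨S, 1, by ext x; simp⟩ : Om S)
        refine ⟨D.mul_mem (D.inv_mem (h5 hy')) hy, ?_⟩
        change f (y'⁻¹ * y) ∈ S
        rw [map_mul, map_inv, hyy, inv_mul_cancel]
        exact S.one_mem
      have := Subgroup.mul_mem _ hy' h6
      rwa [mul_inv_cancel_left] at this
    have hle : (⨆ v : Om S, (D ⊓ v.1.comap f)) ≤ act.ker.map (K ⊔ E : Subgroup G).subtype := by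
      refine iSup_le fun v => ?_
      intro y hy
      have hyK : y ∈ K ⊔ E := Subgroup.normalCore_le _ (hDK hy.1)
      exact ⟨⟨y, hyK⟩, hfix v y hy hyK, rfl⟩
    obtain ⟨d', hd', hdd⟩ := hle (hDle hdD)
    have h7 := htrivial' d' hd' e heE
    apply hde
    have h8 : (d' : G) = d := hdd
    rwa [h8] at h7
  · intro n hn
    obtain ⟨e⟩ := B2e_quot_equiv (Γ := G ⧸ Z) (H := H) (Ω := Om S)
      (fun x => by
        obtain ⟨g, rfl⟩ := QuotientGroup.mk'_surjective Z x
        exact ⟨f g, fun v => hsmul g v⟩)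
      (fun y => by
        obtain ⟨g, rfl⟩ := hf y
        exact ⟨QuotientGroup.mk' Z g, fun v => hsmul g v⟩)
    exact PL.of_equiv e hn
  · intro γ
    have h1 := card_affine_le K N E hNE π act hπ hker hact γ
    rw [hcardfix γ] at h1
    have h2 : Nat.card G = Nat.card (G ⧸ Z) * Nat.card Z := Subgroup.card_eq_card_quotient_mul_card_subgroup Z
    rw [h2]
    calc Nat.card {x : G // x⁻¹ * γ * x ∈ K} * (Nat.card (G ⧸ Z) * Nat.card A)
        = Nat.card {x : G // x⁻¹ * γ * x ∈ K} * Nat.card A * Nat.card (G ⧸ Z) := by ring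
      _ ≤ Nat.card Z * Nat.card (fixSet ((K ⊔ E).map (QuotientGroup.mk' Z)) a
          (QuotientGroup.mk' Z γ)) * Nat.card (G ⧸ Z) := Nat.mul_le_mul_right _ h1
      _ = _ := by ring

end LibKS
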