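import Pool.Agent.LibKS.B1
import Pool.Agent.LibKS.B2a
import Pool.Agent.LibKS.B2e

set_option autoImplicit false

namespace LibKS

variable {p : ℕ} {F : GoodClass p}

theorem B3_core_le {G H : Type} [Group G] [Group H] (K : Subgroup G) (f : G →* H)
    (hf : Function.Surjective f) :
    (K.map f).normalCore ≤ ((K ⊔ f.ker).normalCore).map f := by
  intro y hy
  obtain ⟨x, rfl⟩ := hf y
  refine ⟨x, fun g => ?_, rfl⟩
  obtain ⟨k, hk, hkx⟩ := hy (f g)
  have h1 : g * x * g⁻¹ = k * (k⁻¹ * (g * x * g⁻¹)) := by group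
  rw [h1]
  refine Subgroup.mul_mem_sup hk ?_
  rw [MonoidHom.mem_ker, map_mul, map_inv, hkx]
  simp only [map_mul, map_inv]
  group

/-- The structure theorem. -/
theorem structure_theorem [Fact p.Prime] {G H : Type} [Group G] [Group H] [Finite G]
    (hnil : NilClass F G) (K : Subgroup G) (hK : K.normalCore = ⊥) (f : G →* H)
    (hf : Function.Surjective f) (hker : F.mem f.ker) (S : Subgroup H) (hS : IsComp F S) :
    StructureGoal F K S := by
  classical
  have hR : Group.IsNilpotent f.ker :=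
    hnil G (MonoidHom.id G) Function.surjective_id f.ker inferInstance hker
  have hbot : (⊥ : Subgroup G) ∈ {N : Subgroup G | N.Normal ∧ N ≤ f.ker ∧
      ¬ S ≤ ((K ⊔ N).normalCore).map f} := by
    refine ⟨inferInstance, bot_le, fun h => ?_⟩
    rw [sup_bot_eq, hK, Subgroup.map_bot, le_bot_iff] at h
    exact hS.ne_bot h
  obtain ⟨N, hN⟩ := (Set.toFinite {N : Subgroup G | N.Normal ∧ N ≤ f.ker ∧
      ¬ S ≤ ((K ⊔ N).normalCore).map f}).exists_maximal ⟨⊥, hbot⟩
  obtain ⟨⟨hNn, hNR, hgood⟩, hmax⟩ := hN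
  by_cases hNe : N = f.ker
  · refine structure_typeI K f hf S hS fun h => hgood ?_
    rw [hNe]
    exact h.trans (B3_core_le K f hf)
  · have hker_mem : f.ker ∈ {X : Subgroup G | X.Normal ∧ N < X ∧ X ≤ f.ker} :=
      ⟨inferInstance, lt_of_le_of_ne hNR hNe, le_rfl⟩
    obtain ⟨E, hE⟩ := (Set.toFinite {X : Subgroup G | X.Normal ∧ N < X ∧
      X ≤ f.ker}).exists_minimal ⟨_, hker_mem⟩
    obtain ⟨⟨hEn, hNE, hER⟩, hmin⟩ := hE
    have hbad : S ≤ ((K ⊔ E).normalCore).map f := by
      by_contra hno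
      have h1 : E ≤ N := hmax ⟨hEn, hER, hno⟩ hNE.le
      exact absurd h1 (not_le_of_gt hNE)
    have hcomm : ⁅E, f.ker⁆ ≤ N := by
      refine commutator_le_of_nilpotent hNE.le hER hNE.ne ?_ hR
      intro X hX hNX hXE
      by_cases h1 : X = N
      · exact Or.inl h1
      · right
        apply le_antisymm hXE
        exact hmin ⟨hX, lt_of_le_of_ne hNX (Ne.symm h1), hXE.trans hER⟩ hXE
    exact structure_typeII K N E f hf S hS hNE.le hER hcomm hgood hbad

end LibKS
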