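import Mathlib

set_option autoImplicit false

namespace LibKS

open Pointwise in
theorem C1_exists_pcycle {p : ℕ} [Fact p.Prime] {T C : Type} [Group T] [Finite T]
    [MulAction T C] (Q : Sylow p T) (hQ : ∃ q : Q, ∃ c : C, (q : T) • c ≠ c) :
    ∃ (g : T) (c : C), g • c ≠ c ∧ g ^ p • c = c := by
  classical
  obtain ⟨q, c, hqc⟩ := hQ
  obtain ⟨n, hn⟩ := Q.isPGroup' q
  have hex : ∃ a : ℕ, (q : T) ^ (p ^ a) • c = c := by
    refine ⟨n, ?_⟩
    have : (q : T) ^ (p ^ n) = 1 := by
      rw [← Subgroup.coe_pow, hn, Subgroup.coe_one]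
    rw [this, one_smul]
  have h0 : Nat.find hex ≠ 0 := by
    intro h
    have := Nat.find_spec hex
    rw [h, pow_zero, pow_one] at this
    exact hqc this
  obtain ⟨b, hb⟩ := Nat.exists_eq_succ_of_ne_zero h0
  refine ⟨(q : T) ^ (p ^ b), c, Nat.find_min hex (by omega), ?_⟩
  have := Nat.find_spec hex
  rw [hb] at this
  rw [← pow_mul, ← pow_succ]
  exact this

/-- Number of translates hitting a set. -/
theorem C1_count {T C : Type} [Group T] [Fintype T] [Fintype C] [DecidableEq C] [MulAction T C]
    [MulAction.IsPretransitive T C] (Y : Finset C) (x : C) :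
    Fintype.card C * (Finset.univ.filter fun t : T => t⁻¹ • x ∈ Y).card =
      Fintype.card T * Y.card := by
  have h1 : ∀ x' : C, (Finset.univ.filter fun t : T => t⁻¹ • x' ∈ Y).card =
      (Finset.univ.filter fun t : T => t⁻¹ • x ∈ Y).card := by
    intro x'
    obtain ⟨s, rfl⟩ := MulAction.exists_smul_eq T x x'
    refine Finset.card_bij (fun t _ => s⁻¹ * t) ?_ ?_ ?_
    · intro t ht
      rw [Finset.mem_filter] at ht ⊢
      refine ⟨Finset.mem_univ _, ?_⟩
      rw [mul_inv_rev, inv_inv, mul_smul]
      exact ht.2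
    · intro a _ b _ h
      exact mul_left_cancel h
    · intro t ht
      rw [Finset.mem_filter] at ht
      refine ⟨s * t, ?_, by group⟩
      rw [Finset.mem_filter]
      refine ⟨Finset.mem_univ _, ?_⟩
      rw [mul_inv_rev, mul_smul, inv_smul_smul]
      exact ht.2
  have h2 : ∑ x' : C, (Finset.univ.filter fun t : T => t⁻¹ • x' ∈ Y).card =
      Fintype.card T * Y.card := by
    simp_rw [Finset.card_filter]
    rw [Finset.sum_comm]
    have h3 : ∀ t : T, (∑ x' : C, if t⁻¹ • x' ∈ Y then 1 else 0) = Y.card := by
      intro t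
      rw [← Finset.card_filter]
      refine Finset.card_bij (fun x' _ => t⁻¹ • x') ?_ ?_ ?_
      · intro a ha
        exact (Finset.mem_filter.1 ha).2
      · intro a _ b _ h
        exact smul_left_cancel _ h
      · intro y hy
        refine ⟨t • y, ?_, inv_smul_smul t y⟩
        rw [Finset.mem_filter, inv_smul_smul]
        exact ⟨Finset.mem_univ _, hy⟩
    rw [Finset.sum_congr rfl fun t _ => h3 t, Finset.sum_const, Finset.card_univ, smul_eq_mul]
  rw [← h2, Finset.sum_congr rfl fun x' _ => h1 x', Finset.sum_const, Finset.card_univ,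
    smul_eq_mul]

open Pointwise in
/-- A Sylow subgroup cannot fix all points of a cycle of length `p`. -/
theorem C1_no_fix {p : ℕ} [Fact p.Prime] {T C : Type} [Group T] [Finite T]
    [MulAction T C] (Q : Sylow p T) (g : T) (c : C) (h1 : g • c ≠ c) (h2 : g ^ p • c = c)
    (hfix : ∀ x ∈ MulAction.orbit (Subgroup.zpowers g) c, ∀ q ∈ Q, q • x = x) : False := by
  classical
  have hp : p.Prime := Fact.out
  set X : Set C := MulAction.orbit (Subgroup.zpowers g) c with hX
  set A : Subgroup T := MulAction.stabilizer T X with hA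
  have hgA : Subgroup.zpowers g ≤ A := by
    intro z hz
    rw [hA, MulAction.mem_stabilizer_iff]
    exact MulAction.smul_orbit (⟨z, hz⟩ : Subgroup.zpowers g) c
  have hQA : (Q : Subgroup T) ≤ A := by
    intro q hq
    rw [hA, MulAction.mem_stabilizer_iff]
    ext y
    constructor
    · rintro ⟨x, hx, rfl⟩
      have := hfix x hx q hq
      simp only at this ⊢
      rw [this]
      exact hx
    · intro hy
      exact ⟨y, hy, hfix y hy q hq⟩
  have hcX : c ∈ X := MulAction.mem_orbit_self c
  have horb : MulAction.orbit A c = X := by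
    ext y
    constructor
    · rintro ⟨a, rfl⟩
      have ha : (a : T) • X = X := a.2
      rw [← ha]
      exact ⟨c, hcX, rfl⟩
    · rintro ⟨z, rfl⟩
      exact ⟨⟨z.1, hgA z.2⟩, rfl⟩
  have hcard : Nat.card X = p := by
    have h3 : Function.minimalPeriod (g • ·) c = Nat.card X := by
      have : Finite (MulAction.orbit (Subgroup.zpowers g) c) :=
        (Set.finite_range (fun z : Subgroup.zpowers g => z • c)).to_subtype
      have := Fintype.ofFinite (MulAction.orbit (Subgroup.zpowers g) c)
      rw [MulAction.minimalPeriod_eq_card, Nat.card_eq_fintype_card]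
    rw [← h3]
    have h4 : Function.minimalPeriod (g • ·) c ∣ p := by
      rw [← Function.isPeriodicPt_iff_minimalPeriod_dvd]
      unfold Function.IsPeriodicPt Function.IsFixedPt
      rw [smul_iterate]
      exact h2
    rcases (Nat.dvd_prime hp).1 h4 with h5 | h5
    · rw [Function.minimalPeriod_eq_one_iff_isFixedPt] at h5
      exact absurd h5 h1
    · exact h5
  have := Fintype.ofFinite A
  have : Finite (MulAction.orbit A c) :=
    (Set.finite_range (fun z : A => z • c)).to_subtype
  have := Fintype.ofFinite (MulAction.orbit A c)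
  have := Fintype.ofFinite (MulAction.stabilizer A c)
  have hos := MulAction.card_orbit_mul_card_stabilizer_eq_card_group A c
  rw [← Nat.card_eq_fintype_card, ← Nat.card_eq_fintype_card, ← Nat.card_eq_fintype_card, horb,
    hcard] at hos
  have hle : (Q : Subgroup T).subgroupOf A ≤ MulAction.stabilizer A c := by
    intro a ha
    rw [MulAction.mem_stabilizer_iff]
    exact hfix c hcX a ha
  have hd1 : Nat.card Q ∣ Nat.card (MulAction.stabilizer A c) := by
    have h6 : Nat.card ((Q : Subgroup T).subgroupOf A) = Nat.card Q :=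
      Nat.card_congr (Subgroup.subgroupOfEquivOfLe hQA).toEquiv
    rw [← h6]
    exact Subgroup.card_dvd_of_le hle
  have hd2 : p * Nat.card Q ∣ Nat.card T := by
    refine (Nat.mul_dvd_mul_left p hd1).trans ?_
    rw [hos]
    exact Subgroup.card_subgroup_dvd_card A
  rw [Q.card_eq_multiplicity, ← pow_succ'] at hd2
  exact Nat.pow_succ_factorization_not_dvd Nat.card_pos.ne' hp hd2

/-- (L0) Points fixed by a Sylow `p`-subgroup in a transitive action. -/
theorem card_fixed_sylow_le {p : ℕ} [Fact p.Prime] {T C : Type} [Group T] [Finite T]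
    [Finite C] [MulAction T C] [MulAction.IsPretransitive T C] (Q : Sylow p T)
    (hQ : ∃ q : Q, ∃ c : C, (q : T) • c ≠ c) :
    p * Nat.card {c : C // ∀ q : Q, (q : T) • c = c} ≤ (p - 1) * Nat.card C := by
  classical
  have hp : p.Prime := Fact.out
  have := Fintype.ofFinite T
  have := Fintype.ofFinite C
  obtain ⟨g, c, h1, h2⟩ := C1_exists_pcycle Q hQ
  by_contra hlt
  rw [not_le] at hlt
  set Fx : Finset C := Finset.univ.filter fun c : C => ∀ q : Q, (q : T) • c = c with hFx
  set Y : Finset C := Finset.univ.filter fun c : C => ¬ ∀ q : Q, (q : T) • c = c with hY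
  have hFc : Nat.card {c : C // ∀ q : Q, (q : T) • c = c} = Fx.card := by
    rw [Nat.card_eq_fintype_card, Fintype.card_subtype]
  have hsum : Fx.card + Y.card = Fintype.card C := by
    rw [hFx, hY, Finset.card_filter_add_card_filter_not, Finset.card_univ]
  rw [hFc, Nat.card_eq_fintype_card] at hlt
  have hYlt : p * Y.card < Fintype.card C := by
    obtain ⟨r, hr⟩ : ∃ r, p = r + 1 := ⟨p - 1, by have := hp.pos; omega⟩
    rw [hr] at hlt ⊢
    rw [Nat.add_sub_cancel] at hlt
    nlinarith
  -- the cycle
  set X : Finset C := (MulAction.orbit (Subgroup.zpowers g) c).toFinset with hX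
  have hcard : X.card = p := by
    have h3 : Function.minimalPeriod (g • ·) c = X.card := by
      rw [MulAction.minimalPeriod_eq_card, hX, Set.toFinset_card]
    rw [← h3]
    have h4 : Function.minimalPeriod (g • ·) c ∣ p := by
      rw [← Function.isPeriodicPt_iff_minimalPeriod_dvd]
      unfold Function.IsPeriodicPt Function.IsFixedPt
      rw [smul_iterate]
      exact h2
    rcases (Nat.dvd_prime hp).1 h4 with h5 | h5
    · rw [Function.minimalPeriod_eq_one_iff_isFixedPt] at h5
      exact absurd h5 h1
    · exact h5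
  have hCpos : 0 < Fintype.card C := Fintype.card_pos_iff.2 ⟨c⟩
  have hTpos : 0 < Fintype.card T := Fintype.card_pos_iff.2 ⟨1⟩
  have hex : ∃ t : T, ∀ x ∈ X, t⁻¹ • x ∉ Y := by
    by_contra hno
    push Not at hno
    have h6 : (Finset.univ : Finset T) ⊆
        X.biUnion fun x => Finset.univ.filter fun t : T => t⁻¹ • x ∈ Y := by
      intro t _
      obtain ⟨x, hx, hxt⟩ := hno t
      rw [Finset.mem_biUnion]
      exact ⟨x, hx, Finset.mem_filter.2 ⟨Finset.mem_univ _, hxt⟩⟩
    have h7 := (Finset.card_le_card h6).trans Finset.card_biUnion_le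
    rw [Finset.card_univ] at h7
    have h8 : Fintype.card C * Fintype.card T ≤ p * (Fintype.card T * Y.card) := by
      calc Fintype.card C * Fintype.card T
          ≤ Fintype.card C * ∑ x ∈ X, (Finset.univ.filter fun t : T => t⁻¹ • x ∈ Y).card :=
            Nat.mul_le_mul_left _ h7
        _ = ∑ x ∈ X, Fintype.card T * Y.card := by
            rw [Finset.mul_sum]
            exact Finset.sum_congr rfl fun x _ => C1_count Y x
        _ = p * (Fintype.card T * Y.card) := by
            rw [Finset.sum_const, hcard, smul_eq_mul]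
    have h9 : p * (Fintype.card T * Y.card) < Fintype.card C * Fintype.card T := by
      calc p * (Fintype.card T * Y.card) = (p * Y.card) * Fintype.card T := by ring
        _ < Fintype.card C * Fintype.card T := Nat.mul_lt_mul_of_pos_right hYlt hTpos
    omega
  obtain ⟨t, ht⟩ := hex
  refine C1_no_fix (t • Q) g c h1 h2 fun x hx q hq => ?_
  have hx' := ht x (by rw [hX, Set.mem_toFinset]; exact hx)
  rw [hY, Finset.mem_filter, not_and, not_not] at hx'
  have hx2 := hx' (Finset.mem_univ _)
  have hq2 : t⁻¹ * q * t ∈ Q := by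
    have h10 : q ∈ ((t • Q : Sylow p T) : Subgroup T) := hq
    rw [Sylow.coe_subgroup_smul] at h10
    obtain ⟨s, hs, hsq⟩ := h10
    have h11 : t * s * t⁻¹ = q := hsq
    rw [← h11]
    have h12 : t⁻¹ * (t * s * t⁻¹) * t = s := by group
    rw [h12]
    exact hs
  have hx3 := hx2 ⟨_, hq2⟩
  simp only at hx3
  rw [mul_smul, mul_smul, smul_inv_smul, smul_left_cancel_iff] at hx3
  exact hx3

end LibKS
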