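import Mathlib

set_option autoImplicit false

namespace LibKS

/-- counting helper: a family of sets, at most half of which are larger than half. -/
private theorem C1b_sum_bound {ι : Type} [Fintype ι] (f : ι → ℕ) (n : ℕ)
    (hf : ∀ i, f i ≤ n) (B : Finset ι) (hB : ∀ i, i ∉ B → 2 * f i ≤ n) :
    2 * ∑ i, f i ≤ n * Fintype.card ι + n * B.card := by
  classical
  have h1 : ∀ i : ι, 2 * f i ≤ n + (if i ∈ B then n else 0) := by
    intro i
    by_cases h : i ∈ B
    · rw [if_pos h]
      have := hf i
      omega
    · rw [if_neg h]
      have := hB i h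
      omega
  calc 2 * ∑ i, f i = ∑ i, 2 * f i := by rw [Finset.mul_sum]
    _ ≤ ∑ i, (n + (if i ∈ B then n else 0)) := Finset.sum_le_sum (fun i _ => h1 i)
    _ = n * Fintype.card ι + n * B.card := by
      rw [Finset.sum_add_distrib]
      congr 1
      · simp [mul_comm]
      · rw [← Finset.sum_filter]
        simp [mul_comm]

/-- two big subsets (translate). -/
private theorem C1b_exists {T : Type} [Group T] [Finite T] (P : T → Prop)
    (h : Nat.card T < 2 * Nat.card {s : T // P s}) (g : T) : ∃ s, P s ∧ P (g * s) := by
  classical
  have := Fintype.ofFinite T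
  by_contra hcon
  push Not at hcon
  let A : Finset T := Finset.univ.filter P
  have hA : Nat.card {s : T // P s} = A.card := by
    rw [Nat.card_eq_fintype_card, Fintype.card_subtype]
  let A' : Finset T := A.image (fun s => g * s)
  have hA' : A'.card = A.card := Finset.card_image_of_injective _ (mul_right_injective g)
  have hdis : Disjoint A A' := by
    rw [Finset.disjoint_left]
    intro x hx hx'
    rw [Finset.mem_image] at hx'
    obtain ⟨s, hs, rfl⟩ := hx'
    rw [Finset.mem_filter] at hs hx
    exact hcon s hs.2 hx.2
  have h2 : (A ∪ A').card ≤ Fintype.card T := Finset.card_le_univ _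
  rw [Finset.card_union_of_disjoint hdis, hA', ← Nat.card_eq_fintype_card] at h2
  omega

private theorem C1b_two_mul_card_le {T : Type} [Group T] [Finite T] (N : Subgroup T) (hN : N ≠ ⊤) :
    2 * Nat.card N ≤ Nat.card T := by
  have h1 := N.card_mul_index
  have h2 : N.index ≠ 0 := Subgroup.index_ne_zero_of_finite
  have h3 : N.index ≠ 1 := fun h => hN (Subgroup.index_eq_one.mp h)
  have h4 : 2 ≤ N.index := by omega
  calc 2 * Nat.card N = Nat.card N * 2 := by ring
    _ ≤ Nat.card N * N.index := Nat.mul_le_mul_left _ h4
    _ = Nat.card T := h1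

/-- (SC-mov) Commutators of random elements of a simple group in a coset. -/
theorem card_commutator_coset_le {T : Type} [Group T] [Finite T] (hs : IsSimpleGroup T)
    (hna : ∃ a b : T, ¬ Commute a b) (H : Subgroup T) (hH : H ≠ ⊤) (k : T) :
    4 * Nat.card {sc : T × T // k⁻¹ * (sc.1 * sc.2 * sc.1⁻¹ * sc.2⁻¹) ∈ H} ≤ 3 * Nat.card T ^ 2 := by
  classical
  have := Fintype.ofFinite T
  set n := Nat.card T with hn
  let P : T → T → Prop := fun c s => k⁻¹ * (s * c * s⁻¹ * c⁻¹) ∈ H
  let f : T → ℕ := fun c => Nat.card {s : T // P c s}
  have hfle : ∀ c, f c ≤ n := fun c => Nat.card_le_card_of_injective _ Subtype.val_injective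
  have hsum : Nat.card {sc : T × T // k⁻¹ * (sc.1 * sc.2 * sc.1⁻¹ * sc.2⁻¹) ∈ H} = ∑ c, f c := by
    rw [← Nat.card_sigma]
    refine Nat.card_congr ⟨fun x => ⟨x.1.2, x.1.1, x.2⟩, fun x => ⟨(x.2.1, x.1), x.2.2⟩, ?_, ?_⟩
    · intro x; rfl
    · intro x; rfl
  let B : Finset T := Finset.univ.filter (fun c => n < 2 * f c)
  have hB : ∀ c, c ∉ B → 2 * f c ≤ n := by
    intro c hc
    simp only [B, Finset.mem_filter, Finset.mem_univ, true_and, not_lt] at hc
    exact hc
  have hBcard : 2 * B.card ≤ n := by
    by_cases hbot : H = ⊥
    · -- only c = 1 can be bad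
      have hsub : B ⊆ {1} := by
        intro c hc
        rw [Finset.mem_singleton]
        by_contra hc1
        simp only [B, Finset.mem_filter, Finset.mem_univ, true_and] at hc
        -- f c ≤ card centralizer
        have hle : f c ≤ Nat.card (Subgroup.centralizer ({c} : Set T)) := by
          by_cases hne : Nonempty {s : T // P c s}
          · obtain ⟨s0, hs0⟩ := hne
            refine Nat.card_le_card_of_injective
              (fun s : {s : T // P c s} => (⟨s0⁻¹ * s.1, ?_⟩ :
                Subgroup.centralizer ({c} : Set T))) ?_
            · have e0 : s0 * c * s0⁻¹ * c⁻¹ = k := by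
                have : k⁻¹ * (s0 * c * s0⁻¹ * c⁻¹) ∈ H := hs0
                rw [hbot, Subgroup.mem_bot] at this
                exact (inv_mul_eq_one.mp this).symm
              have e1 : s.1 * c * s.1⁻¹ * c⁻¹ = k := by
                have : k⁻¹ * (s.1 * c * s.1⁻¹ * c⁻¹) ∈ H := s.2
                rw [hbot, Subgroup.mem_bot] at this
                exact (inv_mul_eq_one.mp this).symm
              rw [Subgroup.mem_centralizer_singleton_iff]
              have e2 : s0 * c * s0⁻¹ = s.1 * c * s.1⁻¹ := by
                have := e0.trans e1.symm
                exact mul_right_cancel this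
              calc s0⁻¹ * s.1 * c = s0⁻¹ * (s.1 * c * s.1⁻¹) * s.1 := by group
                _ = s0⁻¹ * (s0 * c * s0⁻¹) * s.1 := by rw [e2]
                _ = c * (s0⁻¹ * s.1) := by group
            · intro a b hab
              have := congrArg Subtype.val hab
              exact Subtype.ext (mul_left_cancel this)
          · rw [not_nonempty_iff] at hne
            have : f c = 0 := Nat.card_of_isEmpty
            rw [this]
            exact Nat.zero_le _
        have hne : Subgroup.centralizer ({c} : Set T) ≠ ⊤ := by
          intro htop
          -- c is in the center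
          have hcc : c ∈ Subgroup.center T := by
            rw [Subgroup.mem_center_iff]
            intro g
            have : g ∈ Subgroup.centralizer ({c} : Set T) := by rw [htop]; trivial
            rw [Subgroup.mem_centralizer_singleton_iff] at this
            exact this
          have hcen : Subgroup.center T = ⊤ := by
            rcases hs.eq_bot_or_eq_top_of_normal (Subgroup.center T) inferInstance with h | h
            · rw [h, Subgroup.mem_bot] at hcc
              exact absurd hcc hc1
            · exact h
          obtain ⟨a, b, hab⟩ := hna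
          apply hab
          have : b ∈ Subgroup.center T := by rw [hcen]; trivial
          rw [Subgroup.mem_center_iff] at this
          exact this a
        have := C1b_two_mul_card_le _ hne
        omega
      have h1 : B.card ≤ 1 := by
        calc B.card ≤ ({1} : Finset T).card := Finset.card_le_card hsub
          _ = 1 := Finset.card_singleton _
      have := hs.toNontrivial
      have h2 : 1 < n := Finite.one_lt_card
      omega
    · -- H ≠ ⊥
      have hN : Subgroup.normalizer (H : Set T) ≠ ⊤ := by
        intro htop
        have hnorm : H.Normal := Subgroup.normalizer_eq_top_iff.mp htop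
        rcases hs.eq_bot_or_eq_top_of_normal H hnorm with h | h
        · exact hbot h
        · exact hH h
      have h2 := C1b_two_mul_card_le _ hN
      have h3 : B.card ≤ Nat.card (Subgroup.normalizer (H : Set T)) := by
        have : B.card = Nat.card B := by simp
        rw [this]
        refine Nat.card_le_card_of_injective
          (fun c : B => (⟨c.1 * k, ?_⟩ : Subgroup.normalizer (H : Set T))) ?_
        · have hc := c.2
          simp only [B, Finset.mem_filter, Finset.mem_univ, true_and] at hc
          -- conj by c*k maps H into H
          have hmap : H.map (MulAut.conj (c.1 * k)).toMonoidHom ≤ H := by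
            rintro _ ⟨h, hh, rfl⟩
            obtain ⟨s, hs1, hs2⟩ := C1b_exists (P c.1) hc (k * h * k⁻¹)
            have e1 : k⁻¹ * (s * c.1 * s⁻¹ * c.1⁻¹) ∈ H := hs1
            have e2 : k⁻¹ * (k * h * k⁻¹ * s * c.1 * (k * h * k⁻¹ * s)⁻¹ * c.1⁻¹) ∈ H := hs2
            have e3 : (k⁻¹ * (s * c.1 * s⁻¹ * c.1⁻¹))⁻¹ * (h⁻¹ *
              (k⁻¹ * (k * h * k⁻¹ * s * c.1 * (k * h * k⁻¹ * s)⁻¹ * c.1⁻¹))) ∈ H :=
              H.mul_mem (H.inv_mem e1) (H.mul_mem (H.inv_mem hh) e2)
            have e4 : (k⁻¹ * (s * c.1 * s⁻¹ * c.1⁻¹))⁻¹ * (h⁻¹ *
              (k⁻¹ * (k * h * k⁻¹ * s * c.1 * (k * h * k⁻¹ * s)⁻¹ * c.1⁻¹))) =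
              ((c.1 * k) * h * (c.1 * k)⁻¹)⁻¹ := by group
            rw [e4] at e3
            have e5 := H.inv_mem e3
            rw [inv_inv] at e5
            exact e5
          have heq : H.map (MulAut.conj (c.1 * k)).toMonoidHom = H := by
            apply Subgroup.eq_of_le_of_card_ge hmap
            rw [Subgroup.card_map_of_injective (MulEquiv.injective _)]
          rw [Subgroup.mem_normalizer_iff]
          intro h
          constructor
          · intro hh
            exact hmap ⟨h, hh, rfl⟩
          · intro hh
            have : c.1 * k * h * (c.1 * k)⁻¹ ∈ H.map (MulAut.conj (c.1 * k)).toMonoidHom := by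
              rw [heq]; exact hh
            obtain ⟨h', hh', he⟩ := this
            have he' : (c.1 * k) * h' * (c.1 * k)⁻¹ = c.1 * k * h * (c.1 * k)⁻¹ := he
            have : h' = h := by
              have := mul_right_cancel he'
              exact mul_left_cancel this
            rw [← this]; exact hh'
        · intro a b hab
          have := congrArg Subtype.val hab
          exact Subtype.ext (mul_right_cancel this)
      omega
  have hmain := C1b_sum_bound f n hfle B hB
  rw [← Nat.card_eq_fintype_card, ← hn] at hmain
  rw [hsum]
  have h5 : n * (2 * B.card) ≤ n * n := Nat.mul_le_mul_left n hBcard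
  nlinarith [hmain, h5]

end LibKS
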