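import Pool.Agent.LibKS.C1

set_option autoImplicit false

namespace LibKS

private theorem C1c_exists {T : Type} [Group T] [Finite T] (P : T → Prop)
    (h : Nat.card T < 2 * Nat.card {s : T // P s}) (g : T) : ∃ s, P s ∧ P (s * g) := by
  classical
  have := Fintype.ofFinite T
  by_contra hcon
  push Not at hcon
  let A : Finset T := Finset.univ.filter P
  have hA : Nat.card {s : T // P s} = A.card := by
    rw [Nat.card_eq_fintype_card, Fintype.card_subtype]
  let A' : Finset T := A.image (fun s => s * g)
  have hA' : A'.card = A.card := Finset.card_image_of_injective _ (mul_left_injective g)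
  have hdis : Disjoint A A' := by
    rw [Finset.disjoint_left]
    intro x hx hx'
    rw [Finset.mem_image] at hx'
    obtain ⟨s, hs, rfl⟩ := hx'
    rw [Finset.mem_filter] at hs hx
    exact hcon s hs.2 hx.2
  have h2 : (A ∪ A').card ≤ Fintype.card T := Finset.card_le_univ _
  rw [Finset.card_union_of_disjoint hdis, hA', ← Nat.card_eq_fintype_card] at h2
  omega

/-- proper subgroups of a finite `p`-group have index at least `p`. -/
private theorem C1c_p_mul_card_le {p : ℕ} [hp : Fact p.Prime] {Q : Type} [Group Q] [Finite Q]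
    (hQ : IsPGroup p Q) (N : Subgroup Q) (hN : N ≠ ⊤) : p * Nat.card N ≤ Nat.card Q := by
  have h1 := N.card_mul_index
  have h3 : N.index ≠ 1 := fun h => hN (Subgroup.index_eq_one.mp h)
  obtain ⟨m, hm⟩ := hQ.index N
  have hm0 : m ≠ 0 := by
    rintro rfl
    exact h3 (by rw [hm, pow_zero])
  have h4 : p ≤ N.index := by
    rw [hm]
    exact Nat.le_self_pow hm0 p
  calc p * Nat.card N = Nat.card N * p := by ring
    _ ≤ Nat.card N * N.index := Nat.mul_le_mul_left _ h4
    _ = Nat.card Q := h1

private theorem C1c_map_conj_mem {T : Type} [Group T] {H K : Subgroup T} {g : T}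
    (h : K.map (MulAut.conj g).toMonoidHom = H) (x : T) : x ∈ K ↔ g * x * g⁻¹ ∈ H := by
  rw [← h, Subgroup.mem_map]
  constructor
  · intro hx
    exact ⟨x, hx, rfl⟩
  · rintro ⟨y, hy, he⟩
    have he' : g * y * g⁻¹ = g * x * g⁻¹ := he
    have : y = x := mul_left_cancel (mul_right_cancel he')
    rwa [← this]

private theorem C1c_map_conj_eq {T : Type} [Group T] {H K : Subgroup T} {g : T}
    (h : ∀ x : T, x ∈ K ↔ g * x * g⁻¹ ∈ H) : K.map (MulAut.conj g).toMonoidHom = H := by
  ext y
  rw [Subgroup.mem_map]
  constructor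
  · rintro ⟨x, hx, rfl⟩
    exact (h x).mp hx
  · intro hy
    refine ⟨g⁻¹ * y * g, ?_, ?_⟩
    · rw [h]
      have : g * (g⁻¹ * y * g) * g⁻¹ = y := by group
      rwa [this]
    · change g * (g⁻¹ * y * g) * g⁻¹ = y
      group

/-- (SC-fix) Twisted commutators with a random element of a Sylow `p`-subgroup. -/
theorem card_twisted_coset_le {p : ℕ} [Fact p.Prime] {T : Type} [Group T] [Finite T]
    (hs : IsSimpleGroup T) (hna : ∃ a b : T, ¬ Commute a b) (hp : p ∣ Nat.card T)
    (Q : Sylow p T) (α : MulAut T) (H : Subgroup T) (hH : H ≠ ⊤) (k : T) :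
    2 * p * Nat.card {hc : Q × T // k⁻¹ * (hc.2⁻¹ * (hc.1 : T) * α hc.2 * (hc.1 : T)⁻¹) ∈ H} ≤
      (2 * p - 1) * (Nat.card Q * Nat.card T) := by
  classical
  have hpp : p.Prime := Fact.out
  have hp2 : 2 ≤ p := hpp.two_le
  have := Fintype.ofFinite T
  have hFQ : Fintype Q := Fintype.ofFinite Q
  have hQp : IsPGroup p Q := Q.2
  set n := Nat.card T with hn
  set q := Nat.card Q with hq
  let P : Q → T → Prop := fun h c => k⁻¹ * (c⁻¹ * (h : T) * α c * (h : T)⁻¹) ∈ H
  let K' : Subgroup T := (H.map (MulAut.conj k).toMonoidHom).map α.toMonoidHom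
  have hK' : ∀ x : T, x ∈ K' ↔ k⁻¹ * α.symm x * k ∈ H := by
    intro x
    constructor
    · rintro ⟨y, ⟨z, hz, rfl⟩, rfl⟩
      have : k⁻¹ * α.symm (α (k * z * k⁻¹)) * k = z := by
        rw [MulEquiv.symm_apply_apply]; group
      have h2 : k⁻¹ * α.symm (α.toMonoidHom ((MulAut.conj k).toMonoidHom z)) * k = z := this
      rw [h2]
      exact hz
    · intro hx
      refine ⟨α.symm x, ⟨k⁻¹ * α.symm x * k, hx, ?_⟩, ?_⟩
      · change k * (k⁻¹ * α.symm x * k) * k⁻¹ = α.symm x
        group
      · change α (α.symm x) = x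
        exact MulEquiv.apply_symm_apply _ _
  have hK'card : Nat.card K' = Nat.card H := by
    rw [Subgroup.card_map_of_injective α.injective,
      Subgroup.card_map_of_injective (MulAut.conj k).injective]
  by_cases hcase : ∀ h : Q, K'.map (MulAut.conj (h : T)).toMonoidHom = H
  · -- Case A: every h conjugates K' to H
    have hKH : K' = H := by
      have h1 := hcase 1
      have : K'.map (MulAut.conj ((1 : Q) : T)).toMonoidHom = K' := by
        ext x
        constructor
        · rintro ⟨y, hy, rfl⟩
          change ((1 : Q) : T) * y * ((1 : Q) : T)⁻¹ ∈ K'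
          simpa using hy
        · intro hx
          refine ⟨x, hx, ?_⟩
          change ((1 : Q) : T) * x * ((1 : Q) : T)⁻¹ = x
          simp
      rw [← this]; exact h1
    have hnormal : ∀ (h : Q) (x : T), x ∈ H ↔ (h : T) * x * (h : T)⁻¹ ∈ H := by
      intro h x
      have h1 := hcase h
      rw [hKH] at h1
      exact C1c_map_conj_mem h1 x
    have hQN : (Q : Subgroup T) ≤ Subgroup.normalizer (H : Set T) := by
      intro x hx
      rw [Subgroup.mem_normalizer_iff]
      intro y
      exact hnormal ⟨x, hx⟩ y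
    have hHN : H ≤ Subgroup.normalizer (H : Set T) := Subgroup.le_normalizer
    let L : Subgroup T := H ⊔ (Q : Subgroup T)
    have hLN : L ≤ Subgroup.normalizer (H : Set T) := sup_le hHN hQN
    have := hs.toNontrivial
    have hLtop : L ≠ ⊤ := by
      intro htop
      have hNtop : Subgroup.normalizer (H : Set T) = ⊤ := top_le_iff.mp (htop ▸ hLN)
      have hnorm : H.Normal := Subgroup.normalizer_eq_top_iff.mp hNtop
      have hbot : H = ⊥ := by
        rcases hs.eq_bot_or_eq_top_of_normal H hnorm with h | h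
        · exact h
        · exact absurd h hH
      have hQtop : (Q : Subgroup T) = ⊤ := by
        have : L = (Q : Subgroup T) := by simp [L, hbot]
        rw [← this]; exact htop
      have hTp : IsPGroup p (⊤ : Subgroup T) := by
        rw [← hQtop]; exact hQp
      have hTp' : IsPGroup p T := hTp.of_equiv Subgroup.topEquiv
      have hcn : Nontrivial (Subgroup.center T) := hTp'.center_nontrivial
      have hcen : Subgroup.center T = ⊤ := by
        rcases hs.eq_bot_or_eq_top_of_normal (Subgroup.center T) inferInstance with h | h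
        · rw [Subgroup.nontrivial_iff_ne_bot] at hcn
          exact absurd h hcn
        · exact h
      obtain ⟨a, b, hab⟩ := hna
      apply hab
      have : b ∈ Subgroup.center T := by rw [hcen]; trivial
      rw [Subgroup.mem_center_iff] at this
      exact this a
    -- nontrivial action
    have hact : ∃ x : Q, ∃ c : T ⧸ L, (x : T) • c ≠ c := by
      by_contra hcon
      push Not at hcon
      have hle : (Q : Subgroup T) ≤ L.normalCore := by
        intro x hx g
        have h1 := hcon ⟨x, hx⟩ ((g⁻¹ : T) : T ⧸ L)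
        rw [MulAction.Quotient.smul_coe, smul_eq_mul] at h1
        have h2 := QuotientGroup.eq.mp h1
        have h3 := L.inv_mem h2
        have h4 : ((x * g⁻¹)⁻¹ * g⁻¹)⁻¹ = g * x * g⁻¹ := by group
        rw [h4] at h3
        exact h3
      have hcore : L.normalCore = ⊥ := by
        rcases hs.eq_bot_or_eq_top_of_normal L.normalCore inferInstance with h | h
        · exact h
        · exact absurd (top_le_iff.mp (h ▸ L.normalCore_le)) hLtop
      have hQbot : (Q : Subgroup T) = ⊥ := le_bot_iff.mp (hcore ▸ hle)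
      have hdvd : p ∣ Nat.card Q := Q.dvd_card_of_dvd_card hp
      have hc1 : Nat.card Q = 1 := by
        change Nat.card (Q : Subgroup T) = 1
        rw [hQbot]
        exact Subgroup.card_bot
      rw [hc1] at hdvd
      exact hpp.one_lt.ne' (Nat.dvd_one.mp hdvd)
    have hL0 := card_fixed_sylow_le (C := T ⧸ L) Q hact
    -- count fixed elements in T
    have hcount : Nat.card {x : T // ∀ y : Q, (y : T) • (x : T ⧸ L) = (x : T ⧸ L)} =
        Nat.card L * Nat.card {c : T ⧸ L // ∀ y : Q, (y : T) • c = c} := by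
      exact QuotientGroup.card_preimage_mk L {c : T ⧸ L | ∀ y : Q, (y : T) • c = c}
    have hcount' : Nat.card {c : T // ∀ y : Q, (y : T) • ((α c : T) : T ⧸ L) = ((α c : T) : T ⧸ L)}
        = Nat.card {x : T // ∀ y : Q, (y : T) • (x : T ⧸ L) = (x : T ⧸ L)} := by
      refine Nat.card_congr (Equiv.subtypeEquiv α.toEquiv ?_)
      intro c
      rfl
    let F : Finset T := Finset.univ.filter
      (fun c : T => ∀ y : Q, (y : T) • ((α c : T) : T ⧸ L) = ((α c : T) : T ⧸ L))
    have hF : F.card = Nat.card L * Nat.card {c : T ⧸ L // ∀ y : Q, (y : T) • c = c} := by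
      rw [← hcount, ← hcount', Nat.card_eq_fintype_card, Fintype.card_subtype]
    have hTL : Nat.card L * Nat.card (T ⧸ L) = n := L.card_mul_index
    have hpF : p * F.card ≤ (p - 1) * n := by
      rw [hF, ← hTL]
      calc p * (Nat.card L * Nat.card {c : T ⧸ L // ∀ y : Q, (y : T) • c = c}) =
          Nat.card L * (p * Nat.card {c : T ⧸ L // ∀ y : Q, (y : T) • c = c}) := by ring
        _ ≤ Nat.card L * ((p - 1) * Nat.card (T ⧸ L)) := Nat.mul_le_mul_left _ hL0
        _ = (p - 1) * (Nat.card L * Nat.card (T ⧸ L)) := by ring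
    let g : T → ℕ := fun c => Nat.card {h : Q // P h c}
    have hsum : Nat.card {hc : Q × T // k⁻¹ * (hc.2⁻¹ * (hc.1 : T) * α hc.2 * (hc.1 : T)⁻¹) ∈ H}
        = ∑ c, g c := by
      rw [← Nat.card_sigma]
      refine Nat.card_congr ⟨fun x => ⟨x.1.2, x.1.1, x.2⟩, fun x => ⟨(x.2.1, x.1), x.2.2⟩, ?_, ?_⟩
      · intro x; rfl
      · intro x; rfl
    have hgle : ∀ c, g c ≤ q := fun c => Nat.card_le_card_of_injective _ Subtype.val_injective
    have hgF : ∀ c, c ∉ F → p * g c ≤ q := by
      intro c hc
      simp only [F, Finset.mem_filter, Finset.mem_univ, true_and] at hc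
      by_cases hne : Nonempty {h : Q // P h c}
      · obtain ⟨h0, hh0⟩ := hne
        let St : Subgroup Q :=
          { carrier := {h | (α c)⁻¹ * (h : T) * α c * (h : T)⁻¹ ∈ H}
            one_mem' := by
              change (α c)⁻¹ * ((1 : Q) : T) * α c * ((1 : Q) : T)⁻¹ ∈ H
              have : (α c)⁻¹ * ((1 : Q) : T) * α c * ((1 : Q) : T)⁻¹ = 1 := by simp
              rw [this]; exact H.one_mem
            mul_mem' := by
              intro a b ha hb
              change (α c)⁻¹ * ((a * b : Q) : T) * α c * ((a * b : Q) : T)⁻¹ ∈ H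
              have e : (α c)⁻¹ * ((a * b : Q) : T) * α c * ((a * b : Q) : T)⁻¹ =
                ((α c)⁻¹ * (a : T) * α c * (a : T)⁻¹) *
                ((a : T) * ((α c)⁻¹ * (b : T) * α c * (b : T)⁻¹) * (a : T)⁻¹) := by
                push_cast
                group
              rw [e]
              exact H.mul_mem ha ((hnormal a _).mp hb)
            inv_mem' := by
              intro a ha
              change (α c)⁻¹ * ((a⁻¹ : Q) : T) * α c * ((a⁻¹ : Q) : T)⁻¹ ∈ H
              have e : (α c)⁻¹ * ((a⁻¹ : Q) : T) * α c * ((a⁻¹ : Q) : T)⁻¹ =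
                ((a⁻¹ : Q) : T) * ((α c)⁻¹ * (a : T) * α c * (a : T)⁻¹)⁻¹ *
                ((a⁻¹ : Q) : T)⁻¹ := by
                push_cast
                group
              rw [e]
              exact (hnormal a⁻¹ _).mp (H.inv_mem ha) }
        have hSt : St ≠ ⊤ := by
          intro htop
          apply hc
          intro y
          have hy : y ∈ St := by rw [htop]; trivial
          have hy' : (α c)⁻¹ * (y : T) * α c * (y : T)⁻¹ ∈ H := hy
          rw [MulAction.Quotient.smul_coe, smul_eq_mul]
          rw [QuotientGroup.eq]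
          have h1 : (α c)⁻¹ * (y : T) * α c ∈ L := by
            have : (α c)⁻¹ * (y : T) * α c = ((α c)⁻¹ * (y : T) * α c * (y : T)⁻¹) * (y : T) := by
              group
            rw [this]
            exact L.mul_mem ((le_sup_left : H ≤ L) hy') ((le_sup_right : (Q : Subgroup T) ≤ L) y.2)
          have h2 := L.inv_mem h1
          have h3 : ((α c)⁻¹ * (y : T) * α c)⁻¹ = ((y : T) * α c)⁻¹ * α c := by group
          rwa [h3] at h2
        have h1 : g c ≤ Nat.card St := by
          refine Nat.card_le_card_of_injective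
            (fun h : {h : Q // P h c} => (⟨h0⁻¹ * h.1, ?_⟩ : St)) ?_
          · have e1 : k⁻¹ * (c⁻¹ * (h0 : T) * α c * (h0 : T)⁻¹) ∈ H := hh0
            have e2 : k⁻¹ * (c⁻¹ * (h.1 : T) * α c * (h.1 : T)⁻¹) ∈ H := h.2
            have e3 := H.mul_mem (H.inv_mem e1) e2
            have e4 := (hnormal h0⁻¹ _).mp e3
            have e5 : ((h0⁻¹ : Q) : T) * ((k⁻¹ * (c⁻¹ * (h0 : T) * α c * (h0 : T)⁻¹))⁻¹ *
              (k⁻¹ * (c⁻¹ * (h.1 : T) * α c * (h.1 : T)⁻¹))) * ((h0⁻¹ : Q) : T)⁻¹ =
              (α c)⁻¹ * ((h0⁻¹ * h.1 : Q) : T) * α c * ((h0⁻¹ * h.1 : Q) : T)⁻¹ := by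
              push_cast
              group
            rw [e5] at e4
            exact e4
          · intro a b hab
            have := congrArg Subtype.val hab
            exact Subtype.ext (mul_left_cancel this)
        calc p * g c ≤ p * Nat.card St := Nat.mul_le_mul_left _ h1
          _ ≤ q := C1c_p_mul_card_le hQp St hSt
      · rw [not_nonempty_iff] at hne
        have : g c = 0 := Nat.card_of_isEmpty
        rw [this, mul_zero]
        exact Nat.zero_le _
    have hmain : p * ∑ c, g c ≤ n * q + (p - 1) * q * F.card := by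
      have h1 : ∀ c : T, p * g c ≤ q + (if c ∈ F then (p - 1) * q else 0) := by
        intro c
        by_cases h : c ∈ F
        · rw [if_pos h]
          calc p * g c ≤ p * q := Nat.mul_le_mul_left _ (hgle c)
            _ = (1 + (p - 1)) * q := by congr 1; omega
            _ = q + (p - 1) * q := by ring
        · rw [if_neg h]
          have := hgF c h
          omega
      calc p * ∑ c, g c = ∑ c, p * g c := by rw [Finset.mul_sum]
        _ ≤ ∑ c, (q + (if c ∈ F then (p - 1) * q else 0)) := Finset.sum_le_sum (fun i _ => h1 i)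
        _ = n * q + (p - 1) * q * F.card := by
          rw [Finset.sum_add_distrib]
          congr 1
          · rw [Finset.sum_const, Finset.card_univ, smul_eq_mul, ← Nat.card_eq_fintype_card]
          · rw [← Finset.sum_filter, Finset.sum_const, smul_eq_mul]
            simp [mul_comm]
    rw [hsum]
    obtain ⟨m, rfl⟩ : ∃ m, p = m + 1 := ⟨p - 1, by omega⟩
    have hm1 : 1 ≤ m := by omega
    have hsub1 : m + 1 - 1 = m := by omega
    have hsub2 : 2 * (m + 1) - 1 = 2 * m + 1 := by omega
    rw [hsub1] at hpF hmain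
    rw [hsub2]
    refine le_of_mul_le_mul_left (a := m + 1) ?_ (Nat.succ_pos m)
    -- (m+1) * (2 (m+1) S) ≤ (m+1) ((2m+1) (q n))
    have e1 : (m + 1) * ((m + 1) * ∑ c, g c) ≤ (m + 1) * (n * q + m * q * F.card) :=
      Nat.mul_le_mul_left _ hmain
    have e2 : m * q * ((m + 1) * F.card) ≤ m * q * (m * n) := Nat.mul_le_mul_left _ hpF
    have e3 : (m + 1) * ((m + 1) * ∑ c, g c) ≤ (m + 1) * (n * q) + m * q * (m * n) := by
      calc (m + 1) * ((m + 1) * ∑ c, g c) ≤ (m + 1) * (n * q + m * q * F.card) := e1
        _ = (m + 1) * (n * q) + m * q * ((m + 1) * F.card) := by ring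
        _ ≤ (m + 1) * (n * q) + m * q * (m * n) := Nat.add_le_add_left e2 _
    have e4 : 2 * ((m + 1) * (n * q) + m * q * (m * n)) ≤ (m + 1) * ((2 * m + 1) * (q * n)) := by
      have : (m + 1) * ((2 * m + 1) * (q * n)) =
          2 * ((m + 1) * (n * q) + m * q * (m * n)) + (m * (q * n) - q * n) := by
        have h5 : q * n ≤ m * (q * n) := Nat.le_mul_of_pos_left _ (by omega)
        zify [h5]
        ring
      omega
    calc (m + 1) * (2 * (m + 1) * ∑ c, g c) = 2 * ((m + 1) * ((m + 1) * ∑ c, g c)) := by ring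
      _ ≤ 2 * ((m + 1) * (n * q) + m * q * (m * n)) := Nat.mul_le_mul_left _ e3
      _ ≤ (m + 1) * ((2 * m + 1) * (q * n)) := e4
  · -- Case B
    push Not at hcase
    obtain ⟨hb, hhb⟩ := hcase
    let f : Q → ℕ := fun h => Nat.card {c : T // P h c}
    have hsum : Nat.card {hc : Q × T // k⁻¹ * (hc.2⁻¹ * (hc.1 : T) * α hc.2 * (hc.1 : T)⁻¹) ∈ H}
        = ∑ h, f h := by
      rw [← Nat.card_sigma]
      refine Nat.card_congr ⟨fun x => ⟨x.1.1, x.1.2, x.2⟩, fun x => ⟨(x.1, x.2.1), x.2.2⟩, ?_, ?_⟩
      · intro x; rfl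
      · intro x; rfl
    have hfle : ∀ h, f h ≤ n := fun c => Nat.card_le_card_of_injective _ Subtype.val_injective
    let S : Finset Q := Finset.univ.filter
      (fun h : Q => K'.map (MulAut.conj (h : T)).toMonoidHom = H)
    have hfS : ∀ h, h ∉ S → 2 * f h ≤ n := by
      intro h hh
      by_contra hlt
      push Not at hlt
      apply hh
      simp only [S, Finset.mem_filter, Finset.mem_univ, true_and]
      -- the preimage of H is contained in K'
      have hle : H ≤ K'.map (MulAut.conj (h : T)).toMonoidHom := by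
        intro y hy
        -- g with h α(g) h⁻¹ = y
        let gg : T := α.symm ((h : T)⁻¹ * y * (h : T))
        have hgg : (h : T) * α gg * (h : T)⁻¹ = y := by
          simp only [gg, MulEquiv.apply_symm_apply]
          group
        obtain ⟨c, hc1, hc2⟩ := C1c_exists (P h) hlt gg
        have e1 : k⁻¹ * (c⁻¹ * (h : T) * α c * (h : T)⁻¹) ∈ H := hc1
        have e2 : k⁻¹ * ((c * gg)⁻¹ * (h : T) * α (c * gg) * (h : T)⁻¹) ∈ H := hc2
        have e3 : (c * gg)⁻¹ * (h : T) * α (c * gg) * (h : T)⁻¹ =
            gg⁻¹ * (c⁻¹ * (h : T) * α c * (h : T)⁻¹) * y := by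
          rw [map_mul, ← hgg]
          group
        rw [e3] at e2
        have e4 := H.mul_mem (H.mul_mem e2 (H.inv_mem hy)) (H.inv_mem e1)
        have e5 : k⁻¹ * (gg⁻¹ * (c⁻¹ * (h : T) * α c * (h : T)⁻¹) * y) * y⁻¹ *
            (k⁻¹ * (c⁻¹ * (h : T) * α c * (h : T)⁻¹))⁻¹ = (k⁻¹ * gg * k)⁻¹ := by
          group
        rw [e5] at e4
        have e6 := H.inv_mem e4
        rw [inv_inv] at e6
        refine ⟨(h : T)⁻¹ * y * (h : T), ?_, ?_⟩
        · change (h : T)⁻¹ * y * (h : T) ∈ K'
          rw [hK']
          exact e6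
        · change (h : T) * ((h : T)⁻¹ * y * (h : T)) * (h : T)⁻¹ = y
          group
      symm
      apply Subgroup.eq_of_le_of_card_ge hle
      rw [Subgroup.card_map_of_injective (MulEquiv.injective _), hK'card]
    have hScard : p * S.card ≤ q := by
      by_cases hne : S.Nonempty
      · obtain ⟨h1, hh1⟩ := hne
        simp only [S, Finset.mem_filter, Finset.mem_univ, true_and] at hh1
        let Q0 : Subgroup Q := (Subgroup.normalizer (H : Set T)).subgroupOf (Q : Subgroup T)
        have hQ0 : Q0 ≠ ⊤ := by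
          intro htop
          apply hhb
          have hm : hb * h1⁻¹ ∈ Q0 := by rw [htop]; trivial
          rw [Subgroup.mem_subgroupOf, Subgroup.mem_normalizer_iff] at hm
          apply C1c_map_conj_eq
          intro x
          rw [C1c_map_conj_mem hh1 x, hm]
          have : ((hb * h1⁻¹ : Q) : T) * ((h1 : T) * x * (h1 : T)⁻¹) * ((hb * h1⁻¹ : Q) : T)⁻¹ =
              (hb : T) * x * (hb : T)⁻¹ := by
            push_cast
            group
          rw [this]
        have h2 : S.card ≤ Nat.card Q0 := by
          have : S.card = Nat.card S := by simp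
          rw [this]
          refine Nat.card_le_card_of_injective (fun c : S => (⟨c.1 * h1⁻¹, ?_⟩ : Q0)) ?_
          · have hc := c.2
            simp only [S, Finset.mem_filter, Finset.mem_univ, true_and] at hc
            rw [Subgroup.mem_subgroupOf, Subgroup.mem_normalizer_iff]
            intro x
            have hx1 := C1c_map_conj_mem hh1 ((h1 : T)⁻¹ * x * (h1 : T))
            have hx2 := C1c_map_conj_mem hc ((h1 : T)⁻¹ * x * (h1 : T))
            have e1 : (h1 : T) * ((h1 : T)⁻¹ * x * (h1 : T)) * (h1 : T)⁻¹ = x := by group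
            rw [e1] at hx1
            rw [← hx1, hx2]
            have e2 : ((c.1 * h1⁻¹ : Q) : T) * x * ((c.1 * h1⁻¹ : Q) : T)⁻¹ =
                (c.1 : T) * ((h1 : T)⁻¹ * x * (h1 : T)) * (c.1 : T)⁻¹ := by
              push_cast
              group
            rw [e2]
          · intro a b hab
            have := congrArg Subtype.val hab
            exact Subtype.ext (mul_right_cancel this)
        calc p * S.card ≤ p * Nat.card Q0 := Nat.mul_le_mul_left _ h2
          _ ≤ q := C1c_p_mul_card_le hQp Q0 hQ0
      · rw [Finset.not_nonempty_iff_eq_empty] at hne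
        rw [hne]
        simp
    have hmain : 2 * ∑ h, f h ≤ n * q + n * S.card := by
      have h1 : ∀ c : Q, 2 * f c ≤ n + (if c ∈ S then n else 0) := by
        intro c
        by_cases h : c ∈ S
        · rw [if_pos h]
          have := hfle c
          omega
        · rw [if_neg h]
          have := hfS c h
          omega
      calc 2 * ∑ c, f c = ∑ c, 2 * f c := by rw [Finset.mul_sum]
        _ ≤ ∑ c, (n + (if c ∈ S then n else 0)) := Finset.sum_le_sum (fun i _ => h1 i)
        _ = n * q + n * S.card := by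
          rw [Finset.sum_add_distrib]
          congr 1
          · rw [Finset.sum_const, Finset.card_univ, smul_eq_mul, ← Nat.card_eq_fintype_card,
              mul_comm]
          · rw [← Finset.sum_filter, Finset.sum_const, smul_eq_mul]
            simp [mul_comm]
    rw [hsum]
    obtain ⟨m, rfl⟩ : ∃ m, p = m + 1 := ⟨p - 1, by omega⟩
    have hm1 : 1 ≤ m := by omega
    have hsub2 : 2 * (m + 1) - 1 = 2 * m + 1 := by omega
    rw [hsub2]
    have e1 : (m + 1) * (2 * ∑ h, f h) ≤ (m + 1) * (n * q + n * S.card) :=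
      Nat.mul_le_mul_left _ hmain
    have e2 : n * ((m + 1) * S.card) ≤ n * q := Nat.mul_le_mul_left _ hScard
    have e3 : n * q ≤ m * (n * q) := Nat.le_mul_of_pos_left _ (by omega)
    calc 2 * (m + 1) * ∑ h, f h = (m + 1) * (2 * ∑ h, f h) := by ring
      _ ≤ (m + 1) * (n * q + n * S.card) := e1
      _ = (m + 1) * (n * q) + n * ((m + 1) * S.card) := by ring
      _ ≤ (m + 1) * (n * q) + n * q := Nat.add_le_add_left e2 _
      _ ≤ (m + 1) * (n * q) + m * (n * q) := Nat.add_le_add_left e3 _
      _ = (2 * m + 1) * (q * n) := by ring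

end LibKS
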