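import Mathlib

set_option autoImplicit false

open scoped commutatorElement

namespace LibKS

/-- Counting pairs by the second coordinate. -/
theorem c4_fib {P Q : Type} [Finite P] [Finite Q] (R : P → Q → Prop) (R' : Q → Prop)
    (h : ∀ p q, R p q → R' q) (c : ℝ) (hc : ∀ q, (Nat.card {p // R p q} : ℝ) ≤ c) :
    (Nat.card {pq : P × Q // R pq.1 pq.2} : ℝ) ≤ c * Nat.card {q // R' q} := by
  classical
  have := Fintype.ofFinite Q
  let e : {pq : P × Q // R pq.1 pq.2} ≃ Σ q : {q // R' q}, {p // R p q} :=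
    { toFun := fun x => ⟨⟨x.1.2, h _ _ x.2⟩, ⟨x.1.1, x.2⟩⟩
      invFun := fun s => ⟨(s.2.1, s.1.1), s.2.2⟩
      left_inv := fun _ => rfl
      right_inv := fun _ => rfl }
  rw [Nat.card_congr e, Nat.card_sigma, Nat.cast_sum]
  calc ∑ q : {q // R' q}, (Nat.card {p // R p q.1} : ℝ) ≤ ∑ _q : {q // R' q}, c :=
        Finset.sum_le_sum (fun q _ => hc q)
    _ = c * Nat.card {q // R' q} := by
        rw [Finset.sum_const, nsmul_eq_mul, Nat.card_eq_fintype_card, mul_comm]
        rfl

/-- A nonabelian simple group is perfect. -/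
theorem c4_perfect {T : Type} [Group T] (hs : IsSimpleGroup T) (hna : ∃ a b : T, ¬ Commute a b)
    (H : Subgroup T) (hH : ∀ u v : T, ⁅u, v⁆ ∈ H) : H = ⊤ := by
  have hle : commutator T ≤ H := by
    rw [commutator_def, Subgroup.commutator_le]
    intro u _ v _
    exact hH u v
  rcases hs.eq_bot_or_eq_top_of_normal (commutator T) inferInstance with h | h
  · obtain ⟨a, b, hab⟩ := hna
    exfalso
    apply hab
    have h1 : ⁅a, b⁆ ∈ commutator T := Subgroup.commutator_mem_commutator (Subgroup.mem_top _) (Subgroup.mem_top _)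
    rw [h, Subgroup.mem_bot, commutatorElement_eq_one_iff_commute] at h1
    exact h1
  · rw [h] at hle
    exact top_le_iff.1 hle

/-- Elements of `S` supported on two coordinates `a`, `b`, when `T b` lies in the projection of
`S` away from `a`. -/
theorem c4_supp {ι : Type} [Fintype ι] [DecidableEq ι] {T : ι → Type}
    [∀ i, Group (T i)] [∀ i, Finite (T i)] (hs : ∀ i, IsSimpleGroup (T i))
    (hcard : ∀ i j, Nat.card (T i) = Nat.card (T j))
    (S : Subgroup (∀ i, T i)) (a b : ι) (hab : b ≠ a)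
    (hb : ¬ ∀ t : T b, Pi.mulSingle b t ∈ S)
    (hb' : ∀ t : T b, ∃ s ∈ S, s b = t ∧ ∀ j, j ≠ a → j ≠ b → s j = 1) (u : T a) :
    ∃ s ∈ S, s a = u ∧ ∀ j, j ≠ a → j ≠ b → s j = 1 := by
  let Ub : Subgroup (∀ i, T i) :=
    { carrier := {s | s ∈ S ∧ ∀ j, j ≠ a → j ≠ b → s j = 1}
      mul_mem' := by
        rintro x y ⟨hx, hx'⟩ ⟨hy, hy'⟩
        refine ⟨S.mul_mem hx hy, fun j h1 h2 => ?_⟩
        rw [Pi.mul_apply, hx' j h1 h2, hy' j h1 h2, one_mul]
      one_mem' := ⟨S.one_mem, fun _ _ _ => rfl⟩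
      inv_mem' := by
        rintro x ⟨hx, hx'⟩
        refine ⟨S.inv_mem hx, fun j h1 h2 => ?_⟩
        rw [Pi.inv_apply, hx' j h1 h2, inv_one] }
  have hUb : ∀ s, s ∈ Ub ↔ s ∈ S ∧ ∀ j, j ≠ a → j ≠ b → s j = 1 := fun s => Iff.rfl
  let fa : Ub →* T a := (Pi.evalMonoidHom T a).comp Ub.subtype
  let fb : Ub →* T b := (Pi.evalMonoidHom T b).comp Ub.subtype
  have hfb : Function.Surjective fb := by
    intro t
    obtain ⟨s, h1, h2, h3⟩ := hb' t
    exact ⟨⟨s, h1, h3⟩, h2⟩
  let Nb : Subgroup (T b) := S.comap (MonoidHom.mulSingle T b)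
  have hNb : ∀ t, t ∈ Nb ↔ Pi.mulSingle b t ∈ S := fun t => Iff.rfl
  have hnorm : Nb.Normal := by
    refine ⟨fun t ht g => ?_⟩
    obtain ⟨⟨s, hsS, hs1⟩, hsg⟩ := hfb g
    have hsg' : s b = g := hsg
    rw [hNb] at ht ⊢
    have h1 : s * Pi.mulSingle b t * s⁻¹ = Pi.mulSingle b (g * t * g⁻¹) := by
      funext j
      by_cases hj : j = b
      · subst hj
        simp [hsg']
      · simp [Pi.mulSingle_eq_of_ne hj]
    rw [← h1]
    exact S.mul_mem (S.mul_mem hsS ht) (S.inv_mem hsS)
  have hbot : Nb = ⊥ := by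
    rcases (hs b).eq_bot_or_eq_top_of_normal Nb hnorm with h | h
    · exact h
    · exfalso
      apply hb
      intro t
      rw [← hNb, h]
      trivial
  have hfa : Function.Injective fa := by
    rw [injective_iff_map_eq_one]
    rintro ⟨s, hsS, hs1⟩ h
    have hsa : s a = 1 := h
    have h1 : s = Pi.mulSingle b (s b) := by
      funext j
      by_cases hj : j = b
      · subst hj
        simp
      · rw [Pi.mulSingle_eq_of_ne hj]
        by_cases hja : j = a
        · subst hja
          exact hsa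
        · exact hs1 j hja hj
    have h2 : s b ∈ Nb := by
      rw [hNb, ← h1]
      exact hsS
    rw [hbot, Subgroup.mem_bot] at h2
    apply Subtype.ext
    change s = 1
    rw [h1, h2, Pi.mulSingle_one]
  have h1 : Nat.card (T b) ≤ Nat.card Ub := Nat.card_le_card_of_surjective fb hfb
  have h2 : Function.Bijective fa := hfa.bijective_of_nat_card_le (by rw [hcard a b]; exact h1)
  obtain ⟨⟨s, hsS, hs1⟩, hsu⟩ := h2.2 u
  exact ⟨s, hsS, hsu, hs1⟩

theorem c4_aux (n : ℕ) : ∀ {ι : Type} [Fintype ι] [DecidableEq ι] {X T : ι → Type}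
    [∀ i, Finite (X i)] [∀ i, Group (T i)] [∀ i, Finite (T i)],
    Fintype.card ι = n → (∀ i, IsSimpleGroup (T i)) → (∀ i, ∃ a b : T i, ¬ Commute a b) →
    (∀ i j, Nat.card (T i) = Nat.card (T j)) → ∀ (κ : ∀ i, X i → T i) (θ : ℝ),
    0 ≤ θ → θ ≤ 1 →
    (∀ i (H : Subgroup (T i)), H ≠ ⊤ → ∀ k : T i,
      (Nat.card {x : X i // k⁻¹ * κ i x ∈ H} : ℝ) ≤ θ ^ 2 * Nat.card (X i)) →
    ∀ (S : Subgroup (∀ i, T i)) (B : Finset ι),
    (∀ i, i ∈ B ↔ ∀ t : T i, Pi.mulSingle i t ∈ S) →
    (Nat.card {x : ∀ i, X i // (fun i => κ i (x i)) ∈ S} : ℝ) ≤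
      θ ^ (Fintype.card ι - B.card) * Nat.card (∀ i, X i) := by
  induction n with
  | zero =>
    intro ι _ _ X T _ _ _ hn hs hna hcard κ θ h0 h1 hκ S B hB
    rw [hn, Nat.zero_sub, pow_zero, one_mul]
    exact_mod_cast Nat.card_le_card_of_injective _ Subtype.val_injective
  | succ n ih =>
    intro ι _ _ X T _ _ _ hn hs hna hcard κ θ h0 h1 hκ S B hB
    by_cases hall : ∀ a, a ∈ B
    · have : B = Finset.univ := Finset.eq_univ_iff_forall.2 hall
      rw [this, Finset.card_univ, Nat.sub_self, pow_zero, one_mul]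
      exact_mod_cast Nat.card_le_card_of_injective _ Subtype.val_injective
    push Not at hall
    obtain ⟨a, haB⟩ := hall
    let Ha : Subgroup (T a) := S.comap (MonoidHom.mulSingle T a)
    have hHa : ∀ t, t ∈ Ha ↔ Pi.mulSingle a t ∈ S := fun t => Iff.rfl
    have hHatop : Ha ≠ ⊤ := by
      intro h
      apply haB
      rw [hB]
      intro t
      rw [← hHa, h]
      trivial
    let π : (∀ i, T i) →* (∀ j : {j // j ≠ a}, T j) :=
      { toFun := fun f j => f j
        map_one' := rfl
        map_mul' := fun _ _ => rfl }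
    have hπ : ∀ f j, π f j = f j.1 := fun f j => rfl
    classical
    let B' : Finset {j // j ≠ a} :=
      Finset.univ.filter (fun j => ∀ t : T j, Pi.mulSingle j t ∈ S.map π)
    have hB' : ∀ j, j ∈ B' ↔ ∀ t : T j, Pi.mulSingle j t ∈ S.map π := fun j => by
      simp [B']
    have hcard' : Fintype.card {j // j ≠ a} = n := by
      have := Fintype.card_subtype_compl (fun j : ι => j = a)
      rw [Fintype.card_subtype_eq] at this
      have h2 : Fintype.card {j // j ≠ a} = Fintype.card {x // ¬ x = a} := rfl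
      omega
    have IH := ih (ι := {j // j ≠ a}) (X := fun j => X j.1) (T := fun j => T j.1) hcard'
      (fun j => hs j) (fun j => hna j) (fun i j => hcard i j) (fun j => κ j.1) θ h0 h1
      (fun j => hκ j.1) (S.map π) B' hB'
    -- fibres
    have hfib := c4_fib (P := X a) (Q := ∀ j : {j // j ≠ a}, X j)
      (fun p q => (fun i => κ i (((Equiv.piSplitAt a X).symm (p, q)) i)) ∈ S)
      (fun q => (fun j : {j // j ≠ a} => κ j.1 (q j)) ∈ S.map π)
      (by
        intro p q hpq
        refine ⟨_, hpq, ?_⟩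
        funext j
        rw [hπ]
        simp [Equiv.piSplitAt, j.2])
      (θ ^ 2 * Nat.card (X a))
      (by
        intro q
        by_cases hne : Nonempty {p // (fun i => κ i (((Equiv.piSplitAt a X).symm (p, q)) i)) ∈ S}
        · obtain ⟨p₀, hp₀⟩ := hne
          refine le_trans ?_ (hκ a Ha hHatop (κ a p₀))
          have : ∀ p : {p // (fun i => κ i (((Equiv.piSplitAt a X).symm (p, q)) i)) ∈ S},
              (κ a p₀)⁻¹ * κ a p.1 ∈ Ha := by
            rintro ⟨p, hp⟩
            rw [hHa]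
            have h2 := S.mul_mem (S.inv_mem hp₀) hp
            convert h2 using 1
            funext j
            by_cases hj : j = a
            · subst hj
              simp [Equiv.piSplitAt]
            · rw [Pi.mulSingle_eq_of_ne hj]
              simp [Equiv.piSplitAt, hj]
          exact_mod_cast Nat.card_le_card_of_injective
            (fun p : {p // (fun i => κ i (((Equiv.piSplitAt a X).symm (p, q)) i)) ∈ S} =>
              (⟨p.1, this p⟩ : {x : X a // (κ a p₀)⁻¹ * κ a x ∈ Ha}))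
            (fun p p' h => Subtype.ext (congrArg (fun z => z.1) h))
        · rw [not_nonempty_iff] at hne
          rw [Nat.card_of_isEmpty, Nat.cast_zero]
          positivity)
    have hcongr : Nat.card {x : ∀ i, X i // (fun i => κ i (x i)) ∈ S} =
        Nat.card {pq : X a × (∀ j : {j // j ≠ a}, X j) //
          (fun i => κ i (((Equiv.piSplitAt a X).symm (pq.1, pq.2)) i)) ∈ S} := by
      refine Nat.card_congr ((Equiv.piSplitAt a X).subtypeEquiv (fun x => ?_))
      have : (Equiv.piSplitAt a X).symm ((Equiv.piSplitAt a X x).1, (Equiv.piSplitAt a X x).2) = x :=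
        (Equiv.piSplitAt a X).symm_apply_apply x
      rw [this]
    have hcardX : Nat.card (∀ i, X i) = Nat.card (X a) * Nat.card (∀ j : {j // j ≠ a}, X j) := by
      rw [← Nat.card_prod]
      exact Nat.card_congr (Equiv.piSplitAt a X)
    -- the new set
    let B'' : Finset ι := B'.map (Function.Embedding.subtype _)
    have hB''card : B''.card = B'.card := Finset.card_map _
    have hB'' : ∀ b ∈ B'', b ≠ a ∧ ∀ t : T b, ∃ s ∈ S, s b = t ∧ ∀ j, j ≠ a → j ≠ b → s j = 1 := by
      intro b hb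
      rw [Finset.mem_map] at hb
      obtain ⟨⟨b', hba'⟩, hb1, hbb⟩ := hb
      have hbb' : b' = b := hbb
      subst hbb'
      refine ⟨hba', fun t => ?_⟩
      have hba := hba'
      have := (hB' _).1 hb1 t
      obtain ⟨s, hsS, hs1⟩ := this
      refine ⟨s, hsS, ?_, fun j hja hjb => ?_⟩
      · have h2 := congrFun hs1 ⟨b', hba⟩
        rw [hπ] at h2
        rw [Pi.mulSingle_eq_same] at h2
        exact h2
      · have h2 := congrFun hs1 ⟨j, hja⟩
        rw [hπ] at h2
        rw [Pi.mulSingle_eq_of_ne (by intro h; exact hjb (congrArg Subtype.val h))] at h2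
        exact h2
    have hdiff : (B'' \ B).card ≤ 1 := by
      rw [Finset.card_le_one]
      intro b hb b' hb'
      by_contra hne
      rw [Finset.mem_sdiff] at hb hb'
      obtain ⟨hba, hbs⟩ := hB'' b hb.1
      obtain ⟨hba', hbs'⟩ := hB'' b' hb'.1
      have hbn : ¬ ∀ t : T b, Pi.mulSingle b t ∈ S := fun h => hb.2 ((hB b).2 h)
      have hbn' : ¬ ∀ t : T b', Pi.mulSingle b' t ∈ S := fun h => hb'.2 ((hB b').2 h)
      apply hHatop
      apply c4_perfect (hs a) (hna a)
      intro u v
      obtain ⟨s, hsS, hsa, hs1⟩ := c4_supp hs hcard S a b hba hbn hbs u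
      obtain ⟨s', hsS', hsa', hs1'⟩ := c4_supp hs hcard S a b' hba' hbn' hbs' v
      rw [hHa]
      have h2 : ⁅s, s'⁆ ∈ S := by
        rw [commutatorElement_def]
        exact S.mul_mem (S.mul_mem (S.mul_mem hsS hsS') (S.inv_mem hsS)) (S.inv_mem hsS')
      convert h2 using 1
      funext j
      have hc : (⁅s, s'⁆ : ∀ i, T i) j = s j * s' j * (s j)⁻¹ * (s' j)⁻¹ := rfl
      rw [hc]
      by_cases hja : j = a
      · subst hja
        rw [Pi.mulSingle_eq_same, hsa, hsa', commutatorElement_def]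
      · rw [Pi.mulSingle_eq_of_ne hja]
        by_cases hjb : j = b
        · subst hjb
          rw [hs1' j hja hne]
          simp
        · rw [hs1 j hja hjb]
          simp
    have hBcard : B'.card ≤ B.card + 1 := by
      rw [← hB''card]
      calc B''.card ≤ (B'' \ B).card + B.card := Finset.card_le_card_sdiff_add_card
        _ ≤ B.card + 1 := by omega
    have hB'n : B'.card ≤ n := by
      rw [← hcard']
      exact Finset.card_le_univ _
    have hBn : B.card ≤ n := by
      have h3 : B.card < Fintype.card ι := by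
        rw [← Finset.card_univ]
        apply Finset.card_lt_card
        rw [Finset.ssubset_univ_iff]
        rintro rfl
        exact haB (Finset.mem_univ _)
      omega
    rw [hcongr, hcardX, hn]
    refine hfib.trans ?_
    rw [hcard'] at IH
    calc θ ^ 2 * (Nat.card (X a) : ℝ) *
          (Nat.card {q : ∀ j : {j // j ≠ a}, X j //
            (fun j : {j // j ≠ a} => κ j.1 (q j)) ∈ S.map π} : ℝ)
        ≤ θ ^ 2 * (Nat.card (X a) : ℝ) *
          (θ ^ (n - B'.card) * Nat.card (∀ j : {j // j ≠ a}, X j)) :=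
          mul_le_mul_of_nonneg_left IH (by positivity)
      _ = θ ^ (2 + (n - B'.card)) *
          ((Nat.card (X a) * Nat.card (∀ j : {j // j ≠ a}, X j) : ℕ) : ℝ) := by
          push_cast
          ring
      _ ≤ θ ^ (n + 1 - B.card) *
          ((Nat.card (X a) * Nat.card (∀ j : {j // j ≠ a}, X j) : ℕ) : ℝ) := by
          apply mul_le_mul_of_nonneg_right _ (by positivity)
          exact pow_le_pow_of_le_one h0 h1 (by omega)

/-- (EL) Elimination of coordinates: independent random elements of simple groups of the same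
order in a subgroup of the product. -/
theorem card_prod_mem_le {ι : Type} [Fintype ι] [DecidableEq ι] {X T : ι → Type}
    [∀ i, Finite (X i)] [∀ i, Group (T i)] [∀ i, Finite (T i)]
    (hs : ∀ i, IsSimpleGroup (T i)) (hna : ∀ i, ∃ a b : T i, ¬ Commute a b)
    (hcard : ∀ i j, Nat.card (T i) = Nat.card (T j)) (κ : ∀ i, X i → T i) (θ : ℝ)
    (h0 : 0 ≤ θ) (h1 : θ ≤ 1)
    (hκ : ∀ i (H : Subgroup (T i)), H ≠ ⊤ → ∀ k : T i,
      (Nat.card {x : X i // k⁻¹ * κ i x ∈ H} : ℝ) ≤ θ ^ 2 * Nat.card (X i))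
    (S : Subgroup (∀ i, T i)) (B : Finset ι)
    (hB : ∀ i, i ∈ B ↔ ∀ t : T i, Pi.mulSingle i t ∈ S) :
    (Nat.card {x : ∀ i, X i // (fun i => κ i (x i)) ∈ S} : ℝ) ≤
      θ ^ (Fintype.card ι - B.card) * Nat.card (∀ i, X i) :=
  c4_aux _ rfl hs hna hcard κ θ h0 h1 hκ S B hB

end LibKS
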