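import Mathlib

set_option autoImplicit false

namespace LibKS

/-- Cauchy-Schwarz for a relation between two finite types. -/
theorem c5_cs {A B : Type} [Finite A] [Finite B] (R : A → B → Prop) :
    Nat.card {q : A × B // R q.1 q.2} ^ 2 ≤
      Nat.card A * Nat.card {q : A × B × B // R q.1 q.2.1 ∧ R q.1 q.2.2} := by
  classical
  have := Fintype.ofFinite A
  let e1 : {q : A × B // R q.1 q.2} ≃ Σ a, {b // R a b} :=
    { toFun := fun q => ⟨q.1.1, ⟨q.1.2, q.2⟩⟩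
      invFun := fun s => ⟨(s.1, s.2.1), s.2.2⟩
      left_inv := fun _ => rfl
      right_inv := fun _ => rfl }
  let e2 : {q : A × B × B // R q.1 q.2.1 ∧ R q.1 q.2.2} ≃ Σ a, {b // R a b} × {b // R a b} :=
    { toFun := fun q => ⟨q.1.1, ⟨q.1.2.1, q.2.1⟩, ⟨q.1.2.2, q.2.2⟩⟩
      invFun := fun s => ⟨(s.1, s.2.1.1, s.2.2.1), s.2.1.2, s.2.2.2⟩
      left_inv := fun _ => rfl
      right_inv := fun _ => rfl }
  rw [Nat.card_congr e1, Nat.card_congr e2, Nat.card_sigma, Nat.card_sigma]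
  simp only [Nat.card_prod]
  have h := sq_sum_le_card_mul_sum_sq (s := (Finset.univ : Finset A))
    (f := fun a => Nat.card {b // R a b})
  simpa [Nat.card_eq_fintype_card, sq] using h

/-- (CSmov) Fixed points of a permutation moving a group of permutations to a commuting one. -/
theorem card_fix_pow_four_le {V T : Type} [Finite V] [Group T] [Finite T]
    (τ : T →* Equiv.Perm V) (U : Equiv.Perm V)
    (hU : ∀ s t : T, Commute (τ s) (U * τ t * U⁻¹)) :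
    Nat.card {x : V // U x = x} ^ 4 * Nat.card T ^ 2 ≤
      Nat.card {q : V × T × T // τ (q.2.1 * q.2.2 * q.2.1⁻¹ * q.2.2⁻¹) q.1 = q.1} * Nat.card V ^ 3 := by
  classical
  let τ' : T →* Equiv.Perm V := (MulAut.conj U).toMonoidHom.comp τ
  have hτ' : ∀ t, τ' t = U * τ t * U⁻¹ := fun t => rfl
  have hc : ∀ s t : T, τ s * τ' t = τ' t * τ s := fun s t => hU s t
  have hT : 0 < Nat.card T := Nat.card_pos
  let R : V → T → Prop := fun x t => (τ t⁻¹ * τ' t * U) x = x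
  let R' : V × T → T → Prop := fun yr t => τ' (t⁻¹ * yr.2⁻¹ * t) yr.1 = τ yr.2⁻¹ yr.1
  set N := Nat.card {x : V // U x = x} with hN
  set M1 := Nat.card {q : (V × T) × T // R' q.1 q.2} with hM1
  set M2 := Nat.card {q : V × T × T // τ (q.2.1 * q.2.2 * q.2.1⁻¹ * q.2.2⁻¹) q.1 = q.1} with hM2
  -- step 1
  have h1 : N * Nat.card T ≤ Nat.card {q : V × T // R q.1 q.2} := by
    rw [hN, ← Nat.card_prod]
    have hmem : ∀ q : {x : V // U x = x} × T, R ((τ q.2⁻¹) q.1.1) q.2 := by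
      rintro ⟨⟨x, hx⟩, t⟩
      change (τ t⁻¹ * τ' t * U) ((τ t⁻¹) x) = (τ t⁻¹) x
      have : τ t⁻¹ * τ' t * U * τ t⁻¹ = τ t⁻¹ * U := by
        rw [hτ', map_inv]
        group
      calc (τ t⁻¹ * τ' t * U) ((τ t⁻¹) x) = (τ t⁻¹ * τ' t * U * τ t⁻¹) x := rfl
        _ = (τ t⁻¹ * U) x := by rw [this]
        _ = (τ t⁻¹) x := by rw [Equiv.Perm.mul_apply, hx]
    refine Nat.card_le_card_of_injective
      (fun q : {x : V // U x = x} × T => (⟨((τ q.2⁻¹) q.1.1, q.2), hmem q⟩ :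
        {q : V × T // R q.1 q.2})) ?_
    rintro ⟨⟨x, hx⟩, t⟩ ⟨⟨y, hy⟩, s⟩ h
    simp only [Subtype.mk.injEq, Prod.mk.injEq] at h
    obtain ⟨h1, rfl⟩ := h
    have := (τ t⁻¹).injective h1
    subst this
    rfl
  -- step 2
  have h2 := c5_cs R
  have h3 : Nat.card {q : V × T × T // R q.1 q.2.1 ∧ R q.1 q.2.2} ≤ M1 := by
    have hmem : ∀ q : {q : V × T × T // R q.1 q.2.1 ∧ R q.1 q.2.2},
        R' (U q.1.1, q.1.2.1 * q.1.2.2⁻¹) q.1.2.2 := by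
      rintro ⟨⟨x, s, t⟩, hs, ht⟩
      change τ' (t⁻¹ * (s * t⁻¹)⁻¹ * t) (U x) = τ (s * t⁻¹)⁻¹ (U x)
      change (τ s⁻¹ * τ' s * U) x = x at hs
      change (τ t⁻¹ * τ' t * U) x = x at ht
      have e1 : (τ s⁻¹ * τ' s) (U x) = (τ t⁻¹ * τ' t) (U x) := by
        have : (τ s⁻¹ * τ' s * U) x = (τ t⁻¹ * τ' t * U) x := by rw [hs, ht]
        exact this
      -- apply `τ' s⁻¹ * τ t`
      have e2 : (τ' s⁻¹ * τ t) ((τ s⁻¹ * τ' s) (U x)) =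
          (τ' s⁻¹ * τ t) ((τ t⁻¹ * τ' t) (U x)) := by rw [e1]
      have e3 : τ' s⁻¹ * τ t * (τ s⁻¹ * τ' s) = τ (s * t⁻¹)⁻¹ := by
        rw [hc s⁻¹ s, ← mul_assoc, mul_assoc (τ' s⁻¹), hc t s, ← mul_assoc, ← map_mul τ',
          inv_mul_cancel, map_one, one_mul, ← map_mul]
        congr 1
        group
      have e4 : τ' s⁻¹ * τ t * (τ t⁻¹ * τ' t) = τ' (t⁻¹ * (s * t⁻¹)⁻¹ * t) := by
        rw [← mul_assoc, mul_assoc (τ' s⁻¹), ← map_mul τ, mul_inv_cancel, map_one, mul_one,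
          ← map_mul]
        congr 1
        group
      calc τ' (t⁻¹ * (s * t⁻¹)⁻¹ * t) (U x) = (τ' s⁻¹ * τ t * (τ t⁻¹ * τ' t)) (U x) := by rw [e4]
        _ = (τ' s⁻¹ * τ t) ((τ t⁻¹ * τ' t) (U x)) := rfl
        _ = (τ' s⁻¹ * τ t) ((τ s⁻¹ * τ' s) (U x)) := e2.symm
        _ = (τ' s⁻¹ * τ t * (τ s⁻¹ * τ' s)) (U x) := rfl
        _ = τ (s * t⁻¹)⁻¹ (U x) := by rw [e3]
    refine Nat.card_le_card_of_injective
      (fun q : {q : V × T × T // R q.1 q.2.1 ∧ R q.1 q.2.2} =>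
        (⟨((U q.1.1, q.1.2.1 * q.1.2.2⁻¹), q.1.2.2), hmem q⟩ :
        {q : (V × T) × T // R' q.1 q.2})) ?_
    rintro ⟨⟨x, s, t⟩, hst⟩ ⟨⟨x', s', t'⟩, hst'⟩ h
    simp only [Subtype.mk.injEq, Prod.mk.injEq] at h
    obtain ⟨⟨ha, hb⟩, rfl⟩ := h
    have ha' := U.injective ha
    have hb' := mul_right_cancel hb
    subst ha' hb'
    rfl
  -- step 3
  have h4 := c5_cs R'
  have h5 : Nat.card {q : (V × T) × T × T // R' q.1 q.2.1 ∧ R' q.1 q.2.2} ≤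
      M2 * Nat.card T := by
    rw [hM2, ← Nat.card_prod]
    have hmem : ∀ q : {q : (V × T) × T × T // R' q.1 q.2.1 ∧ R' q.1 q.2.2},
        τ (q.1.1.2 * (q.1.2.2 * q.1.2.1⁻¹) * q.1.1.2⁻¹ * (q.1.2.2 * q.1.2.1⁻¹)⁻¹)
          ((U⁻¹ * τ' q.1.2.2) q.1.1.1) = (U⁻¹ * τ' q.1.2.2) q.1.1.1 := by
      rintro ⟨⟨⟨y, r⟩, t, c⟩, ht, hc'⟩
      change τ' (t⁻¹ * r⁻¹ * t) y = τ r⁻¹ y at ht
      change τ' (c⁻¹ * r⁻¹ * c) y = τ r⁻¹ y at hc'
      change τ (r * (c * t⁻¹) * r⁻¹ * (c * t⁻¹)⁻¹) ((U⁻¹ * τ' c) y) = (U⁻¹ * τ' c) y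
      have e1 : τ' (t⁻¹ * r⁻¹ * t) y = τ' (c⁻¹ * r⁻¹ * c) y := ht.trans hc'.symm
      have e2 : τ (r * (c * t⁻¹) * r⁻¹ * (c * t⁻¹)⁻¹) * (U⁻¹ * τ' c) =
          U⁻¹ * (τ' (r * c) * τ' (t⁻¹ * r⁻¹ * t)) := by
        have e5 : U⁻¹ * τ' c = τ c * U⁻¹ := by rw [hτ']; group
        have e6 : U⁻¹ * τ' (r * c * (t⁻¹ * r⁻¹ * t)) = τ (r * c * (t⁻¹ * r⁻¹ * t)) * U⁻¹ := by
          rw [hτ']; group
        rw [← map_mul τ', e5, e6, ← mul_assoc, ← map_mul]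
        congr 2
        group
      have e3 : U⁻¹ * (τ' (r * c) * τ' (c⁻¹ * r⁻¹ * c)) = U⁻¹ * τ' c := by
        rw [← map_mul τ']
        congr 2
        group
      calc τ (r * (c * t⁻¹) * r⁻¹ * (c * t⁻¹)⁻¹) ((U⁻¹ * τ' c) y)
          = (τ (r * (c * t⁻¹) * r⁻¹ * (c * t⁻¹)⁻¹) * (U⁻¹ * τ' c)) y := rfl
        _ = (U⁻¹ * (τ' (r * c) * τ' (t⁻¹ * r⁻¹ * t))) y := by rw [e2]
        _ = U⁻¹ (τ' (r * c) (τ' (t⁻¹ * r⁻¹ * t) y)) := rfl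
        _ = U⁻¹ (τ' (r * c) (τ' (c⁻¹ * r⁻¹ * c) y)) := by rw [e1]
        _ = (U⁻¹ * (τ' (r * c) * τ' (c⁻¹ * r⁻¹ * c))) y := rfl
        _ = (U⁻¹ * τ' c) y := by rw [e3]
    refine Nat.card_le_card_of_injective
      (fun q : {q : (V × T) × T × T // R' q.1 q.2.1 ∧ R' q.1 q.2.2} =>
        ((⟨((U⁻¹ * τ' q.1.2.2) q.1.1.1, q.1.1.2, q.1.2.2 * q.1.2.1⁻¹), hmem q⟩, q.1.2.2) :
        {q : V × T × T // τ (q.2.1 * q.2.2 * q.2.1⁻¹ * q.2.2⁻¹) q.1 = q.1} × T)) ?_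
    rintro ⟨⟨⟨y, r⟩, t, c⟩, hst⟩ ⟨⟨⟨y', r'⟩, t', c'⟩, hst'⟩ h
    simp only [Subtype.mk.injEq, Prod.mk.injEq] at h
    obtain ⟨⟨ha, rfl, hb⟩, rfl⟩ := h
    have ha' := (U⁻¹ * τ' c).injective ha
    have hb' := inv_injective (mul_left_cancel hb)
    subst ha' hb'
    rfl
  -- conclusion
  rw [Nat.card_prod] at h4
  have h6 : (N * Nat.card T) ^ 2 ≤ Nat.card V * M1 :=
    (Nat.pow_le_pow_left h1 2).trans (h2.trans (Nat.mul_le_mul_left _ h3))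
  have h7 : M1 ^ 2 ≤ Nat.card V * Nat.card T * (M2 * Nat.card T) :=
    h4.trans (Nat.mul_le_mul_left _ h5)
  have h8 : (N * Nat.card T) ^ 4 ≤ Nat.card V ^ 2 * (Nat.card V * Nat.card T * (M2 * Nat.card T)) := by
    calc (N * Nat.card T) ^ 4 = ((N * Nat.card T) ^ 2) ^ 2 := by ring
      _ ≤ (Nat.card V * M1) ^ 2 := Nat.pow_le_pow_left h6 2
      _ = Nat.card V ^ 2 * M1 ^ 2 := by ring
      _ ≤ _ := Nat.mul_le_mul_left _ h7
  have h9 : (N ^ 4 * Nat.card T ^ 2) * Nat.card T ^ 2 ≤ (M2 * Nat.card V ^ 3) * Nat.card T ^ 2 := by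
    calc (N ^ 4 * Nat.card T ^ 2) * Nat.card T ^ 2 = (N * Nat.card T) ^ 4 := by ring
      _ ≤ _ := h8
      _ = _ := by ring
  exact Nat.le_of_mul_le_mul_right h9 (by positivity)

/-- (CSfix) Fixed points of products, averaged over a family. -/
theorem card_fix_sq_le {V T I : Type} [Finite V] [Group T] [Finite T] [Finite I]
    (τ : T →* Equiv.Perm V) (U : Equiv.Perm V) (α : MulAut T)
    (hU : ∀ t : T, U * τ t * U⁻¹ = τ (α t)) (η : I → T) (σ : I → Equiv.Perm V)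
    (hσ : ∀ i t, Commute (σ i) (τ t)) :
    Nat.card {q : V × I // (τ (η q.2) * σ q.2 * U) q.1 = q.1} ^ 2 * Nat.card T ≤
      Nat.card {q : V × I × T //
        τ (q.2.2⁻¹ * η q.2.1 * α q.2.2 * (η q.2.1)⁻¹) q.1 = q.1} *
        (Nat.card V * Nat.card I) := by
  classical
  have hT : 0 < Nat.card T := Nat.card_pos
  have hU' : ∀ t : T, U * τ t = τ (α t) * U := fun t => by rw [← hU t]; group
  let R : V × I → T → Prop := fun xi t =>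
    (τ (t⁻¹ * η xi.2 * α t) * σ xi.2 * U) xi.1 = xi.1
  set N := Nat.card {q : V × I // (τ (η q.2) * σ q.2 * U) q.1 = q.1} with hN
  set M := Nat.card {q : V × I × T //
        τ (q.2.2⁻¹ * η q.2.1 * α q.2.2 * (η q.2.1)⁻¹) q.1 = q.1} with hM
  have h1 : N * Nat.card T ≤ Nat.card {q : (V × I) × T // R q.1 q.2} := by
    rw [hN, ← Nat.card_prod]
    have hmem : ∀ q : {q : V × I // (τ (η q.2) * σ q.2 * U) q.1 = q.1} × T,
        R ((τ q.2⁻¹) q.1.1.1, q.1.1.2) q.2 := by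
      rintro ⟨⟨⟨x, i⟩, hx⟩, t⟩
      change (τ (η i) * σ i * U) x = x at hx
      change (τ (t⁻¹ * η i * α t) * σ i * U) ((τ t⁻¹) x) = (τ t⁻¹) x
      have e1 : τ (t⁻¹ * η i * α t) * σ i * U * τ t⁻¹ = τ t⁻¹ * (τ (η i) * σ i * U) := by
        rw [mul_assoc (τ (t⁻¹ * η i * α t) * σ i), hU', mul_assoc (τ (t⁻¹ * η i * α t)),
          ← mul_assoc (σ i), (hσ i (α t⁻¹)).eq, map_mul, map_mul, map_inv α, map_inv τ (α t)]
        group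
      calc (τ (t⁻¹ * η i * α t) * σ i * U) ((τ t⁻¹) x)
          = (τ (t⁻¹ * η i * α t) * σ i * U * τ t⁻¹) x := rfl
        _ = (τ t⁻¹ * (τ (η i) * σ i * U)) x := by rw [e1]
        _ = (τ t⁻¹) x := by rw [Equiv.Perm.mul_apply, hx]
    refine Nat.card_le_card_of_injective
      (fun q : {q : V × I // (τ (η q.2) * σ q.2 * U) q.1 = q.1} × T =>
        (⟨(((τ q.2⁻¹) q.1.1.1, q.1.1.2), q.2), hmem q⟩ :
        {q : (V × I) × T // R q.1 q.2})) ?_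
    rintro ⟨⟨⟨x, i⟩, hx⟩, t⟩ ⟨⟨⟨y, j⟩, hy⟩, s⟩ h
    simp only [Subtype.mk.injEq, Prod.mk.injEq] at h
    obtain ⟨⟨h1, rfl⟩, rfl⟩ := h
    have := (τ t⁻¹).injective h1
    subst this
    rfl
  have h2 := c5_cs R
  have h3 : Nat.card {q : (V × I) × T × T // R q.1 q.2.1 ∧ R q.1 q.2.2} ≤ M * Nat.card T := by
    rw [hM, ← Nat.card_prod]
    have hmem : ∀ q : {q : (V × I) × T × T // R q.1 q.2.1 ∧ R q.1 q.2.2},
        τ ((q.1.2.1 * q.1.2.2⁻¹)⁻¹ * η q.1.1.2 * α (q.1.2.1 * q.1.2.2⁻¹) * (η q.1.1.2)⁻¹)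
          ((τ q.1.2.2) q.1.1.1) = (τ q.1.2.2) q.1.1.1 := by
      rintro ⟨⟨⟨x, i⟩, t, s⟩, ht, hs⟩
      change (τ (t⁻¹ * η i * α t) * σ i * U) x = x at ht
      change (τ (s⁻¹ * η i * α s) * σ i * U) x = x at hs
      change τ ((t * s⁻¹)⁻¹ * η i * α (t * s⁻¹) * (η i)⁻¹) ((τ s) x) = (τ s) x
      have e1 : (σ i * U) x = τ (s⁻¹ * η i * α s)⁻¹ x := by
        have : (τ (s⁻¹ * η i * α s)⁻¹) ((τ (s⁻¹ * η i * α s) * σ i * U) x) =
            (τ (s⁻¹ * η i * α s)⁻¹) x := by rw [hs]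
        rw [← this]
        have e : τ (s⁻¹ * η i * α s)⁻¹ * (τ (s⁻¹ * η i * α s) * σ i * U) = σ i * U := by
          rw [map_inv]; group
        exact (DFunLike.congr_fun e x).symm
      have e2 : τ (t⁻¹ * η i * α t) ((σ i * U) x) = x := ht
      rw [e1] at e2
      have e3 : τ ((t * s⁻¹)⁻¹ * η i * α (t * s⁻¹) * (η i)⁻¹) * τ s =
          τ s * (τ (t⁻¹ * η i * α t) * τ (s⁻¹ * η i * α s)⁻¹) := by
        rw [← map_mul, ← map_mul, ← map_mul, map_mul α, map_inv α]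
        congr 1
        group
      calc τ ((t * s⁻¹)⁻¹ * η i * α (t * s⁻¹) * (η i)⁻¹) ((τ s) x)
          = (τ ((t * s⁻¹)⁻¹ * η i * α (t * s⁻¹) * (η i)⁻¹) * τ s) x := rfl
        _ = (τ s * (τ (t⁻¹ * η i * α t) * τ (s⁻¹ * η i * α s)⁻¹)) x := by rw [e3]
        _ = τ s (τ (t⁻¹ * η i * α t) (τ (s⁻¹ * η i * α s)⁻¹ x)) := rfl
        _ = τ s x := by rw [e2]
    refine Nat.card_le_card_of_injective
      (fun q : {q : (V × I) × T × T // R q.1 q.2.1 ∧ R q.1 q.2.2} =>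
        ((⟨((τ q.1.2.2) q.1.1.1, q.1.1.2, q.1.2.1 * q.1.2.2⁻¹), hmem q⟩, q.1.2.2) :
        {q : V × I × T // τ (q.2.2⁻¹ * η q.2.1 * α q.2.2 * (η q.2.1)⁻¹) q.1 = q.1} × T)) ?_
    rintro ⟨⟨⟨x, i⟩, t, s⟩, hst⟩ ⟨⟨⟨x', i'⟩, t', s'⟩, hst'⟩ h
    simp only [Subtype.mk.injEq, Prod.mk.injEq] at h
    obtain ⟨⟨ha, rfl, hb⟩, rfl⟩ := h
    have ha' := (τ s).injective ha
    have hb' := mul_right_cancel hb
    subst ha' hb'
    rfl
  rw [Nat.card_prod] at h2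
  have h6 : (N * Nat.card T) ^ 2 ≤ Nat.card V * Nat.card I * (M * Nat.card T) :=
    (Nat.pow_le_pow_left h1 2).trans (h2.trans (Nat.mul_le_mul_left _ h3))
  have h9 : (N ^ 2 * Nat.card T) * Nat.card T ≤ (M * (Nat.card V * Nat.card I)) * Nat.card T := by
    calc (N ^ 2 * Nat.card T) * Nat.card T = (N * Nat.card T) ^ 2 := by ring
      _ ≤ _ := h6
      _ = _ := by ring
  exact Nat.le_of_mul_le_mul_right h9 hT

end LibKS
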