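import Mathlib

set_option autoImplicit false

namespace LibKS

/-- (Exi) Average of the powers, under the star condition. -/
theorem sum_pow_le {V Ω : Type} [Finite V] (R : Ω → V → Prop) (A : Finset Ω) (θ : ℝ)
    (h0 : 0 < θ) (h1 : θ ≤ 1)
    (hstar : ∀ B ⊆ A, Nat.card {ξ : V // ∀ v ∈ B, R v ξ} * 4 ^ B.card ≤
      3 ^ B.card * Nat.card V) (b : V → ℕ)
    (hb : ∀ ξ, b ξ = Nat.card {v : A // R v ξ}) :
    ∑ᶠ ξ : V, θ ^ (A.card - b ξ) ≤ ((3 + θ) / 4) ^ A.card * Nat.card V := by
  classical
  have := Fintype.ofFinite V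
  rw [finsum_eq_sum_of_fintype]
  set BB : V → Finset Ω := fun ξ => A.filter (fun v => R v ξ) with hBB
  have hBA : ∀ ξ, BB ξ ⊆ A := fun ξ => Finset.filter_subset _ _
  have hbB : ∀ ξ, b ξ = (BB ξ).card := by
    intro ξ
    rw [hb, ← Fintype.card_coe, ← Nat.card_eq_fintype_card]
    refine Nat.card_congr ⟨fun v => ⟨v.1.1, Finset.mem_filter.2 ⟨v.1.2, v.2⟩⟩,
      fun v => ⟨⟨v.1, (Finset.mem_filter.1 v.2).1⟩, (Finset.mem_filter.1 v.2).2⟩,
      fun v => rfl, fun v => rfl⟩
  have key : ∀ ξ, θ ^ (A.card - b ξ) = ∑ B ∈ A.powerset,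
      if (∀ v ∈ B, R v ξ) then (1 - θ) ^ B.card * θ ^ (A.card - B.card) else 0 := by
    intro ξ
    rw [← Finset.sum_filter]
    have hset : A.powerset.filter (fun B => ∀ v ∈ B, R v ξ) = (BB ξ).powerset := by
      ext B
      simp only [Finset.mem_filter, Finset.mem_powerset, hBB]
      constructor
      · rintro ⟨h2, h3⟩ v hv
        exact Finset.mem_filter.2 ⟨h2 hv, h3 v hv⟩
      · intro h2
        exact ⟨fun v hv => (Finset.mem_filter.1 (h2 hv)).1,
          fun v hv => (Finset.mem_filter.1 (h2 hv)).2⟩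
    rw [hset]
    have hterm : ∀ B ∈ (BB ξ).powerset, (1 - θ) ^ B.card * θ ^ (A.card - B.card) =
        ((1 - θ) ^ B.card * θ ^ ((BB ξ).card - B.card)) * θ ^ (A.card - (BB ξ).card) := by
      intro B hB
      have h2 := Finset.card_le_card (Finset.mem_powerset.1 hB)
      have h3 := Finset.card_le_card (hBA ξ)
      rw [mul_assoc, ← pow_add]
      congr 2
      omega
    rw [Finset.sum_congr rfl hterm, ← Finset.sum_mul, Finset.sum_pow_mul_eq_add_pow,
      sub_add_cancel, one_pow, one_mul, hbB]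
  rw [Finset.sum_congr rfl (fun ξ _ => key ξ), Finset.sum_comm]
  have hN : ∀ B ∈ A.powerset, ∑ ξ : V,
      (if (∀ v ∈ B, R v ξ) then (1 - θ) ^ B.card * θ ^ (A.card - B.card) else 0) ≤
      ((3 / 4 * (1 - θ)) ^ B.card * θ ^ (A.card - B.card)) * Nat.card V := by
    intro B hB
    rw [← Finset.sum_filter, Finset.sum_const, nsmul_eq_mul]
    have h2 := hstar B (Finset.mem_powerset.1 hB)
    rw [Nat.card_eq_fintype_card, Fintype.card_subtype] at h2
    have h3 : ((Finset.univ.filter (fun ξ : V => ∀ v ∈ B, R v ξ)).card : ℝ) * 4 ^ B.card ≤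
        3 ^ B.card * Nat.card V := by exact_mod_cast h2
    have h4 : ((Finset.univ.filter (fun ξ : V => ∀ v ∈ B, R v ξ)).card : ℝ) ≤
        (3 / 4) ^ B.card * Nat.card V := by
      rw [div_pow, div_mul_eq_mul_div, le_div_iff₀ (by positivity)]
      exact h3
    have h5 : 0 ≤ (1 - θ) ^ B.card * θ ^ (A.card - B.card) := by
      have : 0 ≤ 1 - θ := by linarith
      positivity
    calc _ ≤ ((3 / 4) ^ B.card * Nat.card V) * ((1 - θ) ^ B.card * θ ^ (A.card - B.card)) :=
          mul_le_mul_of_nonneg_right h4 h5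
      _ = _ := by rw [mul_pow]; ring
  refine (Finset.sum_le_sum hN).trans (le_of_eq ?_)
  rw [← Finset.sum_mul, Finset.sum_pow_mul_eq_add_pow]
  congr 2
  ring

/-- A finite set on which an injective map has no fixed point has a subset of a third of its
size which is disjoint from its image. -/
theorem exists_third_disjoint {Ω : Type} [DecidableEq Ω] (w : Equiv.Perm Ω) (A : Finset Ω)
    (h : ∀ v ∈ A, w v ≠ v) :
    ∃ A' ⊆ A, A.card ≤ 3 * A'.card ∧ ∀ v ∈ A', w v ∉ A' := by
  induction A using Finset.strongInduction with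
  | H A ih =>
    rcases A.eq_empty_or_nonempty with hA | ⟨v, hv⟩
    · subst hA
      exact ⟨∅, by simp, by simp, by simp⟩
    · set A1 := A \ {v, w v, w⁻¹ v} with hA1
      have hsub : A1 ⊂ A := by
        refine Finset.ssubset_iff_subset_ne.2 ⟨Finset.sdiff_subset, fun h2 => ?_⟩
        rw [← h2, hA1] at hv
        simp at hv
      have hcard : A.card ≤ A1.card + 3 := by
        have h2 := Finset.card_le_card_sdiff_add_card (s := A) (t := ({v, w v, w⁻¹ v} : Finset Ω))
        have h3 : ({v, w v, w⁻¹ v} : Finset Ω).card ≤ 3 := Finset.card_le_three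
        rw [hA1]
        omega
      obtain ⟨A', hA', hc, hd⟩ := ih A1 hsub (fun u hu => h u (hsub.1 hu))
      have hnot : ∀ u ∈ A', u ≠ v ∧ u ≠ w v ∧ u ≠ w⁻¹ v := by
        intro u hu
        have h2 := hA' hu
        rw [hA1, Finset.mem_sdiff] at h2
        have h3 := h2.2
        simp only [Finset.mem_insert, Finset.mem_singleton, not_or] at h3
        exact h3
      refine ⟨insert v A', ?_, ?_, ?_⟩
      · intro u hu
        rcases Finset.mem_insert.1 hu with rfl | hu
        · exact hv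
        · exact hsub.1 (hA' hu)
      · rw [Finset.card_insert_of_notMem (fun h2 => (hnot v h2).1 rfl)]
        omega
      · intro u hu
        rw [Finset.mem_insert, not_or]
        rcases Finset.mem_insert.1 hu with rfl | hu
        · exact ⟨h u hv, fun h2 => (hnot _ h2).2.1 rfl⟩
        · refine ⟨fun h2 => (hnot u hu).2.2 ?_, hd u hu⟩
          rw [← h2]
          simp

end LibKS
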