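import Pool.Agent.LibKS.Defs
import Pool.Agent.LibKS.C0
import Pool.Agent.LibKS.C1c
import Pool.Agent.LibKS.C4
import Pool.Agent.LibKS.C5
import Pool.Agent.LibKS.C5b

set_option autoImplicit false

namespace LibKS

/-- `|PN : P| = |N : P ∩ N|` for a normal subgroup `N` of a finite group -/
theorem C9b_relIndex_sup {G : Type} [Group G] [Finite G] (P N : Subgroup G) [N.Normal] :
    P.relIndex (P ⊔ N) = P.relIndex N := by
  have h1 : (⊥ : Subgroup G).relIndex P * P.relIndex (P ⊔ N) =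
      (⊥ : Subgroup G).relIndex (P ⊔ N) := Subgroup.relIndex_mul_relIndex _ _ _ bot_le le_sup_left
  have h2 : (⊥ : Subgroup G).relIndex N * N.relIndex (P ⊔ N) =
      (⊥ : Subgroup G).relIndex (P ⊔ N) := Subgroup.relIndex_mul_relIndex _ _ _ bot_le le_sup_right
  have h3 : (⊥ : Subgroup G).relIndex (N ⊓ P) * (N ⊓ P).relIndex P =
      (⊥ : Subgroup G).relIndex P := Subgroup.relIndex_mul_relIndex _ _ _ bot_le inf_le_right
  have h4 : (⊥ : Subgroup G).relIndex (P ⊓ N) * (P ⊓ N).relIndex N =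
      (⊥ : Subgroup G).relIndex N := Subgroup.relIndex_mul_relIndex _ _ _ bot_le inf_le_right
  rw [Subgroup.relIndex_sup_right] at h2
  rw [Subgroup.inf_relIndex_right] at h3 h4
  rw [inf_comm N P] at h3
  have hpos : 0 < (⊥ : Subgroup G).relIndex P := by
    rw [Subgroup.relIndex_bot_left]; exact Nat.card_pos
  apply Nat.eq_of_mul_eq_mul_left hpos
  calc (⊥ : Subgroup G).relIndex P * P.relIndex (P ⊔ N)
      = (⊥ : Subgroup G).relIndex N * N.relIndex P := by rw [h1, ← h2]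
    _ = (⊥ : Subgroup G).relIndex (P ⊓ N) * P.relIndex N * N.relIndex P := by rw [← h4]
    _ = (⊥ : Subgroup G).relIndex (P ⊓ N) * N.relIndex P * P.relIndex N := by ring
    _ = (⊥ : Subgroup G).relIndex P * P.relIndex N := by rw [h3]

theorem C9b_relIndex_dvd {G : Type} [Group G] [Finite G] (P N : Subgroup G) [N.Normal] :
    P.relIndex N ∣ P.index := by
  rw [← C9b_relIndex_sup]
  exact Subgroup.relIndex_dvd_index_of_le le_sup_left

theorem C9b_relIndex_dvd' {G : Type} [Group G] [Finite G] (P N T : Subgroup G) (hT : T ≤ N)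
    (hn : (T.subgroupOf N).Normal) : P.relIndex T ∣ P.relIndex N := by
  have h := C9b_relIndex_dvd (P.subgroupOf N) (T.subgroupOf N)
  rwa [Subgroup.relIndex_subgroupOf hT] at h

/-- in a nonabelian simple group the centre is trivial -/
theorem C9b_center {G : Type} [Group G] (T : Subgroup G) (hs : IsSimpleGroup T)
    (hna : ∃ x ∈ T, ∃ y ∈ T, ¬ Commute x y) (x : G) (hx : x ∈ T)
    (hc : ∀ y ∈ T, Commute x y) : x = 1 := by
  have hz : Subgroup.center T = ⊥ ∨ Subgroup.center T = ⊤ :=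
    Subgroup.Normal.eq_bot_or_eq_top inferInstance
  rcases hz with h | h
  · have : (⟨x, hx⟩ : T) ∈ Subgroup.center T := by
      rw [Subgroup.mem_center_iff]
      intro g
      exact Subtype.ext (hc g g.2).eq.symm
    rw [h, Subgroup.mem_bot] at this
    exact congrArg Subtype.val this
  · exfalso
    obtain ⟨a, ha, b, hb, hab⟩ := hna
    apply hab
    have : (⟨a, ha⟩ : T) ∈ Subgroup.center T := by rw [h]; trivial
    have h2 := (Subgroup.mem_center_iff.1 this) ⟨b, hb⟩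
    exact (congrArg Subtype.val h2).symm

/-- two homomorphisms from a finite product agreeing on the factors are equal -/
theorem C9b_pi_ext {ι : Type} [Fintype ι] [DecidableEq ι] {T : ι → Type} [∀ i, Group (T i)]
    {G : Type} [Group G] (f g : (∀ i, T i) →* G)
    (h : ∀ i (t : T i), f (Pi.mulSingle i t) = g (Pi.mulSingle i t)) : f = g := by
  have hle : (⊤ : Subgroup (∀ i, T i)) ≤ f.eqLocus g := by
    rw [← Subgroup.pi_top (Set.univ : Set ι)]
    rw [Subgroup.pi_le_iff]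
    intro i
    rintro _ ⟨t, -, rfl⟩
    exact h i t
  ext x
  exact hle (Subgroup.mem_top x)

section

variable {p : ℕ} {Γ : Type} [Group Γ] {K₁ : Subgroup Γ} {Ω V : Type} [MulAction Γ Ω]
  {a : K₁ →* Equiv.Perm V} {T : Ω → Subgroup Γ}

theorem Based.C9b_mem_conj (hB : Based p K₁ a T) {v : Ω} {g t : Γ} (ht : t ∈ T v) :
    g * t * g⁻¹ ∈ T (g • v) := by
  rw [← hB.map_conj g v]
  exact ⟨t, ht, by simp [MulAut.conj_apply]⟩

theorem Based.C9b_normal (hB : Based p K₁ a T) : (⨆ v, T v).Normal := by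
  refine ⟨fun n hn g => ?_⟩
  have hle : (⨆ v, T v).map (MulAut.conj g).toMonoidHom ≤ ⨆ v, T v := by
    rw [Subgroup.map_iSup]
    refine iSup_le fun v => ?_
    rw [hB.map_conj g v]
    exact le_iSup T (g • v)
  exact hle ⟨n, hn, by simp [MulAut.conj_apply]⟩

theorem Based.C9b_subnormal (hB : Based p K₁ a T) (v : Ω) :
    ((T v).subgroupOf (⨆ w, T w)).Normal := by
  have hle : (⨆ w, T w) ≤ Subgroup.normalizer (T v : Set Γ) := by
    refine iSup_le fun w => ?_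
    by_cases hwv : w = v
    · subst hwv
      exact Subgroup.le_normalizer
    · intro x hx
      rw [Subgroup.mem_normalizer_iff]
      intro t
      have key : ∀ s ∈ T v, x * s * x⁻¹ = s := by
        intro s hs
        rw [(hB.comm w v hwv x hx s hs).eq]
        group
      have key2 : ∀ s ∈ T v, x⁻¹ * s * x = s := by
        intro s hs
        have := (hB.comm w v hwv x hx s hs).eq
        calc x⁻¹ * s * x = x⁻¹ * (s * x) := by group
          _ = x⁻¹ * (x * s) := by rw [this]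
          _ = s := by group
      constructor
      · intro ht
        rw [key t ht]; exact ht
      · intro ht
        have h1 := key2 _ ht
        have h2 : t = x * t * x⁻¹ := by
          calc t = x⁻¹ * (x * t * x⁻¹) * x := by group
            _ = x * t * x⁻¹ := h1
        rw [h2]; exact ht
  refine ⟨fun n hn g => ?_⟩
  rw [Subgroup.mem_subgroupOf] at hn ⊢
  exact (Subgroup.mem_normalizer_iff.1 (hle g.2) _).1 hn

/-- `P ∩ T v` is a Sylow subgroup of `T v` -/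
theorem Based.C9b_sylow [Fact p.Prime] [Finite Γ] (hB : Based p K₁ a T) (P : Sylow p Γ) (v : Ω) :
    ¬ p ∣ ((P : Subgroup Γ).subgroupOf (T v)).index := by
  intro h
  have hN := hB.C9b_normal
  have h1 : (P : Subgroup Γ).relIndex (T v) ∣ (P : Subgroup Γ).relIndex (⨆ w, T w) :=
    C9b_relIndex_dvd' _ _ _ (le_iSup T v) (hB.C9b_subnormal v)
  have h2 := C9b_relIndex_dvd (P : Subgroup Γ) (⨆ w, T w)
  exact P.not_dvd_index (h.trans (h1.trans h2))

/-- conjugation by an element fixing `v` -/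
noncomputable def Based.C9b_conj (hB : Based p K₁ a T) (w : Γ) (v : Ω) (hw : w • v = v) :
    MulAut (T v) :=
  ((MulAut.conj w).subgroupMap (T v)).trans
    (MulEquiv.subgroupCongr ((hB.map_conj w v).trans (by rw [hw])))

theorem Based.C9b_conj_coe (hB : Based p K₁ a T) (w : Γ) (v : Ω) (hw : w • v = v) (t : T v) :
    ((hB.C9b_conj w v hw t : T v) : Γ) = w * t * w⁻¹ := rfl

/-- the bound of C1c for `P ∩ T v` -/
theorem Based.C9b_kappa [Fact p.Prime] [Finite Γ] (hB : Based p K₁ a T) (P : Sylow p Γ) (v : Ω)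
    (α : MulAut (T v)) (H : Subgroup (T v)) (hH : H ≠ ⊤) (k : T v) :
    (Nat.card {x : ((P : Subgroup Γ) ⊓ T v : Subgroup Γ) × T v //
      k⁻¹ * (x.2⁻¹ * ⟨(x.1 : Γ), x.1.2.2⟩ * α x.2 * (⟨(x.1 : Γ), x.1.2.2⟩ : T v)⁻¹) ∈ H} : ℝ) ≤
      (1 - 1 / (4 * (p : ℝ))) ^ 2 *
        Nat.card (((P : Subgroup Γ) ⊓ T v : Subgroup Γ) × T v) := by
  have hp : 0 < (p : ℝ) := by exact_mod_cast (Fact.out : p.Prime).pos
  have hp2 : 1 ≤ (p : ℝ) := by exact_mod_cast (Fact.out : p.Prime).one_le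
  have hpg : IsPGroup p ((P : Subgroup Γ).subgroupOf (T v)) :=
    P.2.comap_subtype
  let Q : Sylow p (T v) := hpg.toSylow (hB.C9b_sylow P v)
  have hQmem : ∀ x : T v, x ∈ Q ↔ (x : Γ) ∈ P := by
    intro x
    rw [IsPGroup.mem_toSylow, Subgroup.mem_subgroupOf]
    rfl
  have hna : ∃ x y : T v, ¬ Commute x y := by
    obtain ⟨x, hx, y, hy, hxy⟩ := hB.nonab v
    exact ⟨⟨x, hx⟩, ⟨y, hy⟩, fun h => hxy (congrArg Subtype.val h.eq)⟩
  have key := card_twisted_coset_le (hB.simple v) hna (hB.dvd v) Q α H hH k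
  let eQ : ((P : Subgroup Γ) ⊓ T v : Subgroup Γ) ≃ Q :=
    { toFun := fun x => ⟨⟨(x : Γ), x.2.2⟩, (hQmem _).2 x.2.1⟩
      invFun := fun x => ⟨((x : T v) : Γ), (hQmem _).1 x.2, (x : T v).2⟩
      left_inv := fun x => rfl
      right_inv := fun x => rfl }
  have hc1 : Nat.card {x : ((P : Subgroup Γ) ⊓ T v : Subgroup Γ) × T v //
      k⁻¹ * (x.2⁻¹ * ⟨(x.1 : Γ), x.1.2.2⟩ * α x.2 * (⟨(x.1 : Γ), x.1.2.2⟩ : T v)⁻¹) ∈ H} =
      Nat.card {hc : Q × T v // k⁻¹ * (hc.2⁻¹ * (hc.1 : T v) * α hc.2 * (hc.1 : T v)⁻¹) ∈ H} :=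
    Nat.card_congr (Equiv.subtypeEquiv (Equiv.prodCongr eQ (Equiv.refl _)) (fun x => Iff.rfl))
  have hc2 : Nat.card (((P : Subgroup Γ) ⊓ T v : Subgroup Γ) × T v) =
      Nat.card Q * Nat.card (T v) := by
    rw [Nat.card_prod, Nat.card_congr eQ]
  rw [hc1, hc2]
  have hp1 : 1 ≤ 2 * p := by have := (Fact.out : p.Prime).one_le; omega
  have key' : (2 * (p : ℝ)) * (Nat.card {hc : Q × T v //
      k⁻¹ * (hc.2⁻¹ * (hc.1 : T v) * α hc.2 * (hc.1 : T v)⁻¹) ∈ H} : ℝ) ≤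
      (2 * (p : ℝ) - 1) * ((Nat.card Q : ℝ) * Nat.card (T v)) := by
    have := (Nat.cast_le (α := ℝ)).2 key
    push_cast [Nat.cast_sub hp1] at this
    exact this
  set N : ℝ := (Nat.card {hc : Q × T v //
      k⁻¹ * (hc.2⁻¹ * (hc.1 : T v) * α hc.2 * (hc.1 : T v)⁻¹) ∈ H} : ℝ) with hN
  set M : ℝ := (Nat.card Q : ℝ) * Nat.card (T v) with hM
  have hM0 : 0 ≤ M := by positivity
  have h1 : N ≤ (1 - 1 / (2 * (p : ℝ))) * M := by
    have h2 : (1 - 1 / (2 * (p : ℝ))) * M = ((2 * (p : ℝ) - 1) * M) / (2 * p) := by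
      field_simp
    rw [h2, le_div_iff₀ (by positivity)]
    linarith
  have h3 : (1 - 1 / (2 * (p : ℝ))) ≤ (1 - 1 / (4 * (p : ℝ))) ^ 2 := by
    have : (1 - 1 / (4 * (p : ℝ))) ^ 2 = 1 - 1 / (2 * (p : ℝ)) + (1 / (4 * (p : ℝ))) ^ 2 := by
      field_simp; ring
    rw [this]
    have : 0 ≤ (1 / (4 * (p : ℝ))) ^ 2 := by positivity
    linarith
  push_cast
  calc N ≤ (1 - 1 / (2 * (p : ℝ))) * M := h1
    _ ≤ (1 - 1 / (4 * (p : ℝ))) ^ 2 * M := mul_le_mul_of_nonneg_right h3 hM0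

set_option maxHeartbeats 1000000 in
/-- Bound for an element fixing the points of `A`, multiplied by random elements of the Sylow
subgroups. -/
theorem Based.fix_bound [Fact p.Prime] [Finite Γ] [Finite V] (hB : Based p K₁ a T)
    (A : Finset Ω) (hA : ∀ v ∈ A, ActsNontriv a (T v)) (P : Sylow p Γ) (w : K₁)
    (hw : ∀ v ∈ A, (w : Γ) • v = v)
    (σ : (⨆ v : A, ((P : Subgroup Γ) ⊓ T v) : Subgroup Γ) → K₁)
    (hσ : ∀ h, ∀ v ∈ A, ∀ t ∈ T v, Commute (σ h : Γ) t)
    (η : (⨆ v : A, ((P : Subgroup Γ) ⊓ T v) : Subgroup Γ) → K₁)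
    (hη : ∀ h, (η h : Γ) = h) :
    (Nat.card {q : (⨆ v : A, ((P : Subgroup Γ) ⊓ T v) : Subgroup Γ) × V //
        a (η q.1 * σ q.1 * w) q.2 = q.2} : ℝ) ^ 2 ≤
      (1 - 1 / (16 * (p : ℝ))) ^ A.card *
        (Nat.card (⨆ v : A, ((P : Subgroup Γ) ⊓ T v) : Subgroup Γ) * (Nat.card V : ℝ)) ^ 2 := by
  classical
  have hp : 0 < (p : ℝ) := by exact_mod_cast (Fact.out : p.Prime).pos
  have hp2 : 1 ≤ (p : ℝ) := by exact_mod_cast (Fact.out : p.Prime).one_le
  obtain ⟨E, e, hEinj, hErange, hEsingle, he⟩ := exists_prod_equiv_sub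
    (fun v : A => T v) (fun v : A => (P : Subgroup Γ) ⊓ T v) (fun _ => inf_le_right)
    (fun i j hij x hx y hy => hB.comm i.1 j.1 (fun h => hij (Subtype.ext h)) x hx y hy)
    (fun i x hx hc => C9b_center (T i) (hB.simple i) (hB.nonab i) x hx hc)
  have hEK : ∀ t, E t ∈ K₁ := by
    intro t
    have h1 : E t ∈ (⨆ v : A, T v : Subgroup Γ) := by rw [← hErange]; exact ⟨t, rfl⟩
    exact (Subgroup.normalCore_le K₁) ((iSup_le fun v : A => hB.le v.1) h1)
  let EK : (∀ v : A, T v) →* K₁ := E.codRestrict K₁ hEK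
  have hEKc : ∀ t, ((EK t : K₁) : Γ) = E t := fun t => rfl
  let τ : (∀ v : A, T v) →* Equiv.Perm V := a.comp EK
  let α : MulAut (∀ v : A, T v) :=
    MulEquiv.piCongrRight (fun v : A => hB.C9b_conj w v.1 (hw v.1 v.2))
  have hα : ∀ t (i : A), (α t) i = hB.C9b_conj w i.1 (hw i.1 i.2) (t i) := fun t i => rfl
  have hEα : ∀ t, E (α t) = (w : Γ) * E t * (w : Γ)⁻¹ := by
    have : E.comp α.toMonoidHom = (MulAut.conj (w : Γ)).toMonoidHom.comp E := by
      apply C9b_pi_ext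
      intro i t
      have h1 : α (Pi.mulSingle i t) = Pi.mulSingle i (hB.C9b_conj w i.1 (hw i.1 i.2) t) := by
        funext j
        rw [hα]
        by_cases hij : j = i
        · subst hij; rw [Pi.mulSingle_eq_same, Pi.mulSingle_eq_same]
        · rw [Pi.mulSingle_eq_of_ne hij, Pi.mulSingle_eq_of_ne hij, map_one]
      change E (α (Pi.mulSingle i t)) = (w : Γ) * E (Pi.mulSingle i t) * (w : Γ)⁻¹
      rw [h1, hEsingle, hEsingle]
      rfl
    intro t
    exact DFunLike.congr_fun this t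
  have hU : ∀ t, a w * τ t * (a w)⁻¹ = τ (α t) := by
    intro t
    change a w * a (EK t) * (a w)⁻¹ = a (EK (α t))
    rw [← map_inv, ← map_mul, ← map_mul]
    congr 1
    apply Subtype.ext
    rw [hEKc, hEα]
    rfl
  let η' : (⨆ v : A, ((P : Subgroup Γ) ⊓ T v) : Subgroup Γ) → ∀ v : A, T v :=
    fun h i => ⟨(e.symm h i : Γ), (e.symm h i).2.2⟩
  have hη' : ∀ h, E (η' h) = h := by
    intro h
    have := he (e.symm h)
    rw [e.apply_symm_apply] at this
    exact this.symm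
  have hη'K : ∀ h, τ (η' h) = a (η h) := by
    intro h
    change a (EK (η' h)) = a (η h)
    congr 1
    apply Subtype.ext
    rw [hEKc, hη', hη]
  have hσ' : ∀ i t, Commute (a (σ i)) (τ t) := by
    intro i t
    have h1 : E t ∈ (⨆ v : A, T v : Subgroup Γ) := by rw [← hErange]; exact ⟨t, rfl⟩
    have h2 : (⨆ v : A, T v : Subgroup Γ) ≤ Subgroup.centralizer {(σ i : Γ)} := by
      refine iSup_le fun v => ?_
      intro t ht
      rw [Subgroup.mem_centralizer_singleton_iff]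
      exact (hσ i v.1 v.2 t ht).eq.symm
    have h3 := Subgroup.mem_centralizer_singleton_iff.1 (h2 h1)
    have h4 : Commute (σ i) (EK t) := Subtype.ext h3.symm
    exact h4.map a
  have CS := card_fix_sq_le τ (a w) α hU η' (fun h => a (σ h)) hσ'
  -- the left hand side
  have hL : Nat.card {q : V × (⨆ v : A, ((P : Subgroup Γ) ⊓ T v) : Subgroup Γ) //
      (τ (η' q.2) * a (σ q.2) * a w) q.1 = q.1} =
      Nat.card {q : (⨆ v : A, ((P : Subgroup Γ) ⊓ T v) : Subgroup Γ) × V //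
        a (η q.1 * σ q.1 * w) q.2 = q.2} := by
    refine Nat.card_congr (Equiv.subtypeEquiv (Equiv.prodComm _ _) ?_)
    rintro ⟨x, h⟩
    change (τ (η' h) * a (σ h) * a w) x = x ↔ a (η h * σ h * w) x = x
    rw [hη'K, map_mul, map_mul]
  have CS' : Nat.card {q : V × (⨆ v : A, ((P : Subgroup Γ) ⊓ T v) : Subgroup Γ) //
      (τ (η' q.2) * a (σ q.2) * a w) q.1 = q.1} ^ 2 * Nat.card (∀ v : A, T v) ≤
      Nat.card {q : V × (⨆ v : A, ((P : Subgroup Γ) ⊓ T v) : Subgroup Γ) × (∀ v : A, T v) //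
        τ (q.2.2⁻¹ * η' q.2.1 * α q.2.2 * (η' q.2.1)⁻¹) q.1 = q.1} *
        (Nat.card V * Nat.card (⨆ v : A, ((P : Subgroup Γ) ⊓ T v) : Subgroup Γ)) := CS
  rw [hL] at CS'
  -- counting for fixed ξ
  set θ : ℝ := 1 - 1 / (4 * (p : ℝ)) with hθ
  have hθ0 : 0 < θ := by
    rw [hθ]
    have : 1 / (4 * (p : ℝ)) ≤ 1 / 4 := by
      apply one_div_le_one_div_of_le (by norm_num); linarith
    linarith
  have hθ1 : θ ≤ 1 := by
    rw [hθ]
    have : 0 ≤ 1 / (4 * (p : ℝ)) := by positivity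
    linarith
  let b : V → ℕ := fun ξ => Nat.card {v : A // FixedBy a (T v) ξ}
  have hξ : ∀ ξ : V, (Nat.card {hc : (⨆ v : A, ((P : Subgroup Γ) ⊓ T v) : Subgroup Γ) ×
      (∀ v : A, T v) // τ (hc.2⁻¹ * η' hc.1 * α hc.2 * (η' hc.1)⁻¹) ξ = ξ} : ℝ) ≤
      θ ^ (A.card - b ξ) * (Nat.card (⨆ v : A, ((P : Subgroup Γ) ⊓ T v) : Subgroup Γ) *
        Nat.card (∀ v : A, T v)) := by
    intro ξ
    let S : Subgroup (∀ v : A, T v) := (MulAction.stabilizer (Equiv.Perm V) ξ).comap τ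
    have hS : ∀ t, t ∈ S ↔ τ t ξ = ξ := fun t => Iff.rfl
    let Bs : Finset A := Finset.univ.filter (fun v : A => FixedBy a (T v) ξ)
    have hBs : Bs.card = b ξ := by
      change (Finset.univ.filter (fun v : A => FixedBy a (T v) ξ)).card =
        Nat.card {v : A // FixedBy a (T v) ξ}
      rw [Nat.card_eq_fintype_card, Fintype.card_subtype]
    have hBm : ∀ i : A, i ∈ Bs ↔ ∀ t : T i, Pi.mulSingle i t ∈ S := by
      intro i
      change i ∈ Finset.univ.filter (fun v : A => FixedBy a (T v) ξ) ↔ _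
      rw [Finset.mem_filter]
      constructor
      · rintro ⟨-, h⟩ t
        rw [hS]
        exact h (EK (Pi.mulSingle i t)) (by rw [hEKc, hEsingle]; exact t.2)
      · intro h
        refine ⟨Finset.mem_univ _, ?_⟩
        intro k hk
        have := (hS _).1 (h ⟨k, hk⟩)
        have h2 : EK (Pi.mulSingle i ⟨(k : Γ), hk⟩) = k := by
          apply Subtype.ext
          rw [hEKc, hEsingle]
        change a (EK _) ξ = ξ at this
        rwa [h2] at this
    have hcT : ∀ i j : A, Nat.card (T i) = Nat.card (T j) := by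
      intro i j
      have := hB.trans
      obtain ⟨g, hg⟩ := MulAction.exists_smul_eq Γ i.1 j.1
      have h1 := hB.map_conj g i.1
      rw [hg] at h1
      rw [← h1]
      exact Nat.card_congr ((T i).equivMapOfInjective _ (MulAut.conj g).injective).toEquiv
    have hna : ∀ i : A, ∃ x y : T i, ¬ Commute x y := by
      intro i
      obtain ⟨x, hx, y, hy, hxy⟩ := hB.nonab i.1
      exact ⟨⟨x, hx⟩, ⟨y, hy⟩, fun h => hxy (congrArg Subtype.val h.eq)⟩
    have hκ : ∀ (i : A) (H : Subgroup (T i)), H ≠ ⊤ → ∀ k : T i,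
        (Nat.card {x : ((P : Subgroup Γ) ⊓ T i : Subgroup Γ) × T i //
          k⁻¹ * (x.2⁻¹ * ⟨(x.1 : Γ), x.1.2.2⟩ * hB.C9b_conj w i.1 (hw i.1 i.2) x.2 *
            (⟨(x.1 : Γ), x.1.2.2⟩ : T i)⁻¹) ∈ H} : ℝ) ≤
        θ ^ 2 * Nat.card (((P : Subgroup Γ) ⊓ T i : Subgroup Γ) × T i) := by
      intro i H hH k
      rw [hθ]
      exact hB.C9b_kappa P i.1 (hB.C9b_conj w i.1 (hw i.1 i.2)) H hH k
    let κ : ∀ i : A, (((P : Subgroup Γ) ⊓ T i : Subgroup Γ) × T i) → T i :=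
      fun i x => x.2⁻¹ * ⟨(x.1 : Γ), x.1.2.2⟩ * hB.C9b_conj w i.1 (hw i.1 i.2) x.2 *
        (⟨(x.1 : Γ), x.1.2.2⟩ : T i)⁻¹
    have C4 : (Nat.card {x : ∀ v : A, ((P : Subgroup Γ) ⊓ T v : Subgroup Γ) × T v //
        (fun i => κ i (x i)) ∈ S} : ℝ) ≤ θ ^ (Fintype.card A - Bs.card) *
          Nat.card (∀ v : A, ((P : Subgroup Γ) ⊓ T v : Subgroup Γ) × T v) := by
      refine card_prod_mem_le (ι := A)
        (X := fun v : A => ((P : Subgroup Γ) ⊓ T v : Subgroup Γ) × T v) (T := fun v : A => T v)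
        (fun i => hB.simple i.1) hna hcT κ θ hθ0.le hθ1 ?_ S Bs hBm
      intro i H hH k
      exact hκ i H hH k
    rw [Fintype.card_coe, hBs] at C4
    let Φ : (∀ v : A, ((P : Subgroup Γ) ⊓ T v : Subgroup Γ) × T v) ≃
        (⨆ v : A, ((P : Subgroup Γ) ⊓ T v) : Subgroup Γ) × (∀ v : A, T v) :=
      { toFun := fun x => (e (fun i => (x i).1), fun i => (x i).2)
        invFun := fun y i => (e.symm y.1 i, y.2 i)
        left_inv := fun x => by funext i; simp
        right_inv := fun y => by simp }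
    have hc1 : Nat.card {x : ∀ v : A, ((P : Subgroup Γ) ⊓ T v : Subgroup Γ) × T v //
        (fun i => κ i (x i)) ∈ S} =
        Nat.card {hc : (⨆ v : A, ((P : Subgroup Γ) ⊓ T v) : Subgroup Γ) ×
          (∀ v : A, T v) // τ (hc.2⁻¹ * η' hc.1 * α hc.2 * (η' hc.1)⁻¹) ξ = ξ} := by
      refine Nat.card_congr (Equiv.subtypeEquiv Φ ?_)
      intro x
      rw [hS]
      have : (fun i => κ i (x i)) =
          (Φ x).2⁻¹ * η' (Φ x).1 * α (Φ x).2 * (η' (Φ x).1)⁻¹ := by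
        funext i
        have h1 : η' (Φ x).1 i = ⟨((x i).1 : Γ), (x i).1.2.2⟩ := by
          apply Subtype.ext
          change ((e.symm (e (fun i => (x i).1)) i : _) : Γ) = _
          rw [e.symm_apply_apply]
        rw [Pi.mul_apply, Pi.mul_apply, Pi.mul_apply, Pi.inv_apply, Pi.inv_apply, h1, hα]
        rfl
      rw [this]
    have hc2 : Nat.card (∀ v : A, ((P : Subgroup Γ) ⊓ T v : Subgroup Γ) × T v) =
        Nat.card (⨆ v : A, ((P : Subgroup Γ) ⊓ T v) : Subgroup Γ) *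
          Nat.card (∀ v : A, T v) := by
      rw [Nat.card_congr Φ, Nat.card_prod]
    rw [hc2] at C4
    rw [hc1] at C4
    push_cast at C4
    exact C4
  -- sum over ξ
  have hfinV : Fintype V := Fintype.ofFinite V
  have hsum : (Nat.card {q : V × (⨆ v : A, ((P : Subgroup Γ) ⊓ T v) : Subgroup Γ) ×
      (∀ v : A, T v) // τ (q.2.2⁻¹ * η' q.2.1 * α q.2.2 * (η' q.2.1)⁻¹) q.1 = q.1} : ℝ) =
      ∑ ξ : V, (Nat.card {hc : (⨆ v : A, ((P : Subgroup Γ) ⊓ T v) : Subgroup Γ) ×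
      (∀ v : A, T v) // τ (hc.2⁻¹ * η' hc.1 * α hc.2 * (η' hc.1)⁻¹) ξ = ξ} : ℝ) := by
    have h1 : Nat.card {q : V × (⨆ v : A, ((P : Subgroup Γ) ⊓ T v) : Subgroup Γ) ×
      (∀ v : A, T v) // τ (q.2.2⁻¹ * η' q.2.1 * α q.2.2 * (η' q.2.1)⁻¹) q.1 = q.1} =
      Nat.card (Σ ξ : V, {hc : (⨆ v : A, ((P : Subgroup Γ) ⊓ T v) : Subgroup Γ) ×
      (∀ v : A, T v) // τ (hc.2⁻¹ * η' hc.1 * α hc.2 * (η' hc.1)⁻¹) ξ = ξ}) := by
      refine Nat.card_congr
        { toFun := fun q => ⟨q.1.1, ⟨q.1.2, q.2⟩⟩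
          invFun := fun s => ⟨(s.1, s.2.1), s.2.2⟩
          left_inv := fun q => rfl
          right_inv := fun s => rfl }
    rw [h1, Nat.card_sigma]
    push_cast
    rfl
  have hpow := sum_pow_le (fun v ξ => FixedBy a (T v) ξ) A θ hθ0 hθ1
    (fun B hBA => hB.star B (fun v hv => hA v (hBA hv))) b (fun ξ => rfl)
  rw [finsum_eq_sum_of_fintype] at hpow
  set II : ℝ := (Nat.card (⨆ v : A, ((P : Subgroup Γ) ⊓ T v) : Subgroup Γ) : ℝ) with hII
  set TT : ℝ := (Nat.card (∀ v : A, T v) : ℝ) with hTT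
  set VV : ℝ := (Nat.card V : ℝ) with hVV
  have hTpos : 0 < TT := by
    have : 0 < Nat.card (∀ v : A, T v) := Nat.card_pos
    rw [hTT]; exact_mod_cast this
  have hIpos : 0 ≤ II := by rw [hII]; positivity
  have hVpos : 0 ≤ VV := by rw [hVV]; positivity
  have hN2 : (Nat.card {q : V × (⨆ v : A, ((P : Subgroup Γ) ⊓ T v) : Subgroup Γ) ×
      (∀ v : A, T v) // τ (q.2.2⁻¹ * η' q.2.1 * α q.2.2 * (η' q.2.1)⁻¹) q.1 = q.1} : ℝ) ≤
      ((3 + θ) / 4) ^ A.card * VV * (II * TT) := by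
    rw [hsum]
    calc _ ≤ ∑ ξ : V, θ ^ (A.card - b ξ) * (II * TT) := Finset.sum_le_sum (fun ξ _ => hξ ξ)
      _ = (∑ ξ : V, θ ^ (A.card - b ξ)) * (II * TT) := by rw [Finset.sum_mul]
      _ ≤ ((3 + θ) / 4) ^ A.card * VV * (II * TT) :=
        mul_le_mul_of_nonneg_right hpow (by positivity)
  have hρ : (3 + θ) / 4 = 1 - 1 / (16 * (p : ℝ)) := by
    rw [hθ]; field_simp; ring
  rw [hρ] at hN2
  have CSr := (Nat.cast_le (α := ℝ)).2 CS'
  push_cast at CSr
  rw [← hTT, ← hII, ← hVV] at CSr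
  have h5 := CSr.trans (mul_le_mul_of_nonneg_right hN2 (by positivity : (0:ℝ) ≤ VV * II))
  have h6 : (1 - 1 / (16 * (p : ℝ))) ^ A.card * VV * (II * TT) * (VV * II) =
      ((1 - 1 / (16 * (p : ℝ))) ^ A.card * (II * VV) ^ 2) * TT := by ring
  rw [h6] at h5
  exact le_of_mul_le_mul_right h5 hTpos

end

end LibKS
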