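import Pool.Agent.LibKS.C9a
import Pool.Agent.LibKS.C9b

set_option autoImplicit false

namespace LibKS

theorem C9_q_pos {p : ℕ} (hp : p.Prime) : 0 < 1 - 1 / (16 * (p : ℝ)) := by
  have h2 : (2 : ℝ) ≤ p := by exact_mod_cast hp.two_le
  have h1 : 1 / (16 * (p : ℝ)) ≤ 1 / 32 := by
    apply one_div_le_one_div_of_le <;> linarith
  linarith

theorem C9_q_lt {p : ℕ} (hp : p.Prime) : 1 - 1 / (16 * (p : ℝ)) < 1 := by
  have h2 : (0 : ℝ) < p := by exact_mod_cast hp.pos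
  have h1 : 0 < 1 / (16 * (p : ℝ)) := by positivity
  linarith

theorem C9_q_ge {p : ℕ} (hp : p.Prime) : (31 : ℝ) / 32 ≤ 1 - 1 / (16 * (p : ℝ)) := by
  have h2 : (2 : ℝ) ≤ p := by exact_mod_cast hp.two_le
  have h1 : 1 / (16 * (p : ℝ)) ≤ 1 / 32 := by
    apply one_div_le_one_div_of_le <;> linarith
  linarith

theorem cp_pos {p : ℕ} (hp : p.Prime) : 0 < cp p :=
  Real.rpow_pos_of_pos (C9_q_pos hp) _

theorem cp_lt_one {p : ℕ} (hp : p.Prime) : cp p < 1 :=
  Real.rpow_lt_one (C9_q_pos hp).le (C9_q_lt hp) (by norm_num)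

theorem C9_cp_pow {p : ℕ} (hp : p.Prime) : cp p ^ 24 = 1 - 1 / (16 * (p : ℝ)) := by
  unfold cp
  rw [← Real.rpow_natCast, ← Real.rpow_mul (C9_q_pos hp).le]
  norm_num

theorem C9_mov {p : ℕ} (hp : p.Prime) {n m : ℕ} (hnm : n ≤ 6 * m) {x y : ℝ}
    (hy : 0 ≤ y) (h : x ^ 4 ≤ (31 / 32) ^ m * y ^ 4) : x ≤ cp p ^ n * y := by
  have hc0 := cp_pos hp
  have hc1 := cp_lt_one hp
  have h1 : ((31 : ℝ) / 32) ^ m ≤ (cp p ^ n) ^ 4 := by
    calc ((31 : ℝ) / 32) ^ m ≤ (1 - 1 / (16 * (p : ℝ))) ^ m :=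
          pow_le_pow_left₀ (by norm_num) (C9_q_ge hp) m
      _ = cp p ^ (24 * m) := by rw [← C9_cp_pow hp, pow_mul]
      _ ≤ cp p ^ (n * 4) := pow_le_pow_of_le_one hc0.le hc1.le (by omega)
      _ = (cp p ^ n) ^ 4 := by rw [pow_mul]
  refine le_of_pow_le_pow_left₀ (n := 4) (by norm_num) (by positivity) ?_
  rw [mul_pow]
  exact h.trans (by gcongr)

theorem C9_fix {p : ℕ} (hp : p.Prime) {n m : ℕ} (hnm : n ≤ 2 * m) {x y : ℝ}
    (hy : 0 ≤ y) (h : x ^ 2 ≤ (1 - 1 / (16 * (p : ℝ))) ^ m * y ^ 2) : x ≤ cp p ^ n * y := by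
  have hc0 := cp_pos hp
  have hc1 := cp_lt_one hp
  have h1 : (1 - 1 / (16 * (p : ℝ))) ^ m ≤ (cp p ^ n) ^ 2 := by
    calc (1 - 1 / (16 * (p : ℝ))) ^ m = cp p ^ (24 * m) := by rw [← C9_cp_pow hp, pow_mul]
      _ ≤ cp p ^ (n * 2) := pow_le_pow_of_le_one hc0.le hc1.le (by omega)
      _ = (cp p ^ n) ^ 2 := by rw [pow_mul]
  refine le_of_pow_le_pow_left₀ (n := 2) (by norm_num) (by positivity) ?_
  rw [mul_pow]
  exact h.trans (by gcongr)

theorem C9_card_prod {X V : Type} [Fintype X] [Finite V] (R : X → V → Prop) :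
    (Nat.card {q : X × V // R q.1 q.2} : ℝ) = ∑ x, (Nat.card {ξ : V // R x ξ} : ℝ) := by
  rw [Nat.card_congr (Equiv.subtypeProdEquivSigmaSubtype R), Nat.card_sigma]
  push_cast
  rfl

theorem C9_sum_fiber {G H : Type} [Group G] [Group H] [Fintype G] [Fintype H] (φ : G →* H)
    (hφ : Function.Surjective φ) :
    ∃ c : ℝ, 0 < c ∧ ∀ g : H → ℝ, ∑ z, g (φ z) = c * ∑ h, g h := by
  classical
  refine ⟨((Finset.univ.filter fun z => φ z = 1).card : ℝ), ?_, fun g => ?_⟩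
  · have : (Finset.univ.filter fun z => φ z = 1).Nonempty :=
      ⟨1, Finset.mem_filter.2 ⟨Finset.mem_univ _, map_one φ⟩⟩
    exact_mod_cast this.card_pos
  · rw [← Finset.sum_fiberwise_of_maps_to (s := Finset.univ) (t := Finset.univ) (g := φ)
      (fun _ _ => Finset.mem_univ _), Finset.mul_sum]
    refine Finset.sum_congr rfl fun h _ => ?_
    rw [Finset.sum_congr rfl (g := fun _ => g h) (fun z hz => by
      rw [(Finset.mem_filter.1 hz).2]), Finset.sum_const, nsmul_eq_mul]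
    congr 2
    exact MonoidHom.card_fiber_eq_of_mem_range φ (hφ h) (hφ 1)

section

variable {p : ℕ} {Γ : Type} [Group Γ] {K₁ : Subgroup Γ} {Ω V : Type} [MulAction Γ Ω]
  {a : K₁ →* Equiv.Perm V} {T : Ω → Subgroup Γ}

theorem C9_smul (hB : Based p K₁ a T) (A : Finset Ω) (P : Subgroup Γ) {h : Γ}
    (hh : h ∈ (⨆ v : A, (P ⊓ T v) : Subgroup Γ)) (v : Ω) : h • v = v := by
  have h1 : (⨆ v : A, (P ⊓ T v) : Subgroup Γ) ≤ MulAction.stabilizer Γ v := by
    refine iSup_le fun u t ht => ?_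
    exact hB.smul_eq u v t ht.2
  exact h1 hh

theorem C9_commute (hB : Based p K₁ a T) (A : Finset Ω) (P : Subgroup Γ) {y : Γ}
    (hy : y ∈ (⨆ v : A, (P ⊓ T v) : Subgroup Γ)) {v : Ω} (hv : v ∉ A) {t : Γ} (ht : t ∈ T v) :
    Commute y t := by
  have h1 : (⨆ v : A, (P ⊓ T v) : Subgroup Γ) ≤ Subgroup.centralizer {t} := by
    refine iSup_le fun u s hs => ?_
    rw [Subgroup.mem_centralizer_singleton_iff]
    have hne : (u : Ω) ≠ v := fun h => hv (h ▸ u.2)
    exact hB.comm u v hne s hs.2 t ht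
  have h2 := h1 hy
  rw [Subgroup.mem_centralizer_singleton_iff] at h2
  exact h2

omit [MulAction Γ Ω] in
theorem C9_mono (A B : Finset Ω) (hAB : A ⊆ B) (P : Subgroup Γ) :
    (⨆ v : A, (P ⊓ T v) : Subgroup Γ) ≤ (⨆ v : B, (P ⊓ T v) : Subgroup Γ) :=
  iSup_le fun u => le_iSup (fun v : B => P ⊓ T v) ⟨u, hAB u.2⟩

/-- The local lemma: average of the proportion of fixed points over the product of the Sylow
subgroups of the groups `T v`, `v ∈ A`. -/
theorem Based.local_bound [Fact p.Prime] [Finite Γ] [Finite V] (hB : Based p K₁ a T)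
    (A : Finset Ω) (hA : ∀ v ∈ A, ActsNontriv a (T v)) (P : Sylow p Γ) (w : K₁)
    (σ : (⨆ v : A, ((P : Subgroup Γ) ⊓ T v) : Subgroup Γ) → K₁)
    (hσ : ∀ h, ∀ v ∈ A, ∀ t ∈ T v, Commute (σ h : Γ) t)
    (hσ' : ∀ h, ∀ v : Ω, (σ h : Γ) • v = v)
    (η : (⨆ v : A, ((P : Subgroup Γ) ⊓ T v) : Subgroup Γ) → K₁)
    (hη : ∀ h, (η h : Γ) = h) :
    (Nat.card {q : (⨆ v : A, ((P : Subgroup Γ) ⊓ T v) : Subgroup Γ) × V //
        a (η q.1 * σ q.1 * w) q.2 = q.2} : ℝ) ≤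
      cp p ^ A.card *
        (Nat.card (⨆ v : A, ((P : Subgroup Γ) ⊓ T v) : Subgroup Γ) * (Nat.card V : ℝ)) := by
  classical
  have hp : p.Prime := Fact.out
  have hfin : Fintype (⨆ v : A, ((P : Subgroup Γ) ⊓ T v) : Subgroup Γ) := Fintype.ofFinite _
  rw [C9_card_prod (fun h ξ => a (η h * σ h * w) ξ = ξ)]
  have hsplit : (A.filter fun v => (w : Γ) • v = v).card +
      (A.filter fun v => ¬ (w : Γ) • v = v).card = A.card :=
    Finset.card_filter_add_card_filter_not _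
  by_cases hcase : A.card ≤ 2 * (A.filter fun v => ¬ (w : Γ) • v = v).card
  · obtain ⟨A', hA', hcard, hdis⟩ := exists_third_disjoint (MulAction.toPerm (w : Γ))
      (A.filter fun v => ¬ (w : Γ) • v = v) (fun v hv => (Finset.mem_filter.1 hv).2)
    have hA'A : A' ⊆ A := hA'.trans (Finset.filter_subset _ _)
    have key : ∀ h : (⨆ v : A, ((P : Subgroup Γ) ⊓ T v) : Subgroup Γ),
        (Nat.card {ξ : V // a (η h * σ h * w) ξ = ξ} : ℝ) ≤ cp p ^ A.card * Nat.card V := by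
      intro h
      refine C9_mov hp (m := A'.card) (by omega) (by positivity)
        (hB.mov_bound A' (fun v hv => hA v (hA'A hv)) (η h * σ h * w) ?_)
      intro v hv
      have h1 : ((η h * σ h * w : K₁) : Γ) • v = (w : Γ) • v := by
        rw [Subgroup.coe_mul, Subgroup.coe_mul, mul_smul, mul_smul, hσ', hη]
        exact C9_smul hB A P h.2 _
      rw [h1]
      exact hdis v hv
    calc ∑ h, (Nat.card {ξ : V // a (η h * σ h * w) ξ = ξ} : ℝ)
        ≤ ∑ _h : (⨆ v : A, ((P : Subgroup Γ) ⊓ T v) : Subgroup Γ),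
            cp p ^ A.card * (Nat.card V : ℝ) := Finset.sum_le_sum fun h _ => key h
      _ = _ := by
          rw [Finset.sum_const, Finset.card_univ, nsmul_eq_mul, ← Nat.card_eq_fintype_card]
          ring
  · have hn : A.card ≤ 2 * (A.filter fun v => (w : Γ) • v = v).card := by omega
    generalize hA1 : (A.filter fun v => (w : Γ) • v = v) = A1 at *
    generalize hA2 : (A.filter fun v => ¬ (w : Γ) • v = v) = A2 at *
    have hmem1 : ∀ v, v ∈ A1 ↔ v ∈ A ∧ (w : Γ) • v = v := by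
      intro v
      rw [← hA1, Finset.mem_filter]
    have hmem2 : ∀ v, v ∈ A2 ↔ v ∈ A ∧ ¬ (w : Γ) • v = v := by
      intro v
      rw [← hA2, Finset.mem_filter]
    have hsub1 : A1 ⊆ A := fun v hv => ((hmem1 v).1 hv).1
    have hsub2 : A2 ⊆ A := fun v hv => ((hmem2 v).1 hv).1
    have hH1 := C9_mono (T := T) A1 A hsub1 (P : Subgroup Γ)
    have hH2 := C9_mono (T := T) A2 A hsub2 (P : Subgroup Γ)
    have hcy : ∀ y : (⨆ v : A2, ((P : Subgroup Γ) ⊓ T v) : Subgroup Γ), ∀ v ∈ A1, ∀ t ∈ T v,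
        Commute (y : Γ) t := by
      intro y v hv t ht
      exact C9_commute hB A2 P y.2 (fun h => ((hmem2 v).1 h).2 ((hmem1 v).1 hv).2) ht
    have hcomm : ∀ (x : (⨆ v : A1, ((P : Subgroup Γ) ⊓ T v) : Subgroup Γ))
        (y : (⨆ v : A2, ((P : Subgroup Γ) ⊓ T v) : Subgroup Γ)), Commute (x : Γ) (y : Γ) := by
      intro x y
      have h1 : (⨆ v : A1, ((P : Subgroup Γ) ⊓ T v) : Subgroup Γ) ≤
          Subgroup.centralizer {(y : Γ)} := by
        refine iSup_le fun u s hs => ?_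
        rw [Subgroup.mem_centralizer_singleton_iff]
        exact (hcy y u u.2 s hs.2).symm
      have h2 := h1 x.2
      rw [Subgroup.mem_centralizer_singleton_iff] at h2
      exact h2
    let φ : (⨆ v : A1, ((P : Subgroup Γ) ⊓ T v) : Subgroup Γ) ×
        (⨆ v : A2, ((P : Subgroup Γ) ⊓ T v) : Subgroup Γ) →*
        (⨆ v : A, ((P : Subgroup Γ) ⊓ T v) : Subgroup Γ) :=
      (Subgroup.inclusion hH1).noncommCoprod (Subgroup.inclusion hH2)
        (fun x y => Subtype.ext (hcomm x y))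
    have hφ : ∀ x y, ((φ (x, y) : (⨆ v : A, ((P : Subgroup Γ) ⊓ T v) : Subgroup Γ)) : Γ) =
        (x : Γ) * (y : Γ) := fun _ _ => rfl
    have hφs : Function.Surjective φ := by
      have h1 : (⨆ v : A, ((P : Subgroup Γ) ⊓ T v) : Subgroup Γ) ≤
          (⨆ v : A1, ((P : Subgroup Γ) ⊓ T v)) ⊔ (⨆ v : A2, ((P : Subgroup Γ) ⊓ T v)) := by
        refine iSup_le fun u => ?_
        by_cases hu : (w : Γ) • (u : Ω) = u
        · exact le_sup_of_le_left
            (le_iSup (fun v : A1 => (P : Subgroup Γ) ⊓ T v) ⟨u, (hmem1 u).2 ⟨u.2, hu⟩⟩)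
        · exact le_sup_of_le_right
            (le_iSup (fun v : A2 => (P : Subgroup Γ) ⊓ T v) ⟨u, (hmem2 u).2 ⟨u.2, hu⟩⟩)
      intro h
      have h2 := h1 h.2
      have h3 := MonoidHom.noncommCoprod_range
        (⨆ v : A1, ((P : Subgroup Γ) ⊓ T v) : Subgroup Γ).subtype
        (⨆ v : A2, ((P : Subgroup Γ) ⊓ T v) : Subgroup Γ).subtype hcomm
      rw [Subgroup.range_subtype, Subgroup.range_subtype] at h3
      rw [← h3] at h2
      obtain ⟨⟨x, y⟩, hxy⟩ := h2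
      exact ⟨(x, y), Subtype.ext hxy⟩
    have hf1 : Fintype (⨆ v : A1, ((P : Subgroup Γ) ⊓ T v) : Subgroup Γ) := Fintype.ofFinite _
    have hf2 : Fintype (⨆ v : A2, ((P : Subgroup Γ) ⊓ T v) : Subgroup Γ) := Fintype.ofFinite _
    obtain ⟨c, hcpos, hcf⟩ := C9_sum_fiber φ hφs
    have hc := hcf (fun h => (Nat.card {ξ : V // a (η h * σ h * w) ξ = ξ} : ℝ))
    have hc1 := hcf (fun _ => (1 : ℝ))
    simp only [Finset.sum_const, Finset.card_univ, nsmul_eq_mul, mul_one] at hc1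
    rw [Fintype.card_prod] at hc1
    have key : ∀ y : (⨆ v : A2, ((P : Subgroup Γ) ⊓ T v) : Subgroup Γ),
        ∑ x : (⨆ v : A1, ((P : Subgroup Γ) ⊓ T v) : Subgroup Γ),
          (Nat.card {ξ : V // a (η (φ (x, y)) * σ (φ (x, y)) * w) ξ = ξ} : ℝ) ≤
        cp p ^ A.card * (Nat.card (⨆ v : A1, ((P : Subgroup Γ) ⊓ T v) : Subgroup Γ) *
          (Nat.card V : ℝ)) := by
      intro y
      have h1 := hB.fix_bound A1 (fun v hv => hA v (hsub1 hv)) P w
        (fun v hv => ((hmem1 v).1 hv).2)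
        (fun x => η (Subgroup.inclusion hH2 y) * σ (φ (x, y)))
        (fun x v hv t ht => by
          rw [Subgroup.coe_mul, hη]
          exact (hcy y v hv t ht).mul_left (hσ _ v (hsub1 hv) t ht))
        (fun x => η (Subgroup.inclusion hH1 x)) (fun x => hη _)
      have h2 := C9_fix hp (n := A.card) hn (by positivity) h1
      refine le_trans (le_of_eq ?_) h2
      rw [C9_card_prod (fun (x : (⨆ v : A1, ((P : Subgroup Γ) ⊓ T v) : Subgroup Γ)) ξ =>
        a (η (Subgroup.inclusion hH1 x) * (η (Subgroup.inclusion hH2 y) * σ (φ (x, y))) * w) ξ = ξ)]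
      refine Finset.sum_congr rfl fun x _ => ?_
      have h3 : η (φ (x, y)) =
          η (Subgroup.inclusion hH1 x) * η (Subgroup.inclusion hH2 y) := by
        apply Subtype.ext
        rw [Subgroup.coe_mul, hη, hη, hη]
        rfl
      rw [h3, mul_assoc (η (Subgroup.inclusion hH1 x))]
    refine le_of_mul_le_mul_left ?_ hcpos
    rw [← hc, Fintype.sum_prod_type_right]
    calc ∑ y : (⨆ v : A2, ((P : Subgroup Γ) ⊓ T v) : Subgroup Γ),
          ∑ x : (⨆ v : A1, ((P : Subgroup Γ) ⊓ T v) : Subgroup Γ),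
          (Nat.card {ξ : V // a (η (φ (x, y)) * σ (φ (x, y)) * w) ξ = ξ} : ℝ)
        ≤ ∑ _y : (⨆ v : A2, ((P : Subgroup Γ) ⊓ T v) : Subgroup Γ),
          cp p ^ A.card * (Nat.card (⨆ v : A1, ((P : Subgroup Γ) ⊓ T v) : Subgroup Γ) *
            (Nat.card V : ℝ)) := Finset.sum_le_sum fun y _ => key y
      _ = _ := by
          rw [Finset.sum_const, Finset.card_univ, nsmul_eq_mul]
          push_cast at hc1
          simp only [← Nat.card_eq_fintype_card] at hc1 ⊢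
          linear_combination (cp p ^ A.card * (Nat.card V : ℝ)) * hc1

end

end LibKS
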