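import Pool.Agent.LibKS.Defs
import Pool.Agent.LibKS.C0
import Pool.Agent.LibKS.C1b
import Pool.Agent.LibKS.C4
import Pool.Agent.LibKS.C5
import Pool.Agent.LibKS.C5b

set_option autoImplicit false

namespace LibKS

section

variable {p : ℕ} {Γ : Type} [Group Γ] {K₁ : Subgroup Γ} {Ω V : Type} [MulAction Γ Ω]
  {a : K₁ →* Equiv.Perm V} {T : Ω → Subgroup Γ}

private theorem C9a_commute_iSup {ι κ : Type} (T : ι → Subgroup Γ) (S : κ → Subgroup Γ)
    (h : ∀ i j, ∀ x ∈ T i, ∀ y ∈ S j, Commute x y) :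
    ∀ x ∈ (⨆ i, T i), ∀ y ∈ (⨆ j, S j), Commute x y := by
  have h1 : (⨆ i, T i) ≤ Subgroup.centralizer ((⨆ j, S j : Subgroup Γ) : Set Γ) := by
    refine iSup_le fun i => ?_
    rw [Subgroup.le_centralizer_iff]
    refine iSup_le fun j y hy => ?_
    rw [Subgroup.mem_centralizer_iff]
    intro x hx
    exact (h i j x hx y hy).eq
  intro x hx y hy
  have h2 := h1 hx
  rw [Subgroup.mem_centralizer_iff] at h2
  exact (h2 y hy).symm

private theorem C9a_center {T : Subgroup Γ} (hs : IsSimpleGroup T)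
    (hn : ∃ x ∈ T, ∃ y ∈ T, ¬ Commute x y) (x : Γ) (hx : x ∈ T)
    (h : ∀ y ∈ T, Commute x y) : x = 1 := by
  have hc : (⟨x, hx⟩ : T) ∈ Subgroup.center T := by
    rw [Subgroup.mem_center_iff]
    intro g
    apply Subtype.ext
    exact (h g g.2).symm.eq
  rcases hs.eq_bot_or_eq_top_of_normal (Subgroup.center T) inferInstance with hb | ht
  · rw [hb, Subgroup.mem_bot] at hc
    exact congrArg Subtype.val hc
  · exfalso
    obtain ⟨u, hu, v, hv, huv⟩ := hn
    apply huv
    have : (⟨u, hu⟩ : T) ∈ Subgroup.center T := by rw [ht]; trivial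
    rw [Subgroup.mem_center_iff] at this
    exact (congrArg Subtype.val (this ⟨v, hv⟩)).symm

private theorem C9a_card_eq [Fact p.Prime] (hB : Based p K₁ a T) (v w : Ω) :
    Nat.card (T v) = Nat.card (T w) := by
  haveI := hB.trans
  obtain ⟨γ, rfl⟩ := MulAction.exists_smul_eq Γ v w
  rw [← hB.map_conj γ v]
  exact Nat.card_congr
    ((T v).equivMapOfInjective (MulAut.conj γ).toMonoidHom (MulAut.conj γ).injective).toEquiv

/-- Bound for an element moving the points of `A` out of `A`. -/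
theorem Based.mov_bound [Fact p.Prime] [Finite Γ] [Finite V] (hB : Based p K₁ a T)
    (A : Finset Ω) (hA : ∀ v ∈ A, ActsNontriv a (T v)) (U : K₁)
    (hU : ∀ v ∈ A, (U : Γ) • v ∉ A) :
    (Nat.card {ξ : V // a U ξ = ξ} : ℝ) ^ 4 ≤ (31 / 32) ^ A.card * (Nat.card V : ℝ) ^ 4 := by
  classical
  have hcomm : ∀ i j : A, i ≠ j → ∀ x ∈ T i, ∀ y ∈ T j, Commute x y :=
    fun i j hij => hB.comm i j (fun h => hij (Subtype.ext h))
  obtain ⟨e, he⟩ := exists_prod_equiv (fun v : A => T v) hcomm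
    (fun i x hx h => C9a_center (hB.simple i) (hB.nonab i) x hx h)
  have hle : (⨆ v : A, T v) ≤ K₁ := iSup_le fun v => (hB.le v).trans (Subgroup.normalCore_le _)
  let E : (∀ v : A, T v) →* K₁ := (Subgroup.inclusion hle).comp e.toMonoidHom
  have hE1 : ∀ v (t : T v.1), ((E (Pi.mulSingle v t) : K₁) : Γ) = t := fun v t => he v t
  have hE2 : ∀ f, ((E f : K₁) : Γ) ∈ (⨆ v : A, T v) := fun f => (e f).2
  let τ : (∀ v : A, T v) →* Equiv.Perm V := a.comp E
  have hτU : ∀ s t, Commute (τ s) (a U * τ t * (a U)⁻¹) := by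
    intro s t
    have h1 : a U * τ t * (a U)⁻¹ = a (U * E t * U⁻¹) := by simp [τ]
    rw [h1]
    have h2 : Commute (E s) (U * E t * U⁻¹) := by
      have h3 : (((U * E t * U⁻¹ : K₁)) : Γ) ∈ ⨆ v : A, T ((U : Γ) • v.1) := by
        have h4 : (⨆ v : A, T v).map (MulAut.conj (U : Γ)).toMonoidHom ≤
            ⨆ v : A, T ((U : Γ) • v.1) := by
          rw [Subgroup.map_iSup]
          refine iSup_le fun v => ?_
          rw [hB.map_conj]
          exact le_iSup (fun v : A => T ((U : Γ) • v.1)) v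
        exact h4 ⟨_, hE2 t, by simp [MulAut.conj_apply]⟩
      have h5 := C9a_commute_iSup (fun v : A => T v) (fun v : A => T ((U : Γ) • v.1))
        (fun i j x hx y hy => hB.comm i ((U : Γ) • j.1)
          (fun h => hU j j.2 (h ▸ i.2)) x hx y hy) _ (hE2 s) _ h3
      exact Subtype.ext h5.eq
    exact h2.map a
  have key := card_fix_pow_four_le τ (a U) hτU
  -- count for each point
  let b : V → ℕ := fun ξ => Nat.card {v : A // FixedBy a (T v) ξ}
  have hpt : ∀ ξ : V, (Nat.card {q : (∀ v : A, T v) × (∀ v : A, T v) //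
      τ (q.1 * q.2 * q.1⁻¹ * q.2⁻¹) ξ = ξ} : ℝ) ≤
      (7 / 8) ^ (A.card - b ξ) * (Nat.card (∀ v : A, T v) : ℝ) ^ 2 := by
    intro ξ
    let S : Subgroup (∀ v : A, T v) :=
      { carrier := {t | τ t ξ = ξ}
        one_mem' := by simp
        mul_mem' := by
          intro x y hx hy
          simp only [Set.mem_setOf_eq] at hx hy ⊢
          rw [map_mul, Equiv.Perm.mul_apply, hy, hx]
        inv_mem' := by
          intro x hx
          simp only [Set.mem_setOf_eq] at hx ⊢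
          rw [map_inv, Equiv.Perm.inv_eq_iff_eq]
          exact hx.symm }
    let B : Finset A := Finset.univ.filter fun v => FixedBy a (T v) ξ
    have hBm : ∀ i, i ∈ B ↔ ∀ t : T i.1, Pi.mulSingle i t ∈ S := by
      intro i
      rw [Finset.mem_filter]
      constructor
      · rintro ⟨-, h⟩ t
        refine h (E (Pi.mulSingle i t)) ?_
        rw [hE1]
        exact t.2
      · intro h
        refine ⟨Finset.mem_univ _, fun k hk => ?_⟩
        have h1 : τ (Pi.mulSingle i (⟨(k : Γ), hk⟩ : T i.1)) ξ = ξ := h _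
        have h2 : E (Pi.mulSingle i (⟨(k : Γ), hk⟩ : T i.1)) = k := Subtype.ext (hE1 i _)
        rw [← h2]
        exact h1
    have hc := card_prod_mem_le (ι := A) (X := fun v => T v.1 × T v.1) (T := fun v => T v.1)
      (fun i => hB.simple i)
      (fun i => by
        obtain ⟨x, hx, y, hy, hxy⟩ := hB.nonab i
        exact ⟨⟨x, hx⟩, ⟨y, hy⟩, fun h => hxy (congrArg Subtype.val h.eq)⟩)
      (fun i j => C9a_card_eq hB i j)
      (fun i x => x.1 * x.2 * x.1⁻¹ * x.2⁻¹) (7 / 8) (by norm_num) (by norm_num)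
      (fun i H hH k => by
        have h1 := card_commutator_coset_le (hB.simple i)
          (by
            obtain ⟨x, hx, y, hy, hxy⟩ := hB.nonab i
            exact ⟨⟨x, hx⟩, ⟨y, hy⟩, fun h => hxy (congrArg Subtype.val h.eq)⟩) H hH k
        have h2 : (4 : ℝ) * (Nat.card {sc : T i.1 × T i.1 //
            k⁻¹ * (sc.1 * sc.2 * sc.1⁻¹ * sc.2⁻¹) ∈ H} : ℝ) ≤ 3 * (Nat.card (T i.1) : ℝ) ^ 2 := by
          exact_mod_cast h1
        rw [Nat.card_prod, Nat.cast_mul]
        have h3 : (0 : ℝ) ≤ (Nat.card (T i.1) : ℝ) ^ 2 := by positivity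
        nlinarith)
      S B hBm
    have h3 : Nat.card {q : (∀ v : A, T v) × (∀ v : A, T v) //
        τ (q.1 * q.2 * q.1⁻¹ * q.2⁻¹) ξ = ξ} =
        Nat.card {x : ∀ v : A, T v.1 × T v.1 //
          (fun i => (x i).1 * (x i).2 * (x i).1⁻¹ * (x i).2⁻¹) ∈ S} := by
      refine Nat.card_congr (Equiv.subtypeEquiv
        { toFun := fun q v => (q.1 v, q.2 v)
          invFun := fun x => (fun v => (x v).1, fun v => (x v).2)
          left_inv := fun q => rfl
          right_inv := fun x => rfl } fun q => ?_)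
      exact Iff.rfl
    have h4 : Nat.card (∀ v : A, T v.1 × T v.1) = Nat.card (∀ v : A, T v) ^ 2 := by
      rw [pow_two, ← Nat.card_prod]
      refine Nat.card_congr
        { toFun := fun x => (fun v => (x v).1, fun v => (x v).2)
          invFun := fun q v => (q.1 v, q.2 v)
          left_inv := fun x => rfl
          right_inv := fun q => rfl }
    have h5 : B.card = b ξ := by
      simp only [b, B]
      rw [Nat.card_eq_fintype_card, Fintype.card_subtype]
    rw [h3]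
    rw [h4, h5, Fintype.card_coe] at hc
    push_cast at hc
    exact hc
  haveI := Fintype.ofFinite V
  have hsum : (Nat.card {q : V × (∀ v : A, T v) × (∀ v : A, T v) //
      τ (q.2.1 * q.2.2 * q.2.1⁻¹ * q.2.2⁻¹) q.1 = q.1} : ℝ) =
      ∑ ξ : V, (Nat.card {q : (∀ v : A, T v) × (∀ v : A, T v) //
        τ (q.1 * q.2 * q.1⁻¹ * q.2⁻¹) ξ = ξ} : ℝ) := by
    rw [← Nat.cast_sum, ← Nat.card_sigma]
    congr 1
    refine Nat.card_congr
      { toFun := fun q => ⟨q.1.1, ⟨q.1.2, q.2⟩⟩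
        invFun := fun q => ⟨(q.1, q.2.1), q.2.2⟩
        left_inv := fun q => rfl
        right_inv := fun q => rfl }
  have hS := sum_pow_le (fun v ξ => FixedBy a (T v) ξ) A (7 / 8) (by norm_num) (by norm_num)
    (fun B hBA => hB.star B fun v hv => hA v (hBA hv)) b (fun ξ => rfl)
  rw [finsum_eq_sum_of_fintype] at hS
  have hT : (0 : ℝ) < (Nat.card (∀ v : A, T v) : ℝ) ^ 2 := by
    have : 0 < Nat.card (∀ v : A, T v) := Nat.card_pos
    positivity
  have key' : (Nat.card {ξ : V // a U ξ = ξ} : ℝ) ^ 4 * (Nat.card (∀ v : A, T v) : ℝ) ^ 2 ≤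
      (Nat.card {q : V × (∀ v : A, T v) × (∀ v : A, T v) //
      τ (q.2.1 * q.2.2 * q.2.1⁻¹ * q.2.2⁻¹) q.1 = q.1} : ℝ) * (Nat.card V : ℝ) ^ 3 := by
    exact_mod_cast key
  have h6 : (Nat.card {q : V × (∀ v : A, T v) × (∀ v : A, T v) //
      τ (q.2.1 * q.2.2 * q.2.1⁻¹ * q.2.2⁻¹) q.1 = q.1} : ℝ) ≤
      (31 / 32) ^ A.card * (Nat.card V : ℝ) * (Nat.card (∀ v : A, T v) : ℝ) ^ 2 := by
    rw [hsum]
    calc _ ≤ ∑ ξ : V, (7 / 8) ^ (A.card - b ξ) * (Nat.card (∀ v : A, T v) : ℝ) ^ 2 :=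
          Finset.sum_le_sum fun ξ _ => hpt ξ
      _ = (∑ ξ : V, (7 / 8 : ℝ) ^ (A.card - b ξ)) * (Nat.card (∀ v : A, T v) : ℝ) ^ 2 := by
          rw [Finset.sum_mul]
      _ ≤ _ := by
          refine mul_le_mul_of_nonneg_right (hS.trans (le_of_eq ?_)) hT.le
          norm_num
  have h7 : (0 : ℝ) ≤ (Nat.card V : ℝ) ^ 3 := by positivity
  have h8 := key'.trans (mul_le_mul_of_nonneg_right h6 h7)
  have h9 : (Nat.card {ξ : V // a U ξ = ξ} : ℝ) ^ 4 * (Nat.card (∀ v : A, T v) : ℝ) ^ 2 ≤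
      ((31 / 32) ^ A.card * (Nat.card V : ℝ) ^ 4) * (Nat.card (∀ v : A, T v) : ℝ) ^ 2 := by
    refine h8.trans (le_of_eq ?_)
    ring
  exact le_of_mul_le_mul_right h9 hT

end

end LibKS
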