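import Pool.Agent.LibKS.Defs

set_option autoImplicit false

namespace LibKS

section

variable {p : ℕ} {Γ : Type} [Group Γ] {K₁ : Subgroup Γ} {Ω V : Type} [MulAction Γ Ω]
  {a : K₁ →* Equiv.Perm V} {T : Ω → Subgroup Γ}

theorem W_map {k : ℕ} {G G' : Type*} [Group G] [Group G'] (f : G →* G') (g : Fin k → G)
    (u : List (Fin k × Bool)) : W (fun i => f (g i)) u = f (W g u) := by
  induction u with
  | nil => simp [W]
  | cons l u ih =>
    obtain ⟨i, b⟩ := l
    cases b <;> simp [W, ih]

theorem W_append {k : ℕ} {G : Type*} [Group G] (g : Fin k → G)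
    (u v : List (Fin k × Bool)) : W g (u ++ v) = W g u * W g v := by
  induction u with
  | nil => simp [W]
  | cons l u ih =>
    obtain ⟨i, b⟩ := l
    simp [W, ih, mul_assoc]

theorem W_conj {k : ℕ} {G : Type*} [Group G] (g : Fin k → G) (x : G)
    (u : List (Fin k × Bool)) : W (fun i => x⁻¹ * g i * x) u = x⁻¹ * W g u * x := by
  induction u with
  | nil => simp [W]
  | cons l u ih =>
    obtain ⟨i, b⟩ := l
    cases b
    · simp only [W, ih, Bool.false_eq_true, if_false]
      group
    · simp only [W, ih, if_true]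
      group

/-- Value of a letter. -/
def lett {k : ℕ} {G : Type*} [Group G] (g : Fin k → G) (l : Fin k × Bool) : G :=
  if l.2 then g l.1 else (g l.1)⁻¹

/-- Multiply the generator of the letter `l` by `h` in such a way that the value of the letter
is multiplied by `h` on the right. -/
def modify {k : ℕ} {G : Type*} [Group G] (g : Fin k → G) (l : Fin k × Bool) (h : G) :
    Fin k → G :=
  Function.update g l.1 (if l.2 then g l.1 * h else h⁻¹ * g l.1)

theorem lett_modify_self {k : ℕ} {G : Type*} [Group G] (g : Fin k → G) (l : Fin k × Bool)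
    (h : G) : lett (modify g l h) l = lett g l * h := by
  obtain ⟨i, b⟩ := l
  cases b
  · simp [lett, modify]
  · simp [lett, modify]

theorem lett_modify_inv {k : ℕ} {G : Type*} [Group G] (g : Fin k → G) (l : Fin k × Bool)
    (h : G) : lett (modify g l h) (l.1, !l.2) = h⁻¹ * lett g (l.1, !l.2) := by
  obtain ⟨i, b⟩ := l
  cases b
  · simp [lett, modify]
  · simp [lett, modify]

theorem modify_modify {k : ℕ} {G : Type*} [Group G] (g : Fin k → G) (l : Fin k × Bool)
    (h h' : G) : modify (modify g l h) l h' = modify g l (h * h') := by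
  obtain ⟨i, b⟩ := l
  cases b
  · simp [modify, mul_assoc]
  · simp [modify, mul_assoc]

/-- The trajectories are good: the points `W_g(u.drop j) v_t`, `1 ≤ j ≤ |u|`, are distinct for
distinct pairs `(t, j)`. -/
def Good {k m : ℕ} (g : Fin k → Γ) (u : List (Fin k × Bool)) (v : Fin m → Ω) : Prop :=
  ∀ (t t' : Fin m) (j j' : ℕ), 1 ≤ j → j ≤ u.length → 1 ≤ j' → j' ≤ u.length →
    W g (u.drop j) • v t = W g (u.drop j') • v t' → t = t' ∧ j = j'

end

end LibKS
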