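import Pool.Agent.LibKS.D1

set_option autoImplicit false

namespace LibKS

section

variable {p : ℕ} {Γ : Type} [Group Γ] {K₁ : Subgroup Γ} {Ω V : Type} [MulAction Γ Ω]
  {a : K₁ →* Equiv.Perm V} {T : Ω → Subgroup Γ}

private theorem D1b_W_cons {k : ℕ} {G : Type*} [Group G] (g : Fin k → G)
    (l : Fin k × Bool) (u : List (Fin k × Bool)) : W g (l :: u) = lett g l * W g u := by
  obtain ⟨i, b⟩ := l
  rfl

private theorem D1b_lett_modify_ne {k : ℕ} {G : Type*} [Group G] (g : Fin k → G)
    (l l' : Fin k × Bool) (h : G) (hne : l'.1 ≠ l.1) :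
    lett (modify g l h) l' = lett g l' := by
  simp only [lett, modify, Function.update_of_ne hne]

private theorem D1b_cases {k : ℕ} (l l' : Fin k × Bool) :
    l'.1 ≠ l.1 ∨ l' = l ∨ l' = (l.1, !l.2) := by
  obtain ⟨i, b⟩ := l
  obtain ⟨i', b'⟩ := l'
  by_cases h : i' = i
  · right
    subst h
    cases b <;> cases b' <;> simp
  · left
    exact h

private theorem D1b_fix (hB : Based p K₁ a T) {h : Γ} (hh : h ∈ (⨆ v, T v : Subgroup Γ))
    (w : Ω) : h • w = w := by
  have hle : (⨆ v, T v : Subgroup Γ) ≤ MulAction.stabilizer Γ w := by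
    refine iSup_le fun v t ht => ?_
    rw [MulAction.mem_stabilizer_iff]
    exact hB.smul_eq v w t ht
  exact MulAction.mem_stabilizer_iff.1 (hle hh)

private theorem D1b_conj_mem (hB : Based p K₁ a T) (γ : Γ) (v : Ω) {x : Γ} (hx : x ∈ T v) :
    γ * x * γ⁻¹ ∈ T (γ • v) := by
  rw [← hB.map_conj γ v]
  exact ⟨x, hx, rfl⟩

private theorem D1b_conj_mem' (hB : Based p K₁ a T) (γ : Γ) (v : Ω) {x : Γ}
    (hx : x ∈ T (γ • v)) : ∃ y ∈ T v, γ * y * γ⁻¹ = x := by
  rw [← hB.map_conj γ v] at hx
  obtain ⟨y, hy, hyx⟩ := hx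
  exact ⟨y, hy, hyx⟩

private theorem D1b_normal (hB : Based p K₁ a T) : (⨆ v, T v : Subgroup Γ).Normal := by
  refine ⟨fun x hx γ => ?_⟩
  have hle : (⨆ v, T v : Subgroup Γ) ≤
      (⨆ v, T v : Subgroup Γ).comap (MulAut.conj γ).toMonoidHom := by
    refine iSup_le fun v t ht => ?_
    rw [Subgroup.mem_comap]
    exact Subgroup.mem_iSup_of_mem (γ • v) (D1b_conj_mem hB γ v ht)
  exact hle hx

/-- The product of the groups `T` acts trivially on `Ω`, so modifying a generator by an element
of it does not change the trajectories. -/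
theorem Based.W_modify_smul (hB : Based p K₁ a T) {k : ℕ} (g : Fin k → Γ)
    (l : Fin k × Bool) (h : Γ) (hh : h ∈ (⨆ v, T v : Subgroup Γ)) (s : List (Fin k × Bool))
    (v : Ω) : W (modify g l h) s • v = W g s • v := by
  induction s with
  | nil => rfl
  | cons l' s ih =>
    rw [D1b_W_cons, D1b_W_cons, mul_smul, mul_smul, ih]
    rcases D1b_cases l l' with h1 | h1 | h1
    · rw [D1b_lett_modify_ne g l l' h h1]
    · rw [h1, lett_modify_self, mul_smul, D1b_fix hB hh]
    · rw [h1, lett_modify_inv, mul_smul, D1b_fix hB (inv_mem hh)]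

private theorem D1b_commute (hB : Based p K₁ a T) {m : ℕ} (ω : Fin m → Ω) (w : Ω)
    (hne : ∀ t, ω t ≠ w) {h : Γ} (hh : h ∈ (⨆ t : Fin m, T (ω t) : Subgroup Γ)) {y : Γ}
    (hy : y ∈ T w) : Commute h y := by
  have hle : (⨆ t : Fin m, T (ω t) : Subgroup Γ) ≤ Subgroup.centralizer ({y} : Set Γ) := by
    refine iSup_le fun t x hx => ?_
    rw [Subgroup.mem_centralizer_iff]
    intro z hz
    rw [Set.mem_singleton_iff.1 hz]
    exact (hB.comm _ _ (hne t) x hx y hy).symm
  exact (Subgroup.mem_centralizer_iff.1 (hle hh) y rfl).symm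

/-- The main computation: effect of the modification on the word after the first letter. -/
theorem Based.W_modify_conj (hB : Based p K₁ a T) {k m : ℕ} (g : Fin k → Γ)
    (l : Fin k × Bool) (u' : List (Fin k × Bool)) (hred : FreeGroup.IsReduced (l :: u'))
    (v : Fin m → Ω) (hg : Good g (l :: u') v) (h : Γ)
    (hh : h ∈ (⨆ t : Fin m, T (W g u' • v t) : Subgroup Γ)) (t : Fin m) (x : Γ)
    (hx : x ∈ T (v t)) :
    W (modify g l h) u' * x * (W (modify g l h) u')⁻¹ = W g u' * x * (W g u')⁻¹ := by
  have key : ∀ (s u'' : List (Fin k × Bool)), u' = u'' ++ s →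
      W (modify g l h) s * x * (W (modify g l h) s)⁻¹ = W g s * x * (W g s)⁻¹ := by
    intro s
    induction s with
    | nil => intro u'' _; rfl
    | cons l2 s' ih =>
      intro u'' hu
      have ih' := ih (u'' ++ [l2]) (by rw [hu]; simp)
      set y := W g s' * x * (W g s')⁻¹ with hy
      have hyT : y ∈ T (W g s' • v t) := D1b_conj_mem hB _ _ hx
      have hlen : u'.length = u''.length + (s'.length + 1) := by rw [hu]; simp
      have hl1 : (l :: u').length = u''.length + s'.length + 2 := by
        rw [List.length_cons, hlen]; omega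
      have hd1 : (l :: u').drop 1 = u' := rfl
      have hd2 : (l :: u').drop (u''.length + 2) = s' := by
        rw [List.drop_succ_cons, hu]
        simp [List.drop_append]
      have hd3 : (l :: u').drop (u''.length + 1) = l2 :: s' := by
        rw [List.drop_succ_cons, hu, List.drop_left]
      have hmain : lett (modify g l h) l2 * y * (lett (modify g l h) l2)⁻¹ =
          lett g l2 * y * (lett g l2)⁻¹ := by
        rcases D1b_cases l l2 with h1 | h1 | h1
        · rw [D1b_lett_modify_ne g l l2 h h1]
        · have hne : ∀ t', W g u' • v t' ≠ W g s' • v t := by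
            intro t' he
            have := hg t' t 1 (u''.length + 2) le_rfl (by omega) (by omega) (by omega)
              (by rw [hd1, hd2]; exact he)
            omega
          have hc : Commute h y := D1b_commute hB _ _ hne hh hyT
          rw [h1, lett_modify_self, mul_inv_rev]
          calc lett g l * h * y * (h⁻¹ * (lett g l)⁻¹) = lett g l * (h * y * h⁻¹) * (lett g l)⁻¹ := by
                group
            _ = _ := by rw [hc.eq, mul_inv_cancel_right]
        · have hne : ∀ t', W g u' • v t' ≠ W g (l2 :: s') • v t := by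
            intro t' he
            have h5 := hg t' t 1 (u''.length + 1) le_rfl (by omega) (by omega) (by omega)
              (by rw [hd1, hd3]; exact he)
            have h6 : u'' = [] := List.length_eq_zero_iff.1 (by omega)
            rw [h6, List.nil_append] at hu
            rw [hu] at hred
            have h7 := hred.rel
            rw [h1] at h7
            have h8 := h7 rfl
            simp at h8
          have hz : lett g l2 * y * (lett g l2)⁻¹ ∈ T (W g (l2 :: s') • v t) := by
            rw [D1b_W_cons, mul_smul]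
            exact D1b_conj_mem hB _ _ hyT
          have hc : Commute h (lett g l2 * y * (lett g l2)⁻¹) := D1b_commute hB _ _ hne hh hz
          have hc' := hc.inv_left
          have h9 : lett (modify g l h) l2 = h⁻¹ * lett g l2 := by
            rw [h1, lett_modify_inv]
          rw [h9, mul_inv_rev, inv_inv]
          calc h⁻¹ * lett g l2 * y * ((lett g l2)⁻¹ * h) =
                h⁻¹ * (lett g l2 * y * (lett g l2)⁻¹) * h := by group
            _ = _ := by rw [hc'.eq, inv_mul_cancel_right]
      rw [D1b_W_cons, D1b_W_cons, mul_inv_rev, mul_inv_rev]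
      calc lett (modify g l h) l2 * W (modify g l h) s' * x *
            ((W (modify g l h) s')⁻¹ * (lett (modify g l h) l2)⁻¹) =
            lett (modify g l h) l2 * (W (modify g l h) s' * x * (W (modify g l h) s')⁻¹) *
              (lett (modify g l h) l2)⁻¹ := by group
        _ = lett g l2 * y * (lett g l2)⁻¹ := by rw [ih', hmain]
        _ = _ := by rw [hy]; group
  exact key u' [] rfl

/-- Consequence: the modified value of the word. -/
theorem Based.W_modify (hB : Based p K₁ a T) {k m : ℕ} (g : Fin k → Γ)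
    (l : Fin k × Bool) (u' : List (Fin k × Bool)) (hred : FreeGroup.IsReduced (l :: u'))
    (v : Fin m → Ω) (hg : Good g (l :: u') v) (h : Γ)
    (hh : h ∈ (⨆ t : Fin m, T (W g u' • v t) : Subgroup Γ)) :
    ∃ τ : Γ, τ ∈ (⨆ v, T v : Subgroup Γ) ∧
      (∀ t : Fin m, ∀ x ∈ T (W g (l :: u') • v t), Commute τ x) ∧
      W (modify g l h) (l :: u') = (lett g l * h * (lett g l)⁻¹) * τ * W g (l :: u') := by
  have hn : (⨆ v, T v : Subgroup Γ).Normal := D1b_normal hB
  have hhH : h ∈ (⨆ v, T v : Subgroup Γ) := by
    have hle : (⨆ t : Fin m, T (W g u' • v t) : Subgroup Γ) ≤ (⨆ v, T v : Subgroup Γ) :=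
      iSup_le fun t => le_iSup T _
    exact hle hh
  set τ' : Γ := W (modify g l h) u' * (W g u')⁻¹ with hτ'
  have hτH : τ' ∈ (⨆ v, T v : Subgroup Γ) := by
    have h1 : ∀ i, (QuotientGroup.mk' (⨆ v, T v : Subgroup Γ)) (modify g l h i) =
        (QuotientGroup.mk' (⨆ v, T v : Subgroup Γ)) (g i) := by
      intro i
      have hh1 : (QuotientGroup.mk' (⨆ v, T v : Subgroup Γ)) h = 1 := by
        rw [← MonoidHom.mem_ker, QuotientGroup.ker_mk']
        exact hhH
      by_cases hi : i = l.1
      · subst hi
        rw [modify, Function.update_self]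
        split_ifs
        · rw [map_mul, hh1, mul_one]
        · rw [map_mul, map_inv, hh1, inv_one, one_mul]
      · rw [modify, Function.update_of_ne hi]
    have h2 : (QuotientGroup.mk' (⨆ v, T v : Subgroup Γ)) (W (modify g l h) u') =
        (QuotientGroup.mk' (⨆ v, T v : Subgroup Γ)) (W g u') := by
      rw [← W_map, ← W_map]
      congr 1
      funext i
      exact h1 i
    rw [← QuotientGroup.ker_mk' (⨆ v, T v : Subgroup Γ), MonoidHom.mem_ker, hτ', map_mul, map_inv,
      h2, mul_inv_cancel]
  refine ⟨lett g l * τ' * (lett g l)⁻¹, hn.conj_mem τ' hτH _, ?_, ?_⟩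
  · intro t x hx
    rw [D1b_W_cons, mul_smul] at hx
    obtain ⟨x', hx', rfl⟩ := D1b_conj_mem' hB _ _ hx
    obtain ⟨x'', hx'', rfl⟩ := D1b_conj_mem' hB _ _ hx'
    have h1 := hB.W_modify_conj g l u' hred v hg h hh t x'' hx''
    have h2 : Commute τ' (W g u' * x'' * (W g u')⁻¹) := by
      have h3 : τ' * (W g u' * x'' * (W g u')⁻¹) * τ'⁻¹ = W g u' * x'' * (W g u')⁻¹ := by
        rw [← h1, hτ', h1]
        calc W (modify g l h) u' * (W g u')⁻¹ * (W g u' * x'' * (W g u')⁻¹) *
              (W (modify g l h) u' * (W g u')⁻¹)⁻¹ =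
              W (modify g l h) u' * x'' * (W (modify g l h) u')⁻¹ := by group
          _ = _ := h1
      exact mul_inv_eq_iff_eq_mul.1 h3
    have h4 := h2.map (MulAut.conj (lett g l)).toMonoidHom
    simpa [MulAut.conj_apply] using h4
  · rw [D1b_W_cons, D1b_W_cons, lett_modify_self, hτ']
    group

end

end LibKS
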