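import Pool.Agent.LibKS.D1b
import Pool.Agent.LibKS.C9

set_option autoImplicit false

namespace LibKS

section

variable {p : ℕ} {Γ : Type} [Group Γ] {K₁ : Subgroup Γ} {Ω V : Type} [MulAction Γ Ω]
  {a : K₁ →* Equiv.Perm V} {T : Ω → Subgroup Γ}

private theorem D3_map_conj_inf (hB : Based p K₁ a T) (P : Subgroup Γ) (c : Γ) (hc : c ∈ P)
    (v : Ω) : (P ⊓ T v).map (MulAut.conj c).toMonoidHom = P ⊓ T (c • v) := by
  rw [Subgroup.map_inf _ _ _ (MulAut.conj c).injective, hB.map_conj]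
  congr 1
  ext x
  simp only [Subgroup.mem_map, MulEquiv.coe_toMonoidHom, MulAut.conj_apply]
  constructor
  · rintro ⟨y, hy, rfl⟩
    exact P.mul_mem (P.mul_mem hc hy) (P.inv_mem hc)
  · intro hx
    exact ⟨c⁻¹ * x * c, P.mul_mem (P.mul_mem (P.inv_mem hc) hx) hc, by group⟩

private theorem D3_iSup_le (hB : Based p K₁ a T) : (⨆ v, T v : Subgroup Γ) ≤ K₁ :=
  iSup_le fun v => (hB.le v).trans K₁.normalCore_le

private theorem D3_smul_eq (hB : Based p K₁ a T) (τ : Γ) (hτ : τ ∈ (⨆ v, T v : Subgroup Γ))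
    (v : Ω) : τ • v = v := by
  have h : (⨆ v, T v : Subgroup Γ) ≤ MulAction.stabilizer Γ v :=
    iSup_le fun w t ht => hB.smul_eq w v t ht
  exact h hτ

/-- For a fixed tuple `g` with good trajectories: average over the modifications. -/
theorem Based.avg_modify [Fact p.Prime] [Finite Γ] [Finite V] (hB : Based p K₁ a T)
    (P : Sylow p Γ) {k m : ℕ} (l : Fin k × Bool) (u' : List (Fin k × Bool))
    (hred : FreeGroup.IsReduced (l :: u')) (v : Fin m → Ω)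
    (hv : ∀ t, ActsNontriv a (T (v t))) (g : Fin k → (P : Subgroup Γ))
    (hg : Good (fun i => (g i : Γ)) (l :: u') v)
    (hw : W (fun i => (g i : Γ)) (l :: u') ∈ K₁) :
    (Nat.card {q : (⨆ t : Fin m, ((P : Subgroup Γ) ⊓ T (W (fun i => (g i : Γ)) u' • v t)) :
        Subgroup Γ) × V // ∃ h : W (modify (fun i => (g i : Γ)) l q.1) (l :: u') ∈ K₁,
          a ⟨_, h⟩ q.2 = q.2} : ℝ) ≤
      cp p ^ m * (Nat.card (⨆ t : Fin m,
        ((P : Subgroup Γ) ⊓ T (W (fun i => (g i : Γ)) u' • v t)) : Subgroup Γ) *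
        (Nat.card V : ℝ)) := by
  classical
  set G : Fin k → Γ := fun i => (g i : Γ) with hG
  set w : Γ := W G (l :: u') with hwdef
  set c : Γ := lett G l with hc
  have hcP : c ∈ (P : Subgroup Γ) := by
    rw [hc]
    unfold lett
    split_ifs
    · exact (g l.1).2
    · exact (P : Subgroup Γ).inv_mem (g l.1).2
  have hwc : w = c * W G u' := by
    rw [hwdef, hc]
    obtain ⟨i, b⟩ := l
    rfl
  have hsm : ∀ t, w • v t = c • (W G u' • v t) := by
    intro t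
    rw [hwc, mul_smul]
  -- injectivity
  have hinj : Function.Injective (fun t => w • v t) := by
    intro t t' h
    simp only [hsm] at h
    have h' := smul_left_cancel c h
    exact (hg t t' 1 1 le_rfl (by simp) le_rfl (by simp) (by simpa using h')).1
  set A : Finset Ω := Finset.univ.image (fun t => w • v t) with hA
  have hAcard : A.card = m := by
    rw [hA, Finset.card_image_of_injective _ hinj]
    simp
  have hAnt : ∀ x ∈ A, ActsNontriv a (T x) := by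
    intro x hx
    rw [hA, Finset.mem_image] at hx
    obtain ⟨t, -, rfl⟩ := hx
    obtain ⟨ξ, hξ⟩ := hv t
    unfold FixedBy at hξ
    push Not at hξ
    obtain ⟨κ, hκ, hne⟩ := hξ
    refine ⟨a ⟨w, hw⟩ ξ, fun hfix => hne ?_⟩
    have h1 := hfix (⟨w, hw⟩ * κ * (⟨w, hw⟩ : K₁)⁻¹) (by
      rw [← hB.map_conj]
      exact ⟨(κ : Γ), hκ, by simp⟩)
    have h2 : a (⟨w, hw⟩ * κ * (⟨w, hw⟩ : K₁)⁻¹) (a ⟨w, hw⟩ ξ) = a ⟨w, hw⟩ (a κ ξ) := by
      rw [← Equiv.Perm.mul_apply, ← map_mul, inv_mul_cancel_right, map_mul,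
        Equiv.Perm.mul_apply]
    rw [h2] at h1
    exact (a ⟨w, hw⟩).injective h1
  -- the two groups
  have hmap : (⨆ t : Fin m, ((P : Subgroup Γ) ⊓ T (W G u' • v t)) : Subgroup Γ).map
      (MulAut.conj c).toMonoidHom = (⨆ x : A, ((P : Subgroup Γ) ⊓ T x) : Subgroup Γ) := by
    rw [Subgroup.map_iSup]
    apply le_antisymm
    · refine iSup_le fun t => ?_
      rw [D3_map_conj_inf hB _ c hcP, ← hsm]
      exact le_iSup (fun x : A => ((P : Subgroup Γ) ⊓ T x))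
        ⟨w • v t, Finset.mem_image.2 ⟨t, Finset.mem_univ _, rfl⟩⟩
    · refine iSup_le fun x => ?_
      obtain ⟨x, hx⟩ := x
      rw [hA, Finset.mem_image] at hx
      obtain ⟨t, -, rfl⟩ := hx
      refine le_trans ?_ (le_iSup _ t)
      rw [D3_map_conj_inf hB _ c hcP, ← hsm]
  have hcard : Nat.card (⨆ t : Fin m, ((P : Subgroup Γ) ⊓ T (W G u' • v t)) : Subgroup Γ) =
      Nat.card (⨆ x : A, ((P : Subgroup Γ) ⊓ T x) : Subgroup Γ) := by
    rw [← hmap]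
    exact Nat.card_congr (Subgroup.equivMapOfInjective _ _ (MulAut.conj c).injective).toEquiv
  have hH0K : (⨆ x : A, ((P : Subgroup Γ) ⊓ T x) : Subgroup Γ) ≤ K₁ :=
    iSup_le fun x => inf_le_right.trans ((hB.le x).trans K₁.normalCore_le)
  have hex : ∀ h₀ : (⨆ x : A, ((P : Subgroup Γ) ⊓ T x) : Subgroup Γ), ∃ τ : K₁,
      (∀ x ∈ A, ∀ t ∈ T x, Commute (τ : Γ) t) ∧ (∀ x : Ω, (τ : Γ) • x = x) ∧
      W (modify G l (c⁻¹ * h₀ * c)) (l :: u') = h₀ * τ * w := by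
    rintro ⟨h₀, hh₀⟩
    rw [← hmap] at hh₀
    obtain ⟨h, hh, rfl⟩ := hh₀
    have hh' : h ∈ (⨆ t : Fin m, T (W G u' • v t) : Subgroup Γ) :=
      (show (⨆ t : Fin m, ((P : Subgroup Γ) ⊓ T (W G u' • v t)) : Subgroup Γ) ≤
        (⨆ t : Fin m, T (W G u' • v t) : Subgroup Γ) from
        iSup_mono fun t => inf_le_right) hh
    obtain ⟨τ, hτ, hcomm, heq⟩ := hB.W_modify G l u' hred v hg h hh'
    refine ⟨⟨τ, D3_iSup_le hB hτ⟩, ?_, fun x => D3_smul_eq hB τ hτ x, ?_⟩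
    · intro x hx t ht
      rw [hA, Finset.mem_image] at hx
      obtain ⟨s, -, rfl⟩ := hx
      exact hcomm s t ht
    · have e1 : c⁻¹ * ((MulAut.conj c).toMonoidHom h) * c = h := by
        simp [MulAut.conj_apply, mul_assoc]
      simp only [e1]
      rw [heq]
      rfl
  choose σ hσ1 hσ2 hσ3 using hex
  have hmain := hB.local_bound A hAnt P ⟨w, hw⟩ σ hσ1 hσ2
    (fun h => ⟨(h : Γ), hH0K h.2⟩) (fun h => rfl)
  rw [hAcard, ← hcard] at hmain
  refine le_trans ?_ hmain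
  have hcm : ∀ h : (⨆ t : Fin m, ((P : Subgroup Γ) ⊓ T (W G u' • v t)) : Subgroup Γ),
      c * (h : Γ) * c⁻¹ ∈ (⨆ x : A, ((P : Subgroup Γ) ⊓ T x) : Subgroup Γ) := by
    intro h
    rw [← hmap]
    exact ⟨(h : Γ), h.2, by simp [MulAut.conj_apply]⟩
  let F : {q : (⨆ t : Fin m, ((P : Subgroup Γ) ⊓ T (W G u' • v t)) : Subgroup Γ) × V //
      ∃ h : W (modify G l q.1) (l :: u') ∈ K₁, a ⟨_, h⟩ q.2 = q.2} →
      {q : (⨆ x : A, ((P : Subgroup Γ) ⊓ T x) : Subgroup Γ) × V //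
        a ((⟨(q.1 : Γ), hH0K q.1.2⟩ : K₁) * σ q.1 * ⟨w, hw⟩) q.2 = q.2} := fun q =>
    ⟨(⟨c * (q.1.1 : Γ) * c⁻¹, hcm q.1.1⟩, q.1.2), by
      obtain ⟨⟨h, ξ⟩, hK, hfix⟩ := q
      have e := hσ3 ⟨c * (h : Γ) * c⁻¹, hcm h⟩
      have e1 : c⁻¹ * (c * (h : Γ) * c⁻¹) * c = h := by group
      simp only [e1] at e
      have e2 : ((⟨c * (h : Γ) * c⁻¹, hH0K (hcm h)⟩ : K₁) *
          σ ⟨c * (h : Γ) * c⁻¹, hcm h⟩ * ⟨w, hw⟩ : K₁) = ⟨_, hK⟩ := by
        apply Subtype.ext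
        exact e.symm
      change a (((⟨c * (h : Γ) * c⁻¹, hH0K (hcm h)⟩ : K₁) *
          σ ⟨c * (h : Γ) * c⁻¹, hcm h⟩ * ⟨w, hw⟩ : K₁)) ξ = ξ
      rw [e2]
      exact hfix⟩
  have hF : Function.Injective F := by
    rintro ⟨⟨h, ξ⟩, hq⟩ ⟨⟨h', ξ'⟩, hq'⟩ heq
    simp only [F, Subtype.mk.injEq, Prod.mk.injEq] at heq
    obtain ⟨h1, h2⟩ := heq
    subst h2
    have h3 : (h : Γ) = h' := by
      have := mul_right_cancel h1
      exact mul_left_cancel this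
    have h4 : h = h' := Subtype.ext h3
    subst h4
    rfl
  exact_mod_cast Nat.card_le_card_of_injective F hF

end

end LibKS
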