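import Pool.Agent.LibKS.D3

set_option autoImplicit false

namespace LibKS

theorem D3b_card {X V : Type} [Fintype X] [Finite V] (P : X → V → Prop) :
    Nat.card {q : X × V // P q.1 q.2} = ∑ x, Nat.card {ξ : V // P x ξ} := by
  rw [← Nat.card_sigma]
  exact Nat.card_congr
    { toFun := fun q => ⟨q.1.1, q.1.2, q.2⟩
      invFun := fun s => ⟨(s.1, s.2.1), s.2.2⟩
      left_inv := fun q => rfl
      right_inv := fun s => rfl }

theorem D3b_coe {Γ : Type} [Group Γ] (P : Subgroup Γ) {k : ℕ} (g : Fin k → P)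
    (l : Fin k × Bool) (h : P) :
    (fun i => ((modify g l h i : P) : Γ)) = modify (fun i => (g i : Γ)) l (h : Γ) := by
  funext i
  unfold modify
  by_cases hi : i = l.1
  · subst hi
    simp only [Function.update_self]
    split_ifs <;> simp
  · simp only [Function.update_of_ne hi]

theorem D3b_one {Γ : Type} [Group Γ] {k : ℕ} (g : Fin k → Γ)
    (l : Fin k × Bool) : modify g l 1 = g := by
  unfold modify
  simp

section

variable {p : ℕ} {Γ : Type} [Group Γ] {K₁ : Subgroup Γ} {Ω V : Type} [MulAction Γ Ω]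
  {a : K₁ →* Equiv.Perm V} {T : Ω → Subgroup Γ}

/-- Sum over all tuples `g` with good trajectories. -/
theorem Based.avg_bound [Fact p.Prime] [Finite Γ] [Finite V] (hB : Based p K₁ a T)
    (P : Sylow p Γ) {k m : ℕ} (u : List (Fin k × Bool)) (hu : u ≠ [])
    (hred : FreeGroup.IsReduced u) (v : Fin m → Ω)
    (hv : ∀ t, ActsNontriv a (T (v t))) :
    (Nat.card {q : (Fin k → (P : Subgroup Γ)) × V // Good (fun i => (q.1 i : Γ)) u v ∧
        ∃ h : W (fun i => (q.1 i : Γ)) u ∈ K₁, a ⟨_, h⟩ q.2 = q.2} : ℝ) ≤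
      cp p ^ m * (Nat.card {g : Fin k → (P : Subgroup Γ) // W (fun i => (g i : Γ)) u ∈ K₁} *
        (Nat.card V : ℝ)) := by
  classical
  obtain ⟨l, u', rfl⟩ : ∃ l u', u = l :: u' := List.exists_cons_of_ne_nil hu
  have hfP : Fintype (P : Subgroup Γ) := Fintype.ofFinite _
  have hfS : ∀ H : Subgroup Γ, Fintype H := fun H => Fintype.ofFinite _
  let c : (Fin k → (P : Subgroup Γ)) → Fin k → Γ := fun g i => (g i : Γ)
  let H : (Fin k → (P : Subgroup Γ)) → Subgroup Γ := fun g =>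
    ⨆ t : Fin m, ((P : Subgroup Γ) ⊓ T (W (c g) u' • v t))
  let F : Γ → ℝ := fun γ => (Nat.card {ξ : V // ∃ h : γ ∈ K₁, a ⟨γ, h⟩ ξ = ξ} : ℝ)
  let S : (Fin k → (P : Subgroup Γ)) → Prop := fun g =>
    Good (c g) (l :: u') v ∧ W (c g) (l :: u') ∈ K₁
  have hHP : ∀ g, H g ≤ (P : Subgroup Γ) := fun g => iSup_le fun t => inf_le_left
  have hHT : ∀ g, H g ≤ (⨆ w, T w : Subgroup Γ) := fun g =>
    iSup_le fun t => inf_le_right.trans (le_iSup T _)
  have hHT' : ∀ g, H g ≤ (⨆ t : Fin m, T (W (c g) u' • v t) : Subgroup Γ) := fun g =>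
    iSup_mono fun t => inf_le_right
  have hcm : ∀ g (h : (P : Subgroup Γ)), c (modify g l h) = modify (c g) l (h : Γ) :=
    fun g h => D3b_coe (P : Subgroup Γ) g l h
  have hsm : ∀ g (h : (P : Subgroup Γ)), (h : Γ) ∈ H g → ∀ (s : List (Fin k × Bool)) (w : Ω),
      W (c (modify g l h)) s • w = W (c g) s • w := by
    intro g h hh s w
    rw [hcm]
    exact hB.W_modify_smul (c g) l (h : Γ) (hHT g hh) s w
  have hHm : ∀ g (h : (P : Subgroup Γ)), (h : Γ) ∈ H g → H (modify g l h) = H g := by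
    intro g h hh
    change (⨆ t : Fin m, ((P : Subgroup Γ) ⊓ T (W (c (modify g l h)) u' • v t))) =
      ⨆ t : Fin m, ((P : Subgroup Γ) ⊓ T (W (c g) u' • v t))
    simp_rw [hsm g h hh]
  have hcore : (⨆ w, T w : Subgroup Γ) ≤ K₁.normalCore := iSup_le hB.le
  have hSm : ∀ g (h : (P : Subgroup Γ)), (h : Γ) ∈ H g → S g → S (modify g l h) := by
    rintro g h hh ⟨hg, hK⟩
    refine ⟨?_, ?_⟩
    · intro t t' j j' h1 h2 h3 h4 h5
      rw [hsm g h hh, hsm g h hh] at h5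
      exact hg t t' j j' h1 h2 h3 h4 h5
    · obtain ⟨τ, hτ, -, hW⟩ := hB.W_modify (c g) l u' hred v hg (h : Γ) (hHT' g hh)
      rw [hcm, hW]
      refine K₁.mul_mem (K₁.mul_mem ?_ ?_) hK
      · exact Subgroup.normalCore_le K₁ (Subgroup.Normal.conj_mem inferInstance _
          (hcore (hHT g hh)) _)
      · exact Subgroup.normalCore_le K₁ (hcore hτ)
  have hpos : ∀ g, (0 : ℝ) < Nat.card (H g) := fun g => by exact_mod_cast Nat.card_pos
  -- the sums over `H g`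
  have hsumH : ∀ g (φ : Γ → ℝ), ∑ h ∈ Finset.univ.filter
      (fun h : (P : Subgroup Γ) => (h : Γ) ∈ H g), φ (h : Γ) =
      ∑ x : (H g), φ (x : Γ) := by
    intro g φ
    refine Finset.sum_bij' (fun h hh => ⟨(h : Γ), (Finset.mem_filter.mp hh).2⟩)
      (fun x _ => ⟨(x : Γ), hHP g x.2⟩) ?_ ?_ ?_ ?_ ?_
    · intro h hh
      exact Finset.mem_univ _
    · intro x hx
      exact Finset.mem_filter.mpr ⟨Finset.mem_univ _, x.2⟩
    · intro h hh
      rfl
    · intro x hx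
      rfl
    · intro h hh
      rfl
  have hmain : ∀ g, S g → ∑ h ∈ Finset.univ.filter
      (fun h : (P : Subgroup Γ) => (h : Γ) ∈ H g), F (W (modify (c g) l (h : Γ)) (l :: u')) /
        (Nat.card (H g) : ℝ) ≤ cp p ^ m * (Nat.card V : ℝ) := by
    rintro g ⟨hg, hK⟩
    have h1 := hB.avg_modify P l u' hred v hv g hg hK
    have h2 := D3b_card (X := H g) (V := V) (fun x ξ =>
      ∃ h : W (modify (c g) l (x : Γ)) (l :: u') ∈ K₁, a ⟨_, h⟩ ξ = ξ)
    rw [hsumH g (fun x => F (W (modify (c g) l x) (l :: u')) / (Nat.card (H g) : ℝ)),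
      ← Finset.sum_div, div_le_iff₀ (hpos g)]
    have h3 : ∑ x : H g, F (W (modify (c g) l (x : Γ)) (l :: u')) =
        (Nat.card {q : (H g) × V // ∃ h : W (modify (c g) l q.1) (l :: u') ∈ K₁,
          a ⟨_, h⟩ q.2 = q.2} : ℝ) := by
      rw [h2]
      push_cast
      rfl
    rw [h3]
    calc _ ≤ cp p ^ m * (Nat.card (H g) * (Nat.card V : ℝ)) := h1
      _ = cp p ^ m * (Nat.card V : ℝ) * (Nat.card (H g) : ℝ) := by ring
  have hmod1 : ∀ g (h : (P : Subgroup Γ)), modify (modify g l h) l h⁻¹ = g := by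
    intro g h
    rw [modify_modify, mul_inv_cancel, D3b_one]
  set S0 : Finset (Fin k → (P : Subgroup Γ)) := Finset.univ.filter S with hS0
  set D : Finset ((Fin k → (P : Subgroup Γ)) × (P : Subgroup Γ)) :=
    (S0 ×ˢ (Finset.univ : Finset (P : Subgroup Γ))).filter (fun q => (q.2 : Γ) ∈ H q.1) with hD
  have hDm : ∀ q, q ∈ D ↔ S q.1 ∧ (q.2 : Γ) ∈ H q.1 := by
    intro q
    simp [hD, hS0]
  have hDsum : ∀ φ : (Fin k → (P : Subgroup Γ)) → ↥(P : Subgroup Γ) → ℝ,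
      ∑ q ∈ D, φ q.1 q.2 = ∑ g ∈ S0, ∑ h ∈ Finset.univ.filter
        (fun h : (P : Subgroup Γ) => (h : Γ) ∈ H g), φ g h := by
    intro φ
    rw [hD, Finset.sum_filter, Finset.sum_product]
    apply Finset.sum_congr rfl
    intro g _
    rw [Finset.sum_filter]
  have key : ∑ q ∈ D, F (W (c q.1) (l :: u')) / (Nat.card (H q.1) : ℝ) =
      ∑ q ∈ D, F (W (modify (c q.1) l (q.2 : Γ)) (l :: u')) / (Nat.card (H q.1) : ℝ) := by
    refine Finset.sum_nbij' (fun q => (modify q.1 l q.2, q.2⁻¹))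
      (fun q => (modify q.1 l q.2, q.2⁻¹)) ?_ ?_ ?_ ?_ ?_
    · intro q hq
      rw [hDm] at hq ⊢
      refine ⟨hSm _ _ hq.2 hq.1, ?_⟩
      change ((q.2⁻¹ : (P : Subgroup Γ)) : Γ) ∈ H (modify q.1 l q.2)
      rw [hHm _ _ hq.2]
      exact (H q.1).inv_mem hq.2
    · intro q hq
      rw [hDm] at hq ⊢
      refine ⟨hSm _ _ hq.2 hq.1, ?_⟩
      change ((q.2⁻¹ : (P : Subgroup Γ)) : Γ) ∈ H (modify q.1 l q.2)
      rw [hHm _ _ hq.2]
      exact (H q.1).inv_mem hq.2
    · intro q hq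
      change (modify (modify q.1 l q.2) l q.2⁻¹, q.2⁻¹⁻¹) = q
      rw [hmod1, inv_inv]
    · intro q hq
      change (modify (modify q.1 l q.2) l q.2⁻¹, q.2⁻¹⁻¹) = q
      rw [hmod1, inv_inv]
    · intro q hq
      rw [hDm] at hq
      change F (W (c q.1) (l :: u')) / (Nat.card (H q.1) : ℝ) =
        F (W (modify (c (modify q.1 l q.2)) l ((q.2⁻¹ : (P : Subgroup Γ)) : Γ)) (l :: u')) /
          (Nat.card (H (modify q.1 l q.2)) : ℝ)
      rw [← hcm, hmod1, hHm _ _ hq.2]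
  have hLHS : (Nat.card {q : (Fin k → (P : Subgroup Γ)) × V //
      Good (fun i => (q.1 i : Γ)) (l :: u') v ∧
        ∃ h : W (fun i => (q.1 i : Γ)) (l :: u') ∈ K₁, a ⟨_, h⟩ q.2 = q.2} : ℝ) =
      ∑ g ∈ S0, F (W (c g) (l :: u')) := by
    have h2 := D3b_card (X := Fin k → (P : Subgroup Γ)) (V := V) (fun g ξ =>
      Good (c g) (l :: u') v ∧ ∃ h : W (c g) (l :: u') ∈ K₁, a ⟨_, h⟩ ξ = ξ)
    refine (congrArg (Nat.cast (R := ℝ)) h2).trans ?_
    rw [hS0, Finset.sum_filter, Nat.cast_sum]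
    apply Finset.sum_congr rfl
    intro g _
    by_cases hS : S g
    · rw [if_pos hS]
      have e : ∀ ξ : V, (Good (c g) (l :: u') v ∧
          ∃ h : W (c g) (l :: u') ∈ K₁, a ⟨_, h⟩ ξ = ξ) ↔
          ∃ h : W (c g) (l :: u') ∈ K₁, a ⟨_, h⟩ ξ = ξ := fun ξ => and_iff_right hS.1
      exact congrArg (Nat.cast (R := ℝ)) (Nat.card_congr (Equiv.subtypeEquivRight e))
    · rw [if_neg hS]
      have : IsEmpty {ξ : V // Good (c g) (l :: u') v ∧
          ∃ h : W (c g) (l :: u') ∈ K₁, a ⟨_, h⟩ ξ = ξ} :=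
        ⟨fun ξ => hS ⟨ξ.2.1, ξ.2.2.1⟩⟩
      rw [Nat.card_of_isEmpty, Nat.cast_zero]
  have hS0card : (S0.card : ℝ) ≤
      Nat.card {g : Fin k → (P : Subgroup Γ) // W (fun i => (g i : Γ)) (l :: u') ∈ K₁} := by
    rw [Nat.card_eq_fintype_card, Fintype.card_subtype]
    norm_cast
    apply Finset.card_le_card
    intro g hg
    rw [hS0, Finset.mem_filter] at hg
    exact Finset.mem_filter.mpr ⟨Finset.mem_univ _, hg.2.2⟩
  have hcp : 0 ≤ cp p := (cp_pos (Fact.out : p.Prime)).le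
  rw [hLHS]
  calc ∑ g ∈ S0, F (W (c g) (l :: u'))
      = ∑ g ∈ S0, ∑ h ∈ Finset.univ.filter
        (fun h : (P : Subgroup Γ) => (h : Γ) ∈ H g),
          F (W (c g) (l :: u')) / (Nat.card (H g) : ℝ) := by
        apply Finset.sum_congr rfl
        intro g _
        rw [hsumH g (fun _ => F (W (c g) (l :: u')) / (Nat.card (H g) : ℝ)), Finset.sum_const,
          Finset.card_univ, nsmul_eq_mul, ← Nat.card_eq_fintype_card]
        field_simp [(hpos g).ne']
    _ = ∑ q ∈ D, F (W (c q.1) (l :: u')) / (Nat.card (H q.1) : ℝ) :=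
        (hDsum (fun g _ => F (W (c g) (l :: u')) / (Nat.card (H g) : ℝ))).symm
    _ = ∑ q ∈ D, F (W (modify (c q.1) l (q.2 : Γ)) (l :: u')) / (Nat.card (H q.1) : ℝ) := key
    _ = ∑ g ∈ S0, ∑ h ∈ Finset.univ.filter
        (fun h : (P : Subgroup Γ) => (h : Γ) ∈ H g),
          F (W (modify (c g) l (h : Γ)) (l :: u')) / (Nat.card (H g) : ℝ) :=
        hDsum (fun g h => F (W (modify (c g) l (h : Γ)) (l :: u')) / (Nat.card (H g) : ℝ))
    _ ≤ ∑ _g ∈ S0, cp p ^ m * (Nat.card V : ℝ) := by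
        apply Finset.sum_le_sum
        intro g hg
        rw [hS0, Finset.mem_filter] at hg
        exact hmain g hg.2
    _ = (S0.card : ℝ) * (cp p ^ m * (Nat.card V : ℝ)) := by
        rw [Finset.sum_const, nsmul_eq_mul]
    _ ≤ Nat.card {g : Fin k → (P : Subgroup Γ) // W (fun i => (g i : Γ)) (l :: u') ∈ K₁} *
        (cp p ^ m * (Nat.card V : ℝ)) := by
        apply mul_le_mul_of_nonneg_right hS0card
        positivity
    _ = _ := by ring

end

end LibKS
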