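import Pool.Agent.LibKS.D1

set_option autoImplicit false

namespace LibKS

section

variable {p : ℕ} {Γ : Type} [Group Γ] {K₁ : Subgroup Γ} {Ω V : Type} [MulAction Γ Ω]
  {a : K₁ →* Equiv.Perm V} {T : Ω → Subgroup Γ}

theorem phi_nonneg {k : ℕ} (P K : Subgroup Γ) (u : List (Fin k × Bool)) : 0 ≤ phi P K u := by
  unfold phi
  positivity

theorem phi_le_one [Finite Γ] {k : ℕ} (P K : Subgroup Γ) (u : List (Fin k × Bool)) :
    phi P K u ≤ 1 := by
  unfold phi
  refine div_le_one_of_le₀ ?_ (by positivity)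
  have h1 : Nat.card (phiSet P K u) ≤ Nat.card ((Fin k → P) × Γ) :=
    Nat.card_le_card_of_injective (Subtype.val : phiSet P K u → (Fin k → P) × Γ)
      Subtype.val_injective
  have h2 : Nat.card ((Fin k → P) × Γ) = Nat.card P ^ k * Nat.card Γ := by
    rw [Nat.card_prod, Nat.card_fun, Nat.card_eq_fintype_card (α := Fin k), Fintype.card_fin]
  rw [h2] at h1
  exact_mod_cast h1

/-- Bad event of the first kind: a return of one trajectory. -/
theorem card_return_eq [Finite Γ] [MulAction.IsPretransitive Γ Ω] {k : ℕ} (P : Subgroup Γ)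
    (s r : List (Fin k × Bool)) (v v₀ : Ω) :
    Nat.card {q : (Fin k → P) × Γ //
        W (fun i => q.2⁻¹ * (q.1 i : Γ) * q.2) (s ++ r) • v =
          W (fun i => q.2⁻¹ * (q.1 i : Γ) * q.2) r • v} =
      Nat.card (phiSet P (MulAction.stabilizer Γ v₀) s) := by
  obtain ⟨γ, rfl⟩ := MulAction.exists_smul_eq Γ v₀ v
  let e : (Fin k → P) × Γ ≃ (Fin k → P) × Γ :=
    { toFun := fun q => (q.1, W (fun i => (q.1 i : Γ)) r * q.2 * γ)
      invFun := fun q => (q.1, (W (fun i => (q.1 i : Γ)) r)⁻¹ * q.2 * γ⁻¹)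
      left_inv := fun q => by simp [mul_assoc]
      right_inv := fun q => by simp [mul_assoc] }
  refine Nat.card_congr (Equiv.subtypeEquiv e fun q => ?_)
  obtain ⟨g, x⟩ := q
  rw [W_append]
  simp only [W_conj]
  change _ ↔ (W (fun i => (g i : Γ)) r * x * γ)⁻¹ * W (fun i => (g i : Γ)) s *
    (W (fun i => (g i : Γ)) r * x * γ) ∈ MulAction.stabilizer Γ v₀
  rw [MulAction.mem_stabilizer_iff]
  simp only [mul_smul, mul_inv_rev, inv_smul_eq_iff, smul_inv_smul]

/-- Bad event of the second kind: a collision of two trajectories. -/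
theorem card_collision_le [Finite Γ] {k m : ℕ} (P : Subgroup Γ) (J : Type) [Finite J]
    (ι : J → Ω) (hι : Function.Injective ι) (r s : List (Fin k × Bool)) (t t' : Fin m)
    (htt : t ≠ t') :
    Nat.card {q : ((Fin k → P) × Γ) × (Fin m → J) //
        W (fun i => q.1.2⁻¹ * (q.1.1 i : Γ) * q.1.2) r • ι (q.2 t) =
          W (fun i => q.1.2⁻¹ * (q.1.1 i : Γ) * q.1.2) s • ι (q.2 t')} * Nat.card J ≤
      Nat.card ((Fin k → P) × Γ) * Nat.card J ^ m := by
  have h2 : Nat.card ((Fin k → P) × Γ) * Nat.card J ^ m =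
      Nat.card (((Fin k → P) × Γ) × (Fin m → J)) := by
    rw [Nat.card_prod _ (Fin m → J), Nat.card_fun, Nat.card_eq_fintype_card (α := Fin m),
      Fintype.card_fin]
  rw [h2, ← Nat.card_prod]
  refine Nat.card_le_card_of_injective
    (fun q => (q.1.1.1, Function.update q.1.1.2 t q.2)) ?_
  rintro ⟨⟨⟨q, f⟩, hq⟩, j⟩ ⟨⟨⟨q', f'⟩, hq'⟩, j'⟩ h
  simp only [Prod.mk.injEq] at h
  obtain ⟨rfl, h⟩ := h
  have hj : j = j' := by
    have := congrFun h t
    simpa using this
  have hf : ∀ i, i ≠ t → f i = f' i := by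
    intro i hi
    have := congrFun h i
    simpa [Function.update_of_ne hi] using this
  have ht : f t = f' t := by
    apply hι
    have h3 := hf t' (Ne.symm htt)
    simp only at hq hq'
    rw [h3] at hq
    exact smul_left_cancel _ (hq.trans hq'.symm)
  have hff : f = f' := by
    funext i
    by_cases hi : i = t
    · rw [hi]; exact ht
    · exact hf i hi
  subst hff hj
  rfl

end

end LibKS
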