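import Pool.Agent.LibKS.D5
import Pool.Agent.LibKS.D3b

set_option autoImplicit false

namespace LibKS

section

variable {p : ℕ} {Γ : Type} [Group Γ] {K₁ : Subgroup Γ} {Ω V : Type} [MulAction Γ Ω]
  {a : K₁ →* Equiv.Perm V} {T : Ω → Subgroup Γ}

private theorem D5b_card_prod {α β : Type*} [Finite α] [Fintype β] (q : α → β → Prop) :
    Nat.card {x : α × β // q x.1 x.2} = ∑ b, Nat.card {y : α // q y b} := by
  classical
  have : Fintype α := Fintype.ofFinite α
  simp only [Nat.card_eq_fintype_card, Fintype.card_subtype]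
  rw [Finset.card_filter, Fintype.sum_prod_type_right]
  refine Finset.sum_congr rfl fun b _ => ?_
  rw [Finset.card_filter]

private theorem D5b_card_union {α ι : Type*} [Finite α] (s : Finset ι) (q : ι → α → Prop) :
    Nat.card {x : α // ∃ i ∈ s, q i x} ≤ ∑ i ∈ s, Nat.card {x : α // q i x} := by
  classical
  have : Fintype α := Fintype.ofFinite α
  simp only [Nat.card_eq_fintype_card, Fintype.card_subtype]
  refine (Finset.card_le_card ?_).trans (Finset.card_biUnion_le (s := s)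
    (t := fun i => Finset.univ.filter (q i)))
  intro x hx
  obtain ⟨i, hi, hq⟩ := (Finset.mem_filter.1 hx).2
  exact Finset.mem_biUnion.2 ⟨i, hi, Finset.mem_filter.2 ⟨Finset.mem_univ _, hq⟩⟩

private theorem D5b_card_mono {α : Type*} [Finite α] {q r : α → Prop} (h : ∀ x, q x → r x) :
    Nat.card {x : α // q x} ≤ Nat.card {x : α // r x} :=
  Nat.card_le_card_of_injective (fun x : {x : α // q x} => (⟨x.1, h x.1 x.2⟩ : {x : α // r x}))
    fun x y hxy => Subtype.ext (congrArg (fun z : {x : α // r x} => z.1) hxy)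

private theorem D5b_card_or {α : Type*} [Finite α] {q r s : α → Prop} (h : ∀ x, q x → r x ∨ s x) :
    Nat.card {x : α // q x} ≤ Nat.card {x : α // r x} + Nat.card {x : α // s x} := by
  have h1 := D5b_card_union (α := α) (ι := Bool) Finset.univ (fun b x => if b then r x else s x)
  have h2 : Nat.card {x : α // q x} ≤
      Nat.card {x : α // ∃ i ∈ (Finset.univ : Finset Bool), (if i then r x else s x)} := by
    apply D5b_card_mono
    intro x hx
    rcases h x hx with h | h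
    · exact ⟨true, Finset.mem_univ _, h⟩
    · exact ⟨false, Finset.mem_univ _, h⟩
  refine h2.trans (h1.trans ?_)
  simp

/-- The conjugated tuple. -/
private def D5b_g {k : ℕ} (P : Subgroup Γ) (q : (Fin k → P) × Γ) : Fin k → Γ :=
  fun i => q.2⁻¹ * (q.1 i : Γ) * q.2

private theorem D5b_actsNontriv (hB : Based p K₁ a T) (v₀ : Ω) (hv₀ : ActsNontriv a (T v₀))
    (v : MulAction.orbit K₁ v₀) : ActsNontriv a (T v.1) := by
  obtain ⟨v, κ, rfl⟩ := v
  obtain ⟨ξ, hξ⟩ := hv₀
  unfold FixedBy at hξ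
  push Not at hξ
  obtain ⟨x, hx, hne⟩ := hξ
  refine ⟨a κ ξ, fun hfix => hne ?_⟩
  have h1 : (κ * x * κ⁻¹ : K₁) = (⟨_, (κ * x * κ⁻¹ : K₁).2⟩ : K₁) := rfl
  have h2 : ((κ * x * κ⁻¹ : K₁) : Γ) ∈ T (κ • v₀) := by
    have h3 := hB.map_conj (κ : Γ) v₀
    have h4 : ((κ * x * κ⁻¹ : K₁) : Γ) ∈ (T v₀).map (MulAut.conj (κ : Γ)).toMonoidHom :=
      ⟨(x : Γ), hx, by simp⟩
    rw [h3] at h4
    exact h4
  have h5 := hfix _ h2
  rw [map_mul, map_mul, Equiv.Perm.mul_apply, Equiv.Perm.mul_apply] at h5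
  have h6 : a κ⁻¹ (a κ ξ) = ξ := by
    rw [← Equiv.Perm.mul_apply, ← map_mul, inv_mul_cancel, map_one, Equiv.Perm.one_apply]
  rw [h6] at h5
  exact (a κ).injective h5

private theorem D5b_mem [Fact p.Prime] (P : Sylow p Γ) (x y : Γ) :
    y ∈ ((x⁻¹ • P : Sylow p Γ) : Subgroup Γ) ↔ x * y * x⁻¹ ∈ (P : Subgroup Γ) := by
  rw [Sylow.coe_subgroup_smul, Subgroup.mem_smul_pointwise_iff_exists]
  constructor
  · rintro ⟨s, hs, rfl⟩
    simpa [MulAut.smul_def, mul_assoc] using hs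
  · intro h
    exact ⟨_, h, by simp [MulAut.smul_def, mul_assoc]⟩

/-- Conjugation of the tuples. -/
private def D5b_equiv [Fact p.Prime] {k : ℕ} (P : Sylow p Γ) (x : Γ) :
    (Fin k → (P : Subgroup Γ)) ≃ (Fin k → ((x⁻¹ • P : Sylow p Γ) : Subgroup Γ)) :=
  Equiv.piCongrRight fun _ =>
    { toFun := fun g => ⟨x⁻¹ * g * x, (D5b_mem P x _).2 (by simpa [mul_assoc] using g.2)⟩
      invFun := fun g => ⟨x * g * x⁻¹, (D5b_mem P x _).1 g.2⟩
      left_inv := fun g => Subtype.ext (by simp [mul_assoc])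
      right_inv := fun g => Subtype.ext (by simp [mul_assoc]) }

private theorem D5b_equiv_apply [Fact p.Prime] {k : ℕ} (P : Sylow p Γ) (x : Γ)
    (g : Fin k → (P : Subgroup Γ)) (i : Fin k) :
    ((D5b_equiv P x g i : ((x⁻¹ • P : Sylow p Γ) : Subgroup Γ)) : Γ) = x⁻¹ * g i * x := rfl

/-- The value of the word at the conjugated tuple fixes a point. -/
private def D5b_Fx {k : ℕ} (a : K₁ →* Equiv.Perm V) (u : List (Fin k × Bool)) (P : Subgroup Γ)
    (g : Fin k → P) (x : Γ) (ξ : V) : Prop :=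
  ∃ h : x⁻¹ * W (fun i => (g i : Γ)) u * x ∈ K₁, a ⟨_, h⟩ ξ = ξ

/-- The good part for fixed `x` and `v`. -/
private theorem D5b_good [Fact p.Prime] [Finite Γ] [Finite V] (hB : Based p K₁ a T)
    (P : Sylow p Γ) {k m : ℕ} (u : List (Fin k × Bool)) (hu : u ≠ [])
    (hred : FreeGroup.IsReduced u) (v : Fin m → Ω) (hv : ∀ t, ActsNontriv a (T (v t))) (x : Γ) :
    (Nat.card {y : (Fin k → (P : Subgroup Γ)) × V // Good (D5b_g (P : Subgroup Γ) (y.1, x)) u v ∧
        D5b_Fx a u (P : Subgroup Γ) y.1 x y.2} : ℝ) ≤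
      cp p ^ m * (Nat.card {g : Fin k → (P : Subgroup Γ) //
        x⁻¹ * W (fun i => (g i : Γ)) u * x ∈ K₁} * (Nat.card V : ℝ)) := by
  have h1 := hB.avg_bound (x⁻¹ • P) u hu hred v hv
  have e1 : Nat.card {g : Fin k → ((x⁻¹ • P : Sylow p Γ) : Subgroup Γ) //
      W (fun i => (g i : Γ)) u ∈ K₁} = Nat.card {g : Fin k → (P : Subgroup Γ) //
        x⁻¹ * W (fun i => (g i : Γ)) u * x ∈ K₁} := by
    refine (Nat.card_congr ((D5b_equiv P x).subtypeEquiv fun g => ?_)).symm
    simp only [D5b_equiv_apply]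
    rw [W_conj]
  have e2 : Nat.card {y : (Fin k → (P : Subgroup Γ)) × V //
      Good (D5b_g (P : Subgroup Γ) (y.1, x)) u v ∧ D5b_Fx a u (P : Subgroup Γ) y.1 x y.2} =
      Nat.card {q : (Fin k → ((x⁻¹ • P : Sylow p Γ) : Subgroup Γ)) × V //
        Good (fun i => (q.1 i : Γ)) u v ∧
        ∃ h : W (fun i => (q.1 i : Γ)) u ∈ K₁, a ⟨_, h⟩ q.2 = q.2} := by
    refine Nat.card_congr (((D5b_equiv P x).prodCongr (Equiv.refl V)).subtypeEquiv fun y => ?_)
    refine and_congr Iff.rfl ?_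
    have h2 : W (fun i => ((((D5b_equiv P x).prodCongr (Equiv.refl V)) y).1 i : Γ)) u
        = x⁻¹ * W (fun i => (y.1 i : Γ)) u * x := W_conj (fun i => (y.1 i : Γ)) x u
    unfold D5b_Fx
    simp only [h2]
    rfl
  rw [e1] at h1
  rw [e2]
  exact h1

/-- The bad part: pairs of a tuple and a family of points which are not good. -/
private theorem D5b_bad [Finite Γ] [Finite Ω] [MulAction.IsPretransitive Γ Ω] (v₀ : Ω)
    (P : Subgroup Γ) {k : ℕ} (u : List (Fin k × Bool)) (m : ℕ) (J : Set Ω) :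
    (Nat.card {z : ((Fin k → P) × Γ) × (Fin m → J) //
        ¬ Good (D5b_g P z.1) u (fun t => (z.2 t : Ω))} : ℝ) * Nat.card J ≤
      (m * ∑ j ∈ Finset.range (u.length + 1), ∑ i ∈ Finset.Ico 1 j,
        (Nat.card (phiSet P (MulAction.stabilizer Γ v₀) ((u.drop i).take (j - i))) : ℝ)) *
          (Nat.card J : ℝ) ^ m * Nat.card J +
      (m : ℝ) * ((m : ℝ) - 1) * (u.length : ℝ) ^ 2 *
        (Nat.card ((Fin k → P) × Γ) * (Nat.card J : ℝ) ^ m) := by
  classical
  have : Fintype Ω := Fintype.ofFinite Ω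
  have : Fintype J := Fintype.ofFinite J
  -- events
  let E1 : (Fin m × (_ : ℕ) × ℕ) → ((Fin k → P) × Γ) × (Fin m → J) → Prop := fun c z =>
    W (D5b_g P z.1) (u.drop c.2.2) • (z.2 c.1 : Ω) = W (D5b_g P z.1) (u.drop c.2.1) • (z.2 c.1 : Ω)
  let E2 : ((Fin m × Fin m) × (ℕ × ℕ)) → ((Fin k → P) × Γ) × (Fin m → J) → Prop := fun c z =>
    W (D5b_g P z.1) (u.drop c.2.1) • (z.2 c.1.1 : Ω) =
      W (D5b_g P z.1) (u.drop c.2.2) • (z.2 c.1.2 : Ω)
  let S1 : Finset (Fin m × (_ : ℕ) × ℕ) := Finset.univ ×ˢ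
    ((Finset.range (u.length + 1)).sigma fun j => Finset.Ico 1 j)
  let S2 : Finset ((Fin m × Fin m) × (ℕ × ℕ)) :=
    (Finset.univ : Finset (Fin m)).offDiag ×ˢ (Finset.Icc 1 u.length ×ˢ Finset.Icc 1 u.length)
  have hsub : ∀ z : ((Fin k → P) × Γ) × (Fin m → J),
      ¬ Good (D5b_g P z.1) u (fun t => (z.2 t : Ω)) → (∃ c ∈ S1, E1 c z) ∨ (∃ c ∈ S2, E2 c z) := by
    intro z hz
    unfold Good at hz
    push Not at hz
    obtain ⟨t, t', j, j', h1, h2, h3, h4, h5, h6⟩ := hz
    by_cases htt : t = t'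
    · subst htt
      have hjj : j ≠ j' := h6 rfl
      left
      rcases lt_or_gt_of_ne hjj with h | h
      · refine ⟨(t, ⟨j', j⟩), ?_, h5⟩
        simp only [S1, Finset.mem_product, Finset.mem_sigma, Finset.mem_range, Finset.mem_Ico]
        exact ⟨Finset.mem_univ _, by omega, by omega, by omega⟩
      · refine ⟨(t, ⟨j, j'⟩), ?_, h5.symm⟩
        simp only [S1, Finset.mem_product, Finset.mem_sigma, Finset.mem_range, Finset.mem_Ico]
        exact ⟨Finset.mem_univ _, by omega, by omega, by omega⟩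
    · right
      refine ⟨((t, t'), (j, j')), ?_, h5⟩
      simp only [S2, Finset.mem_product, Finset.mem_offDiag, Finset.mem_Icc]
      exact ⟨⟨Finset.mem_univ _, Finset.mem_univ _, htt⟩, ⟨h1, h2⟩, ⟨h3, h4⟩⟩
  have hcard := D5b_card_or hsub
  have hu1 := D5b_card_union S1 E1
  have hu2 := D5b_card_union S2 E2
  -- events of the first kind
  have hE1 : ∀ c ∈ S1, Nat.card {z // E1 c z} = Nat.card (phiSet P (MulAction.stabilizer Γ v₀)
      ((u.drop c.2.2).take (c.2.1 - c.2.2))) * Nat.card J ^ m := by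
    rintro ⟨t, j, i⟩ hc
    simp only [S1, Finset.mem_product, Finset.mem_sigma, Finset.mem_range, Finset.mem_Ico] at hc
    have happ : (u.drop i).take (j - i) ++ u.drop j = u.drop i := by
      have h7 : u.drop j = (u.drop i).drop (j - i) := by
        rw [List.drop_drop]
        congr 1
        omega
      rw [h7, List.take_append_drop]
    have h8 : Nat.card {z // E1 (t, ⟨j, i⟩) z} = ∑ v : Fin m → J,
        Nat.card {q : (Fin k → P) × Γ // W (D5b_g P q) (u.drop i) • (v t : Ω) =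
          W (D5b_g P q) (u.drop j) • (v t : Ω)} :=
      D5b_card_prod (fun (q : (Fin k → P) × Γ) (v : Fin m → J) =>
        W (D5b_g P q) (u.drop i) • (v t : Ω) = W (D5b_g P q) (u.drop j) • (v t : Ω))
    rw [h8]
    have h9 : ∀ v : Fin m → J, Nat.card {q : (Fin k → P) × Γ //
        W (D5b_g P q) (u.drop i) • (v t : Ω) = W (D5b_g P q) (u.drop j) • (v t : Ω)} =
        Nat.card (phiSet P (MulAction.stabilizer Γ v₀) ((u.drop i).take (j - i))) := by
      intro v
      have h10 := card_return_eq P ((u.drop i).take (j - i)) (u.drop j) (v t : Ω) v₀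
      rw [happ] at h10
      exact h10
    rw [Finset.sum_congr rfl fun v _ => h9 v, Finset.sum_const, Finset.card_univ, smul_eq_mul,
      Fintype.card_fun, Fintype.card_fin, mul_comm, Nat.card_eq_fintype_card (α := J)]
  -- events of the second kind
  have hE2 : ∀ c ∈ S2, Nat.card {z // E2 c z} * Nat.card J ≤
      Nat.card ((Fin k → P) × Γ) * Nat.card J ^ m := by
    rintro ⟨⟨t, t'⟩, j, j'⟩ hc
    simp only [S2, Finset.mem_product, Finset.mem_offDiag, Finset.mem_Icc] at hc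
    exact card_collision_le P J (Subtype.val) Subtype.val_injective (u.drop j) (u.drop j') t t'
      hc.1.2.2
  have hs1 : (∑ c ∈ S1, Nat.card {z // E1 c z} : ℕ) = m * (∑ j ∈ Finset.range (u.length + 1),
      ∑ i ∈ Finset.Ico 1 j, Nat.card (phiSet P (MulAction.stabilizer Γ v₀)
        ((u.drop i).take (j - i)))) * Nat.card J ^ m := by
    rw [Finset.sum_congr rfl hE1, Finset.sum_product]
    simp only [Finset.sum_sigma]
    rw [Finset.sum_const, Finset.card_univ, Fintype.card_fin, smul_eq_mul, mul_assoc,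
      Finset.sum_mul]
    congr 1
    refine Finset.sum_congr rfl fun j _ => ?_
    rw [Finset.sum_mul]
  have hs2 : (∑ c ∈ S2, Nat.card {z // E2 c z}) * Nat.card J ≤
      ((m * m - m) * (u.length * u.length)) * (Nat.card ((Fin k → P) × Γ) * Nat.card J ^ m) := by
    rw [Finset.sum_mul]
    refine (Finset.sum_le_sum hE2).trans ?_
    rw [Finset.sum_const, smul_eq_mul]
    apply le_of_eq
    congr 1
    simp [S2, Finset.card_product, Finset.offDiag_card]
  have h1 : Nat.card {z : ((Fin k → P) × Γ) × (Fin m → J) //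
        ¬ Good (D5b_g P z.1) u (fun t => (z.2 t : Ω))} * Nat.card J ≤
      m * (∑ j ∈ Finset.range (u.length + 1),
      ∑ i ∈ Finset.Ico 1 j, Nat.card (phiSet P (MulAction.stabilizer Γ v₀)
        ((u.drop i).take (j - i)))) * Nat.card J ^ m * Nat.card J +
      ((m * m - m) * (u.length * u.length)) * (Nat.card ((Fin k → P) × Γ) * Nat.card J ^ m) := by
    calc _ ≤ ((∑ c ∈ S1, Nat.card {z // E1 c z}) + ∑ c ∈ S2, Nat.card {z // E2 c z}) *
          Nat.card J := Nat.mul_le_mul_right _ (hcard.trans (Nat.add_le_add hu1 hu2))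
      _ = (∑ c ∈ S1, Nat.card {z // E1 c z}) * Nat.card J +
          (∑ c ∈ S2, Nat.card {z // E2 c z}) * Nat.card J := Nat.add_mul _ _ _
      _ ≤ _ := by
          rw [hs1]
          exact Nat.add_le_add_left hs2 _
  have h2 : ((m * m - m : ℕ) : ℝ) = (m : ℝ) * ((m : ℝ) - 1) := by
    rw [Nat.cast_sub (Nat.le_mul_self m)]
    push_cast
    ring
  have h3 : ((Nat.card {z : ((Fin k → P) × Γ) × (Fin m → J) //
        ¬ Good (D5b_g P z.1) u (fun t => (z.2 t : Ω))} * Nat.card J : ℕ) : ℝ) ≤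
      ((m * (∑ j ∈ Finset.range (u.length + 1),
      ∑ i ∈ Finset.Ico 1 j, Nat.card (phiSet P (MulAction.stabilizer Γ v₀)
        ((u.drop i).take (j - i)))) * Nat.card J ^ m * Nat.card J +
      ((m * m - m) * (u.length * u.length)) * (Nat.card ((Fin k → P) × Γ) * Nat.card J ^ m) :
        ℕ) : ℝ) := by exact_mod_cast h1
  push_cast at h3
  rw [Nat.cast_sub (Nat.le_mul_self m)] at h3
  push_cast at h3
  refine h3.trans (le_of_eq ?_)
  ring

/-- The main inequality (R). -/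
theorem Based.main_ineq [Fact p.Prime] [Finite Γ] [Finite Ω] [Finite V] [Nonempty V]
    (hB : Based p K₁ a T) (v₀ : Ω) (hv₀ : ActsNontriv a (T v₀)) (P : Sylow p Γ) {k : ℕ}
    (u : List (Fin k × Bool)) (hu : u ≠ []) (hred : FreeGroup.IsReduced u) (m : ℕ) :
    phiV (P : Subgroup Γ) K₁ a u ≤
      m * (∑ j ∈ Finset.range (u.length + 1), ∑ i ∈ Finset.Ico 1 j,
        phi (P : Subgroup Γ) (MulAction.stabilizer Γ v₀) ((u.drop i).take (j - i))) +
      (m : ℝ) * ((m : ℝ) - 1) * (u.length : ℝ) ^ 2 / Nat.card (MulAction.orbit K₁ v₀) +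
      cp p ^ m * phi (P : Subgroup Γ) K₁ u := by
  classical
  have := hB.trans
  have : Fintype Γ := Fintype.ofFinite Γ
  have : Fintype Ω := Fintype.ofFinite Ω
  have : Fintype V := Fintype.ofFinite V
  set J : Set Ω := MulAction.orbit K₁ v₀ with hJ
  have : Fintype J := Fintype.ofFinite J
  have hJne : Nonempty J := ⟨⟨v₀, MulAction.mem_orbit_self v₀⟩⟩
  have hJpos : (0 : ℝ) < Nat.card J := by exact_mod_cast Nat.card_pos
  have hVpos : (0 : ℝ) < Nat.card V := by exact_mod_cast Nat.card_pos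
  have hΓpos : (0 : ℝ) < Nat.card Γ := by exact_mod_cast Nat.card_pos
  have hPpos : (0 : ℝ) < Nat.card (P : Subgroup Γ) := by exact_mod_cast Nat.card_pos
  have hA : (Nat.card ((Fin k → (P : Subgroup Γ)) × Γ) : ℝ) =
      (Nat.card (P : Subgroup Γ) : ℝ) ^ k * Nat.card Γ := by
    rw [Nat.card_prod, Nat.card_fun]
    push_cast
    simp
  have hcard1 : Nat.card {q : (Fin k → (P : Subgroup Γ)) × Γ × V //
      q.2 ∈ fixSet K₁ a (W (fun i => (q.1 i : Γ)) u)} =
      ∑ x : Γ, Nat.card {y : (Fin k → (P : Subgroup Γ)) × V //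
        D5b_Fx a u (P : Subgroup Γ) y.1 x y.2} := by
    rw [← D5b_card_prod (fun (y : (Fin k → (P : Subgroup Γ)) × V) (x : Γ) =>
      D5b_Fx a u (P : Subgroup Γ) y.1 x y.2)]
    refine Nat.card_congr (Equiv.subtypeEquiv
      { toFun := fun q => ((q.1, q.2.2), q.2.1)
        invFun := fun z => (z.1.1, z.2, z.1.2)
        left_inv := fun _ => rfl
        right_inv := fun _ => rfl } fun q => Iff.rfl)
  have hcard2 : Nat.card (phiSet (P : Subgroup Γ) K₁ u) =
      ∑ x : Γ, Nat.card {g : Fin k → (P : Subgroup Γ) //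
        x⁻¹ * W (fun i => (g i : Γ)) u * x ∈ K₁} :=
    D5b_card_prod (fun (g : Fin k → (P : Subgroup Γ)) (x : Γ) =>
      x⁻¹ * W (fun i => (g i : Γ)) u * x ∈ K₁)
  have hcard3 : Nat.card {z : ((Fin k → (P : Subgroup Γ)) × Γ) × (Fin m → J) //
        ¬ Good (D5b_g (P : Subgroup Γ) z.1) u (fun t => (z.2 t : Ω))} =
      ∑ v : Fin m → J, ∑ x : Γ, Nat.card {g : Fin k → (P : Subgroup Γ) //
        ¬ Good (D5b_g (P : Subgroup Γ) (g, x)) u (fun t => (v t : Ω))} := by
    rw [D5b_card_prod (fun (q : (Fin k → (P : Subgroup Γ)) × Γ) (v : Fin m → J) =>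
      ¬ Good (D5b_g (P : Subgroup Γ) q) u (fun t => (v t : Ω)))]
    refine Finset.sum_congr rfl fun v _ => ?_
    exact D5b_card_prod (fun (g : Fin k → (P : Subgroup Γ)) (x : Γ) =>
      ¬ Good (D5b_g (P : Subgroup Γ) (g, x)) u (fun t => (v t : Ω)))
  -- for fixed `x` and `v`
  have hpt : ∀ (v : Fin m → J) (x : Γ), (Nat.card {y : (Fin k → (P : Subgroup Γ)) × V //
        D5b_Fx a u (P : Subgroup Γ) y.1 x y.2} : ℝ) ≤
      cp p ^ m * (Nat.card {g : Fin k → (P : Subgroup Γ) //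
        x⁻¹ * W (fun i => (g i : Γ)) u * x ∈ K₁} * (Nat.card V : ℝ)) +
      Nat.card {g : Fin k → (P : Subgroup Γ) //
        ¬ Good (D5b_g (P : Subgroup Γ) (g, x)) u (fun t => (v t : Ω))} * (Nat.card V : ℝ) := by
    intro v x
    have h1 := D5b_good hB P u hu hred (fun t => (v t : Ω))
      (fun t => D5b_actsNontriv hB v₀ hv₀ (v t)) x
    have h2 : Nat.card {y : (Fin k → (P : Subgroup Γ)) × V //
        D5b_Fx a u (P : Subgroup Γ) y.1 x y.2} ≤
        Nat.card {y : (Fin k → (P : Subgroup Γ)) × V //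
          Good (D5b_g (P : Subgroup Γ) (y.1, x)) u (fun t => (v t : Ω)) ∧
          D5b_Fx a u (P : Subgroup Γ) y.1 x y.2} +
        Nat.card {y : (Fin k → (P : Subgroup Γ)) × V //
          ¬ Good (D5b_g (P : Subgroup Γ) (y.1, x)) u (fun t => (v t : Ω))} := by
      apply D5b_card_or
      intro y hy
      by_cases hg : Good (D5b_g (P : Subgroup Γ) (y.1, x)) u (fun t => (v t : Ω))
      · exact Or.inl ⟨hg, hy⟩
      · exact Or.inr hg
    have h3 : Nat.card {y : (Fin k → (P : Subgroup Γ)) × V //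
          ¬ Good (D5b_g (P : Subgroup Γ) (y.1, x)) u (fun t => (v t : Ω))} =
        Nat.card {g : Fin k → (P : Subgroup Γ) //
          ¬ Good (D5b_g (P : Subgroup Γ) (g, x)) u (fun t => (v t : Ω))} * Nat.card V := by
      rw [D5b_card_prod (fun (g : Fin k → (P : Subgroup Γ)) (_ : V) =>
        ¬ Good (D5b_g (P : Subgroup Γ) (g, x)) u (fun t => (v t : Ω)))]
      rw [Finset.sum_const, Finset.card_univ, smul_eq_mul, mul_comm,
        Nat.card_eq_fintype_card (α := V)]
    rw [h3] at h2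
    have h4 : ((Nat.card {y : (Fin k → (P : Subgroup Γ)) × V //
        D5b_Fx a u (P : Subgroup Γ) y.1 x y.2} : ℕ) : ℝ) ≤
        ((Nat.card {y : (Fin k → (P : Subgroup Γ)) × V //
          Good (D5b_g (P : Subgroup Γ) (y.1, x)) u (fun t => (v t : Ω)) ∧
          D5b_Fx a u (P : Subgroup Γ) y.1 x y.2} +
        Nat.card {g : Fin k → (P : Subgroup Γ) //
          ¬ Good (D5b_g (P : Subgroup Γ) (g, x)) u (fun t => (v t : Ω))} * Nat.card V : ℕ) : ℝ) := by
      exact_mod_cast h2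
    push_cast at h4
    linarith
  -- summation
  have hJm : (Fintype.card (Fin m → J) : ℝ) = (Nat.card J : ℝ) ^ m := by
    rw [Fintype.card_fun, Fintype.card_fin, Nat.card_eq_fintype_card]
    push_cast
    rfl
  have hsum : (Nat.card J : ℝ) ^ m * (Nat.card {q : (Fin k → (P : Subgroup Γ)) × Γ × V //
      q.2 ∈ fixSet K₁ a (W (fun i => (q.1 i : Γ)) u)} : ℝ) ≤
      (Nat.card J : ℝ) ^ m * (cp p ^ m * (Nat.card (phiSet (P : Subgroup Γ) K₁ u) *
        (Nat.card V : ℝ))) +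
      Nat.card {z : ((Fin k → (P : Subgroup Γ)) × Γ) × (Fin m → J) //
        ¬ Good (D5b_g (P : Subgroup Γ) z.1) u (fun t => (z.2 t : Ω))} * (Nat.card V : ℝ) := by
    rw [hcard1, hcard2, hcard3]
    push_cast
    calc (Nat.card J : ℝ) ^ m * ∑ x : Γ, (Nat.card {y : (Fin k → (P : Subgroup Γ)) × V //
          D5b_Fx a u (P : Subgroup Γ) y.1 x y.2} : ℝ)
        = ∑ _v : Fin m → J, ∑ x : Γ, (Nat.card {y : (Fin k → (P : Subgroup Γ)) × V //
          D5b_Fx a u (P : Subgroup Γ) y.1 x y.2} : ℝ) := by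
          rw [Finset.sum_const, Finset.card_univ, nsmul_eq_mul, hJm]
      _ ≤ ∑ v : Fin m → J, ∑ x : Γ, (cp p ^ m * (Nat.card {g : Fin k → (P : Subgroup Γ) //
          x⁻¹ * W (fun i => (g i : Γ)) u * x ∈ K₁} * (Nat.card V : ℝ)) +
          Nat.card {g : Fin k → (P : Subgroup Γ) //
          ¬ Good (D5b_g (P : Subgroup Γ) (g, x)) u (fun t => (v t : Ω))} *
            (Nat.card V : ℝ)) :=
          Finset.sum_le_sum fun v _ => Finset.sum_le_sum fun x _ => hpt v x
      _ = _ := by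
          simp only [Finset.sum_add_distrib]
          rw [Finset.sum_const, Finset.card_univ, nsmul_eq_mul, hJm, ← Finset.mul_sum,
            ← Finset.sum_mul]
          simp only [← Finset.sum_mul]
  have hbad := D5b_bad v₀ (P : Subgroup Γ) u m J
  set N1 : ℝ := (Nat.card {q : (Fin k → (P : Subgroup Γ)) × Γ × V //
      q.2 ∈ fixSet K₁ a (W (fun i => (q.1 i : Γ)) u)} : ℝ) with hN1
  set B : ℝ := (Nat.card {z : ((Fin k → (P : Subgroup Γ)) × Γ) × (Fin m → J) //
        ¬ Good (D5b_g (P : Subgroup Γ) z.1) u (fun t => (z.2 t : Ω))} : ℝ) with hBdef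
  set S : ℝ := ∑ j ∈ Finset.range (u.length + 1), ∑ i ∈ Finset.Ico 1 j,
    (Nat.card (phiSet (P : Subgroup Γ) (MulAction.stabilizer Γ v₀)
      ((u.drop i).take (j - i))) : ℝ) with hS
  set A : ℝ := (Nat.card (P : Subgroup Γ) : ℝ) ^ k * Nat.card Γ with hAdef
  have hApos : 0 < A := by positivity
  rw [hA] at hbad
  have hphi : ∑ j ∈ Finset.range (u.length + 1), ∑ i ∈ Finset.Ico 1 j,
        phi (P : Subgroup Γ) (MulAction.stabilizer Γ v₀) ((u.drop i).take (j - i)) = S / A := by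
    rw [hS, Finset.sum_div]
    refine Finset.sum_congr rfl fun j _ => ?_
    rw [Finset.sum_div]
    rfl
  have hphiV : phiV (P : Subgroup Γ) K₁ a u = N1 / (A * Nat.card V) := rfl
  have hphiK : phi (P : Subgroup Γ) K₁ u = Nat.card (phiSet (P : Subgroup Γ) K₁ u) / A := rfl
  rw [hphi, hphiV, hphiK, div_le_iff₀ (by positivity)]
  have hJmpos : (0 : ℝ) < (Nat.card J : ℝ) ^ m := by positivity
  have hfin : (Nat.card J : ℝ) ^ m * Nat.card J * N1 ≤ (Nat.card J : ℝ) ^ m * Nat.card J *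
      ((m * (S / A) + (m : ℝ) * ((m : ℝ) - 1) * (u.length : ℝ) ^ 2 / Nat.card J +
        cp p ^ m * (Nat.card (phiSet (P : Subgroup Γ) K₁ u) / A)) * (A * Nat.card V)) := by
    have h5 : (Nat.card J : ℝ) ^ m * Nat.card J * N1 ≤
        (Nat.card J : ℝ) * ((Nat.card J : ℝ) ^ m * (cp p ^ m *
          (Nat.card (phiSet (P : Subgroup Γ) K₁ u) * (Nat.card V : ℝ)))) +
        (B * Nat.card J) * Nat.card V := by
      have := mul_le_mul_of_nonneg_left hsum hJpos.le
      linarith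
    have h6 := mul_le_mul_of_nonneg_right hbad hVpos.le
    refine (h5.trans (add_le_add_right h6 _)).trans (le_of_eq ?_)
    field_simp
    ring
  exact le_of_mul_le_mul_left hfin (by positivity)

/-- The inequality (R) for one strand. -/
theorem Based.main_ineq_one [Fact p.Prime] [Finite Γ] [Finite Ω] [Finite V] [Nonempty V]
    (hB : Based p K₁ a T) (v₀ : Ω) (hv₀ : ActsNontriv a (T v₀)) (P : Sylow p Γ) {k : ℕ}
    (u : List (Fin k × Bool)) (hu : u ≠ []) (hred : FreeGroup.IsReduced u) :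
    phiV (P : Subgroup Γ) K₁ a u ≤
      (∑ j ∈ Finset.range (u.length + 1), ∑ i ∈ Finset.Ico 1 j,
        phi (P : Subgroup Γ) (MulAction.stabilizer Γ v₀) ((u.drop i).take (j - i))) +
      cp p * phi (P : Subgroup Γ) K₁ u := by
  have h := hB.main_ineq v₀ hv₀ P u hu hred 1
  simpa using h

end

end LibKS
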