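import Pool.Agent.LibKS.D5

set_option autoImplicit false

namespace LibKS

/-- The number of elements of the preimage of a set under a surjective homomorphism. -/
private theorem D6_card_preimage {A B : Type} [Group A] [Group B] [Finite A] (Φ : A →* B)
    (hΦ : Function.Surjective Φ) (S : Set B) :
    Nat.card (Φ ⁻¹' S : Set A) = Nat.card S * Nat.card Φ.ker := by
  classical
  rw [← Nat.card_prod]
  refine Nat.card_congr
    { toFun := fun x => (⟨Φ x.1, x.2⟩, ⟨(Function.surjInv hΦ (Φ x.1))⁻¹ * x.1, ?_⟩)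
      invFun := fun y => ⟨Function.surjInv hΦ y.1.1 * y.2.1, ?_⟩
      left_inv := ?_
      right_inv := ?_ }
  · rw [MonoidHom.mem_ker, map_mul, map_inv, Function.surjInv_eq hΦ, inv_mul_cancel]
  · have h : Φ (Function.surjInv hΦ y.1.1 * y.2.1) = y.1.1 := by
      rw [map_mul, Function.surjInv_eq hΦ, (MonoidHom.mem_ker).1 y.2.2, mul_one]
    rw [Set.mem_preimage, h]
    exact y.1.2
  · intro x
    apply Subtype.ext
    simp
  · rintro ⟨⟨b, hb⟩, ⟨c, hc⟩⟩
    have h : Φ (Function.surjInv hΦ b * c) = b := by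
      rw [map_mul, Function.surjInv_eq hΦ, (MonoidHom.mem_ker).1 hc, mul_one]
    apply Prod.ext
    · apply Subtype.ext
      exact h
    · apply Subtype.ext
      change (Function.surjInv hΦ (Φ (Function.surjInv hΦ b * c)))⁻¹ *
        (Function.surjInv hΦ b * c) = c
      rw [h]
      group

private theorem D6_card {A B : Type} [Group A] [Group B] [Finite A] (Φ : A →* B)
    (hΦ : Function.Surjective Φ) : Nat.card A = Nat.card B * Nat.card Φ.ker := by
  have h := D6_card_preimage Φ hΦ Set.univ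
  rw [Set.preimage_univ, Nat.card_congr (Equiv.Set.univ A), Nat.card_congr (Equiv.Set.univ B)] at h
  exact h

/-- Componentwise image of a tuple. -/
private def D6_tup {G Γ : Type} [Group G] [Group Γ] (ρ : G →* Γ) (P : Subgroup G) (k : ℕ) :
    (Fin k → P) →* (Fin k → P.map ρ) where
  toFun g i := ⟨ρ (g i), (g i).1, (g i).2, rfl⟩
  map_one' := by
    funext i
    apply Subtype.ext
    simp
  map_mul' g h := by
    funext i
    apply Subtype.ext
    simp

private theorem D6_tup_surjective {G Γ : Type} [Group G] [Group Γ] (ρ : G →* Γ)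
    (P : Subgroup G) (k : ℕ) : Function.Surjective (D6_tup ρ P k) := by
  intro g
  choose h hP hh using fun i => (g i).2
  refine ⟨fun i => ⟨h i, hP i⟩, ?_⟩
  funext i
  apply Subtype.ext
  exact hh i

private theorem D6_W_tup {G Γ : Type} [Group G] [Group Γ] (ρ : G →* Γ)
    (P : Subgroup G) {k : ℕ} (g : Fin k → P) (u : List (Fin k × Bool)) :
    W (fun i => ((D6_tup ρ P k g i : P.map ρ) : Γ)) u = ρ (W (fun i => (g i : G)) u) :=
  W_map ρ (fun i => (g i : G)) u

/-- The value of `phi` does not change under a surjective homomorphism whose kernel is contained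
in the subgroup. -/
theorem phi_map {p : ℕ} [Fact p.Prime] {G Γ : Type} [Group G] [Group Γ] [Finite G]
    (ρ : G →* Γ) (hρ : Function.Surjective ρ) (P : Subgroup G) (K : Subgroup Γ) {k : ℕ}
    (u : List (Fin k × Bool)) : phi (P.map ρ) K u = phi P (K.comap ρ) u := by
  classical
  have hfin : Finite Γ := Finite.of_surjective ρ hρ
  have hfP : Finite (P.map ρ) := inferInstance
  let Φ : (Fin k → P) × G →* (Fin k → P.map ρ) × Γ := (D6_tup ρ P k).prodMap ρ
  have hΦ : Function.Surjective Φ := by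
    rintro ⟨g, x⟩
    obtain ⟨g', rfl⟩ := D6_tup_surjective ρ P k g
    obtain ⟨x', rfl⟩ := hρ x
    exact ⟨(g', x'), rfl⟩
  have hset : (Φ ⁻¹' (phiSet (P.map ρ) K u) : Set ((Fin k → P) × G)) =
      phiSet P (K.comap ρ) u := by
    ext ⟨g, x⟩
    change (ρ x)⁻¹ * W (fun i => ((D6_tup ρ P k g i : P.map ρ) : Γ)) u * ρ x ∈ K ↔
      x⁻¹ * W (fun i => (g i : G)) u * x ∈ K.comap ρ
    rw [D6_W_tup, Subgroup.mem_comap, map_mul, map_mul, map_inv]
  have h1 := D6_card_preimage Φ hΦ (phiSet (P.map ρ) K u)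
  rw [hset] at h1
  have h2 := D6_card Φ hΦ
  have hk : 0 < Nat.card Φ.ker := Nat.card_pos
  have e1 : ((Nat.card P : ℝ)) ^ k * (Nat.card G : ℝ) = (Nat.card ((Fin k → P) × G) : ℝ) := by
    rw [Nat.card_prod, Nat.card_pi]
    simp
  have e2 : ((Nat.card (P.map ρ) : ℝ)) ^ k * (Nat.card Γ : ℝ) =
      (Nat.card ((Fin k → P.map ρ) × Γ) : ℝ) := by
    rw [Nat.card_prod, Nat.card_pi]
    simp
  unfold phi
  rw [e1, e2, h1, h2]
  push_cast
  have hk' : (Nat.card Φ.ker : ℝ) ≠ 0 := by
    exact_mod_cast hk.ne'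
  rw [mul_div_mul_right _ _ hk']

/-- From the inequality for single elements to the average. -/
theorem phi_le_phiV {G Γ : Type} [Group G] [Group Γ] [Finite G]
    (ρ : G →* Γ) (hρ : Function.Surjective ρ) (K : Subgroup G) (K₁ : Subgroup Γ) {V : Type}
    [Finite V] [Nonempty V] (a : K₁ →* Equiv.Perm V)
    (hineq : ∀ γ : G, Nat.card {x : G // x⁻¹ * γ * x ∈ K} * (Nat.card Γ * Nat.card V) ≤
      Nat.card (fixSet K₁ a (ρ γ)) * Nat.card G) (P : Subgroup G) {k : ℕ}
    (u : List (Fin k × Bool)) : phi P K u ≤ phiV (P.map ρ) K₁ a u := by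
  classical
  have hfin : Finite Γ := Finite.of_surjective ρ hρ
  have hfP : Finite (P.map ρ) := inferInstance
  -- the homomorphism on tuples, with an extra trivial factor for the other data
  let Φ := D6_tup ρ P k
  have hΦ : Function.Surjective Φ := D6_tup_surjective ρ P k
  have hk : 0 < Nat.card Φ.ker := Nat.card_pos
  have hcard := D6_card Φ hΦ
  have : Fintype (Fin k → P) := Fintype.ofFinite _
  have : Fintype (Fin k → P.map ρ) := Fintype.ofFinite _
  -- the numerator of `phi`
  have hA : Nat.card (phiSet P K u) = ∑ g : Fin k → P,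
      Nat.card {x : G // x⁻¹ * W (fun i => (g i : G)) u * x ∈ K} := by
    rw [← Nat.card_sigma]
    refine Nat.card_congr
      { toFun := fun y => ⟨y.1.1, ⟨y.1.2, y.2⟩⟩
        invFun := fun y => ⟨(y.1, y.2.1), y.2.2⟩
        left_inv := fun _ => rfl
        right_inv := fun _ => rfl }
  -- the numerator of `phiV`
  have hB : Nat.card {q : (Fin k → P.map ρ) × Γ × V //
        q.2 ∈ fixSet K₁ a (W (fun i => (q.1 i : Γ)) u)} = ∑ g : Fin k → P.map ρ,
      Nat.card (fixSet K₁ a (W (fun i => (g i : Γ)) u)) := by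
    rw [← Nat.card_sigma]
    refine Nat.card_congr
      { toFun := fun y => ⟨y.1.1, ⟨y.1.2, y.2⟩⟩
        invFun := fun y => ⟨(y.1, y.2.1), y.2.2⟩
        left_inv := fun _ => rfl
        right_inv := fun _ => rfl }
  -- the sum over the tuples of `P`
  have hsum : ∑ g : Fin k → P, Nat.card (fixSet K₁ a (ρ (W (fun i => (g i : G)) u))) =
      Nat.card Φ.ker * ∑ g : Fin k → P.map ρ,
        Nat.card (fixSet K₁ a (W (fun i => (g i : Γ)) u)) := by
    rw [Finset.mul_sum, ← Finset.sum_fiberwise_of_maps_to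
      (s := Finset.univ) (t := Finset.univ) (g := fun g => Φ g) (fun _ _ => Finset.mem_univ _)]
    refine Finset.sum_congr rfl fun g' _ => ?_
    have hc : (Finset.univ.filter fun g : Fin k → P => Φ g = g').card = Nat.card Φ.ker := by
      have h := D6_card_preimage Φ hΦ {g'}
      have h1 : Nat.card ({g'} : Set (Fin k → P.map ρ)) = 1 := by simp
      rw [h1, one_mul] at h
      rw [← h, Nat.card_eq_fintype_card, Fintype.card_of_subtype]
      intro x
      simp
    rw [← hc, ← smul_eq_mul, ← Finset.sum_const]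
    refine Finset.sum_congr rfl fun g hg => ?_
    rw [Finset.mem_filter] at hg
    rw [← hg.2]
    congr 2
    rw [← D6_W_tup]
  have hle : Nat.card (phiSet P K u) * (Nat.card Γ * Nat.card V) ≤
      (Nat.card Φ.ker * Nat.card {q : (Fin k → P.map ρ) × Γ × V //
        q.2 ∈ fixSet K₁ a (W (fun i => (q.1 i : Γ)) u)}) * Nat.card G := by
    rw [hA, hB, ← hsum, Finset.sum_mul, Finset.sum_mul]
    exact Finset.sum_le_sum fun g _ => hineq _
  have e1 : ((Nat.card P : ℝ)) ^ k = (Nat.card (Fin k → P) : ℝ) := by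
    rw [Nat.card_pi]
    simp
  have e2 : ((Nat.card (P.map ρ) : ℝ)) ^ k = (Nat.card (Fin k → P.map ρ) : ℝ) := by
    rw [Nat.card_pi]
    simp
  unfold phi phiV
  rw [e1, e2, hcard]
  have p1 : (0 : ℝ) < Nat.card (Fin k → P.map ρ) := by
    exact_mod_cast (Nat.card_pos : 0 < Nat.card (Fin k → P.map ρ))
  have p2 : (0 : ℝ) < Nat.card Φ.ker := by exact_mod_cast hk
  have p3 : (0 : ℝ) < Nat.card G := by exact_mod_cast (Nat.card_pos : 0 < Nat.card G)
  have p4 : (0 : ℝ) < Nat.card Γ := by exact_mod_cast (Nat.card_pos : 0 < Nat.card Γ)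
  have p5 : (0 : ℝ) < Nat.card V := by exact_mod_cast (Nat.card_pos : 0 < Nat.card V)
  have hle' : (Nat.card (phiSet P K u) : ℝ) * (Nat.card Γ * Nat.card V) ≤
      (Nat.card Φ.ker * (Nat.card {q : (Fin k → P.map ρ) × Γ × V //
        q.2 ∈ fixSet K₁ a (W (fun i => (q.1 i : Γ)) u)} : ℝ)) * Nat.card G := by
    exact_mod_cast hle
  push_cast
  rw [div_le_div_iff₀ (by positivity) (by positivity)]
  have := mul_le_mul_of_nonneg_left hle' p1.le
  linarith

end LibKS
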