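import Pool.Agent.LibKS.D6
import Pool.Agent.LibKS.D5b
import Pool.Agent.LibKS.B3
import Pool.Agent.LibKS.A8b
import Pool.Agent.LibKS.A12b

set_option autoImplicit false

namespace LibKS

/-- Theorem M for the word `u`. -/
def ThmM (p : ℕ) {k : ℕ} (u : List (Fin k × Bool)) : Prop :=
  ∀ ε : ℝ, 0 < ε → ∃ n : ℕ, ∀ (F : GoodClass p) (G : Type) [Group G] [Finite G],
    NilClass F G → OutHyp F G → ¬ PL F n G → ∀ K : Subgroup G, K.normalCore = ⊥ →
      ∀ P : Sylow p G, phi (P : Subgroup G) K u ≤ ε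

private theorem D6b_core_map {Γ : Type} [Group Γ] (Z K : Subgroup Γ) [Z.Normal]
    (hZK : Z ≤ K) (h : ∀ y : Γ, (∀ γ : Γ, γ * y * γ⁻¹ ∈ K) → y ∈ Z) :
    (K.map (QuotientGroup.mk' Z)).normalCore = ⊥ := by
  have hcm : (K.map (QuotientGroup.mk' Z)).comap (QuotientGroup.mk' Z) = K :=
    Subgroup.comap_map_eq_self (by rw [QuotientGroup.ker_mk']; exact hZK)
  rw [eq_bot_iff]
  intro x hx
  obtain ⟨y, rfl⟩ := QuotientGroup.mk'_surjective Z x
  have hx' : ∀ b : Γ ⧸ Z, b * (QuotientGroup.mk' Z y) * b⁻¹ ∈ K.map (QuotientGroup.mk' Z) := hx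
  have hy : y ∈ Z := by
    apply h
    intro γ
    have := hx' (QuotientGroup.mk' Z γ)
    rw [← map_inv, ← map_mul, ← map_mul] at this
    rw [← hcm]
    exact this
  rw [Subgroup.mem_bot]
  exact (QuotientGroup.eq_one_iff y).mpr hy

private theorem D6b_phi_quot {p : ℕ} [Fact p.Prime] {Γ : Type} [Group Γ] [Finite Γ]
    (Z K : Subgroup Γ) [Z.Normal] (hZK : Z ≤ K) (P : Subgroup Γ) {k : ℕ}
    (u : List (Fin k × Bool)) :
    phi (P.map (QuotientGroup.mk' Z)) (K.map (QuotientGroup.mk' Z)) u = phi P K u := by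
  have hcm : (K.map (QuotientGroup.mk' Z)).comap (QuotientGroup.mk' Z) = K :=
    Subgroup.comap_map_eq_self (by rw [QuotientGroup.ker_mk']; exact hZK)
  rw [phi_map (p := p) (QuotientGroup.mk' Z) (QuotientGroup.mk'_surjective Z) P
    (K.map (QuotientGroup.mk' Z)) u, hcm]

/-- Bound of the double sum. -/
private theorem D6b_sum_le (r : ℕ) (g : ℕ → ℕ → ℝ) (e : ℝ) (he : 0 ≤ e)
    (hg : ∀ i j, 1 ≤ i → i < j → j ≤ r → g i j ≤ e) :
    ∑ j ∈ Finset.range (r + 1), ∑ i ∈ Finset.Ico 1 j, g i j ≤ ((r : ℝ) + 1) ^ 2 * e := by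
  have h1 : ∀ j ∈ Finset.range (r + 1), ∑ i ∈ Finset.Ico 1 j, g i j ≤ ((r : ℝ) + 1) * e := by
    intro j hj
    have hj' : j ≤ r := by
      have := Finset.mem_range.mp hj
      omega
    calc ∑ i ∈ Finset.Ico 1 j, g i j ≤ ∑ i ∈ Finset.Ico 1 j, e := by
          apply Finset.sum_le_sum
          intro i hi
          rw [Finset.mem_Ico] at hi
          exact hg i j hi.1 hi.2 hj'
      _ = ((j - 1 : ℕ) : ℝ) * e := by
          rw [Finset.sum_const, Nat.card_Ico, nsmul_eq_mul]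
      _ ≤ ((r : ℝ) + 1) * e := by
          apply mul_le_mul_of_nonneg_right _ he
          have : ((j - 1 : ℕ) : ℝ) ≤ (r : ℝ) := by
            exact_mod_cast (by omega : j - 1 ≤ r)
          linarith
  calc ∑ j ∈ Finset.range (r + 1), ∑ i ∈ Finset.Ico 1 j, g i j
      ≤ ∑ j ∈ Finset.range (r + 1), ((r : ℝ) + 1) * e := Finset.sum_le_sum h1
    _ = ((r : ℝ) + 1) ^ 2 * e := by
        rw [Finset.sum_const, Finset.card_range, nsmul_eq_mul]
        push_cast
        ring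

/-- Step of the iteration: either the average is small or one passes to a smaller group with a
contraction. -/
theorem step {p : ℕ} [Fact p.Prime] {k : ℕ} (u : List (Fin k × Bool)) (hu : u ≠ [])
    (hred : FreeGroup.IsReduced u)
    (ih : ∀ i j, 1 ≤ i → i < j → j ≤ u.length → ThmM p ((u.drop i).take (j - i)))
    (ε δ : ℝ) (hε : 0 < ε) (hδ : 0 < δ) :
    ∃ c : ℕ, ∀ (n : ℕ) (F : GoodClass p) (G : Type) [Group G] [Finite G],
      NilClass F G → OutHyp F G → ¬ PL F (n + c) G → ∀ K : Subgroup G, K.normalCore = ⊥ →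
      ∀ P : Sylow p G, phi (P : Subgroup G) K u ≤ ε ∨
        ∃ (G' : Type) (_ : Group G') (_ : Finite G') (K' : Subgroup G') (P' : Sylow p G'),
          NilClass F G' ∧ OutHyp F G' ∧ ¬ PL F n G' ∧ K'.normalCore = ⊥ ∧
          phi (P : Subgroup G) K u ≤ δ + cp p * phi (P' : Subgroup G') K' u := by
  have hpp : p.Prime := Fact.out
  have hcp0 : 0 < cp p := cp_pos hpp
  have hcp1 : cp p < 1 := cp_lt_one hpp
  -- the exponent m
  obtain ⟨m, hm⟩ := exists_pow_lt_of_lt_one (show (0 : ℝ) < ε / 3 by positivity) hcp1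
  -- the bound for the orbit
  obtain ⟨κ₀, hκ₀⟩ := exists_nat_gt
    (3 * ((m : ℝ) * ((m : ℝ) - 1) * (u.length : ℝ) ^ 2) / ε)
  set r : ℕ := u.length with hr
  -- the small constant
  obtain ⟨ε', hε', hε1, hε2⟩ : ∃ ε' : ℝ, 0 < ε' ∧
      (m : ℝ) * (((r : ℝ) + 1) ^ 2 * ε') ≤ ε / 3 ∧ ((r : ℝ) + 1) ^ 2 * ε' ≤ δ := by
    refine ⟨min (ε / (3 * ((m : ℝ) + 1) * ((r : ℝ) + 1) ^ 2)) (δ / ((r : ℝ) + 1) ^ 2),
      lt_min (by positivity) (by positivity), ?_, ?_⟩
    · have h1 : ((r : ℝ) + 1) ^ 2 *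
          min (ε / (3 * ((m : ℝ) + 1) * ((r : ℝ) + 1) ^ 2)) (δ / ((r : ℝ) + 1) ^ 2) ≤
          ((r : ℝ) + 1) ^ 2 * (ε / (3 * ((m : ℝ) + 1) * ((r : ℝ) + 1) ^ 2)) :=
        mul_le_mul_of_nonneg_left (min_le_left _ _) (by positivity)
      calc (m : ℝ) * (((r : ℝ) + 1) ^ 2 *
          min (ε / (3 * ((m : ℝ) + 1) * ((r : ℝ) + 1) ^ 2)) (δ / ((r : ℝ) + 1) ^ 2))
          ≤ ((m : ℝ) + 1) * (((r : ℝ) + 1) ^ 2 *
            (ε / (3 * ((m : ℝ) + 1) * ((r : ℝ) + 1) ^ 2))) := by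
            apply mul_le_mul (by linarith) h1 _ (by positivity)
            have : 0 < min (ε / (3 * ((m : ℝ) + 1) * ((r : ℝ) + 1) ^ 2))
              (δ / ((r : ℝ) + 1) ^ 2) := lt_min (by positivity) (by positivity)
            positivity
        _ = ε / 3 := by
            field_simp
    · calc ((r : ℝ) + 1) ^ 2 *
          min (ε / (3 * ((m : ℝ) + 1) * ((r : ℝ) + 1) ^ 2)) (δ / ((r : ℝ) + 1) ^ 2) ≤
          ((r : ℝ) + 1) ^ 2 * (δ / ((r : ℝ) + 1) ^ 2) :=
            mul_le_mul_of_nonneg_left (min_le_right _ _) (by positivity)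
        _ = δ := by
            field_simp
  -- the constants of the subwords
  have hex : ∀ i j : ℕ, ∃ n : ℕ, 1 ≤ i → i < j → j ≤ r →
      ∀ (F : GoodClass p) (G : Type) [Group G] [Finite G],
        NilClass F G → OutHyp F G → ¬ PL F n G → ∀ K : Subgroup G, K.normalCore = ⊥ →
          ∀ P : Sylow p G, phi (P : Subgroup G) K ((u.drop i).take (j - i)) ≤ ε' := by
    intro i j
    by_cases h : 1 ≤ i ∧ i < j ∧ j ≤ r
    · obtain ⟨n, hn⟩ := ih i j h.1 h.2.1 h.2.2 ε' hε'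
      exact ⟨n, fun _ _ _ => hn⟩
    · exact ⟨0, fun h1 h2 h3 => absurd ⟨h1, h2, h3⟩ h⟩
  choose N hN using hex
  set M₀ : ℕ := ∑ i ∈ Finset.range (r + 1), ∑ j ∈ Finset.range (r + 1), N i j with hM₀
  have hNM : ∀ i j, i < j → j ≤ r → N i j ≤ M₀ := by
    intro i j hij hj
    have h1 : N i j ≤ ∑ j ∈ Finset.range (r + 1), N i j :=
      Finset.single_le_sum (f := fun j => N i j) (fun _ _ => Nat.zero_le _)
        (Finset.mem_range.mpr (by omega))
    have h2 : ∑ j ∈ Finset.range (r + 1), N i j ≤ M₀ :=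
      Finset.single_le_sum (f := fun i => ∑ j ∈ Finset.range (r + 1), N i j)
        (fun _ _ => Nat.zero_le _) (Finset.mem_range.mpr (by omega))
    exact h1.trans h2
  refine ⟨M₀ + κ₀.factorial + 1, ?_⟩
  intro n F G _ _ hNil hOut hPL K hK P
  have hPL1 : ¬ PL F ((n + M₀ + κ₀.factorial) + 1) G := by
    have e : n + M₀ + κ₀.factorial + 1 = n + (M₀ + κ₀.factorial + 1) := by omega
    rw [e]
    exact hPL
  obtain ⟨H, _, f, hf, hfk, S, hS, hPH⟩ := exists_comp_of_not_PL hOut hPL1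
  obtain ⟨Γ, _, ρ, K₁, Ω, V, _, a, T, hρ, hΩ, hV, hVne, hB, ⟨v₀, hv₀⟩, hPLt, hineq⟩ :=
    structure_theorem hNil K hK f hf hfk S hS
  have hΓ : Finite Γ := Finite.of_surjective ρ hρ
  have htr : MulAction.IsPretransitive Γ Ω := hB.trans
  have hPΓ : ¬ PL F (n + M₀ + κ₀.factorial) (Γ ⧸ (MulAction.toPermHom Γ Ω).ker) :=
    fun h => hPH (hPLt _ h)
  have hNilΓ : NilClass F Γ := hNil.of_surjective ρ hρ
  have hOutΓ : OutHyp F Γ := hOut.of_surjective ρ hρ
  set P₁ : Sylow p Γ := P.mapSurjective hρ with hP₁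
  have hP₁c : (P₁ : Subgroup Γ) = (P : Subgroup G).map ρ := rfl
  have h1 : phi (P : Subgroup G) K u ≤ phiV (P₁ : Subgroup Γ) K₁ a u :=
    phi_le_phiV ρ hρ K K₁ a hineq P u
  -- the subwords
  have hsub : ∀ i j, 1 ≤ i → i < j → j ≤ r →
      phi (P₁ : Subgroup Γ) (MulAction.stabilizer Γ v₀) ((u.drop i).take (j - i)) ≤ ε' := by
    intro i j hi hij hj
    set Z : Subgroup Γ := (MulAction.toPermHom Γ Ω).ker with hZ
    have hZS : Z ≤ MulAction.stabilizer Γ v₀ := by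
      intro z hz
      rw [MulAction.mem_stabilizer_iff]
      have : MulAction.toPermHom Γ Ω z = 1 := hz
      have h2 := congrArg (fun e : Equiv.Perm Ω => e v₀) this
      simpa using h2
    have hcore : ((MulAction.stabilizer Γ v₀).map (QuotientGroup.mk' Z)).normalCore = ⊥ := by
      apply D6b_core_map Z _ hZS
      intro y hy
      rw [hZ, MonoidHom.mem_ker]
      ext w
      obtain ⟨γ, hγ⟩ := MulAction.exists_smul_eq Γ v₀ w
      have h2 := hy γ⁻¹
      rw [MulAction.mem_stabilizer_iff, inv_inv, mul_smul, mul_smul, hγ,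
        inv_smul_eq_iff, hγ] at h2
      simpa using h2
    have h3 := hN i j hi hij hj F (Γ ⧸ Z)
      (hNilΓ.of_surjective (QuotientGroup.mk' Z) (QuotientGroup.mk'_surjective Z))
      (hOutΓ.of_surjective (QuotientGroup.mk' Z) (QuotientGroup.mk'_surjective Z))
      (fun h => hPΓ (PL.mono (by have := hNM i j hij hj; omega) h)) _ hcore
      (P₁.mapSurjective (QuotientGroup.mk'_surjective Z))
    have h4 : ((P₁.mapSurjective (QuotientGroup.mk'_surjective Z) : Sylow p (Γ ⧸ Z)) :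
        Subgroup (Γ ⧸ Z)) = (P₁ : Subgroup Γ).map (QuotientGroup.mk' Z) := rfl
    rw [h4, D6b_phi_quot (p := p) Z _ hZS] at h3
    exact h3
  have hsum := D6b_sum_le r (fun i j => phi (P₁ : Subgroup Γ) (MulAction.stabilizer Γ v₀)
    ((u.drop i).take (j - i))) ε' hε'.le hsub
  by_cases hκ : κ₀ ≤ Nat.card (MulAction.orbit K₁ v₀)
  · left
    have h2 := hB.main_ineq v₀ hv₀ P₁ u hu hred m
    have hφ0 : 0 ≤ phi (P₁ : Subgroup Γ) K₁ u := phi_nonneg _ _ _
    have hφ1 : phi (P₁ : Subgroup Γ) K₁ u ≤ 1 := phi_le_one _ _ _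
    have hterm1 : (m : ℝ) * (∑ j ∈ Finset.range (u.length + 1), ∑ i ∈ Finset.Ico 1 j,
        phi (P₁ : Subgroup Γ) (MulAction.stabilizer Γ v₀) ((u.drop i).take (j - i))) ≤ ε / 3 :=
      (mul_le_mul_of_nonneg_left hsum (Nat.cast_nonneg m)).trans hε1
    have hterm3 : cp p ^ m * phi (P₁ : Subgroup Γ) K₁ u ≤ ε / 3 := by
      calc cp p ^ m * phi (P₁ : Subgroup Γ) K₁ u ≤ cp p ^ m * 1 :=
            mul_le_mul_of_nonneg_left hφ1 (by positivity)
        _ ≤ ε / 3 := by rw [mul_one]; exact hm.le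
    have hterm2 : (m : ℝ) * ((m : ℝ) - 1) * (u.length : ℝ) ^ 2 /
        Nat.card (MulAction.orbit K₁ v₀) ≤ ε / 3 := by
      have hfin : Finite (MulAction.orbit K₁ v₀) := inferInstance
      have hne : Nonempty (MulAction.orbit K₁ v₀) := ⟨⟨v₀, MulAction.mem_orbit_self v₀⟩⟩
      have hpos : (0 : ℝ) < Nat.card (MulAction.orbit K₁ v₀) := by
        exact_mod_cast Nat.card_pos
      rw [div_le_iff₀ hpos]
      have hκr : (κ₀ : ℝ) ≤ Nat.card (MulAction.orbit K₁ v₀) := by exact_mod_cast hκ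
      rw [div_lt_iff₀ hε] at hκ₀
      have : ε / 3 * (κ₀ : ℝ) ≤ ε / 3 * Nat.card (MulAction.orbit K₁ v₀) :=
        mul_le_mul_of_nonneg_left hκr (by positivity)
      have h5 : 3 * ((m : ℝ) * ((m : ℝ) - 1) * (u.length : ℝ) ^ 2) < κ₀ * ε := hκ₀
      linarith
    linarith
  · right
    push Not at hκ
    have hcoreK : K₁.normalCore ≤ K₁ := K₁.normalCore_le
    refine ⟨Γ ⧸ K₁.normalCore, inferInstance, inferInstance,
      K₁.map (QuotientGroup.mk' K₁.normalCore),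
      P₁.mapSurjective (QuotientGroup.mk'_surjective K₁.normalCore),
      hNilΓ.of_surjective _ (QuotientGroup.mk'_surjective K₁.normalCore),
      hOutΓ.of_surjective _ (QuotientGroup.mk'_surjective K₁.normalCore), ?_, ?_, ?_⟩
    · intro h
      have h2 := PL.small_step (κ := κ₀) K₁ v₀ hκ.le h
      exact hPΓ (PL.mono (by omega) h2)
    · exact D6b_core_map _ _ hcoreK (fun y hy => hy)
    · have h2 := hB.main_ineq_one v₀ hv₀ P₁ u hu hred
      have h4 : ((P₁.mapSurjective (QuotientGroup.mk'_surjective K₁.normalCore) :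
          Sylow p (Γ ⧸ K₁.normalCore)) : Subgroup (Γ ⧸ K₁.normalCore)) =
          (P₁ : Subgroup Γ).map (QuotientGroup.mk' K₁.normalCore) := rfl
      rw [h4, D6b_phi_quot (p := p) _ _ hcoreK]
      have h5 : (∑ j ∈ Finset.range (u.length + 1), ∑ i ∈ Finset.Ico 1 j,
        phi (P₁ : Subgroup Γ) (MulAction.stabilizer Γ v₀) ((u.drop i).take (j - i))) ≤ δ :=
        hsum.trans hε2
      linarith

end LibKS
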