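import Pool.Agent.LibKS.D6b
import Pool.Agent.LibKS.A10b

set_option autoImplicit false

namespace LibKS

/-- Iteration of the contraction. -/
private theorem D6c_iter (p : ℕ) [Fact p.Prime] {k : ℕ} (u : List (Fin k × Bool)) (hu : u ≠ [])
    (hred : FreeGroup.IsReduced u)
    (ih : ∀ i j, 1 ≤ i → i < j → j ≤ u.length → ThmM p ((u.drop i).take (j - i))) :
    ThmM p u := by
  intro ε hε
  have hp : p.Prime := Fact.out
  have hc0 := cp_pos hp
  have hc1 := cp_lt_one hp
  have hδ : 0 < (1 - cp p) * (ε / 2) := mul_pos (by linarith) (by linarith)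
  obtain ⟨c, hc⟩ := step u hu hred ih (ε / 2) ((1 - cp p) * (ε / 2)) (by linarith) hδ
  have key : ∀ (t : ℕ) (F : GoodClass p) (G : Type) [Group G] [Finite G],
      NilClass F G → OutHyp F G → ¬ PL F (t * c) G → ∀ K : Subgroup G, K.normalCore = ⊥ →
      ∀ P : Sylow p G, phi (P : Subgroup G) K u ≤ ε / 2 + cp p ^ t := by
    intro t
    induction t with
    | zero =>
      intro F G _ _ _ _ _ K _ P
      have := phi_le_one (P : Subgroup G) K u
      rw [pow_zero]
      linarith
    | succ t iht =>
      intro F G _ _ hN hO hPL K hK P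
      have hpos : 0 < cp p ^ (t + 1) := pow_pos hc0 _
      rcases hc (t * c) F G hN hO (by rw [Nat.succ_mul] at hPL; exact hPL) K hK P with h | h
      · linarith
      · obtain ⟨G', _, _, K', P', hN', hO', hPL', hK', hle⟩ := h
        have h2 := iht F G' hN' hO' hPL' K' hK' P'
        have h3 : cp p * phi (P' : Subgroup G') K' u ≤ cp p * (ε / 2 + cp p ^ t) :=
          mul_le_mul_of_nonneg_left h2 hc0.le
        have h4 : cp p ^ (t + 1) = cp p * cp p ^ t := by ring
        rw [h4]
        nlinarith
  obtain ⟨t, ht⟩ := exists_pow_lt_of_lt_one (show (0 : ℝ) < ε / 2 by linarith) hc1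
  refine ⟨t * c, ?_⟩
  intro F G _ _ hN hO hPL K hK P
  have := key t F G hN hO hPL K hK P
  linarith

/-- Theorem M. -/
theorem theoremM (p : ℕ) [Fact p.Prime] {k : ℕ} (u : List (Fin k × Bool)) (hu : u ≠ [])
    (hred : FreeGroup.IsReduced u) : ThmM p u := by
  have key : ∀ (n : ℕ) (u : List (Fin k × Bool)), u.length ≤ n → u ≠ [] →
      FreeGroup.IsReduced u → ThmM p u := by
    intro n
    induction n with
    | zero =>
      intro u hn hu _
      exact absurd (List.length_eq_zero_iff.1 (Nat.le_zero.1 hn)) hu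
    | succ n ihn =>
      intro u hn hu hred
      refine D6c_iter p u hu hred ?_
      intro i j hi hij hj
      refine ihn _ ?_ ?_ ?_
      · rw [List.length_take, List.length_drop]
        omega
      · intro h0
        have : ((u.drop i).take (j - i)).length = 0 := by rw [h0]; rfl
        rw [List.length_take, List.length_drop] at this
        omega
      · exact List.IsChain.take (List.IsChain.drop hred i) (j - i)
  exact key u.length u le_rfl hu hred

private theorem D6c_W_eq_lift {k : ℕ} {G : Type} [Group G] (g : Fin k → G)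
    (w : FreeGroup (Fin k)) : W g w.toWord = FreeGroup.lift g w := by
  have h : ∀ L : List (Fin k × Bool), W g L = FreeGroup.lift g (FreeGroup.mk L) := by
    intro L
    rw [FreeGroup.lift_mk]
    induction L with
    | nil => rfl
    | cons l L ihL =>
      obtain ⟨i, b⟩ := l
      rw [List.map_cons, List.prod_cons, ← ihL]
      cases b <;> simp [W]
  rw [h, FreeGroup.mk_toWord]

private theorem D6c_phi_eq_one {k : ℕ} {G : Type} [Group G] [Finite G] (P K : Subgroup G)
    (u : List (Fin k × Bool)) (h : ∀ g : Fin k → P, W (fun i => (g i : G)) u = 1) :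
    phi P K u = 1 := by
  have huniv : phiSet P K u = Set.univ := by
    ext gx
    refine ⟨fun _ => Set.mem_univ _, fun _ => ?_⟩
    change gx.2⁻¹ * W (fun i => (gx.1 i : G)) u * gx.2 ∈ K
    rw [h gx.1, mul_one, inv_mul_cancel]
    exact K.one_mem
  have hcard : Nat.card (phiSet P K u) = Nat.card P ^ k * Nat.card G := by
    rw [huniv, Nat.card_congr (Equiv.Set.univ _), Nat.card_prod, Nat.card_fun, Nat.card_fin]
  rw [phi, hcard]
  push_cast
  have h1 : (Nat.card P : ℝ) ^ k * Nat.card G ≠ 0 := by
    have h2 : (Nat.card P : ℝ) ≠ 0 := Nat.cast_ne_zero.2 Nat.card_pos.ne'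
    have h3 : (Nat.card G : ℝ) ≠ 0 := Nat.cast_ne_zero.2 Nat.card_pos.ne'
    positivity
  exact div_self h1

private theorem D6c_exists_minimal {p : ℕ} [Fact p.Prime] {F : GoodClass p} {N : ℕ} {G : Type}
    [Group G] [Finite G] (h : ¬ PL F N G) :
    ∃ U : Subgroup G, ¬ PL F N U ∧ ∀ V : Subgroup U, V ≠ ⊤ → PL F N V := by
  classical
  have key : ∀ (n : ℕ) (U : Subgroup G), Nat.card U ≤ n → ¬ PL F N U →
      ∃ U : Subgroup G, ¬ PL F N U ∧ ∀ V : Subgroup U, V ≠ ⊤ → PL F N V := by
    intro n
    induction n with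
    | zero =>
      intro U hU _
      have h0 : 0 < Nat.card U := Nat.card_pos
      omega
    | succ n ihn =>
      intro U hU hPL
      by_cases hall : ∀ V : Subgroup U, V ≠ ⊤ → PL F N V
      · exact ⟨U, hPL, hall⟩
      · push Not at hall
        obtain ⟨V, hV, hVP⟩ := hall
        have e : V ≃* V.map U.subtype := V.equivMapOfInjective U.subtype U.subtype_injective
        refine ihn (V.map U.subtype) ?_ (fun h1 => hVP (PL.of_equiv e.symm h1))
        have h2 : Nat.card (V.map U.subtype) = Nat.card V := (Nat.card_congr e.toEquiv).symm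
        have h3 : Nat.card V < Nat.card U := by
          rcases lt_or_eq_of_le (Subgroup.card_le_card_group V) with h4 | h4
          · exact h4
          · exact absurd (Subgroup.eq_top_of_card_eq V h4) hV
        omega
  have e : (⊤ : Subgroup G) ≃* G := Subgroup.topEquiv
  exact key _ ⊤ le_rfl (fun h1 => h (PL.of_equiv e h1))

/-- The abstract main theorem. -/
theorem abstract_main (p : ℕ) [Fact p.Prime] (k : ℕ) (w : FreeGroup (Fin k)) (hw : w ≠ 1) :
    ∃ N : ℕ, ∀ (F : GoodClass p) (G : Type) [Group G] [Finite G], OutHyp F G →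
      (∀ (P : Sylow p G) (f : Fin k → ↥(P : Subgroup G)), FreeGroup.lift f w = 1) →
      PL F N G := by
  have hne : w.toWord ≠ [] := fun h => hw (FreeGroup.toWord_eq_nil_iff.1 h)
  obtain ⟨N, hN⟩ := theoremM p w.toWord hne FreeGroup.isReduced_toWord (1 / 2) (by norm_num)
  refine ⟨N, ?_⟩
  intro F G _ _ hO hlaw
  by_contra hPL
  obtain ⟨U, hU, hmin⟩ := D6c_exists_minimal hPL
  have hnil := nilClass_of_minimal hU hmin
  have hcore : (⊥ : Subgroup U).normalCore = ⊥ := by
    rw [eq_bot_iff]
    exact Subgroup.normalCore_le ⊥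
  obtain ⟨P⟩ : Nonempty (Sylow p U) := inferInstance
  have h1 := hN F U hnil (hO.subgroup U) hU ⊥ hcore P
  have h2 : phi (P : Subgroup U) ⊥ w.toWord = 1 := by
    refine D6c_phi_eq_one _ _ _ ?_
    intro g
    -- the image of `P` in `G` lies in a Sylow subgroup
    have hp : IsPGroup p ((P : Subgroup U).map U.subtype) := P.isPGroup'.map _
    obtain ⟨Q, hQ⟩ := hp.exists_le_sylow
    have hg : ∀ i, ((g i : U) : G) ∈ (Q : Subgroup G) := fun i => hQ ⟨g i, (g i).2, rfl⟩
    have h3 := hlaw Q (fun i => ⟨((g i : U) : G), hg i⟩)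
    rw [← D6c_W_eq_lift] at h3
    have h4 := congrArg (Subgroup.subtype (Q : Subgroup G)) h3
    rw [← W_map, map_one] at h4
    have h5 : W (fun i => U.subtype (g i : U)) w.toWord = 1 := h4
    rw [W_map] at h5
    exact U.subtype_injective (by rw [h5, map_one])
  linarith

end LibKS
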