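import Mathlib

set_option autoImplicit false

namespace LibKS

/-- The group of inner automorphisms is normal in the group of automorphisms. -/
instance innNormal (T : Type*) [Group T] : (MulAut.conj : T →* MulAut T).range.Normal := by
  refine ⟨?_⟩
  rintro _ ⟨t, rfl⟩ a
  refine ⟨a t, ?_⟩
  ext x
  simp [MulAut.conj_apply]

/-- A class of groups which contains the finite `p`-groups and the finite `p'`-groups and is
closed under subgroups, quotients and extensions. -/
structure GoodClass (p : ℕ) where
  mem : ∀ (G : Type) [Group G], Prop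
  of_injective : ∀ {G H : Type} [Group G] [Group H] (f : G →* H),
    Function.Injective f → mem H → mem G
  of_surjective : ∀ {G H : Type} [Group G] [Group H] (f : G →* H),
    Function.Surjective f → mem G → mem H
  of_ext : ∀ {G : Type} [Group G] (N : Subgroup G) [N.Normal],
    mem N → mem (G ⧸ N) → mem G
  of_pgroup : ∀ {G : Type} [Group G] [Finite G], IsPGroup p G → mem G
  of_coprime : ∀ {G : Type} [Group G] [Finite G], Nat.Coprime p (Nat.card G) → mem G

variable {p : ℕ} (F : GoodClass p)

/-- Components of `H` relative to the class `F`: simple subgroups outside the class all of whose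
conjugates are equal to it or commute with it elementwise. -/
structure IsComp {H : Type} [Group H] (S : Subgroup H) : Prop where
  simple : IsSimpleGroup S
  not_mem : ¬ F.mem S
  conj : ∀ g : H, S.map (MulAut.conj g).toMonoidHom = S ∨
    ∀ a ∈ S, ∀ b ∈ S, Commute a (g * b * g⁻¹)

variable {F} in
/-- The image of a component under an isomorphism is a component. -/
theorem IsComp.map_equiv {H H' : Type} [Group H] [Group H'] {S : Subgroup H}
    (hS : IsComp F S) (e : H ≃* H') : IsComp F (S.map e.toMonoidHom) := by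
  have e1 : S ≃* S.map e.toMonoidHom := S.equivMapOfInjective e.toMonoidHom e.injective
  refine ⟨?_, ?_, ?_⟩
  · have := hS.simple
    exact MulEquiv.isSimpleGroup e1.symm
  · intro h
    exact hS.not_mem (F.of_injective (G := S) (H := S.map e.toMonoidHom)
      e1.toMonoidHom e1.injective h)
  · intro g
    rcases hS.conj (e.symm g) with h | h
    · left
      conv_rhs => rw [← h]
      ext x
      simp only [Subgroup.mem_map, MulEquiv.coe_toMonoidHom, MulAut.conj_apply]
      constructor
      · rintro ⟨_, ⟨s, hs, rfl⟩, rfl⟩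
        exact ⟨_, ⟨s, hs, rfl⟩, by simp⟩
      · rintro ⟨_, ⟨s, hs, rfl⟩, rfl⟩
        exact ⟨_, ⟨s, hs, rfl⟩, by simp⟩
    · right
      rintro _ ⟨a, ha, rfl⟩ _ ⟨b, hb, rfl⟩
      have := (h a ha b hb).map e.toMonoidHom
      simpa using this

variable {F} in
/-- A conjugate of a component is a component. -/
theorem IsComp.map_conj {H : Type} [Group H] {S : Subgroup H}
    (hS : IsComp F S) (x : H) : IsComp F (S.map (MulAut.conj x).toMonoidHom) :=
  hS.map_equiv (MulAut.conj x)

/-- The layer of `H` relative to `F`: the subgroup generated by all components. -/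
def layer (H : Type) [Group H] : Subgroup H := sSup {S : Subgroup H | IsComp F S}

/-- The image of the layer under an isomorphism is contained in the layer. -/
theorem map_layer_equiv_le {H H' : Type} [Group H] [Group H'] (e : H ≃* H') :
    (layer F H).map e.toMonoidHom ≤ layer F H' := by
  rw [layer, sSup_eq_iSup', Subgroup.map_iSup]
  refine iSup_le fun S => ?_
  exact le_sSup (S.2.map_equiv e)

instance layer_normal (H : Type) [Group H] : (layer F H).Normal := by
  refine ⟨fun n hn g => ?_⟩
  exact map_layer_equiv_le F (MulAut.conj g) ⟨n, hn, rfl⟩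

/-- `PL F n G`: the group `G` has `F`-length at most `n`: it has a normal series whose factors
are alternately in the class `F` and products of components, with at most `n` of the latter. -/
def PL : ℕ → ∀ (G : Type) [Group G], Prop
  | 0, G, _ => F.mem G
  | n + 1, G, _ => ∃ (H : Type) (_ : Group H) (f : G →* H),
      Function.Surjective f ∧ F.mem f.ker ∧ PL n (H ⧸ layer F H)

/-- In every quotient, every normal subgroup in the class is nilpotent. -/
def NilClass (G : Type) [Group G] : Prop :=
  ∀ (H : Type) [Group H] (f : G →* H), Function.Surjective f →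
    ∀ N : Subgroup H, N.Normal → F.mem N → Group.IsNilpotent N

/-- The outer automorphism groups of the simple sections of `G` outside the class are in the
class. -/
def OutHyp (G : Type) [Group G] : Prop :=
  ∀ (T : Type) [Group T], IsSimpleGroup T → ¬ F.mem T →
    (∃ (K : Subgroup G) (f : K →* T), Function.Surjective f) →
    F.mem (MulAut T ⧸ (MulAut.conj : T →* MulAut T).range)

/-- Value of a word at a tuple of group elements. A letter `(i, true)` stands for the `i`-th
element and `(i, false)` for its inverse. -/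
def W {k : ℕ} {G : Type*} [Group G] (g : Fin k → G) : List (Fin k × Bool) → G
  | [] => 1
  | (i, b) :: u => (if b then g i else (g i)⁻¹) * W g u

/-- The set of pairs `(g, x)`, where `g` is a `k`-tuple of elements of `P` and `x` is an element
of `G`, such that `W_g(u)` fixes the coset `x K`. -/
def phiSet {k : ℕ} {G : Type*} [Group G] (P K : Subgroup G) (u : List (Fin k × Bool)) :
    Set ((Fin k → P) × G) :=
  {gx | gx.2⁻¹ * W (fun i => (gx.1 i : G)) u * gx.2 ∈ K}

/-- Average over `k`-tuples of elements of `P` of the proportion of fixed points of `W_g(u)` on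
the cosets of `K`. -/
noncomputable def phi {k : ℕ} {G : Type*} [Group G] (P K : Subgroup G)
    (u : List (Fin k × Bool)) : ℝ :=
  (Nat.card (phiSet P K u) : ℝ) / ((Nat.card P : ℝ) ^ k * Nat.card G)

/-- The set of conjugates of the subgroup `S`. -/
def Om {H : Type} [Group H] (S : Subgroup H) : Type :=
  {T : Subgroup H // ∃ g : H, S.map (MulAut.conj g).toMonoidHom = T}

/-- `H` acts by conjugation on the set of conjugates of `S`. -/
instance {H : Type} [Group H] (S : Subgroup H) : MulAction H (Om S) where
  smul g T := ⟨T.1.map (MulAut.conj g).toMonoidHom, by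
    obtain ⟨T, x, rfl⟩ := T
    refine ⟨g * x, ?_⟩
    ext y
    simp only [Subgroup.mem_map, MulEquiv.coe_toMonoidHom, MulAut.conj_apply]
    constructor
    · rintro ⟨s, hs, rfl⟩
      exact ⟨_, ⟨s, hs, rfl⟩, by group⟩
    · rintro ⟨_, ⟨s, hs, rfl⟩, rfl⟩
      exact ⟨s, hs, by group⟩⟩
  one_smul T := by
    apply Subtype.ext
    change T.1.map (MulAut.conj (1 : H)).toMonoidHom = T.1
    ext y
    simp
  mul_smul a b T := by
    apply Subtype.ext
    change T.1.map (MulAut.conj (a * b)).toMonoidHom =
      (T.1.map (MulAut.conj b).toMonoidHom).map (MulAut.conj a).toMonoidHom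
    ext y
    simp only [Subgroup.mem_map, MulEquiv.coe_toMonoidHom, MulAut.conj_apply]
    constructor
    · rintro ⟨s, hs, rfl⟩
      exact ⟨_, ⟨s, hs, rfl⟩, by group⟩
    · rintro ⟨_, ⟨s, hs, rfl⟩, rfl⟩
      exact ⟨s, hs, by group⟩

theorem Om.smul_coe {H : Type} [Group H] {S : Subgroup H} (g : H) (T : Om S) :
    (g • T).1 = T.1.map (MulAut.conj g).toMonoidHom := rfl

section Based

variable {Γ : Type} [Group Γ] {K₁ : Subgroup Γ} {V : Type}

/-- The point `ξ` is fixed by the elements of `K₁` lying in the subgroup `T`. -/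
def FixedBy (a : K₁ →* Equiv.Perm V) (T : Subgroup Γ) (ξ : V) : Prop :=
  ∀ k : K₁, (k : Γ) ∈ T → a k ξ = ξ

/-- The subgroup `T` moves some point. -/
def ActsNontriv (a : K₁ →* Equiv.Perm V) (T : Subgroup Γ) : Prop := ∃ ξ, ¬ FixedBy a T ξ

/-- The pairs `(x, ξ)` such that `x⁻¹ γ x` is in `K₁` and fixes the point `ξ`. -/
def fixSet (K₁ : Subgroup Γ) (a : K₁ →* Equiv.Perm V) (γ : Γ) : Set (Γ × V) :=
  {xξ | ∃ h : xξ.1⁻¹ * γ * xξ.1 ∈ K₁, a ⟨_, h⟩ xξ.2 = xξ.2}

/-- The data used in the main estimate: a group `Γ` acting transitively on `Ω`, an equivariant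
family of pairwise commuting nonabelian simple subgroups `T v` of the core of a subgroup `K₁`,
and an action of `K₁` on a finite set `V`. -/
structure Based (p : ℕ) {Γ : Type} [Group Γ] (K₁ : Subgroup Γ) {Ω V : Type} [MulAction Γ Ω]
    (a : K₁ →* Equiv.Perm V) (T : Ω → Subgroup Γ) : Prop where
  trans : MulAction.IsPretransitive Γ Ω
  le : ∀ v, T v ≤ K₁.normalCore
  map_conj : ∀ (γ : Γ) (v : Ω), (T v).map (MulAut.conj γ).toMonoidHom = T (γ • v)
  comm : ∀ v w, v ≠ w → ∀ x ∈ T v, ∀ y ∈ T w, Commute x y
  simple : ∀ v, IsSimpleGroup (T v)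
  nonab : ∀ v, ∃ x ∈ T v, ∃ y ∈ T v, ¬ Commute x y
  dvd : ∀ v, p ∣ Nat.card (T v)
  smul_eq : ∀ v w : Ω, ∀ t ∈ T v, t • w = w
  star : ∀ B : Finset Ω, (∀ v ∈ B, ActsNontriv a (T v)) →
    Nat.card {ξ : V // ∀ v ∈ B, FixedBy a (T v) ξ} * 4 ^ B.card ≤ 3 ^ B.card * Nat.card V

/-- Average over `k`-tuples of elements of `P` of the proportion of the pairs `(x, ξ)` in
`fixSet`. -/
noncomputable def phiV {k : ℕ} (P K₁ : Subgroup Γ) (a : K₁ →* Equiv.Perm V)
    (u : List (Fin k × Bool)) : ℝ :=
  (Nat.card {q : (Fin k → P) × Γ × V // q.2 ∈ fixSet K₁ a (W (fun i => (q.1 i : Γ)) u)} : ℝ) /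
    ((Nat.card P : ℝ) ^ k * Nat.card Γ * Nat.card V)

/-- The constant of contraction. -/
noncomputable def cp (p : ℕ) : ℝ := (1 - 1 / (16 * (p : ℝ))) ^ ((1 : ℝ) / 24)

end Based

end LibKS
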