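import Pool.Agent.LibKS.Defs

set_option autoImplicit false

namespace LibKS

/-- `p`-soluble groups, by means of a subnormal series. -/
def PSol (p : ℕ) (G : Type) [Group G] : Prop :=
  ∃ (m : ℕ) (H : ℕ → Subgroup G), H 0 = ⊥ ∧ H m = ⊤ ∧
    ∀ j < m, H j ≤ H (j + 1) ∧ ((H j).subgroupOf (H (j + 1))).Normal ∧
      ((∃ e : ℕ, ((H j).subgroupOf (H (j + 1))).index = p ^ e) ∨
        Nat.Coprime p (((H j).subgroupOf (H (j + 1))).index))

/-- one step of the series. -/
private def E1Step (p : ℕ) {G : Type} [Group G] (A B : Subgroup G) : Prop :=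
  A ≤ B ∧ (A.subgroupOf B).Normal ∧
      ((∃ e : ℕ, (A.subgroupOf B).index = p ^ e) ∨
        Nat.Coprime p ((A.subgroupOf B).index))

private theorem E1_good_dvd {p : ℕ} (hp : p.Prime) {a b : ℕ} (hab : a ∣ b)
    (h : (∃ e : ℕ, b = p ^ e) ∨ Nat.Coprime p b) : (∃ e : ℕ, a = p ^ e) ∨ Nat.Coprime p a := by
  rcases h with ⟨e, he⟩ | h
  · left
    rw [he] at hab
    obtain ⟨k, -, hk⟩ := (Nat.dvd_prime_pow hp).mp hab
    exact ⟨k, hk⟩
  · right
    exact Nat.Coprime.coprime_dvd_right hab h

private theorem E1_step_comap {p : ℕ} (hp : p.Prime) {G H : Type} [Group G] [Group H]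
    (f : G →* H) {A B : Subgroup H} (h : E1Step p A B) :
    E1Step p (A.comap f) (B.comap f) := by
  obtain ⟨h1, h2, h3⟩ := h
  have key : (A.comap f).subgroupOf (B.comap f) = (A.subgroupOf B).comap (f.subgroupComap B) := by
    ext x
    rfl
  refine ⟨Subgroup.comap_mono h1, ?_, ?_⟩
  · rw [key]
    exact h2.comap _
  · rw [key, Subgroup.index_comap]
    exact E1_good_dvd hp (Subgroup.relIndex_dvd_index_of_normal _ _) h3

private theorem E1_step_map {p : ℕ} (hp : p.Prime) {G H : Type} [Group G] [Group H]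
    (f : G →* H) {A B : Subgroup G} (h : E1Step p A B) :
    E1Step p (A.map f) (B.map f) := by
  obtain ⟨h1, h2, h3⟩ := h
  have key : (A.map f).subgroupOf (B.map f) = (A.subgroupOf B).map (f.subgroupMap B) := by
    ext x
    rw [Subgroup.mem_subgroupOf, Subgroup.mem_map, Subgroup.mem_map]
    constructor
    · rintro ⟨a, ha, hax⟩
      exact ⟨⟨a, h1 ha⟩, ha, Subtype.ext hax⟩
    · rintro ⟨a, ha, hax⟩
      exact ⟨a, ha, congrArg Subtype.val hax⟩
  refine ⟨Subgroup.map_mono h1, ?_, ?_⟩
  · rw [key]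
    exact h2.map _ (f.subgroupMap_surjective B)
  · rw [key]
    exact E1_good_dvd hp (Subgroup.index_map_dvd _ (f.subgroupMap_surjective B)) h3

theorem PSol.of_injective {p : ℕ} (hp : p.Prime) {G H : Type} [Group G] [Group H]
    (f : G →* H) (hf : Function.Injective f) (h : PSol p H) : PSol p G := by
  obtain ⟨m, A, h0, hm, hs⟩ := h
  refine ⟨m, fun j => (A j).comap f, ?_, ?_, ?_⟩
  · change (A 0).comap f = ⊥
    rw [h0, MonoidHom.comap_bot, MonoidHom.ker_eq_bot_iff]
    exact hf
  · change (A m).comap f = ⊤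
    rw [hm, Subgroup.comap_top]
  · intro j hj
    exact E1_step_comap hp f (hs j hj)

theorem PSol.of_surjective {p : ℕ} (hp : p.Prime) {G H : Type} [Group G] [Group H]
    (f : G →* H) (hf : Function.Surjective f) (h : PSol p G) : PSol p H := by
  obtain ⟨m, A, h0, hm, hs⟩ := h
  refine ⟨m, fun j => (A j).map f, ?_, ?_, ?_⟩
  · change (A 0).map f = ⊥
    rw [h0, Subgroup.map_bot]
  · change (A m).map f = ⊤
    rw [hm, Subgroup.map_top_of_surjective f hf]
  · intro j hj
    exact E1_step_map hp f (hs j hj)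

theorem PSol.of_ext {p : ℕ} (hp : p.Prime) {G : Type} [Group G] (N : Subgroup G) [N.Normal]
    (hN : PSol p N) (hG : PSol p (G ⧸ N)) : PSol p G := by
  obtain ⟨m, A, hA0, hAm, hA⟩ := hN
  obtain ⟨m', B, hB0, hBm, hB⟩ := hG
  let C : ℕ → Subgroup G := fun j =>
    if j ≤ m then (A j).map N.subtype else (B (j - m)).comap (QuotientGroup.mk' N)
  have hC1 : ∀ j, j ≤ m → C j = (A j).map N.subtype := by
    intro j hj
    simp only [C, if_pos hj]
  have hC2 : ∀ j, C (m + j) = (B j).comap (QuotientGroup.mk' N) := by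
    intro j
    rcases Nat.eq_zero_or_pos j with rfl | hj
    · rw [Nat.add_zero, hC1 m le_rfl, hAm, hB0, MonoidHom.comap_bot, QuotientGroup.ker_mk',
        ← MonoidHom.range_eq_map, Subgroup.range_subtype]
    · have h1 : ¬ (m + j ≤ m) := by omega
      have h2 : m + j - m = j := by omega
      simp only [C, if_neg h1, h2]
  refine ⟨m + m', C, ?_, ?_, ?_⟩
  · rw [hC1 0 (Nat.zero_le _), hA0, Subgroup.map_bot]
  · rw [hC2 m', hBm, Subgroup.comap_top]
  · intro j hj
    change E1Step p (C j) (C (j + 1))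
    by_cases h : j < m
    · rw [hC1 j h.le, hC1 (j + 1) h]
      exact E1_step_map hp _ (hA j h)
    · obtain ⟨i, rfl⟩ : ∃ i, j = m + i := ⟨j - m, by omega⟩
      rw [hC2 i, Nat.add_assoc, hC2 (i + 1)]
      exact E1_step_comap hp _ (hB i (by omega))

private theorem E1_one_step {p : ℕ} {G : Type} [Group G]
    (h : (∃ e : ℕ, Nat.card G = p ^ e) ∨ Nat.Coprime p (Nat.card G)) : PSol p G := by
  have e3 : ((⊥ : Subgroup G).subgroupOf ⊤).index = Nat.card G := by
    change (⊥ : Subgroup G).relIndex ⊤ = Nat.card G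
    rw [Subgroup.relIndex_top_right, Subgroup.index_bot]
  have e4 : E1Step p (⊥ : Subgroup G) ⊤ := by
    refine ⟨bot_le, inferInstance, ?_⟩
    rw [e3]
    exact h
  let C : ℕ → Subgroup G := fun j => Nat.rec ⊥ (fun _ _ => ⊤) j
  refine ⟨1, C, rfl, rfl, ?_⟩
  intro j hj
  obtain rfl : j = 0 := by omega
  exact e4

theorem PSol.of_pgroup {p : ℕ} (hp : p.Prime) {G : Type} [Group G] [Finite G]
    (h : IsPGroup p G) : PSol p G := by
  have : Fact p.Prime := ⟨hp⟩
  exact E1_one_step (Or.inl (IsPGroup.iff_card.mp h))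

theorem PSol.of_coprime {p : ℕ} {G : Type} [Group G] [Finite G]
    (h : Nat.Coprime p (Nat.card G)) : PSol p G :=
  E1_one_step (Or.inr h)

/-- The class of `p`-soluble groups. -/
def psolClass (p : ℕ) (hp : p.Prime) : GoodClass p where
  mem G _ := PSol p G
  of_injective f hf h := PSol.of_injective hp f hf h
  of_surjective f hf h := PSol.of_surjective hp f hf h
  of_ext N _ hN hG := PSol.of_ext hp N hN hG
  of_pgroup h := PSol.of_pgroup hp h
  of_coprime h := PSol.of_coprime h

/-- The smallest class of groups which contains the finite `p`-groups, the finite `p'`-groups and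
the outer automorphism groups of the finite nonabelian simple groups of order divisible by `p`,
and is closed under subgroups, quotients and extensions. -/
def starClass (p : ℕ) : GoodClass p where
  mem G _ := ∀ F : GoodClass p, (∀ (T : Type) [Group T] [Finite T], IsSimpleGroup T →
    (∃ a b : T, a * b ≠ b * a) → p ∣ Nat.card T →
    F.mem (MulAut T ⧸ (MulAut.conj : T →* MulAut T).range)) → F.mem G
  of_injective f hf h F hF := F.of_injective f hf (h F hF)
  of_surjective f hf h F hF := F.of_surjective f hf (h F hF)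
  of_ext N _ hN hG F hF := F.of_ext N (hN F hF) (hG F hF)
  of_pgroup h F _ := F.of_pgroup h
  of_coprime h F _ := F.of_coprime h

end LibKS
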