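import Pool.Agent.LibKS.E1
import Pool.Agent.LibKS.A1

set_option autoImplicit false

namespace LibKS

private theorem E1b_aux {p : ℕ} (hp : p.Prime) (F : GoodClass p) {G : Type} [Group G]
    [Finite G] (T : Type) [Group T] (hs : IsSimpleGroup T) (hT : ¬ F.mem T)
    (hK : ∃ (K : Subgroup G) (f : K →* T), Function.Surjective f) :
    Finite T ∧ (∃ a b : T, a * b ≠ b * a) ∧ p ∣ Nat.card T := by
  haveI : Fact p.Prime := ⟨hp⟩
  obtain ⟨K, f, hf⟩ := hK
  have hfin : Finite T := Finite.of_surjective f hf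
  refine ⟨hfin, ?_, ?_⟩
  · by_contra hcon
    push Not at hcon
    exact hT (GoodClass.of_simple_comm F hs fun a b => hcon a b)
  · by_contra hcon
    exact hT (F.of_coprime ((Nat.Prime.coprime_iff_not_dvd hp).2 hcon))

theorem starClass_outHyp (p : ℕ) [Fact p.Prime] (G : Type) [Group G] [Finite G] :
    OutHyp (starClass p) G := by
  intro T _ hs hT hK
  obtain ⟨hfin, hna, hdvd⟩ := E1b_aux (Fact.out : p.Prime) (starClass p) T hs hT hK
  intro F hF
  exact hF T hs hna hdvd

theorem psolClass_outHyp (p : ℕ) (hp : p.Prime) (G : Type) [Group G] [Finite G]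
    (h : ∀ (T : Type) [Group T] [Finite T], IsSimpleGroup T → (∃ a b : T, a * b ≠ b * a) →
      p ∣ Nat.card T → (∃ (K : Subgroup G) (f : K →* T), Function.Surjective f) →
      PSol p (MulAut T ⧸ (MulAut.conj : T →* MulAut T).range)) :
    OutHyp (psolClass p hp) G := by
  intro T _ hs hT hK
  obtain ⟨hfin, hna, hdvd⟩ := E1b_aux hp (psolClass p hp) T hs hT hK
  exact h T hs hna hdvd hK

end LibKS
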