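import Pool.Agent.LibKS.E1
import Pool.Agent.LibKS.A2b

set_option autoImplicit false

namespace LibKS

/-- A direct product of finitely many nonabelian simple groups of order divisible by `p` is the
quotient `B / A`, in the form of the frozen statement. -/
def SimpleFactor (p : ℕ) {G : Type} [Group G] (A B : Subgroup G) : Prop :=
  ∃ (m : ℕ) (n : Fin m → ℕ) (T : (j : Fin m) → Subgroup (Equiv.Perm (Fin (n j))))
    (φ : ↥B →* ((j : Fin m) → ↥(T j))),
    Function.Surjective φ ∧ φ.ker = A.subgroupOf B ∧
    ∀ j, IsSimpleGroup ↥(T j) ∧ (∃ a b : ↥(T j), a * b ≠ b * a) ∧ p ∣ Nat.card ↥(T j)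

/-- The quotient `B / A` is `p`-soluble, in the form of the frozen statement. -/
def PSolFactor (p : ℕ) {G : Type} [Group G] (A B : Subgroup G) : Prop :=
  ∃ (m : ℕ) (H : ℕ → Subgroup G), H 0 = A ∧ H m = B ∧
    ∀ j < m, H j ≤ H (j + 1) ∧ ((H j).subgroupOf (H (j + 1))).Normal ∧
      ((∃ e : ℕ, ((H j).subgroupOf (H (j + 1))).index = p ^ e) ∨
        Nat.Coprime p (((H j).subgroupOf (H (j + 1))).index))

/-- The quotient `B / A` is in the class. -/
def ClassFactor {p : ℕ} (F : GoodClass p) {G : Type} [Group G] (A B : Subgroup G) : Prop :=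
  ∃ _ : (A.subgroupOf B).Normal, F.mem (B ⧸ A.subgroupOf B)

/-- Cayley's theorem with a permutation group of `Fin n`. -/
theorem E3_cayley (S : Type) [Group S] [Finite S] :
    ∃ (n : ℕ) (T : Subgroup (Equiv.Perm (Fin n))), Nonempty (S ≃* T) := by
  obtain ⟨n, ⟨e⟩⟩ := Finite.exists_equiv_fin S
  let f : S →* Equiv.Perm (Fin n) := e.permCongrHom.toMonoidHom.comp (MulAction.toPermHom S S)
  have hf : Function.Injective f := by
    intro a b hab
    have h1 : MulAction.toPermHom S S a = MulAction.toPermHom S S b :=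
      e.permCongrHom.injective hab
    have h2 := congrArg (fun σ : Equiv.Perm S => σ 1) h1
    simpa using h2
  exact ⟨n, f.range, ⟨MonoidHom.ofInjective hf⟩⟩

theorem layer_simpleFactor {p : ℕ} [Fact p.Prime] (F : GoodClass p) (H : Type) [Group H]
    [Finite H] : SimpleFactor p ⊥ (layer F H) := by
  classical
  obtain ⟨e, -⟩ := exists_layer_equiv (F := F) H
  obtain ⟨m, ⟨σ⟩⟩ := Finite.exists_equiv_fin {S : Subgroup H // IsComp F S}
  choose n T hT using fun S : {S : Subgroup H // IsComp F S} => E3_cayley S.1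
  let iso : ∀ S : {S : Subgroup H // IsComp F S}, S.1 ≃* T S := fun S => (hT S).some
  let φ : layer F H →* ((j : Fin m) → T (σ.symm j)) :=
    { toFun := fun x j => iso (σ.symm j) (e.symm x (σ.symm j))
      map_one' := by
        funext j
        simp
      map_mul' := by
        intro x y
        funext j
        simp }
  refine ⟨m, fun j => n (σ.symm j), fun j => T (σ.symm j), φ, ?_, ?_, ?_⟩
  · intro t
    let t' : ∀ S, T S := (Equiv.piCongrLeft' (fun S => (T S : Type)) σ).symm t
    refine ⟨e (fun S => (iso S).symm (t' S)), ?_⟩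
    funext j
    change iso (σ.symm j) (e.symm (e (fun S => (iso S).symm (t' S))) (σ.symm j)) = t j
    rw [MulEquiv.symm_apply_apply, MulEquiv.apply_symm_apply]
    exact congrFun (Equiv.apply_symm_apply (Equiv.piCongrLeft' (fun S => (T S : Type)) σ) t) j
  · ext x
    rw [MonoidHom.mem_ker, Subgroup.mem_subgroupOf, Subgroup.mem_bot]
    constructor
    · intro hx
      have h1 : e.symm x = 1 := by
        funext S
        obtain ⟨j, rfl⟩ := σ.symm.surjective S
        have h2 : iso (σ.symm j) (e.symm x (σ.symm j)) = 1 := congrFun hx j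
        exact (map_eq_one_iff (iso (σ.symm j)) (iso (σ.symm j)).injective).1 h2
      have h3 : x = 1 := by
        have := congrArg e h1
        simpa using this
      rw [h3]
      rfl
    · intro hx
      have h3 : x = 1 := Subtype.ext hx
      rw [h3, map_one]
  · intro j
    have hc : IsComp F (σ.symm j).1 := (σ.symm j).2
    refine ⟨?_, ?_, ?_⟩
    · have := hc.simple
      exact MulEquiv.isSimpleGroup (iso (σ.symm j)).symm
    · obtain ⟨a, ha, b, hb, hab⟩ := hc.exists_not_commute
      refine ⟨iso (σ.symm j) ⟨a, ha⟩, iso (σ.symm j) ⟨b, hb⟩, fun h => hab ?_⟩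
      rw [← map_mul, ← map_mul] at h
      exact congrArg Subtype.val ((iso (σ.symm j)).injective h)
    · rw [← Nat.card_congr (iso (σ.symm j)).toEquiv]
      exact hc.dvd_card

theorem SimpleFactor.comap {p : ℕ} {G H : Type} [Group G] [Group H] (f : G →* H)
    (hf : Function.Surjective f) {A B : Subgroup H} (h : SimpleFactor p A B) :
    SimpleFactor p (A.comap f) (B.comap f) := by
  obtain ⟨m, n, T, φ, h1, h2, h3⟩ := h
  refine ⟨m, n, T, φ.comp (f.subgroupComap B),
    h1.comp (f.subgroupComap_surjective_of_surjective B hf), ?_, h3⟩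
  rw [← MonoidHom.comap_ker, h2]
  ext x
  rfl

theorem PSolFactor.of_class {p : ℕ} (hp : p.Prime) {G : Type} [Group G] {A B : Subgroup G}
    (hAB : A ≤ B) (h : ClassFactor (psolClass p hp) A B) : PSolFactor p A B := by
  obtain ⟨hn, h⟩ := h
  obtain ⟨m, H, h0, h1, h2⟩ := h
  let π : B →* B ⧸ A.subgroupOf B := QuotientGroup.mk' (A.subgroupOf B)
  refine ⟨m, fun j => ((H j).comap π).map B.subtype, ?_, ?_, ?_⟩
  · change ((H 0).comap π).map B.subtype = A
    rw [h0, MonoidHom.comap_bot, QuotientGroup.ker_mk', Subgroup.map_subgroupOf_eq_of_le hAB]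
  · change ((H m).comap π).map B.subtype = B
    rw [h1, Subgroup.comap_top, ← MonoidHom.range_eq_map, Subgroup.range_subtype]
  · intro j hj
    obtain ⟨ha, hb, hc⟩ := h2 j hj
    have hidx : (((H j).comap π).map B.subtype).relIndex (((H (j + 1)).comap π).map B.subtype) =
        (H j).relIndex (H (j + 1)) := by
      rw [Subgroup.relIndex_map_map_of_injective _ _ B.subtype_injective,
        Subgroup.relIndex_comap, Subgroup.map_comap_eq_self_of_surjective
          (QuotientGroup.mk'_surjective _)]
    refine ⟨Subgroup.map_mono (Subgroup.comap_mono ha), ?_, ?_⟩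
    · refine ⟨?_⟩
      rintro ⟨_, ⟨x, hx, rfl⟩⟩ hx' ⟨_, ⟨y, hy, rfl⟩⟩
      rw [Subgroup.mem_subgroupOf] at hx' ⊢
      obtain ⟨z, hz, hzx⟩ := hx'
      have hzx' : z = x := Subtype.ext hzx
      subst hzx'
      refine ⟨y * z * y⁻¹, ?_, rfl⟩
      change π (y * z * y⁻¹) ∈ H j
      have h3 := hb.conj_mem ⟨π z, hx⟩ hz ⟨π y, hy⟩
      rw [Subgroup.mem_subgroupOf] at h3
      simpa using h3
    · change (∃ e : ℕ, (((H j).comap π).map B.subtype).relIndex
        (((H (j + 1)).comap π).map B.subtype) = p ^ e) ∨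
        Nat.Coprime p ((((H j).comap π).map B.subtype).relIndex
        (((H (j + 1)).comap π).map B.subtype))
      rw [hidx]
      exact hc

end LibKS
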