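import Pool.Agent.LibKS.E3
import Pool.Agent.LibKS.A6

set_option autoImplicit false

namespace LibKS

theorem E3b_of_eq_ker {p : ℕ} (F : GoodClass p) {X Y : Type} [Group X] [Group Y] (g : X →* Y)
    (hY : F.mem Y) (K : Subgroup X) (hK : K = g.ker) : ∃ _ : K.Normal, F.mem (X ⧸ K) := by
  subst hK
  exact ⟨inferInstance, F.of_injective (QuotientGroup.kerLift g)
    (QuotientGroup.kerLift_injective g) hY⟩

theorem E3b_comap {p : ℕ} (F : GoodClass p) {G H : Type} [Group G] [Group H] (f : G →* H)
    {A B : Subgroup H} (h : ClassFactor F A B) :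
    ClassFactor F (A.comap f) (B.comap f) := by
  obtain ⟨hn, hm⟩ := h
  refine E3b_of_eq_ker F ((QuotientGroup.mk' (A.subgroupOf B)).comp (f.subgroupComap B)) hm _ ?_
  ext x
  rw [MonoidHom.mem_ker, MonoidHom.comp_apply]
  change _ ↔ ((f.subgroupComap B x : B) : B ⧸ A.subgroupOf B) = 1
  rw [QuotientGroup.eq_one_iff]
  rfl

/-- The series attached to a bound of the length. -/
theorem exists_series {p : ℕ} [Fact p.Prime] (F : GoodClass p) (N : ℕ) (G : Type) [Group G]
    [Finite G] (h : PL F N G) :
    ∃ s : ℕ → Subgroup G, s 0 = ⊥ ∧ s (2 * N + 1) = ⊤ ∧ (∀ i, s i ≤ s (i + 1)) ∧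
      (∀ i, (s i).Normal) ∧
      (∀ i ≤ N, ClassFactor F (s (2 * i)) (s (2 * i + 1))) ∧
      (∀ i < N, SimpleFactor p (s (2 * i + 1)) (s (2 * i + 2))) := by
  induction N generalizing G with
  | zero =>
    refine ⟨fun i => if i = 0 then ⊥ else ⊤, by simp, by simp, ?_, ?_, ?_, ?_⟩
    · intro i
      rcases Nat.eq_zero_or_pos i with hi | hi
      · simp [hi]
      · simp [hi.ne']
    · intro i
      by_cases hi : i = 0
      · simp only [hi, if_true]
        infer_instance
      · simp only [hi, if_false]
        infer_instance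
    · intro i hi
      obtain rfl : i = 0 := by omega
      change ClassFactor F (⊥ : Subgroup G) ⊤
      refine ⟨inferInstance, ?_⟩
      refine F.of_surjective (QuotientGroup.mk' _) (QuotientGroup.mk'_surjective _) ?_
      exact F.of_injective (Subgroup.subtype _) (Subgroup.subtype_injective _) h
    · intro i hi
      omega
  | succ N ih =>
    obtain ⟨H, _, f, hf, hk, hpl⟩ := h
    have hfin : Finite H := Finite.of_surjective f hf
    obtain ⟨t, t0, t1, t2, t3, t4, t5⟩ := ih (H ⧸ layer F H) hpl
    let π : G →* H ⧸ layer F H := (QuotientGroup.mk' (layer F H)).comp f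
    let s : ℕ → Subgroup G := fun i => match i with
      | 0 => ⊥
      | 1 => f.ker
      | j + 2 => (t j).comap π
    have s2 : ∀ j, s (j + 2) = (t j).comap π := fun _ => rfl
    have hs2 : s 2 = (layer F H).comap f := by
      rw [s2 0, t0]
      ext x
      rw [Subgroup.mem_comap, Subgroup.mem_bot, Subgroup.mem_comap]
      exact QuotientGroup.eq_one_iff _
    refine ⟨s, rfl, ?_, ?_, ?_, ?_, ?_⟩
    · rw [show 2 * (N + 1) + 1 = (2 * N + 1) + 2 by ring, s2, t1]
      rfl
    · intro i
      match i with
      | 0 => exact bot_le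
      | 1 =>
        rw [hs2]
        intro x hx
        rw [Subgroup.mem_comap]
        have hx1 : f x = 1 := hx
        rw [hx1]
        exact one_mem _
      | j + 2 => exact Subgroup.comap_mono (t2 j)
    · intro i
      match i with
      | 0 => exact (inferInstance : (⊥ : Subgroup G).Normal)
      | 1 => exact (inferInstance : f.ker.Normal)
      | j + 2 =>
        have := t3 j
        exact (inferInstance : ((t j).comap π).Normal)
    · intro i hi
      match i with
      | 0 =>
        refine ⟨inferInstance, ?_⟩
        exact F.of_surjective (QuotientGroup.mk' _) (QuotientGroup.mk'_surjective _) hk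
      | j + 1 => exact E3b_comap F π (t4 j (by omega))
    · intro i hi
      match i with
      | 0 =>
        rw [show 2 * 0 + 2 = 2 by rfl, hs2]
        exact (layer_simpleFactor F H).comap f hf
      | j + 1 =>
        exact (t5 j (by omega)).comap π ((QuotientGroup.mk'_surjective _).comp hf)

end LibKS
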