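import Pool.Agent.LibKS.E3b
import Pool.Agent.LibKS.E1b

set_option autoImplicit false

namespace LibKS

/-- The group `X` is a section (a quotient of a subgroup) of the group `G`. -/
def IsSection (X G : Type) [Group X] [Group G] : Prop :=
  ∃ (K : Subgroup G) (f : K →* X), Function.Surjective f

/-- The group `X` is a section of the outer automorphism group of a finite nonabelian simple group
`T` of order divisible by `p` which is a section of `G`. -/
def OutSection (p : ℕ) (G : Type) [Group G] (X : Type) [Group X] : Prop :=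
  ∃ (T : Type) (_ : Group T), Finite T ∧ IsSimpleGroup T ∧ (∃ a b : T, a * b ≠ b * a) ∧
    p ∣ Nat.card T ∧ IsSection T G ∧
    IsSection X (MulAut T ⧸ (MulAut.conj : T →* MulAut T).range)

theorem IsSection.of_injective {X Y G : Type} [Group X] [Group Y] [Group G] (f : Y →* X)
    (hf : Function.Injective f) (h : IsSection X G) : IsSection Y G := by
  obtain ⟨K, g, hg⟩ := h
  let K' : Subgroup K := f.range.comap g
  let e : Y ≃* f.range := MonoidHom.ofInjective hf
  let e' : K' ≃* K'.map K.subtype := K'.equivMapOfInjective K.subtype K.subtype_injective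
  refine ⟨K'.map K.subtype,
    (e.symm.toMonoidHom.comp (g.subgroupComap f.range)).comp e'.symm.toMonoidHom, ?_⟩
  exact (e.symm.surjective.comp
    (g.subgroupComap_surjective_of_surjective f.range hg)).comp e'.symm.surjective

theorem IsSection.of_surjective {X Y G : Type} [Group X] [Group Y] [Group G] (f : X →* Y)
    (hf : Function.Surjective f) (h : IsSection X G) : IsSection Y G := by
  obtain ⟨K, g, hg⟩ := h
  exact ⟨K, f.comp g, hf.comp hg⟩

/-- Admissible factors. -/
def Adm (p : ℕ) (G : Type) [Group G] (X : Type) [Group X] : Prop :=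
  (∃ e : ℕ, Nat.card X = p ^ e) ∨ Nat.Coprime p (Nat.card X) ∨ OutSection p G X

theorem E4_card {p : ℕ} (hp : p.Prime) {a b : ℕ} (hab : a ∣ b)
    (h : (∃ e : ℕ, b = p ^ e) ∨ Nat.Coprime p b) : (∃ e : ℕ, a = p ^ e) ∨ Nat.Coprime p a := by
  rcases h with ⟨e, he⟩ | h
  · left
    rw [he] at hab
    obtain ⟨k, -, hk⟩ := (Nat.dvd_prime_pow hp).mp hab
    exact ⟨k, hk⟩
  · right
    exact Nat.Coprime.coprime_dvd_right hab h

theorem Adm.of_dvd {p : ℕ} (hp : p.Prime) {G X Y : Type} [Group G] [Group X] [Group Y]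
    (hd : Nat.card Y ∣ Nat.card X)
    (hs' : ∀ T : Type, [Group T] → IsSection X (MulAut T ⧸ (MulAut.conj : T →* MulAut T).range) →
      IsSection Y (MulAut T ⧸ (MulAut.conj : T →* MulAut T).range))
    (h : Adm p G X) : Adm p G Y := by
  rcases h with h | h | h
  · rcases E4_card hp hd (Or.inl h) with h | h
    · exact Or.inl h
    · exact Or.inr (Or.inl h)
  · rcases E4_card hp hd (Or.inr h) with h | h
    · exact Or.inl h
    · exact Or.inr (Or.inl h)
  · obtain ⟨T, _, h1, h2, h3, h4, h5, h6⟩ := h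
    exact Or.inr (Or.inr ⟨T, _, h1, h2, h3, h4, h5, hs' T h6⟩)

theorem Adm.of_injective {p : ℕ} (hp : p.Prime) {G X Y : Type} [Group G] [Group X] [Group Y]
    (f : Y →* X) (hf : Function.Injective f) (h : Adm p G X) : Adm p G Y :=
  Adm.of_dvd hp (by
    rw [Nat.card_congr (MonoidHom.ofInjective hf).toEquiv]
    exact Subgroup.card_subgroup_dvd_card _) (fun _ _ h => h.of_injective f hf) h

theorem Adm.of_surjective {p : ℕ} (hp : p.Prime) {G X Y : Type} [Group G] [Group X] [Group Y]
    (f : X →* Y) (hf : Function.Surjective f) (h : Adm p G X) : Adm p G Y :=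
  Adm.of_dvd hp (Subgroup.card_dvd_of_surjective f hf) (fun _ _ h => h.of_surjective f hf) h

/-- One step of a series: `B / A` is isomorphic to an admissible group. -/
def AdmStep (p : ℕ) (G : Type) [Group G] {X : Type} [Group X] (A B : Subgroup X) : Prop :=
  A ≤ B ∧ ∃ (Y : Type) (_ : Group Y) (f : B →* Y), Function.Surjective f ∧
    f.ker = A.subgroupOf B ∧ Adm p G Y

theorem AdmStep.comap {p : ℕ} (hp : p.Prime) {G X X' : Type} [Group G] [Group X] [Group X']
    (f : X' →* X) {A B : Subgroup X} (h : AdmStep p G A B) :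
    AdmStep p G (A.comap f) (B.comap f) := by
  obtain ⟨h1, Y, _, g, hg, hk, hY⟩ := h
  let φ : B.comap f →* Y := g.comp (f.subgroupComap B)
  refine ⟨Subgroup.comap_mono h1, φ.range, inferInstance, φ.rangeRestrict,
    φ.rangeRestrict_surjective, ?_, Adm.of_injective hp φ.range.subtype
      φ.range.subtype_injective hY⟩
  rw [MonoidHom.ker_rangeRestrict]
  change (g.comp (f.subgroupComap B)).ker = _
  rw [← MonoidHom.comap_ker, hk]
  ext x
  rfl

theorem AdmStep.map {p : ℕ} (hp : p.Prime) {G X X' : Type} [Group G] [Group X] [Group X']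
    (f : X →* X') {A B : Subgroup X} (h : AdmStep p G A B) :
    AdmStep p G (A.map f) (B.map f) := by
  obtain ⟨h1, Y, _, g, hg, hk, hY⟩ := h
  let φ : B →* B.map f := f.subgroupMap B
  have hφ : Function.Surjective φ := f.subgroupMap_surjective B
  let M : Subgroup Y := φ.ker.map g
  have hM : M.Normal := Subgroup.Normal.map inferInstance g hg
  let ψ : B.map f →* Y ⧸ M := φ.liftOfSurjective hφ
    ⟨(QuotientGroup.mk' M).comp g, by
      intro x hx
      rw [MonoidHom.mem_ker, MonoidHom.comp_apply, QuotientGroup.mk'_apply,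
        QuotientGroup.eq_one_iff]
      exact ⟨x, hx, rfl⟩⟩
  have hψ : ∀ x : B, ψ (φ x) = QuotientGroup.mk' M (g x) := fun x =>
    MonoidHom.liftOfRightInverse_comp_apply _ _ _ _ x
  refine ⟨Subgroup.map_mono h1, Y ⧸ M, inferInstance, ψ, ?_, ?_,
    Adm.of_surjective hp (QuotientGroup.mk' M) (QuotientGroup.mk'_surjective M) hY⟩
  · intro y
    obtain ⟨y', rfl⟩ := QuotientGroup.mk'_surjective M y
    obtain ⟨x, rfl⟩ := hg y'
    exact ⟨φ x, hψ x⟩
  · ext y
    obtain ⟨x, rfl⟩ := hφ y
    rw [MonoidHom.mem_ker, hψ, QuotientGroup.mk'_apply, QuotientGroup.eq_one_iff,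
      Subgroup.mem_subgroupOf]
    constructor
    · rintro ⟨z, hz, hzx⟩
      have h2 : z⁻¹ * x ∈ g.ker := by
        rw [MonoidHom.mem_ker, map_mul, map_inv, hzx]
        simp
      rw [hk, Subgroup.mem_subgroupOf] at h2
      refine ⟨_, h2, ?_⟩
      have h3 : f (z : X) = 1 := congrArg Subtype.val (MonoidHom.mem_ker.1 hz)
      change f ((z : X)⁻¹ * (x : X)) = f x
      rw [map_mul, map_inv, h3]
      simp
    · rintro ⟨a, ha, hax⟩
      refine ⟨⟨a, h1 ha⟩⁻¹ * x, ?_, ?_⟩
      · change φ (⟨a, h1 ha⟩⁻¹ * x) = 1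
        apply Subtype.ext
        change f (a⁻¹ * (x : X)) = 1
        have hax' : f a = f (x : X) := hax
        rw [map_mul, map_inv, hax']
        simp
      · have h2 : (⟨a, h1 ha⟩ : B) ∈ g.ker := by
          rw [hk, Subgroup.mem_subgroupOf]
          exact ha
        rw [map_mul, map_inv, MonoidHom.mem_ker.1 h2]
        simp

/-- The groups with a subnormal series with admissible factors. -/
def AdmSer (p : ℕ) (G : Type) [Group G] (X : Type) [Group X] : Prop :=
  ∃ (m : ℕ) (H : ℕ → Subgroup X), H 0 = ⊥ ∧ H m = ⊤ ∧ ∀ j < m, AdmStep p G (H j) (H (j + 1))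

theorem AdmSer.of_adm {p : ℕ} {G X : Type} [Group G] [Group X] (h : Adm p G X) :
    AdmSer p G X := by
  have e4 : AdmStep p G (⊥ : Subgroup X) ⊤ := by
    refine ⟨bot_le, X, inferInstance, (Subgroup.topEquiv : (⊤ : Subgroup X) ≃* X).toMonoidHom,
      (Subgroup.topEquiv : (⊤ : Subgroup X) ≃* X).surjective, ?_, h⟩
    ext x
    rw [MonoidHom.mem_ker, Subgroup.mem_subgroupOf, Subgroup.mem_bot]
    rfl
  let C : ℕ → Subgroup X := fun j => Nat.rec ⊥ (fun _ _ => ⊤) j
  refine ⟨1, C, rfl, rfl, ?_⟩
  intro j hj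
  obtain rfl : j = 0 := by omega
  exact e4

/-- The class of the groups with a subnormal series with admissible factors. -/
def admClass (p : ℕ) (hp : p.Prime) (G : Type) [Group G] : GoodClass p where
  mem X _ := AdmSer p G X
  of_injective {X Y} _ _ f hf h := by
    obtain ⟨m, A, h0, hm, hs⟩ := h
    refine ⟨m, fun j => (A j).comap f, ?_, ?_, ?_⟩
    · change (A 0).comap f = ⊥
      rw [h0, MonoidHom.comap_bot, MonoidHom.ker_eq_bot_iff]
      exact hf
    · change (A m).comap f = ⊤
      rw [hm, Subgroup.comap_top]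
    · intro j hj
      exact (hs j hj).comap hp f
  of_surjective {X Y} _ _ f hf h := by
    obtain ⟨m, A, h0, hm, hs⟩ := h
    refine ⟨m, fun j => (A j).map f, ?_, ?_, ?_⟩
    · change (A 0).map f = ⊥
      rw [h0, Subgroup.map_bot]
    · change (A m).map f = ⊤
      rw [hm, Subgroup.map_top_of_surjective f hf]
    · intro j hj
      exact (hs j hj).map hp f
  of_ext {X} _ N _ hN hG := by
    obtain ⟨m, A, hA0, hAm, hA⟩ := hN
    obtain ⟨m', B, hB0, hBm, hB⟩ := hG
    let C : ℕ → Subgroup X := fun j =>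
      if j ≤ m then (A j).map N.subtype else (B (j - m)).comap (QuotientGroup.mk' N)
    have hC1 : ∀ j, j ≤ m → C j = (A j).map N.subtype := by
      intro j hj
      simp only [C, if_pos hj]
    have hC2 : ∀ j, C (m + j) = (B j).comap (QuotientGroup.mk' N) := by
      intro j
      rcases Nat.eq_zero_or_pos j with rfl | hj
      · rw [Nat.add_zero, hC1 m le_rfl, hAm, hB0, MonoidHom.comap_bot, QuotientGroup.ker_mk',
          ← MonoidHom.range_eq_map, Subgroup.range_subtype]
      · have h1 : ¬ (m + j ≤ m) := by omega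
        have h2 : m + j - m = j := by omega
        simp only [C, if_neg h1, h2]
    refine ⟨m + m', C, ?_, ?_, ?_⟩
    · rw [hC1 0 (Nat.zero_le _), hA0, Subgroup.map_bot]
    · rw [hC2 m', hBm, Subgroup.comap_top]
    · intro j hj
      by_cases h : j < m
      · rw [hC1 j h.le, hC1 (j + 1) h]
        exact (hA j h).map hp _
      · obtain ⟨i, rfl⟩ : ∃ i, j = m + i := ⟨j - m, by omega⟩
        rw [hC2 i, Nat.add_assoc, hC2 (i + 1)]
        exact (hB i (by omega)).comap hp _
  of_pgroup {X} _ _ h := by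
    have : Fact p.Prime := ⟨hp⟩
    exact AdmSer.of_adm (Or.inl (IsPGroup.iff_card.mp h))
  of_coprime {X} _ _ h := AdmSer.of_adm (Or.inr (Or.inl h))

end LibKS
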