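import Pool.Agent.LibKS.E4

set_option autoImplicit false

namespace LibKS

theorem admClass_outHyp (p : ℕ) (hp : p.Prime) (G : Type) [Group G] [Finite G] :
    OutHyp (admClass p hp G) G := by
  intro T _ hs hT hK
  have : Fact p.Prime := ⟨hp⟩
  obtain ⟨K, f, hf⟩ := hK
  have hfin : Finite T := Finite.of_surjective f hf
  have hna : ∃ a b : T, a * b ≠ b * a := by
    by_contra hcon
    push Not at hcon
    exact hT (GoodClass.of_simple_comm _ hs fun a b => hcon a b)
  have hdvd : p ∣ Nat.card T := by
    by_contra hcon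
    exact hT ((admClass p hp G).of_coprime ((Nat.Prime.coprime_iff_not_dvd hp).2 hcon))
  refine AdmSer.of_adm (Or.inr (Or.inr ⟨T, _, hfin, hs, hna, hdvd, ⟨K, f, hf⟩, ⊤,
    (Subgroup.topEquiv : (⊤ : Subgroup (MulAut T ⧸ (MulAut.conj : T →* MulAut T).range)) ≃*
      _).toMonoidHom, ?_⟩))
  exact (Subgroup.topEquiv : (⊤ : Subgroup (MulAut T ⧸ (MulAut.conj : T →* MulAut T).range)) ≃*
      _).surjective

/-- A group with a subnormal series with factors in a class is in the class. -/
theorem AdmSer.mem {p : ℕ} {G X : Type} [Group G] [Group X] (F : GoodClass p)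
    (hF : ∀ (Y : Type) [Group Y], Adm p G Y → F.mem Y) (h : AdmSer p G X) : F.mem X := by
  obtain ⟨m, H, h0, h1, h2⟩ := h
  have key : ∀ j, j ≤ m → F.mem (H j) := by
    intro j
    induction j with
    | zero =>
      intro _
      rw [h0]
      have : Subsingleton (⊥ : Subgroup X) := inferInstance
      exact GoodClass.of_subsingleton F
    | succ j ih =>
      intro hj
      obtain ⟨h3, Y, _, f, hf, hk, hY⟩ := h2 j hj
      refine GoodClass.of_ker F f ?_ (hF Y hY)
      rw [hk]
      exact F.of_injective ((Subgroup.subgroupOfEquivOfLe h3).toMonoidHom)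
        (Subgroup.subgroupOfEquivOfLe h3).injective (ih (Nat.le_of_succ_le hj))
  have h4 := key m le_rfl
  rw [h1] at h4
  exact F.of_injective (Subgroup.topEquiv : (⊤ : Subgroup X) ≃* X).symm.toMonoidHom
    (Subgroup.topEquiv : (⊤ : Subgroup X) ≃* X).symm.injective h4

/-- The quotient `B / A` has a subnormal series with admissible factors; literal form. -/
def AdmFactor (p : ℕ) {G : Type} [Group G] (A B : Subgroup G) : Prop :=
  ∃ (m : ℕ) (H : ℕ → Subgroup G), H 0 = A ∧ H m = B ∧
    ∀ j < m, H j ≤ H (j + 1) ∧ ((H j).subgroupOf (H (j + 1))).Normal ∧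
      ((∃ e : ℕ, ((H j).subgroupOf (H (j + 1))).index = p ^ e) ∨
        Nat.Coprime p (((H j).subgroupOf (H (j + 1))).index) ∨
        ∃ (X : Type) (_ : Group X) (f : ↥(H (j + 1)) →* X), Function.Surjective f ∧
          f.ker = (H j).subgroupOf (H (j + 1)) ∧ OutSection p G X)

theorem AdmFactor.of_class {p : ℕ} (hp : p.Prime) {G : Type} [Group G] {A B : Subgroup G}
    (hAB : A ≤ B) (h : ClassFactor (admClass p hp G) A B) : AdmFactor p A B := by
  obtain ⟨hn, h⟩ := h
  obtain ⟨m, H, h0, h1, h2⟩ := h
  let π : B →* B ⧸ A.subgroupOf B := QuotientGroup.mk' (A.subgroupOf B)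
  refine ⟨m, fun j => ((H j).comap π).map B.subtype, ?_, ?_, ?_⟩
  · change ((H 0).comap π).map B.subtype = A
    rw [h0, MonoidHom.comap_bot, QuotientGroup.ker_mk', Subgroup.map_subgroupOf_eq_of_le hAB]
  · change ((H m).comap π).map B.subtype = B
    rw [h1, Subgroup.comap_top, ← MonoidHom.range_eq_map, Subgroup.range_subtype]
  · intro j hj
    obtain ⟨ha, Y, _, f, hf, hk, hY⟩ := ((h2 j hj).comap hp π).map hp B.subtype
    refine ⟨ha, ?_, ?_⟩
    · change ((((H j).comap π).map B.subtype).subgroupOf
        (((H (j + 1)).comap π).map B.subtype)).Normal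
      rw [← hk]
      infer_instance
    · have hidx : ((((H j).comap π).map B.subtype).subgroupOf
          (((H (j + 1)).comap π).map B.subtype)).index = Nat.card Y := by
        rw [← hk, Subgroup.index_ker, MonoidHom.range_eq_top.2 hf]
        exact Nat.card_congr (Subgroup.topEquiv : (⊤ : Subgroup Y) ≃* Y).toEquiv
      change (∃ e : ℕ, ((((H j).comap π).map B.subtype).subgroupOf
          (((H (j + 1)).comap π).map B.subtype)).index = p ^ e) ∨
        Nat.Coprime p ((((H j).comap π).map B.subtype).subgroupOf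
          (((H (j + 1)).comap π).map B.subtype)).index ∨ _
      rw [hidx]
      rcases hY with h | h | h
      · exact Or.inl h
      · exact Or.inr (Or.inl h)
      · exact Or.inr (Or.inr ⟨Y, _, f, hf, hk, h⟩)

theorem PSolFactor.of_admClass {p : ℕ} (hp : p.Prime) {G : Type} [Group G]
    (hO : ∀ (T : Type) [Group T] [Finite T], IsSimpleGroup T → (∃ a b : T, a * b ≠ b * a) →
      p ∣ Nat.card T → IsSection T G →
      PSol p (MulAut T ⧸ (MulAut.conj : T →* MulAut T).range))
    {A B : Subgroup G} (hAB : A ≤ B) (h : ClassFactor (admClass p hp G) A B) :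
    PSolFactor p A B := by
  have : Fact p.Prime := ⟨hp⟩
  obtain ⟨hn, h⟩ := h
  refine PSolFactor.of_class hp hAB ⟨hn, ?_⟩
  refine AdmSer.mem (G := G) (psolClass p hp) ?_ h
  intro Y _ hY
  rcases hY with ⟨e, he⟩ | hY | ⟨T, _, h1, h2, h3, h4, h5, K, f, hf⟩
  · have hfin : Finite Y := Nat.finite_of_card_ne_zero (by
      rw [he]
      exact pow_ne_zero _ hp.ne_zero)
    exact PSol.of_pgroup hp (IsPGroup.iff_card.2 ⟨e, he⟩)
  · have hfin : Finite Y := Nat.finite_of_card_ne_zero (by
      intro h0
      rw [h0] at hY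
      exact hp.one_lt.ne' ((Nat.coprime_zero_right p).1 hY))
    exact PSol.of_coprime hY
  · exact PSol.of_surjective hp f hf (PSol.of_injective hp K.subtype K.subtype_injective
      (hO T h2 h3 h4 h5))

end LibKS
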