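import Pool.Agent.LibKS.D6c
import Pool.Agent.LibKS.E1b
import Pool.Agent.LibKS.E3b

set_option autoImplicit false

namespace LibKS

theorem final_abstract (p : ℕ) (hp : p.Prime) (k : ℕ) (w : FreeGroup (Fin k)) (hw : w ≠ 1) :
    ∃ N : ℕ, ∀ (F : GoodClass p) (G : Type) [Group G] [Finite G], OutHyp F G →
      (∀ (P : Sylow p G) (f : Fin k → ↥(P : Subgroup G)), FreeGroup.lift f w = 1) →
      ∃ s : ℕ → Subgroup G, s 0 = ⊥ ∧ s (2 * N + 1) = ⊤ ∧ (∀ i, s i ≤ s (i + 1)) ∧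
        (∀ i, (s i).Normal) ∧
        (∀ i ≤ N, ClassFactor F (s (2 * i)) (s (2 * i + 1))) ∧
        (∀ i < N, SimpleFactor p (s (2 * i + 1)) (s (2 * i + 2))) := by
  have : Fact p.Prime := ⟨hp⟩
  obtain ⟨N, hN⟩ := abstract_main p k w hw
  exact ⟨N, fun F G _ _ hO hP => exists_series F N G (hN F G hO hP)⟩

theorem final (p : ℕ) (hp : p.Prime) (k : ℕ) (w : FreeGroup (Fin k)) (hw : w ≠ 1) :
    ∃ N : ℕ,
      (∀ (G : Type) [Group G] [Finite G],
        (∀ (P : Sylow p G) (f : Fin k → ↥(P : Subgroup G)), FreeGroup.lift f w = 1) →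
        ∃ s : ℕ → Subgroup G, s 0 = ⊥ ∧ s (2 * N + 1) = ⊤ ∧ (∀ i, s i ≤ s (i + 1)) ∧
          (∀ i, (s i).Normal) ∧
          (∀ i ≤ N, ClassFactor (starClass p) (s (2 * i)) (s (2 * i + 1))) ∧
          (∀ i < N, SimpleFactor p (s (2 * i + 1)) (s (2 * i + 2)))) ∧
      (∀ (G : Type) [Group G] [Finite G],
        (∀ (T : Type) [Group T] [Finite T], IsSimpleGroup T → (∃ a b : T, a * b ≠ b * a) →
          p ∣ Nat.card T → (∃ (K : Subgroup G) (f : K →* T), Function.Surjective f) →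
          PSol p (MulAut T ⧸ (MulAut.conj : T →* MulAut T).range)) →
        (∀ (P : Sylow p G) (f : Fin k → ↥(P : Subgroup G)), FreeGroup.lift f w = 1) →
        ∃ s : ℕ → Subgroup G, s 0 = ⊥ ∧ s (2 * N + 1) = ⊤ ∧ (∀ i, s i ≤ s (i + 1)) ∧
          (∀ i, (s i).Normal) ∧
          (∀ i ≤ N, PSolFactor p (s (2 * i)) (s (2 * i + 1))) ∧
          (∀ i < N, SimpleFactor p (s (2 * i + 1)) (s (2 * i + 2)))) := by
  have : Fact p.Prime := ⟨hp⟩
  obtain ⟨N, hN⟩ := final_abstract p hp k w hw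
  refine ⟨N, ?_, ?_⟩
  · intro G _ _ hP
    exact hN (starClass p) G (starClass_outHyp p G) hP
  · intro G _ _ hO hP
    obtain ⟨s, h0, h1, h2, h3, h4, h5⟩ := hN (psolClass p hp) G (psolClass_outHyp p hp G hO) hP
    exact ⟨s, h0, h1, h2, h3, fun i hi => PSolFactor.of_class hp (h2 _) (h4 i hi), h5⟩

end LibKS
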